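import Pool.Agent.H.MP_08eaf3_pr.B.Base

/-!
# Part B: the log-sum-exp function of affine functionals
-/

set_option autoImplicit false

open MeasureTheory ProbabilityTheory Filter Topology Matrix

namespace SKC.B

/-- Gibbs weights -/
noncomputable def gw {Ω : Type} (B : Finset Ω) (a : Ω → ℝ) (ω : Ω) : ℝ :=
  Real.exp (a ω) / ∑ ω' ∈ B, Real.exp (a ω')

theorem gw_nonneg {Ω : Type} (B : Finset Ω) (a : Ω → ℝ) (ω : Ω) : 0 ≤ gw B a ω :=
  div_nonneg (Real.exp_pos _).le (Finset.sum_nonneg fun _ _ => (Real.exp_pos _).le)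

theorem Lse_pos {Ω : Type} {B : Finset Ω} (hB : B.Nonempty) (a : Ω → ℝ) :
    0 < ∑ ω ∈ B, Real.exp (a ω) :=
  Finset.sum_pos (fun _ _ => Real.exp_pos _) hB

theorem gw_sum {Ω : Type} {B : Finset Ω} (hB : B.Nonempty) (a : Ω → ℝ) : ∑ ω ∈ B, gw B a ω = 1 := by
  unfold gw
  rw [← Finset.sum_div]
  exact div_self (Lse_pos hB a).ne'

theorem Lse_gw_le {Ω : Type} {B : Finset Ω} (hB : B.Nonempty) (a : Ω → ℝ) {ω : Ω} (hω : ω ∈ B) :
    gw B a ω ≤ 1 := by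
  rw [← gw_sum hB a]
  exact Finset.single_le_sum (fun i _ => gw_nonneg B a i) hω

theorem Lse_gw_exp {Ω : Type} {B : Finset Ω} (hB : B.Nonempty) (a : Ω → ℝ) (ω : Ω) :
    gw B a ω = Real.exp (a ω - lse B a) := by
  unfold gw lse
  rw [Real.exp_sub, Real.exp_log (Lse_pos hB a)]

variable {E : Type} [NormedAddCommGroup E] [NormedSpace ℝ E]

theorem Lse_has_aff (A : E →L[ℝ] ℝ) (c : ℝ) (e : E) : HasFDerivAt (fun e => A e + c) A e :=
  A.hasFDerivAt.add_const c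

/-- the first derivative as a linear functional -/
theorem Lse_has {Ω : Type} {B : Finset Ω} (hB : B.Nonempty) (A : Ω → E →L[ℝ] ℝ) (c : Ω → ℝ)
    (e : E) :
    HasFDerivAt (fun e => lse B (fun ω => A ω e + c ω))
      (∑ ω ∈ B, gw B (fun ω => A ω e + c ω) ω • A ω) e := by
  have h1 : HasFDerivAt (fun e => ∑ ω ∈ B, Real.exp (A ω e + c ω))
      (∑ ω ∈ B, Real.exp (A ω e + c ω) • A ω) e :=
    HasFDerivAt.fun_sum fun ω _ => (Lse_has_aff (A ω) (c ω) e).exp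
  have h2 := h1.log (Lse_pos hB (fun ω => A ω e + c ω)).ne'
  have h3 : (∑ ω ∈ B, Real.exp (A ω e + c ω))⁻¹ • (∑ ω ∈ B, Real.exp (A ω e + c ω) • A ω) =
      ∑ ω ∈ B, gw B (fun ω => A ω e + c ω) ω • A ω := by
    rw [Finset.smul_sum]
    refine Finset.sum_congr rfl fun ω _ => ?_
    rw [smul_smul]
    unfold gw
    rw [div_eq_inv_mul]
  rw [← h3]
  exact h2

/-- the derivative of a Gibbs weight -/
theorem Lse_has_gw {Ω : Type} {B : Finset Ω} (hB : B.Nonempty) (A : Ω → E →L[ℝ] ℝ) (c : Ω → ℝ)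
    (e : E) (ω : Ω) :
    HasFDerivAt (fun e => gw B (fun ω => A ω e + c ω) ω)
      (gw B (fun ω => A ω e + c ω) ω •
        (A ω - ∑ ω' ∈ B, gw B (fun ω => A ω e + c ω) ω' • A ω')) e := by
  have h1 := ((Lse_has_aff (A ω) (c ω) e).sub (Lse_has hB A c e)).exp
  have h2 : (fun e => gw B (fun ω => A ω e + c ω) ω) =
      fun e => Real.exp ((A ω e + c ω) - lse B (fun ω => A ω e + c ω)) := by
    funext e
    exact Lse_gw_exp hB _ ω
  rw [h2, Lse_gw_exp hB]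
  exact h1

theorem Lse_fderiv_eq {Ω : Type} {B : Finset Ω} (hB : B.Nonempty) (A : Ω → E →L[ℝ] ℝ) (c : Ω → ℝ) :
    fderiv ℝ (fun e => lse B (fun ω => A ω e + c ω)) =
      fun e => ∑ ω ∈ B, gw B (fun ω => A ω e + c ω) ω • A ω :=
  funext fun e => (Lse_has hB A c e).fderiv

/-- the second derivative -/
theorem Lse_has2 {Ω : Type} {B : Finset Ω} (hB : B.Nonempty) (A : Ω → E →L[ℝ] ℝ) (c : Ω → ℝ)
    (e : E) :
    HasFDerivAt (fun e => ∑ ω ∈ B, gw B (fun ω => A ω e + c ω) ω • A ω)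
      (∑ ω ∈ B, (gw B (fun ω => A ω e + c ω) ω •
        (A ω - ∑ ω' ∈ B, gw B (fun ω => A ω e + c ω) ω' • A ω')).smulRight (A ω)) e :=
  HasFDerivAt.fun_sum fun ω _ => (Lse_has_gw hB A c e ω).smul_const (A ω)

/-- first derivative: chain rule for `log ∘ ∑ exp` -/
theorem lse_fderiv {Ω : Type} {B : Finset Ω} (hB : B.Nonempty) (A : Ω → E →L[ℝ] ℝ) (c : Ω → ℝ)
    (e v : E) :
    fderiv ℝ (fun e => lse B (fun ω => A ω e + c ω)) e v =
      ∑ ω ∈ B, gw B (fun ω => A ω e + c ω) ω * A ω v := by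
  rw [Lse_fderiv_eq hB A c]
  simp

/-- second derivative: derivative of the Gibbs weight of `ω` in direction `v` is
`gw ω * (A ω v - ∑ gw ω' A ω' v)` -/
theorem lse_fderiv2 {Ω : Type} {B : Finset Ω} (hB : B.Nonempty) (A : Ω → E →L[ℝ] ℝ) (c : Ω → ℝ)
    (e v w : E) :
    fderiv ℝ (fderiv ℝ (fun e => lse B (fun ω => A ω e + c ω))) e v w =
      ∑ ω ∈ B, gw B (fun ω => A ω e + c ω) ω * (A ω v * A ω w) -
        (∑ ω ∈ B, gw B (fun ω => A ω e + c ω) ω * A ω v) *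
          (∑ ω ∈ B, gw B (fun ω => A ω e + c ω) ω * A ω w) := by
  rw [Lse_fderiv_eq hB A c, (Lse_has2 hB A c e).fderiv]
  simp only [_root_.sum_apply, ContinuousLinearMap.smulRight_apply,
    _root_.smul_apply, _root_.sub_apply, smul_eq_mul]
  rw [Finset.mul_sum, ← Finset.sum_sub_distrib]
  refine Finset.sum_congr rfl fun ω _ => ?_
  ring

/-- `log ∑ exp(affine)` is `C^2` with bounded first and second derivatives:
`‖D‖ ≤ C`, `‖D²‖ ≤ 2 C²` with `C = ∑ ‖A ω‖` by the formulas above and `opNorm_le_bound`. -/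
theorem adm_lse {Ω : Type} {B : Finset Ω} (hB : B.Nonempty) (A : Ω → E →L[ℝ] ℝ) (c : Ω → ℝ) :
    Adm (fun e => lse B (fun ω => A ω e + c ω)) := by
  have hb1 : ∀ e, ‖∑ ω ∈ B, gw B (fun ω => A ω e + c ω) ω • A ω‖ ≤ ∑ ω ∈ B, ‖A ω‖ := by
    intro e
    refine norm_sum_le_of_le _ fun ω hω => ?_
    rw [norm_smul, Real.norm_of_nonneg (gw_nonneg _ _ _)]
    exact mul_le_of_le_one_left (norm_nonneg _) (Lse_gw_le hB _ hω)
  refine ⟨?_, ⟨∑ ω ∈ B, ‖A ω‖, ?_⟩, ⟨∑ ω ∈ B, (‖A ω‖ + ∑ ω' ∈ B, ‖A ω'‖) * ‖A ω‖, ?_⟩⟩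
  · unfold lse
    refine ContDiff.log ?_ fun e => (Lse_pos hB (fun ω => A ω e + c ω)).ne'
    exact ContDiff.sum fun ω _ => ((A ω).contDiff.add contDiff_const).exp
  · intro e
    rw [Lse_fderiv_eq hB A c]
    exact hb1 e
  · intro e
    rw [Lse_fderiv_eq hB A c, (Lse_has2 hB A c e).fderiv]
    have key : ∀ f : Ω → (E →L[ℝ] (E →L[ℝ] ℝ)), (∀ ω ∈ B, ‖f ω‖ ≤
        (‖A ω‖ + ∑ ω' ∈ B, ‖A ω'‖) * ‖A ω‖) →
        ‖∑ ω ∈ B, f ω‖ ≤ ∑ ω ∈ B, (‖A ω‖ + ∑ ω' ∈ B, ‖A ω'‖) * ‖A ω‖ :=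
      fun f hf => (norm_sum_le B f).trans (Finset.sum_le_sum hf)
    refine key _ fun ω hω => ?_
    rw [ContinuousLinearMap.norm_smulRight_apply]
    refine mul_le_mul_of_nonneg_right ?_ (norm_nonneg (A ω))
    rw [norm_smul, Real.norm_of_nonneg (gw_nonneg _ _ _)]
    refine (mul_le_of_le_one_left (norm_nonneg _) (Lse_gw_le hB _ hω)).trans ?_
    exact (norm_sub_le _ _).trans (add_le_add_right (hb1 e) _)

end SKC.B
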