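import Pool.Agent.H.MP_08eaf3_pr.B.Comp

/-!
# Part B: the substitution `(θ, z) ↦ (θ, z + s(θ) V x)`
-/

set_option autoImplicit false

open MeasureTheory ProbabilityTheory Filter Topology Matrix

namespace SKC.B

/-- scale functions: `s' ` is the derivative of `s`, everything bounded -/
structure Scale (s s' : ℝ → ℝ) : Prop where
  hd : ∀ θ, HasDerivAt s (s' θ) θ
  cd : ContDiff ℝ 2 s
  b0 : ∀ θ, |s θ| ≤ 1
  b1 : ∀ θ, |s' θ| ≤ 1
  b2 : ∀ θ, |deriv s' θ| ≤ 1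

theorem scale_sin : Scale Real.sin Real.cos := by
  refine ⟨Real.hasDerivAt_sin, Real.contDiff_sin, Real.abs_sin_le_one, Real.abs_cos_le_one, ?_⟩
  intro θ
  rw [(Real.hasDerivAt_cos θ).deriv, abs_neg]
  exact Real.abs_sin_le_one θ

theorem scale_cos : Scale Real.cos (fun θ => -Real.sin θ) := by
  refine ⟨Real.hasDerivAt_cos, Real.contDiff_cos, Real.abs_cos_le_one, ?_, ?_⟩
  · intro θ
    rw [abs_neg]
    exact Real.abs_sin_le_one θ
  · intro θ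
    have h : HasDerivAt (fun θ => -Real.sin θ) (-Real.cos θ) θ := (Real.hasDerivAt_sin θ).neg
    rw [h.deriv, abs_neg]
    exact Real.abs_cos_le_one θ

theorem scale_one : Scale (fun _ => 1) (fun _ => 0) := by
  refine ⟨fun θ => hasDerivAt_const θ 1, contDiff_const, ?_, ?_, ?_⟩
  · intro θ
    simp
  · intro θ
    simp
  · intro θ
    simp

/-- the substitution of a step -/
noncomputable def sub {Ω κ : Type} [Fintype κ] (s : ℝ → ℝ) (V : Matrix Ω κ ℝ) (e : ℝ × (Ω → ℝ))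
    (x : κ → ℝ) : ℝ × (Ω → ℝ) := (e.1, e.2 + s e.1 • V.mulVec x)

variable {Ω κ : Type} [Fintype Ω] [Fintype κ]

theorem Sub_hasF {s s' : ℝ → ℝ} (hs : Scale s s') (e : ℝ × (Ω → ℝ)) :
    HasFDerivAt (fun e' : ℝ × (Ω → ℝ) => s e'.1)
      (s' e.1 • ContinuousLinearMap.fst ℝ ℝ (Ω → ℝ)) e :=
  (hs.hd e.1).comp_hasFDerivAt e hasFDerivAt_fst

theorem Sub_norm_fst : ‖ContinuousLinearMap.fst ℝ ℝ (Ω → ℝ)‖ ≤ 1 :=
  ContinuousLinearMap.norm_fst_le ℝ ℝ (Ω → ℝ)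

theorem Sub_hasF2 {s s' : ℝ → ℝ} (hs : Scale s s') (e : ℝ × (Ω → ℝ)) :
    HasFDerivAt (fun e' : ℝ × (Ω → ℝ) => s' e'.1)
      (deriv s' e.1 • ContinuousLinearMap.fst ℝ ℝ (Ω → ℝ)) e := by
  have h1 : ContDiff ℝ 1 s' := by
    have h2 : ContDiff ℝ (1 + 1) s := hs.cd
    have h3 := (contDiff_succ_iff_deriv.1 h2).2.2
    have h4 : deriv s = s' := by
      funext θ
      exact (hs.hd θ).deriv
    rwa [h4] at h3
  have h5 : HasDerivAt s' (deriv s' e.1) e.1 :=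
    (h1.differentiable (by norm_num) e.1).hasDerivAt
  exact h5.comp_hasFDerivAt e hasFDerivAt_fst

/-- the derivative of the substitution -/
noncomputable def Sub_D (s' : ℝ → ℝ) (V : Matrix Ω κ ℝ) (e : ℝ × (Ω → ℝ)) (x : κ → ℝ) :
    (ℝ × (Ω → ℝ)) →L[ℝ] (ℝ × (Ω → ℝ)) :=
  (ContinuousLinearMap.fst ℝ ℝ (Ω → ℝ)).prod
    (ContinuousLinearMap.snd ℝ ℝ (Ω → ℝ) +
      (s' e.1 • ContinuousLinearMap.fst ℝ ℝ (Ω → ℝ)).smulRight (V.mulVec x))

theorem Sub_D_apply (s' : ℝ → ℝ) (V : Matrix Ω κ ℝ) (e : ℝ × (Ω → ℝ)) (x : κ → ℝ)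
    (v : ℝ × (Ω → ℝ)) :
    Sub_D s' V e x v = (v.1, v.2 + (s' e.1 * v.1) • V.mulVec x) := rfl

theorem Sub_hasFDerivAt {s s' : ℝ → ℝ} (hs : Scale s s') (V : Matrix Ω κ ℝ) (e : ℝ × (Ω → ℝ))
    (x : κ → ℝ) : HasFDerivAt (fun e' => sub s V e' x) (Sub_D s' V e x) e := by
  unfold Sub_D sub
  exact hasFDerivAt_fst.prodMk (hasFDerivAt_snd.add ((Sub_hasF hs e).smul_const (V.mulVec x)))

theorem Sub_chain {s s' : ℝ → ℝ} (hs : Scale s s') {g : ℝ × (Ω → ℝ) → ℝ}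
    (hg : Differentiable ℝ g) (V : Matrix Ω κ ℝ) (e : ℝ × (Ω → ℝ)) (x : κ → ℝ)
    (v : ℝ × (Ω → ℝ)) :
    fderiv ℝ (fun e' => g (sub s V e' x)) e v =
      fderiv ℝ g (sub s V e x) (v.1, v.2 + (s' e.1 * v.1) • V.mulVec x) := by
  have h1 : HasFDerivAt (fun e' => g (sub s V e' x))
      ((fderiv ℝ g (sub s V e x)).comp (Sub_D s' V e x)) e :=
    HasFDerivAt.comp e (hg (sub s V e x)).hasFDerivAt (Sub_hasFDerivAt hs V e x)
  rw [h1.fderiv, ContinuousLinearMap.comp_apply, Sub_D_apply]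

theorem Sub_contDiff {s s' : ℝ → ℝ} (hs : Scale s s') (V : Matrix Ω κ ℝ) (x : κ → ℝ) :
    ContDiff ℝ 2 (fun e' : ℝ × (Ω → ℝ) => sub s V e' x) := by
  unfold sub
  exact contDiff_fst.prodMk (contDiff_snd.add ((hs.cd.comp contDiff_fst).smul contDiff_const))

/-- the integrand of a step is a `StepFn`: `stepFn_comp` with the scalar function `e ↦ s e.1` and the fixed
linear map `L0 x = (0, V.mulVec x)`; the derivative of `e ↦ s e.1` at `e` is `v ↦ s' e.1 * v.1`, the second one is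
`v w ↦ deriv s' e.1 * v.1 * w.1`. -/
theorem stepFn_sub {s s' : ℝ → ℝ} (hs : Scale s s') {f : ℝ × (Ω → ℝ) → ℝ} (hf : Adm f)
    (V : Matrix Ω κ ℝ) : StepFn (fun e x => f (sub s V e x)) := by
  obtain ⟨L0, hL0⟩ : ∃ L0 : (κ → ℝ) →L[ℝ] ℝ × (Ω → ℝ), ∀ x, L0 x = (0, V.mulVec x) :=
    ⟨(ContinuousLinearMap.inr ℝ ℝ (Ω → ℝ)).comp
      (LinearMap.toContinuousLinearMap (Matrix.mulVecLin V)), fun x => rfl⟩
  have h1 : ∀ e : ℝ × (Ω → ℝ), fderiv ℝ (fun e' : ℝ × (Ω → ℝ) => s e'.1) e =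
      s' e.1 • ContinuousLinearMap.fst ℝ ℝ (Ω → ℝ) := fun e => (Sub_hasF hs e).fderiv
  have key := stepFn_comp (κ := κ) hf (s := fun e : ℝ × (Ω → ℝ) => s e.1)
    (hs.cd.comp contDiff_fst) ⟨1, fun e => hs.b0 e.1⟩
    ⟨1, fun e => by
      rw [h1, norm_smul, Real.norm_eq_abs]
      calc |s' e.1| * ‖ContinuousLinearMap.fst ℝ ℝ (Ω → ℝ)‖ ≤ 1 * 1 :=
            mul_le_mul (hs.b1 e.1) Sub_norm_fst (norm_nonneg _) zero_le_one
        _ = 1 := one_mul 1⟩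
    ⟨1, fun e => by
      have h2 : fderiv ℝ (fun e' : ℝ × (Ω → ℝ) => s e'.1) =
          fun e => s' e.1 • ContinuousLinearMap.fst ℝ ℝ (Ω → ℝ) := funext h1
      rw [h2, ((Sub_hasF2 hs e).smul_const (ContinuousLinearMap.fst ℝ ℝ (Ω → ℝ))).fderiv,
        ContinuousLinearMap.norm_smulRight_apply, norm_smul, Real.norm_eq_abs]
      calc |deriv s' e.1| * ‖ContinuousLinearMap.fst ℝ ℝ (Ω → ℝ)‖ *
            ‖ContinuousLinearMap.fst ℝ ℝ (Ω → ℝ)‖ ≤ 1 * 1 * 1 :=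
            mul_le_mul (mul_le_mul (hs.b2 e.1) Sub_norm_fst (norm_nonneg _) zero_le_one)
              Sub_norm_fst (norm_nonneg _) (by norm_num)
        _ = 1 := by norm_num⟩ L0
  have h3 : (fun (e : ℝ × (Ω → ℝ)) (x : κ → ℝ) => f (sub s V e x)) =
      fun e x => f (e + s e.1 • L0 x) := by
    funext e x
    congr 1
    rw [hL0]
    unfold sub
    ext1
    · simp
    · simp
  rw [h3]
  exact key

/-- derivative in a direction `(0, a)`: chain rule, the derivative of `e ↦ sub s V e x` at `e` in direction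
`(τ, a)` is `(τ, a + (s' e.1 * τ) • V x)` -/
theorem sub_fderiv_z {s s' : ℝ → ℝ} (hs : Scale s s') {f : ℝ × (Ω → ℝ) → ℝ} (hf : Adm f)
    (V : Matrix Ω κ ℝ) (e : ℝ × (Ω → ℝ)) (x : κ → ℝ) (a : Ω → ℝ) :
    fderiv ℝ (fun e' => f (sub s V e' x)) e (0, a) = fderiv ℝ f (sub s V e x) (0, a) := by
  rw [Sub_chain hs (hf.cd.differentiable (by norm_num)) V e x (0, a)]
  simp

/-- derivative in the direction `(1, 0)` -/
theorem sub_fderiv_t {s s' : ℝ → ℝ} (hs : Scale s s') {f : ℝ × (Ω → ℝ) → ℝ} (hf : Adm f)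
    (V : Matrix Ω κ ℝ) (e : ℝ × (Ω → ℝ)) (x : κ → ℝ) :
    fderiv ℝ (fun e' => f (sub s V e' x)) e (1, 0) =
      fderiv ℝ f (sub s V e x) (1, 0) + s' e.1 * fderiv ℝ f (sub s V e x) (0, V.mulVec x) := by
  rw [Sub_chain hs (hf.cd.differentiable (by norm_num)) V e x (1, 0)]
  have h1 : ((1 : ℝ), (0 : Ω → ℝ) + (s' e.1 * 1) • V.mulVec x) =
      (1, 0) + s' e.1 • ((0 : ℝ), V.mulVec x) := by
    ext1
    · simp
    · simp
  show fderiv ℝ f (sub s V e x) ((1 : ℝ), (0 : Ω → ℝ) + (s' e.1 * 1) • V.mulVec x) = _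
  rw [h1, map_add, map_smul, smul_eq_mul]

/-- second derivative in directions `(0,a), (0,b)`: differentiate
`e' ↦ fderiv (f ∘ sub) e' (0,b) = fderiv f (sub e') (0,b)` (previous lemma) in the direction `(0,a)`. -/
theorem sub_fderiv2_z {s s' : ℝ → ℝ} (hs : Scale s s') {f : ℝ × (Ω → ℝ) → ℝ} (hf : Adm f)
    (V : Matrix Ω κ ℝ) (e : ℝ × (Ω → ℝ)) (x : κ → ℝ) (a b : Ω → ℝ) :
    fderiv ℝ (fderiv ℝ (fun e' => f (sub s V e' x))) e (0, a) (0, b) =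
      fderiv ℝ (fderiv ℝ f) (sub s V e x) (0, a) (0, b) := by
  have hcd : ContDiff ℝ 2 (fun e' => f (sub s V e' x)) := hf.cd.comp (Sub_contDiff hs V x)
  have hd1 : Differentiable ℝ (fderiv ℝ (fun e' => f (sub s V e' x))) :=
    (hcd.fderiv_right (m := 1) (by norm_num)).differentiable (by norm_num)
  have hd2 : Differentiable ℝ (fderiv ℝ f) :=
    (hf.cd.fderiv_right (m := 1) (by norm_num)).differentiable (by norm_num)
  have e1 : ∀ (F : ℝ × (Ω → ℝ) → ℝ) (_ : Differentiable ℝ (fderiv ℝ F)) (y u w : ℝ × (Ω → ℝ)),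
      fderiv ℝ (fun e' => fderiv ℝ F e' w) y u = fderiv ℝ (fderiv ℝ F) y u w := by
    intro F hF y u w
    have h1 : HasFDerivAt (fun e' => fderiv ℝ F e' w)
        ((ContinuousLinearMap.apply ℝ ℝ w).comp (fderiv ℝ (fderiv ℝ F) y)) y :=
      (ContinuousLinearMap.apply ℝ ℝ w).hasFDerivAt.comp y (hF y).hasFDerivAt
    rw [h1.fderiv]
    rfl
  rw [← e1 _ hd1 e (0, a) (0, b), ← e1 _ hd2 (sub s V e x) (0, a) (0, b)]
  have h2 : (fun e' => fderiv ℝ (fun e' => f (sub s V e' x)) e' (0, b)) =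
      fun e' => (fun y => fderiv ℝ f y (0, b)) (sub s V e' x) := by
    funext e'
    exact sub_fderiv_z hs hf V e' x b
  rw [h2]
  have h3 : Differentiable ℝ (fun y => fderiv ℝ f y (0, b)) := by
    intro y
    exact ((ContinuousLinearMap.apply ℝ ℝ ((0, b) : ℝ × (Ω → ℝ))).hasFDerivAt.comp y
      (hd2 y).hasFDerivAt).differentiableAt
  rw [Sub_chain hs h3 V e x (0, a)]
  simp

theorem Sub_one_eq (V : Matrix Ω κ ℝ) (x : κ → ℝ) (e : ℝ × (Ω → ℝ)) :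
    sub (fun _ => 1) V e x = e + (0, V.mulVec x) := by
  unfold sub
  ext1
  · simp
  · simp

/-- scale `1`: `sub` is the translation by `(0, V x)`, so all second derivatives are those of `f`
(`comp_const_fderiv2`) -/
theorem sub_one_fderiv {f : ℝ × (Ω → ℝ) → ℝ} (hf : Adm f)
    (V : Matrix Ω κ ℝ) (e : ℝ × (Ω → ℝ)) (x : κ → ℝ) (v : ℝ × (Ω → ℝ)) :
    fderiv ℝ (fun e' => f (sub (fun _ => 1) V e' x)) e v = fderiv ℝ f (sub (fun _ => 1) V e x) v := by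
  simp only [Sub_one_eq]
  exact comp_const_fderiv hf.cd _ e v

theorem sub_one_fderiv2 {f : ℝ × (Ω → ℝ) → ℝ} (hf : Adm f)
    (V : Matrix Ω κ ℝ) (e : ℝ × (Ω → ℝ)) (x : κ → ℝ) (v w : ℝ × (Ω → ℝ)) :
    fderiv ℝ (fderiv ℝ (fun e' => f (sub (fun _ => 1) V e' x))) e v w =
      fderiv ℝ (fderiv ℝ f) (sub (fun _ => 1) V e x) v w := by
  simp only [Sub_one_eq]
  exact comp_const_fderiv2 hf.cd _ e v w

end SKC.B
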