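import Pool.Agent.H.MP_08eaf3_pr.B.TxD

/-!
# Part B: bounds for weighted expectations; `Tx` preserves the class `Adm`
-/

set_option autoImplicit false

open MeasureTheory ProbabilityTheory Filter Topology Matrix

namespace SKC.B

variable {E : Type} [NormedAddCommGroup E] [NormedSpace ℝ E] {κ : Type} [Fintype κ]

theorem TxB_bd_mul {H K : (κ → ℝ) → ℝ} (h : ∃ C : ℝ, ∀ x, |H x| ≤ C * Real.exp (C * ‖x‖))
    (k : ∃ C : ℝ, ∀ x, |K x| ≤ C * Real.exp (C * ‖x‖)) :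
    ∃ C : ℝ, ∀ x, |H x * K x| ≤ C * Real.exp (C * ‖x‖) := by
  obtain ⟨C, hC⟩ := h
  obtain ⟨D, hD⟩ := k
  have h1 : LG (fun (_ : ℝ) (x : κ → ℝ) => H x) := LG.of_bound (C := C) (fun _ x => hC x)
  have h2 : LG (fun (_ : ℝ) (x : κ → ℝ) => K x) := LG.of_bound (C := D) (fun _ x => hD x)
  obtain ⟨B, hB⟩ := (LG.smul h1 h2) 0
  exact ⟨B, fun x => hB 0 (by simp) x⟩

theorem TxB_bd_add {H K : (κ → ℝ) → ℝ} (h : ∃ C : ℝ, ∀ x, |H x| ≤ C * Real.exp (C * ‖x‖))
    (k : ∃ C : ℝ, ∀ x, |K x| ≤ C * Real.exp (C * ‖x‖)) :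
    ∃ C : ℝ, ∀ x, |H x + K x| ≤ C * Real.exp (C * ‖x‖) := by
  obtain ⟨C, hC⟩ := h
  obtain ⟨D, hD⟩ := k
  have h1 : LG (fun (_ : ℝ) (x : κ → ℝ) => H x) := LG.of_bound (C := C) (fun _ x => hC x)
  have h2 : LG (fun (_ : ℝ) (x : κ → ℝ) => K x) := LG.of_bound (C := D) (fun _ x => hD x)
  obtain ⟨B, hB⟩ := (LG.add h1 h2) 0
  exact ⟨B, fun x => hB 0 (by simp) x⟩

theorem TxB_bd_const (c : ℝ) : ∃ C : ℝ, ∀ _x : κ → ℝ, |c| ≤ C * Real.exp (C * ‖_x‖) := by
  refine ⟨|c|, fun x => ?_⟩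
  have h1 : (1 : ℝ) ≤ Real.exp (|c| * ‖x‖) :=
    Real.one_le_exp (mul_nonneg (abs_nonneg _) (norm_nonneg _))
  calc |c| = |c| * 1 := (mul_one _).symm
    _ ≤ |c| * Real.exp (|c| * ‖x‖) := mul_le_mul_of_nonneg_left h1 (abs_nonneg _)

theorem TxB_cont {F : E → (κ → ℝ) → ℝ} (hF : StepFn F) (e : E) : Continuous (F e) :=
  hF.cd.continuous.comp (continuous_const.prodMk continuous_id)

theorem TxB_exp_cont {F : E → (κ → ℝ) → ℝ} (hF : StepFn F) (m : ℝ) (e : E) :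
    Continuous (fun x => Real.exp (m * F e x)) :=
  Real.continuous_exp.comp (continuous_const.mul (TxB_cont hF e))

/-- integrability of `H exp(mF)` -/
theorem StepFn.int_mul {F : E → (κ → ℝ) → ℝ} (hF : StepFn F) (m : ℝ) (e : E) {H : (κ → ℝ) → ℝ}
    (hc : Continuous H) (hb : ∃ C : ℝ, ∀ x, |H x| ≤ C * Real.exp (C * ‖x‖)) :
    Integrable (fun x => H x * Real.exp (m * F e x)) (gam κ) := by
  refine integrable_of_exp (hc.mul (TxB_exp_cont hF m e)) ?_
  obtain ⟨C, hC⟩ := hF.lg_exp m e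
  exact TxB_bd_mul hb ⟨C, fun x => hC e (by simp) x⟩

theorem TxB_int_exp {F : E → (κ → ℝ) → ℝ} (hF : StepFn F) (m : ℝ) (e : E) :
    Integrable (fun x => Real.exp (m * F e x)) (gam κ) := by
  obtain ⟨C, hC⟩ := hF.lg_exp m e
  exact integrable_of_exp (TxB_exp_cont hF m e) ⟨C, fun x => hC e (by simp) x⟩

/-- uniform bound: `|Wx m (F e) H| ≤ C'` for all `e` and all `H` with `|H x| ≤ C exp(C‖x‖)`.
Proof. With `|F e x - F e 0| ≤ c‖x‖` : numerator `≤ exp(m F e 0) ∫ C exp((C+|m|c)‖x‖)`, denominator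
`≥ exp(m F e 0) ∫ exp(-|m| c ‖x‖) > 0`. -/
theorem StepFn.Wx_bound {F : E → (κ → ℝ) → ℝ} (hF : StepFn F) (m C : ℝ) :
    ∃ C' : ℝ, ∀ (e : E) (H : (κ → ℝ) → ℝ), Continuous H → (∀ x, |H x| ≤ C * Real.exp (C * ‖x‖)) →
      |Wx m (F e) H| ≤ C' := by
  obtain ⟨c, hc⟩ := hF.b0
  set I1 : ℝ := ∫ x : κ → ℝ, Real.exp ((C + |m| * |c|) * ‖x‖) ∂(gam κ) with hI1
  set d : ℝ := ∫ x : κ → ℝ, Real.exp (-(|m| * |c|) * ‖x‖) ∂(gam κ) with hd
  have hd0 : 0 < d := by
    refine integral_exp_pos' (G := fun x : κ → ℝ => -(|m| * |c|) * ‖x‖) (a := 0) (C := |m| * |c|) ?_ ?_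
    · exact continuous_const.mul continuous_norm
    · intro x
      rw [abs_mul, abs_neg, abs_norm, abs_of_nonneg (mul_nonneg (abs_nonneg m) (abs_nonneg c)), zero_add]
  have hdev : ∀ e x, |m * (F e x - F e 0)| ≤ |m| * |c| * ‖x‖ := by
    intro e x
    rw [abs_mul, mul_assoc]
    refine mul_le_mul_of_nonneg_left ?_ (abs_nonneg m)
    exact (hc e x).trans (mul_le_mul_of_nonneg_right (le_abs_self c) (norm_nonneg x))
  refine ⟨|C| * I1 / d, ?_⟩
  intro e H hHc hHb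
  have hZ := hF.Z_pos m e
  have hnum : |∫ x, H x * Real.exp (m * F e x) ∂(gam κ)| ≤ Real.exp (m * F e 0) * (|C| * I1) := by
    have hint : Integrable (fun x : κ → ℝ =>
        Real.exp (m * F e 0) * (|C| * Real.exp ((C + |m| * |c|) * ‖x‖))) (gam κ) :=
      ((integrable_exp_norm κ (C + |m| * |c|)).const_mul _).const_mul _
    have h1 := norm_integral_le_of_norm_le (f := fun x => H x * Real.exp (m * F e x)) hint
      (Filter.Eventually.of_forall fun x => by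
        have e1 : Real.exp (m * F e x) = Real.exp (m * F e 0) * Real.exp (m * (F e x - F e 0)) := by
          rw [← Real.exp_add]
          congr 1
          ring
        have e2 : Real.exp (m * (F e x - F e 0)) ≤ Real.exp (|m| * |c| * ‖x‖) :=
          Real.exp_le_exp.mpr ((le_abs_self _).trans (hdev e x))
        have e3 : |H x| ≤ |C| * Real.exp (C * ‖x‖) :=
          (hHb x).trans (mul_le_mul_of_nonneg_right (le_abs_self C) (Real.exp_pos _).le)
        rw [Real.norm_eq_abs, abs_mul, abs_of_pos (Real.exp_pos _), e1]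
        calc |H x| * (Real.exp (m * F e 0) * Real.exp (m * (F e x - F e 0)))
            ≤ (|C| * Real.exp (C * ‖x‖)) * (Real.exp (m * F e 0) * Real.exp (|m| * |c| * ‖x‖)) := by
              refine mul_le_mul e3 (mul_le_mul_of_nonneg_left e2 (Real.exp_pos _).le) ?_ ?_
              · exact mul_nonneg (Real.exp_pos _).le (Real.exp_pos _).le
              · exact mul_nonneg (abs_nonneg _) (Real.exp_pos _).le
          _ = Real.exp (m * F e 0) * (|C| * (Real.exp (C * ‖x‖) * Real.exp (|m| * |c| * ‖x‖))) := by ring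
          _ = Real.exp (m * F e 0) * (|C| * Real.exp ((C + |m| * |c|) * ‖x‖)) := by
              rw [← Real.exp_add]
              congr 3
              ring)
    rw [integral_const_mul, integral_const_mul] at h1
    exact h1
  have hden : Real.exp (m * F e 0) * d ≤ ∫ x, Real.exp (m * F e x) ∂(gam κ) := by
    rw [hd, ← integral_const_mul]
    refine integral_mono ((integrable_exp_norm κ _).const_mul _) (TxB_int_exp hF m e) ?_
    intro x
    have e1 : Real.exp (m * F e x) = Real.exp (m * F e 0) * Real.exp (m * (F e x - F e 0)) := by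
      rw [← Real.exp_add]
      congr 1
      ring
    have e2 : Real.exp (-(|m| * |c|) * ‖x‖) ≤ Real.exp (m * (F e x - F e 0)) := by
      refine Real.exp_le_exp.mpr ?_
      have := (abs_le.mp (hdev e x)).1
      linarith
    beta_reduce
    rw [e1]
    exact mul_le_mul_of_nonneg_left e2 (Real.exp_pos _).le
  have hI0 : 0 ≤ I1 := integral_nonneg fun x => (Real.exp_pos _).le
  unfold Wx
  rw [abs_div, abs_of_pos hZ, div_le_div_iff₀ hZ hd0]
  have hE : 0 < Real.exp (m * F e 0) := Real.exp_pos _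
  calc |∫ x, H x * Real.exp (m * F e x) ∂(gam κ)| * d
      ≤ Real.exp (m * F e 0) * (|C| * I1) * d := mul_le_mul_of_nonneg_right hnum hd0.le
    _ = (|C| * I1) * (Real.exp (m * F e 0) * d) := by ring
    _ ≤ |C| * I1 * ∫ x, Real.exp (m * F e x) ∂(gam κ) :=
        mul_le_mul_of_nonneg_left hden (mul_nonneg (abs_nonneg _) hI0)

/-- linearity of `Wx` -/
theorem StepFn.Wx_add {F : E → (κ → ℝ) → ℝ} (hF : StepFn F) (m : ℝ) (e : E) {H1 H2 : (κ → ℝ) → ℝ}
    (hc1 : Continuous H1) (hb1 : ∃ C : ℝ, ∀ x, |H1 x| ≤ C * Real.exp (C * ‖x‖))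
    (hc2 : Continuous H2) (hb2 : ∃ C : ℝ, ∀ x, |H2 x| ≤ C * Real.exp (C * ‖x‖)) :
    Wx m (F e) (fun x => H1 x + H2 x) = Wx m (F e) H1 + Wx m (F e) H2 := by
  unfold Wx
  rw [← add_div, ← integral_add (hF.int_mul m e hc1 hb1) (hF.int_mul m e hc2 hb2)]
  congr 1
  refine integral_congr_ae (Filter.Eventually.of_forall fun x => ?_)
  beta_reduce
  ring

theorem StepFn.Wx_sub {F : E → (κ → ℝ) → ℝ} (hF : StepFn F) (m : ℝ) (e : E) {H1 H2 : (κ → ℝ) → ℝ}
    (hc1 : Continuous H1) (hb1 : ∃ C : ℝ, ∀ x, |H1 x| ≤ C * Real.exp (C * ‖x‖))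
    (hc2 : Continuous H2) (hb2 : ∃ C : ℝ, ∀ x, |H2 x| ≤ C * Real.exp (C * ‖x‖)) :
    Wx m (F e) (fun x => H1 x - H2 x) = Wx m (F e) H1 - Wx m (F e) H2 := by
  unfold Wx
  rw [← sub_div, ← integral_sub (hF.int_mul m e hc1 hb1) (hF.int_mul m e hc2 hb2)]
  congr 1
  refine integral_congr_ae (Filter.Eventually.of_forall fun x => ?_)
  beta_reduce
  ring

theorem Wx_const_mul (m : ℝ) (G H : (κ → ℝ) → ℝ) (c : ℝ) :
    Wx m G (fun x => c * H x) = c * Wx m G H := by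
  unfold Wx
  rw [← mul_div_assoc, ← integral_const_mul]
  congr 1
  refine integral_congr_ae (Filter.Eventually.of_forall fun x => ?_)
  beta_reduce
  ring

theorem StepFn.Wx_const {F : E → (κ → ℝ) → ℝ} (hF : StepFn F) (m : ℝ) (e : E) (c : ℝ) :
    Wx m (F e) (fun _ => c) = c := by
  unfold Wx
  rw [integral_const_mul]
  exact mul_div_cancel_right₀ c (hF.Z_pos m e).ne'

theorem StepFn.Wx_sum {F : E → (κ → ℝ) → ℝ} (hF : StepFn F) (m : ℝ) (e : E) {J : Type} (S : Finset J)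
    {H : J → (κ → ℝ) → ℝ}
    (hc : ∀ j ∈ S, Continuous (H j)) (hb : ∀ j ∈ S, ∃ C : ℝ, ∀ x, |H j x| ≤ C * Real.exp (C * ‖x‖)) :
    Wx m (F e) (fun x => ∑ j ∈ S, H j x) = ∑ j ∈ S, Wx m (F e) (H j) := by
  unfold Wx
  rw [← Finset.sum_div, ← integral_finsetSum S (fun j hj => hF.int_mul m e (hc j hj) (hb j hj))]
  congr 1
  refine integral_congr_ae (Filter.Eventually.of_forall fun x => ?_)
  beta_reduce
  rw [Finset.sum_mul]

/-- monotonicity -/
theorem StepFn.Wx_mono {F : E → (κ → ℝ) → ℝ} (hF : StepFn F) (m : ℝ) (e : E) {H1 H2 : (κ → ℝ) → ℝ}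
    (hc1 : Continuous H1) (hb1 : ∃ C : ℝ, ∀ x, |H1 x| ≤ C * Real.exp (C * ‖x‖))
    (hc2 : Continuous H2) (hb2 : ∃ C : ℝ, ∀ x, |H2 x| ≤ C * Real.exp (C * ‖x‖))
    (h : ∀ x, H1 x ≤ H2 x) : Wx m (F e) H1 ≤ Wx m (F e) H2 := by
  unfold Wx
  refine div_le_div_of_nonneg_right ?_ (hF.Z_pos m e).le
  refine integral_mono (hF.int_mul m e hc1 hb1) (hF.int_mul m e hc2 hb2) ?_
  intro x
  exact mul_le_mul_of_nonneg_right (h x) (Real.exp_pos _).le

/-- Jensen (Cauchy-Schwarz) for the probability weight: expand `Wx((H - Wx H)^2) ≥ 0`. -/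
theorem StepFn.Wx_sq_le {F : E → (κ → ℝ) → ℝ} (hF : StepFn F) (m : ℝ) (e : E) {H : (κ → ℝ) → ℝ}
    (hc : Continuous H) (hb : ∃ C : ℝ, ∀ x, |H x| ≤ C * Real.exp (C * ‖x‖)) :
    (Wx m (F e) H) ^ 2 ≤ Wx m (F e) (fun x => H x ^ 2) := by
  set c : ℝ := Wx m (F e) H with hcdef
  have hc2 : Continuous (fun x => H x ^ 2) := hc.pow 2
  have hb2 : ∃ C : ℝ, ∀ x, |H x ^ 2| ≤ C * Real.exp (C * ‖x‖) := by
    obtain ⟨C, hC⟩ := TxB_bd_mul hb hb
    exact ⟨C, fun x => by rw [pow_two]; exact hC x⟩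
  have hc3 : Continuous (fun x => (2 * c) * H x) := continuous_const.mul hc
  have hb3 : ∃ C : ℝ, ∀ x, |(2 * c) * H x| ≤ C * Real.exp (C * ‖x‖) :=
    TxB_bd_mul (H := fun _ => 2 * c) (TxB_bd_const (2 * c)) hb
  have hc4 : Continuous (fun _ : κ → ℝ => c ^ 2) := continuous_const
  have hb4 : ∃ C : ℝ, ∀ x : κ → ℝ, |c ^ 2| ≤ C * Real.exp (C * ‖x‖) := TxB_bd_const (c ^ 2)
  have hb34 : ∃ C : ℝ, ∀ x, |(2 * c) * H x - c ^ 2| ≤ C * Real.exp (C * ‖x‖) := by
    obtain ⟨C, hC⟩ := TxB_bd_add hb3 (TxB_bd_const (-c ^ 2))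
    refine ⟨C, fun x => ?_⟩
    have := hC x
    rwa [← sub_eq_add_neg] at this
  have h0 : Wx m (F e) (fun _ => (0 : ℝ)) ≤ Wx m (F e) (fun x => H x ^ 2 - ((2 * c) * H x - c ^ 2)) := by
    refine hF.Wx_mono m e continuous_const (TxB_bd_const 0) (hc2.sub (hc3.sub hc4)) ?_ ?_
    · obtain ⟨C, hC⟩ := TxB_bd_add hb2 (TxB_bd_mul (H := fun _ => (-1 : ℝ)) (TxB_bd_const (-1)) hb34)
      refine ⟨C, fun x => ?_⟩
      have := hC x
      rwa [neg_one_mul, ← sub_eq_add_neg] at this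
    · intro x
      have : H x ^ 2 - ((2 * c) * H x - c ^ 2) = (H x - c) ^ 2 := by ring
      rw [this]
      exact sq_nonneg _
  have hc34 : Continuous (fun x => (2 * c) * H x - c ^ 2) := hc3.sub hc4
  rw [hF.Wx_const, hF.Wx_sub m e hc2 hb2 hc34 hb34, hF.Wx_sub m e hc3 hb3 hc4 hb4, Wx_const_mul,
    hF.Wx_const, ← hcdef] at h0
  nlinarith [h0]

/-- continuity in the parameter (`par0` for numerator and denominator) and uniform bound -/
theorem StepFn.Wx_cont {F : E → (κ → ℝ) → ℝ} (hF : StepFn F) (m : ℝ) {H : E → (κ → ℝ) → ℝ}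
    (hc : Continuous (fun p : E × (κ → ℝ) => H p.1 p.2))
    (hb : ∃ C : ℝ, ∀ e x, |H e x| ≤ C * Real.exp (C * ‖x‖)) :
    Continuous (fun e => Wx m (F e) (H e)) ∧ ∃ C : ℝ, ∀ e, |Wx m (F e) (H e)| ≤ C := by
  obtain ⟨C, hC⟩ := hb
  have hLG : LG H := LG.of_bound (C := C) (fun e x => hC e x)
  have hexp : Continuous (fun p : E × (κ → ℝ) => Real.exp (m * F p.1 p.2)) :=
    Real.continuous_exp.comp (continuous_const.mul hF.cd.continuous)
  refine ⟨?_, ?_⟩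
  · have h1 : Continuous (fun e => ∫ x, H e x * Real.exp (m * F e x) ∂(gam κ)) :=
      par0 (h := fun e x => H e x * Real.exp (m * F e x)) (hc.mul hexp) (LG.smul hLG (hF.lg_exp m))
    have h2 : Continuous (fun e => ∫ x, Real.exp (m * F e x) ∂(gam κ)) :=
      par0 (h := fun e x => Real.exp (m * F e x)) hexp (hF.lg_exp m)
    exact h1.div h2 (fun e => (hF.Z_pos m e).ne')
  · obtain ⟨C', hC'⟩ := hF.Wx_bound m C
    exact ⟨C', fun e => hC' e (H e) (hc.comp (continuous_const.prodMk continuous_id)) (hC e)⟩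

/-- `Tx` maps the class `StepFn` to `Adm`. Proof: `Tx_contDiff`; `|fderiv T e v| ≤ C ‖v‖` by `Tx_fderiv`
and `Wx_bound` applied to `H x = fderiv (F · x) e v / ‖v‖`; second derivative: from `Tx_fderiv2`
in the same way; `ContinuousLinearMap.opNorm_le_bound` twice. -/
theorem adm_Tx [FiniteDimensional ℝ E] {F : E → (κ → ℝ) → ℝ} (hF : StepFn F) (m : ℝ) :
    Adm (fun e => Tx m (F e)) := by
  obtain ⟨C1, hC1⟩ := hF.b1
  obtain ⟨C2, hC2⟩ := hF.b2
  have hcd1 : ContDiff ℝ 1 (fun p : E × (κ → ℝ) => fderiv ℝ (fun e' => F e' p.2) p.1) := by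
    have h1 : ContDiff ℝ 2 (Function.uncurry (fun (p : E × (κ → ℝ)) (e' : E) => F e' p.2)) :=
      hF.cd.comp (contDiff_snd.prodMk (contDiff_snd.comp contDiff_fst))
    exact ContDiff.fderiv (n := 1) h1 contDiff_fst (by norm_num)
  have hcd2 : ContDiff ℝ 0 (fun p : E × (κ → ℝ) => fderiv ℝ (fderiv ℝ (fun e' => F e' p.2)) p.1) := by
    have h1 : ContDiff ℝ 1 (Function.uncurry (fun (p : E × (κ → ℝ)) (e' : E) =>
        fderiv ℝ (fun e'' => F e'' p.2) e')) :=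
      hcd1.comp (contDiff_snd.prodMk (contDiff_snd.comp contDiff_fst))
    exact ContDiff.fderiv (n := 0) h1 contDiff_fst (by norm_num)
  have hx1 : ∀ e v, Continuous (fun x : κ → ℝ => fderiv ℝ (fun e' => F e' x) e v) := by
    intro e v
    exact (hcd1.continuous.comp (continuous_const.prodMk continuous_id)).clm_apply continuous_const
  have hx2 : ∀ e v w, Continuous (fun x : κ → ℝ => fderiv ℝ (fderiv ℝ (fun e' => F e' x)) e v w) := by
    intro e v w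
    exact ((hcd2.continuous.comp (continuous_const.prodMk continuous_id)).clm_apply
      continuous_const).clm_apply continuous_const
  -- first derivative
  obtain ⟨A1, hA1⟩ := hF.Wx_bound m C1
  have hA1' : 0 ≤ |A1| := abs_nonneg _
  have hb1 : ∀ e v, |fderiv ℝ (fun e => Tx m (F e)) e v| ≤ |A1| * ‖v‖ := by
    intro e v
    rcases eq_or_ne v 0 with h | h
    · rw [h]
      simp
    have hv : 0 < ‖v‖ := norm_pos_iff.mpr h
    have h1 := hA1 e (fun x => ‖v‖⁻¹ * fderiv ℝ (fun e' => F e' x) e v)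
      (continuous_const.mul (hx1 e v)) (by
        intro x
        rw [abs_mul, abs_of_pos (inv_pos.mpr hv), inv_mul_le_iff₀ hv]
        have h2 := (fderiv ℝ (fun e' => F e' x) e).le_opNorm v
        rw [Real.norm_eq_abs] at h2
        calc |fderiv ℝ (fun e' => F e' x) e v| ≤ ‖fderiv ℝ (fun e' => F e' x) e‖ * ‖v‖ := h2
          _ ≤ (C1 * Real.exp (C1 * ‖x‖)) * ‖v‖ := mul_le_mul_of_nonneg_right (hC1 e x) (norm_nonneg v)
          _ = ‖v‖ * (C1 * Real.exp (C1 * ‖x‖)) := mul_comm _ _)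
    rw [Wx_const_mul, abs_mul, abs_of_pos (inv_pos.mpr hv), inv_mul_le_iff₀ hv] at h1
    rw [(Tx_fderiv hF m).2 e v]
    calc _ ≤ ‖v‖ * A1 := h1
      _ ≤ ‖v‖ * |A1| := mul_le_mul_of_nonneg_left (le_abs_self _) hv.le
      _ = |A1| * ‖v‖ := mul_comm _ _
  -- second derivative
  obtain ⟨C3, hC3⟩ : ∃ C : ℝ, ∀ x : κ → ℝ, |C2 * Real.exp (C2 * ‖x‖) +
      |m| * ((C1 * Real.exp (C1 * ‖x‖)) * (C1 * Real.exp (C1 * ‖x‖)))| ≤ C * Real.exp (C * ‖x‖) := by
    have hself : ∀ C : ℝ, 0 ≤ C → ∃ D : ℝ, ∀ x : κ → ℝ,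
        |C * Real.exp (C * ‖x‖)| ≤ D * Real.exp (D * ‖x‖) := fun C hC => ⟨C, fun x => by
      rw [abs_of_nonneg (mul_nonneg hC (Real.exp_pos _).le)]⟩
    have n1 : 0 ≤ C1 := by
      have h := le_trans (norm_nonneg (fderiv ℝ (fun e' => F e' 0) 0)) (hC1 0 0)
      simpa using h
    have n2 : 0 ≤ C2 := by
      have h := le_trans (norm_nonneg (fderiv ℝ (fderiv ℝ (fun e' => F e' 0)) 0)) (hC2 0 0)
      simpa using h
    exact TxB_bd_add (hself C2 n2) (TxB_bd_mul (H := fun _ => |m|) (TxB_bd_const |m|)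
      (TxB_bd_mul (hself C1 n1) (hself C1 n1)))
  obtain ⟨A2, hA2⟩ := hF.Wx_bound m C3
  have hb2 : ∀ e v w, |fderiv ℝ (fderiv ℝ (fun e => Tx m (F e))) e v w| ≤
      (|A2| + |m| * (|A1| * |A1|)) * ‖v‖ * ‖w‖ := by
    intro e v w
    rcases eq_or_ne v 0 with h | h
    · rw [h]
      simp
    rcases eq_or_ne w 0 with h' | h'
    · rw [h']
      simp
    have hv : 0 < ‖v‖ := norm_pos_iff.mpr h
    have hw : 0 < ‖w‖ := norm_pos_iff.mpr h'
    have hvw : 0 < ‖v‖ * ‖w‖ := mul_pos hv hw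
    have h1 := hA2 e (fun x => (‖v‖ * ‖w‖)⁻¹ * (fderiv ℝ (fderiv ℝ (fun e' => F e' x)) e v w +
        m * (fderiv ℝ (fun e' => F e' x) e v * fderiv ℝ (fun e' => F e' x) e w)))
      (continuous_const.mul ((hx2 e v w).add (continuous_const.mul ((hx1 e v).mul (hx1 e w))))) (by
        intro x
        rw [abs_mul, abs_of_pos (inv_pos.mpr hvw), inv_mul_le_iff₀ hvw]
        have k1 : ∀ u, |fderiv ℝ (fun e' => F e' x) e u| ≤ (C1 * Real.exp (C1 * ‖x‖)) * ‖u‖ := by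
          intro u
          have h2 := (fderiv ℝ (fun e' => F e' x) e).le_opNorm u
          rw [Real.norm_eq_abs] at h2
          exact h2.trans (mul_le_mul_of_nonneg_right (hC1 e x) (norm_nonneg u))
        have k2 : |fderiv ℝ (fderiv ℝ (fun e' => F e' x)) e v w| ≤
            (C2 * Real.exp (C2 * ‖x‖)) * ‖v‖ * ‖w‖ := by
          have h2 := (fderiv ℝ (fderiv ℝ (fun e' => F e' x)) e v).le_opNorm w
          rw [Real.norm_eq_abs] at h2
          have h3 := (fderiv ℝ (fderiv ℝ (fun e' => F e' x)) e).le_opNorm v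
          calc _ ≤ ‖fderiv ℝ (fderiv ℝ (fun e' => F e' x)) e v‖ * ‖w‖ := h2
            _ ≤ (‖fderiv ℝ (fderiv ℝ (fun e' => F e' x)) e‖ * ‖v‖) * ‖w‖ :=
                mul_le_mul_of_nonneg_right h3 (norm_nonneg w)
            _ ≤ (C2 * Real.exp (C2 * ‖x‖)) * ‖v‖ * ‖w‖ :=
                mul_le_mul_of_nonneg_right (mul_le_mul_of_nonneg_right (hC2 e x) (norm_nonneg v))
                  (norm_nonneg w)
        have k3 : |m * (fderiv ℝ (fun e' => F e' x) e v * fderiv ℝ (fun e' => F e' x) e w)| ≤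
            |m| * (((C1 * Real.exp (C1 * ‖x‖)) * ‖v‖) * ((C1 * Real.exp (C1 * ‖x‖)) * ‖w‖)) := by
          rw [abs_mul, abs_mul]
          exact mul_le_mul_of_nonneg_left (mul_le_mul (k1 v) (k1 w) (abs_nonneg _)
            ((abs_nonneg _).trans (k1 v))) (abs_nonneg _)
        calc _ ≤ |fderiv ℝ (fderiv ℝ (fun e' => F e' x)) e v w| +
              |m * (fderiv ℝ (fun e' => F e' x) e v * fderiv ℝ (fun e' => F e' x) e w)| := abs_add_le _ _
          _ ≤ (C2 * Real.exp (C2 * ‖x‖)) * ‖v‖ * ‖w‖ +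
              |m| * (((C1 * Real.exp (C1 * ‖x‖)) * ‖v‖) * ((C1 * Real.exp (C1 * ‖x‖)) * ‖w‖)) :=
              add_le_add k2 k3
          _ = ‖v‖ * ‖w‖ * (C2 * Real.exp (C2 * ‖x‖) +
              |m| * ((C1 * Real.exp (C1 * ‖x‖)) * (C1 * Real.exp (C1 * ‖x‖)))) := by ring
          _ ≤ ‖v‖ * ‖w‖ * (C3 * Real.exp (C3 * ‖x‖)) :=
              mul_le_mul_of_nonneg_left ((le_abs_self _).trans (hC3 x)) hvw.le)
    rw [Wx_const_mul, abs_mul, abs_of_pos (inv_pos.mpr hvw), inv_mul_le_iff₀ hvw,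
      ← Tx_fderiv2 hF m e v w] at h1
    have h2 : |m * (fderiv ℝ (fun e => Tx m (F e)) e v * fderiv ℝ (fun e => Tx m (F e)) e w)| ≤
        |m| * ((|A1| * ‖v‖) * (|A1| * ‖w‖)) := by
      rw [abs_mul, abs_mul]
      exact mul_le_mul_of_nonneg_left (mul_le_mul (hb1 e v) (hb1 e w) (abs_nonneg _)
        ((abs_nonneg _).trans (hb1 e v))) (abs_nonneg _)
    have h3 : ‖v‖ * ‖w‖ * A2 ≤ ‖v‖ * ‖w‖ * |A2| := mul_le_mul_of_nonneg_left (le_abs_self _) hvw.le
    have h4 : ∀ a b : ℝ, |a| ≤ |a + b| + |b| := by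
      intro a b
      have := abs_sub (a + b) b
      rwa [add_sub_cancel_right] at this
    refine (h4 _ (m * (fderiv ℝ (fun e => Tx m (F e)) e v * fderiv ℝ (fun e => Tx m (F e)) e w))).trans ?_
    calc _ ≤ ‖v‖ * ‖w‖ * |A2| + |m| * ((|A1| * ‖v‖) * (|A1| * ‖w‖)) := add_le_add (h1.trans h3) h2
      _ = (|A2| + |m| * (|A1| * |A1|)) * ‖v‖ * ‖w‖ := by ring
  refine ⟨Tx_contDiff hF m, ⟨|A1|, fun e => ?_⟩, ⟨|A2| + |m| * (|A1| * |A1|), fun e => ?_⟩⟩
  · exact ContinuousLinearMap.opNorm_le_bound _ hA1' (fun v => by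
      rw [Real.norm_eq_abs]
      exact hb1 e v)
  · have hn : 0 ≤ |A2| + |m| * (|A1| * |A1|) := by positivity
    refine ContinuousLinearMap.opNorm_le_bound _ hn (fun v => ?_)
    refine ContinuousLinearMap.opNorm_le_bound _ (mul_nonneg hn (norm_nonneg v)) (fun w => ?_)
    rw [Real.norm_eq_abs]
    exact hb2 e v w

end SKC.B
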