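import Pool.Agent.H.MP_08eaf3_pr.Defs2
import Pool.Agent.H.MP_08eaf3_pr.B.TxB
import Pool.Agent.H.MP_08eaf3_pr.B.Sub
import Pool.Agent.H.MP_08eaf3_pr.B.Lse

/-!
# Part B2: dependence of the functional on `t`
-/

set_option autoImplicit false

open MeasureTheory ProbabilityTheory Filter Topology Matrix

namespace SKC.B

variable {K : Type} [Fintype K] [DecidableEq K]

/-- the recursion as a function of `(t, z)` -/
noncomputable def PsiT (β : K → ℝ) (φ : (K → Bool) → ℝ) : List (Step K) → ℝ × (K → ℝ) → ℝ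
  | [] => fun e => psiEnd φ e.1 e.2
  | (s :: l) => fun e => Tx s.1 (fun x => PsiT β φ l (sub (fun _ => 1) (Bm β s.2) e x))

theorem B2_sub (V : Matrix K K ℝ) (t : ℝ) (z x : K → ℝ) :
    sub (fun _ => 1) V (t, z) x = (t, z + V.mulVec x) := by
  unfold sub
  simp

/-- induction; `sub (fun _ => 1) B (t,z) x = (t, z + B x)`, `Tm_eq` -/
theorem PsiT_eq (β : K → ℝ) (φ : (K → Bool) → ℝ) (l : List (Step K)) (t : ℝ) (z : K → ℝ) :
    PsiT β φ l (t, z) = PsiL β l (psiEnd φ t) z := by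
  induction l generalizing z with
  | nil => rfl
  | cons s l ih =>
    show Tx s.1 (fun x => PsiT β φ l (sub (fun _ => 1) (Bm β s.2) (t, z) x)) =
      Tx s.1 (fun x => PsiL β l (psiEnd φ t) (z + (Bm β s.2).mulVec x))
    congr 1
    funext x
    rw [B2_sub, ih]

/-- the affine functionals of the terminal function -/
noncomputable def B2_A (φ : (K → Bool) → ℝ) (s : K → Bool) : ℝ × (K → ℝ) →L[ℝ] ℝ :=
  (∑ c, sg (s c) • (ContinuousLinearMap.proj (R := ℝ) (φ := fun _ : K => ℝ) c).comp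
    (ContinuousLinearMap.snd ℝ ℝ (K → ℝ))) + φ s • ContinuousLinearMap.fst ℝ ℝ (K → ℝ)

theorem B2_A_apply (φ : (K → Bool) → ℝ) (s : K → Bool) (e : ℝ × (K → ℝ)) :
    B2_A φ s e = (∑ c, sg (s c) * e.2 c) + e.1 * φ s := by
  unfold B2_A
  simp [_root_.add_apply, _root_.sum_apply, mul_comm]

theorem B2_A_one (φ : (K → Bool) → ℝ) (s : K → Bool) : B2_A φ s (1, 0) = φ s := by
  rw [B2_A_apply]
  simp

theorem B2_nil (β : K → ℝ) (φ : (K → Bool) → ℝ) :
    PsiT β φ [] = fun e => lse Finset.univ (fun s => B2_A φ s e + 0) := by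
  funext e
  show psiEnd φ e.1 e.2 = _
  unfold psiEnd lse
  simp only [B2_A_apply, add_zero]

/-- the terminal function is `lse univ` of the affine functionals `A s (t,z) = ∑ sg (s c) z c + t φ s`, so
`adm_lse`; step: `adm_Tx`, `stepFn_sub scale_one`. -/
theorem adm_PsiT (β : K → ℝ) (φ : (K → Bool) → ℝ) (l : List (Step K)) : Adm (PsiT β φ l) := by
  induction l with
  | nil =>
    rw [B2_nil]
    exact adm_lse Finset.univ_nonempty (B2_A φ) (fun _ => 0)
  | cons s l ih =>
    exact adm_Tx (F := fun e x => PsiT β φ l (sub (fun _ => 1) (Bm β s.2) e x))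
      (stepFn_sub scale_one ih (Bm β s.2)) s.1

/-- `t`-derivative of the terminal function -/
noncomputable def dEnd (φ : (K → Bool) → ℝ) (t : ℝ) (z : K → ℝ) : ℝ :=
  (∑ s : K → Bool, φ s * Real.exp ((∑ c, sg (s c) * z c) + t * φ s)) /
    (∑ s : K → Bool, Real.exp ((∑ c, sg (s c) * z c) + t * φ s))

/-- induction: base `lse_fderiv`; step `Tx_fderiv` and `sub_one_fderiv`; `Es_eq` -/
theorem PsiT_fderiv (β : K → ℝ) (φ : (K → Bool) → ℝ) (l : List (Step K)) (t : ℝ) (z : K → ℝ) :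
    fderiv ℝ (PsiT β φ l) (t, z) (1, 0) = ChE β l (psiEnd φ t) (dEnd φ t) z := by
  induction l generalizing z with
  | nil =>
    rw [B2_nil, lse_fderiv Finset.univ_nonempty (B2_A φ) (fun _ => 0) (t, z) (1, 0)]
    show _ = dEnd φ t z
    unfold dEnd gw
    simp only [B2_A_one]
    simp only [B2_A_apply, add_zero]
    rw [Finset.sum_div]
    refine Finset.sum_congr rfl fun s _ => ?_
    ring
  | cons s l ih =>
    have hS : StepFn (fun (e : ℝ × (K → ℝ)) x => PsiT β φ l (sub (fun _ => 1) (Bm β s.2) e x)) :=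
      stepFn_sub scale_one (adm_PsiT β φ l) (Bm β s.2)
    have h1 := (Tx_fderiv hS s.1).2 (t, z) (1, 0)
    have h2 : PsiT β φ (s :: l) =
      fun e => Tx s.1 (fun x => PsiT β φ l (sub (fun _ => 1) (Bm β s.2) e x)) := rfl
    rw [h2, h1]
    show _ = Es s.1 (Bm β s.2) (PsiL β l (psiEnd φ t)) (ChE β l (psiEnd φ t) (dEnd φ t)) z
    rw [Es_eq]
    congr 1
    · funext x
      rw [B2_sub, PsiT_eq]
    · funext x
      rw [sub_one_fderiv (adm_PsiT β φ l), B2_sub, ih]

/-- Second derivative. Claim: `D² + m0 (D)^2 ≤ 1` in the direction `(1,0)` if `m0 ≤` all weights `≤ 1`, weights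
nondecreasing, `|φ| ≤ 1`. Base (`lse_fderiv2`): `<φ²> - <φ>² + m0 <φ>² ≤ <φ²> ≤ 1`. Step: `Tx_fderiv2` (with
`sub_one_fderiv`, `sub_one_fderiv2`): `D²f⁻ + m (Df⁻)² = Wx(D²f + m (Df)²) ≤ Wx 1 = 1` by induction with
`m0 := m` (`StepFn.Wx_mono`, `StepFn.Wx_const`), and `m0 (Df⁻)² ≤ m (Df⁻)²`. -/
theorem PsiT_fderiv2_le (β : K → ℝ) {φ : (K → Bool) → ℝ} (hφ : ∀ s, |φ s| ≤ 1) :
    ∀ (l : List (Step K)) (m0 : ℝ), m0 ≤ 1 → l.Pairwise (fun a b => a.1 ≤ b.1) →
      (∀ a ∈ l, m0 ≤ a.1 ∧ a.1 ≤ 1) → ∀ e : ℝ × (K → ℝ),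
      fderiv ℝ (fderiv ℝ (PsiT β φ l)) e (1, 0) (1, 0) +
        m0 * (fderiv ℝ (PsiT β φ l) e (1, 0) * fderiv ℝ (PsiT β φ l) e (1, 0)) ≤ 1 := by
  intro l
  induction l with
  | nil =>
    intro m0 hm0 _ _ e
    rw [B2_nil, lse_fderiv2 Finset.univ_nonempty (B2_A φ) (fun _ => 0) e (1, 0) (1, 0),
      lse_fderiv Finset.univ_nonempty (B2_A φ) (fun _ => 0) e (1, 0)]
    simp only [B2_A_one]
    set g := fun s => gw Finset.univ (fun s => B2_A φ s e + 0) s with hg
    have h1 : ∑ s, g s * (φ s * φ s) ≤ 1 := by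
      calc ∑ s, g s * (φ s * φ s) ≤ ∑ s, g s := by
            refine Finset.sum_le_sum fun s _ => ?_
            refine mul_le_of_le_one_right (gw_nonneg _ _ _) ?_
            have h2 := hφ s
            rw [← abs_mul_abs_self]
            exact mul_le_one₀ h2 (abs_nonneg _) h2
        _ = 1 := gw_sum Finset.univ_nonempty _
    have h2 : 0 ≤ (1 - m0) * ((∑ s, g s * φ s) * (∑ s, g s * φ s)) :=
      mul_nonneg (by linarith) (mul_self_nonneg _)
    have h3 : ∑ s, g s * (φ s * φ s) - (∑ s, g s * φ s) * (∑ s, g s * φ s) +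
        m0 * ((∑ s, g s * φ s) * (∑ s, g s * φ s)) ≤ 1 := by linarith
    exact h3
  | cons s l ih =>
    intro m0 _ hp hl e
    have hA : Adm (PsiT β φ l) := adm_PsiT β φ l
    have hS : StepFn (fun (e : ℝ × (K → ℝ)) x => PsiT β φ l (sub (fun _ => 1) (Bm β s.2) e x)) :=
      stepFn_sub scale_one hA (Bm β s.2)
    have h1 := Tx_fderiv2 hS s.1 e (1, 0) (1, 0)
    have h2 : PsiT β φ (s :: l) =
      fun e => Tx s.1 (fun x => PsiT β φ l (sub (fun _ => 1) (Bm β s.2) e x)) := rfl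
    rw [← h2] at h1
    rw [List.pairwise_cons] at hp
    obtain ⟨hs0, hs1⟩ := hl s (by simp)
    have hI := ih s.1 hs1 hp.2 (fun a ha => ⟨hp.1 a ha, (hl a (by simp [ha])).2⟩)
    obtain ⟨C1, hC1⟩ := hA.b1
    obtain ⟨C2, hC2⟩ := hA.b2
    have hcd1 : Continuous (fderiv ℝ (PsiT β φ l)) := hA.cd.continuous_fderiv (by norm_num)
    have hcd2 : Continuous (fderiv ℝ (fderiv ℝ (PsiT β φ l))) :=
      (hA.cd.fderiv_right (m := 1) (by norm_num)).continuous_fderiv (by norm_num)
    have hsub : Continuous (fun x => sub (fun _ => 1) (Bm β s.2) e x) := by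
      have h3 : (fun x => sub (fun _ => 1) (Bm β s.2) e x) =
        fun x => (e.1, e.2 + (1 : ℝ) • (Bm β s.2).mulVec x) := rfl
      rw [h3]
      exact continuous_const.prodMk (continuous_const.add
        ((Continuous.matrix_mulVec continuous_const continuous_id).const_smul (1 : ℝ)))
    have h4 : Wx s.1 (fun x => PsiT β φ l (sub (fun _ => 1) (Bm β s.2) e x))
        (fun x => fderiv ℝ (fderiv ℝ (fun e' => PsiT β φ l (sub (fun _ => 1) (Bm β s.2) e' x))) e
            (1, 0) (1, 0) +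
          s.1 * (fderiv ℝ (fun e' => PsiT β φ l (sub (fun _ => 1) (Bm β s.2) e' x)) e (1, 0) *
            fderiv ℝ (fun e' => PsiT β φ l (sub (fun _ => 1) (Bm β s.2) e' x)) e (1, 0))) ≤ 1 := by
      have h5 := hS.Wx_mono s.1 e (H1 := fun x =>
          fderiv ℝ (fderiv ℝ (PsiT β φ l)) (sub (fun _ => 1) (Bm β s.2) e x) (1, 0) (1, 0) +
          s.1 * (fderiv ℝ (PsiT β φ l) (sub (fun _ => 1) (Bm β s.2) e x) (1, 0) *
            fderiv ℝ (PsiT β φ l) (sub (fun _ => 1) (Bm β s.2) e x) (1, 0))) (H2 := fun _ => 1)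
        (by
          have c1 : Continuous (fun x => fderiv ℝ (PsiT β φ l) (sub (fun _ => 1) (Bm β s.2) e x) (1, 0)) :=
            (hcd1.comp hsub).clm_apply continuous_const
          have c2 : Continuous (fun x =>
              fderiv ℝ (fderiv ℝ (PsiT β φ l)) (sub (fun _ => 1) (Bm β s.2) e x) (1, 0) (1, 0)) :=
            ((hcd2.comp hsub).clm_apply continuous_const).clm_apply continuous_const
          exact c2.add (continuous_const.mul (c1.mul c1)))
        (by
          set w : ℝ × (K → ℝ) := (1, 0) with hw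
          have b1 : ∀ y, |fderiv ℝ (PsiT β φ l) y w| ≤ C1 * ‖w‖ := fun y => by
            have := (fderiv ℝ (PsiT β φ l) y).le_opNorm w
            rw [Real.norm_eq_abs] at this
            exact this.trans (mul_le_mul_of_nonneg_right (hC1 y) (norm_nonneg _))
          have b2 : ∀ y, |fderiv ℝ (fderiv ℝ (PsiT β φ l)) y w w| ≤ C2 * ‖w‖ * ‖w‖ := fun y => by
            have := ContinuousLinearMap.le_opNorm₂ (fderiv ℝ (fderiv ℝ (PsiT β φ l)) y) w w
            rw [Real.norm_eq_abs] at this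
            refine this.trans ?_
            exact mul_le_mul_of_nonneg_right (mul_le_mul_of_nonneg_right (hC2 y) (norm_nonneg _))
              (norm_nonneg _)
          obtain ⟨D, hD⟩ := TxB_bd_const (κ := K) (C2 * ‖w‖ * ‖w‖ + |s.1| * ((C1 * ‖w‖) * (C1 * ‖w‖)))
          refine ⟨D, fun x => ?_⟩
          refine le_trans ?_ ((le_abs_self _).trans (hD x))
          refine (abs_add_le _ _).trans (add_le_add (b2 _) ?_)
          rw [abs_mul, abs_mul]
          refine mul_le_mul_of_nonneg_left ?_ (abs_nonneg _)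
          exact mul_le_mul (b1 _) (b1 _) (abs_nonneg _) ((abs_nonneg _).trans (b1 0)))
        continuous_const (TxB_bd_const 1) (fun x => hI _)
      rw [hS.Wx_const] at h5
      refine le_trans (le_of_eq ?_) h5
      congr 1
      funext x
      rw [sub_one_fderiv2 hA, sub_one_fderiv hA]
    have h6 : 0 ≤ (s.1 - m0) * (fderiv ℝ (PsiT β φ (s :: l)) e (1, 0) *
        fderiv ℝ (PsiT β φ (s :: l)) e (1, 0)) :=
      mul_nonneg (by linarith) (mul_self_nonneg _)
    rw [← h1] at h4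
    linarith

/-- Taylor bound from a bound of the second derivative -/
theorem B2_taylor {g g1 g2 : ℝ → ℝ} (h1 : ∀ t, HasDerivAt g (g1 t) t) (h2 : ∀ t, HasDerivAt g1 (g2 t) t)
    (h : ∀ t, g2 t ≤ 1) (t : ℝ) : g t ≤ g 0 + t * g1 0 + t ^ 2 / 2 := by
  have k1 : ∀ t, HasDerivAt (fun t => g1 0 + t - g1 t) (1 - g2 t) t := by
    intro t
    have := ((hasDerivAt_id t).const_add (g1 0)).sub (h2 t)
    exact this
  have k0 : ∀ t, HasDerivAt (fun t => g 0 + t * g1 0 + t ^ 2 / 2 - g t) (g1 0 + t - g1 t) t := by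
    intro t
    have a1 : HasDerivAt (fun t : ℝ => t * g1 0) (1 * g1 0) t := (hasDerivAt_id t).mul_const _
    have a2 : HasDerivAt (fun t : ℝ => t ^ 2 / 2) (t) t := by
      have := (hasDerivAt_pow 2 t).div_const 2
      refine this.congr_deriv ?_
      simp
    have a3 := ((a1.const_add (g 0)).add a2).sub (h1 t)
    refine a3.congr_deriv ?_
    ring
  have m1 : Monotone (fun t => g1 0 + t - g1 t) := by
    refine monotone_of_deriv_nonneg (fun t => (k1 t).differentiableAt) fun t => ?_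
    rw [(k1 t).deriv]
    have := h t
    linarith
  have hcont : Continuous (fun t => g 0 + t * g1 0 + t ^ 2 / 2 - g t) :=
    continuous_iff_continuousAt.2 fun t => (k0 t).continuousAt
  have key : 0 ≤ g 0 + t * g1 0 + t ^ 2 / 2 - g t := by
    rcases le_total 0 t with ht | ht
    · have m2 : MonotoneOn (fun t => g 0 + t * g1 0 + t ^ 2 / 2 - g t) (Set.Ici 0) := by
        refine monotoneOn_of_deriv_nonneg (convex_Ici 0) hcont.continuousOn
          (fun t _ => (k0 t).differentiableAt.differentiableWithinAt) fun t ht => ?_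
        rw [interior_Ici] at ht
        rw [(k0 t).deriv]
        have := m1 (le_of_lt (Set.mem_Ioi.1 ht))
        simpa using this
      have := m2 (Set.mem_Ici.2 le_rfl) (Set.mem_Ici.2 ht) ht
      simpa using this
    · have m2 : AntitoneOn (fun t => g 0 + t * g1 0 + t ^ 2 / 2 - g t) (Set.Iic 0) := by
        refine antitoneOn_of_deriv_nonpos (convex_Iic 0) hcont.continuousOn
          (fun t _ => (k0 t).differentiableAt.differentiableWithinAt) fun t ht => ?_
        rw [interior_Iic] at ht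
        rw [(k0 t).deriv]
        have := m1 (le_of_lt (Set.mem_Iio.1 ht))
        simpa using this
      have := m2 (Set.mem_Iic.2 ht) (Set.mem_Iic.2 le_rfl) ht
      simpa using this
  linarith

/-- B2. `g t = PsiT β φ l (t, 0)` is `C^2` with `g'' ≤ 1` (previous lemma with `m0 = 0`), so
`g t ≤ g 0 + t g' 0 + t²/2` for all real `t` (`t²/2 - g t` is convex, or Taylor). `psiEnd φ 0 = F0`,
`dEnd φ 0 = spAvg φ`, `psiEnd (fun _ => 0) 0 = F0` by `simp`; the correction term `corr` does not depend on `t`. -/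
theorem Pf_expand (β : K → ℝ) (φ : (K → Bool) → ℝ) (hφ : ∀ s, |φ s| ≤ 1) (t : ℝ)
    (l : List (Step K)) (hl : Valid l) :
    Pf β φ t l ≤ Pf β (fun _ => 0) 0 l + t * ChE β l F0 (spAvg φ) 0 + t ^ 2 / 2 := by
  have hA : Adm (PsiT β φ l) := adm_PsiT β φ l
  have hline : ∀ t : ℝ, HasDerivAt (fun t : ℝ => ((t, 0) : ℝ × (K → ℝ))) (1, 0) t := fun t =>
    (hasDerivAt_id t).prodMk (hasDerivAt_const t (0 : K → ℝ))
  have hd1 : Differentiable ℝ (fderiv ℝ (PsiT β φ l)) :=
    (hA.cd.fderiv_right (m := 1) (by norm_num)).differentiable (by norm_num)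
  have key := B2_taylor (g := fun t => PsiT β φ l (t, 0))
    (g1 := fun t => fderiv ℝ (PsiT β φ l) (t, 0) (1, 0))
    (g2 := fun t => fderiv ℝ (fderiv ℝ (PsiT β φ l)) (t, 0) (1, 0) (1, 0))
    (fun t => ((hA.cd.differentiable (by norm_num) (t, 0)).hasFDerivAt).comp_hasDerivAt t (hline t))
    (fun t => by
      have h1 : HasFDerivAt (fun e' => fderiv ℝ (PsiT β φ l) e' (1, 0))
          ((ContinuousLinearMap.apply ℝ ℝ ((1, 0) : ℝ × (K → ℝ))).comp
            (fderiv ℝ (fderiv ℝ (PsiT β φ l)) (t, 0))) (t, 0) :=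
        (ContinuousLinearMap.apply ℝ ℝ ((1, 0) : ℝ × (K → ℝ))).hasFDerivAt.comp (t, 0)
          (hd1 (t, 0)).hasFDerivAt
      exact h1.comp_hasDerivAt t (hline t))
    (fun t => by
      have h1 := PsiT_fderiv2_le β hφ l 0 zero_le_one hl.1 hl.2.1 (t, 0)
      rw [zero_mul, add_zero] at h1
      exact h1) t
  have e0 : psiEnd φ 0 = (F0 : (K → ℝ) → ℝ) := by
    funext z
    unfold F0 psiEnd
    simp
  have e1 : dEnd φ 0 = spAvg φ := by
    funext z
    unfold dEnd spAvg
    simp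
  have e2 : psiEnd (fun _ => 0) 0 = (F0 : (K → ℝ) → ℝ) := rfl
  simp only [PsiT_eq, PsiT_fderiv] at key
  rw [e0, e1] at key
  unfold Pf
  rw [e2]
  linarith

end SKC.B
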