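import Pool.Agent.H.MP_08eaf3_pr.Defs

/-!
# Part B, calculus: definitions

* `Tx m G` : the number `(1/m) log E exp(m G(x))` (and `E G(x)` for `m = 0`), `x` standard Gaussian;
* `Wx m G H` : the expectation of `H(x)` for the density proportional to `exp(m G(x))`;
* `LG h` : `h(e,x)` grows at most exponentially in `x`, locally uniformly in the parameter `e`;
* `Adm f` : `f` is `C^2` with bounded first and second derivatives;
* `StepFn F` : the class of functions `F(e,x)` for which `e ↦ Tx m (F e)` is `Adm`.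
-/

set_option autoImplicit false

open MeasureTheory ProbabilityTheory Filter Topology Matrix

namespace SKC.B

/-- `(1/m) log E exp(m G)`, and `E G` for `m = 0` -/
noncomputable def Tx {κ : Type} [Fintype κ] (m : ℝ) (G : (κ → ℝ) → ℝ) : ℝ :=
  if m = 0 then ∫ x, G x ∂(gam κ) else (1 / m) * Real.log (∫ x, Real.exp (m * G x) ∂(gam κ))

/-- expectation of `H` for the density proportional to `exp(m G)` -/
noncomputable def Wx {κ : Type} [Fintype κ] (m : ℝ) (G H : (κ → ℝ) → ℝ) : ℝ :=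
  (∫ x, H x * Real.exp (m * G x) ∂(gam κ)) / (∫ x, Real.exp (m * G x) ∂(gam κ))

theorem Tm_eq {K : Type} [Fintype K] (m : ℝ) (B : Matrix K K ℝ) (f : (K → ℝ) → ℝ) (z : K → ℝ) :
    Tm m B f z = Tx m (fun x => f (z + B.mulVec x)) := rfl

theorem Es_eq {K : Type} [Fintype K] (m : ℝ) (B : Matrix K K ℝ) (f h : (K → ℝ) → ℝ) (z : K → ℝ) :
    Es m B f h z = Wx m (fun x => f (z + B.mulVec x)) (fun x => h (z + B.mulVec x)) := rfl

/-- locally uniform exponential growth -/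
def LG {E G : Type} [NormedAddCommGroup E] [NormedAddCommGroup G] {κ : Type} [Fintype κ]
    (h : E → (κ → ℝ) → G) : Prop :=
  ∀ e0 : E, ∃ C : ℝ, ∀ e, ‖e - e0‖ ≤ 1 → ∀ x, ‖h e x‖ ≤ C * Real.exp (C * ‖x‖)

/-- `C^2` with bounded first and second derivatives -/
structure Adm {E : Type} [NormedAddCommGroup E] [NormedSpace ℝ E] (f : E → ℝ) : Prop where
  cd : ContDiff ℝ 2 f
  b1 : ∃ C : ℝ, ∀ e, ‖fderiv ℝ f e‖ ≤ C
  b2 : ∃ C : ℝ, ∀ e, ‖fderiv ℝ (fderiv ℝ f) e‖ ≤ C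

/-- the class of integrands of a step -/
structure StepFn {E : Type} [NormedAddCommGroup E] [NormedSpace ℝ E] {κ : Type} [Fintype κ]
    (F : E → (κ → ℝ) → ℝ) : Prop where
  cd : ContDiff ℝ 2 (fun p : E × (κ → ℝ) => F p.1 p.2)
  b0 : ∃ C : ℝ, ∀ e x, |F e x - F e 0| ≤ C * ‖x‖
  b1 : ∃ C : ℝ, ∀ e x, ‖fderiv ℝ (fun e' => F e' x) e‖ ≤ C * Real.exp (C * ‖x‖)
  b2 : ∃ C : ℝ, ∀ e x, ‖fderiv ℝ (fderiv ℝ (fun e' => F e' x)) e‖ ≤ C * Real.exp (C * ‖x‖)

end SKC.B
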