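import Pool.Agent.H.MP_08eaf3_pr.B.GamExp

/-!
# Part B: differentiation under the Gaussian integral
-/

set_option autoImplicit false

open MeasureTheory ProbabilityTheory Filter Topology Matrix

namespace SKC.B

theorem par_cont {E : Type} [NormedAddCommGroup E] {κ : Type} [Fintype κ]
    {G : Type} [NormedAddCommGroup G] [NormedSpace ℝ G]
    {h : E → (κ → ℝ) → G} (hc : Continuous (fun p : E × (κ → ℝ) => h p.1 p.2))
    (h0 : LG h) : Continuous (fun e => ∫ x, h e x ∂(gam κ)) := by
  rw [continuous_iff_continuousAt]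
  intro e0
  obtain ⟨C, hC⟩ := h0 e0
  have hball : ∀ᶠ e in 𝓝 e0, ‖e - e0‖ ≤ 1 := by
    filter_upwards [Metric.closedBall_mem_nhds e0 one_pos] with e he
    rwa [Metric.mem_closedBall, dist_eq_norm] at he
  refine continuousAt_of_dominated (bound := fun x => C * Real.exp (C * ‖x‖)) ?_ ?_ ?_ ?_
  · refine Filter.Eventually.of_forall fun e => ?_
    have h1 : Continuous (h e) := hc.comp (Continuous.prodMk_right e)
    exact h1.aestronglyMeasurable
  · filter_upwards [hball] with e he
    exact Filter.Eventually.of_forall fun x => hC e he x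
  · exact (integrable_exp_norm κ C).const_mul C
  · refine Filter.Eventually.of_forall fun x => ?_
    have h1 : Continuous fun e => h e x := hc.comp (Continuous.prodMk_left x)
    exact h1.continuousAt

theorem par_fderiv {E : Type} [NormedAddCommGroup E] [NormedSpace ℝ E] {κ : Type} [Fintype κ]
    {G : Type} [NormedAddCommGroup G] [NormedSpace ℝ G]
    {h : E → (κ → ℝ) → G} (hc : ContDiff ℝ 1 (fun p : E × (κ → ℝ) => h p.1 p.2)) :
    (∀ x e, HasFDerivAt (fun e' => h e' x) (fderiv ℝ (fun e' => h e' x) e) e) ∧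
      Continuous (fun p : E × (κ → ℝ) => fderiv ℝ (fun e' => h e' p.2) p.1) := by
  have h1 : ∀ x e, HasFDerivAt (fun e' => h e' x)
      ((fderiv ℝ (fun p : E × (κ → ℝ) => h p.1 p.2) (e, x)).comp
        (ContinuousLinearMap.inl ℝ E (κ → ℝ))) e := by
    intro x e
    have h2 : HasFDerivAt (fun p : E × (κ → ℝ) => h p.1 p.2)
        (fderiv ℝ (fun p : E × (κ → ℝ) => h p.1 p.2) (e, x)) (e, x) :=
      ((hc.differentiable one_ne_zero) (e, x)).hasFDerivAt
    have h3 : HasFDerivAt (fun e' : E => (e', x)) (ContinuousLinearMap.inl ℝ E (κ → ℝ)) e :=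
      hasFDerivAt_prodMk_left e x
    exact HasFDerivAt.comp e h2 h3
  refine ⟨fun x e => (h1 x e).differentiableAt.hasFDerivAt, ?_⟩
  have h3 : (fun p : E × (κ → ℝ) => fderiv ℝ (fun e' => h e' p.2) p.1) =
      fun p => (fderiv ℝ (fun p : E × (κ → ℝ) => h p.1 p.2) p).comp
        (ContinuousLinearMap.inl ℝ E (κ → ℝ)) := by
    funext p
    exact (h1 p.2 p.1).fderiv
  rw [h3]
  exact (hc.continuous_fderiv one_ne_zero).clm_comp continuous_const

/-- Differentiation under the integral sign for jointly `C^1` functions with locally uniform exponential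
growth of the function and of its derivative in the parameter.
Proof. `hasFDerivAt_integral_of_dominated_of_fderiv_le` with `s = Metric.closedBall e0 1`
(in `𝓝 e0`), `bound x = C * exp (C * ‖x‖)` from `h1` at `e0`. The derivative in the parameter
`fderiv ℝ (fun e' => h e' x) e` is jointly continuous in `(e,x)`
(`ContDiff.fderiv` with `m = 0`, or `(hc.continuous_fderiv ..)` composed with the inclusion), which gives the
measurability and, with `continuous_iff_continuousAt` and
`continuousAt_of_dominated` (same bound on the closed ball), the continuity of the integral of the derivative.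
`ContDiff ℝ 1` by `contDiff_one_iff_fderiv`. -/
theorem par1 {E : Type} [NormedAddCommGroup E] [NormedSpace ℝ E] {κ : Type} [Fintype κ]
    {G : Type} [NormedAddCommGroup G] [NormedSpace ℝ G] [CompleteSpace G]
    {h : E → (κ → ℝ) → G} (hc : ContDiff ℝ 1 (fun p : E × (κ → ℝ) => h p.1 p.2))
    (h0 : LG h) (h1 : LG (fun e x => fderiv ℝ (fun e' => h e' x) e)) :
    ContDiff ℝ 1 (fun e => ∫ x, h e x ∂(gam κ)) ∧
      ∀ e, HasFDerivAt (fun e => ∫ x, h e x ∂(gam κ))
        (∫ x, fderiv ℝ (fun e' => h e' x) e ∂(gam κ)) e := by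
  obtain ⟨hd, hcont⟩ := par_fderiv hc
  have hder : ∀ e, HasFDerivAt (fun e => ∫ x, h e x ∂(gam κ))
      (∫ x, fderiv ℝ (fun e' => h e' x) e ∂(gam κ)) e := by
    intro e0
    obtain ⟨C, hC⟩ := h1 e0
    obtain ⟨C', hC'⟩ := h0 e0
    have hce : ∀ e, Continuous (h e) := fun e => hc.continuous.comp (Continuous.prodMk_right e)
    refine hasFDerivAt_integral_of_dominated_of_fderiv_le (𝕜 := ℝ) (s := Metric.closedBall e0 1)
      (F' := fun e x => fderiv ℝ (fun e' => h e' x) e)
      (bound := fun x : κ → ℝ => C * Real.exp (C * ‖x‖)) (Metric.closedBall_mem_nhds e0 one_pos)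
      ?_ ?_ ?_ ?_ ?_ ?_
    · exact Filter.Eventually.of_forall fun e => (hce e).aestronglyMeasurable
    · exact integrable_of_exp (hce e0) ⟨C', fun x => hC' e0 (by rw [sub_self, norm_zero]; exact zero_le_one) x⟩
    · have h2 : Continuous fun x => fderiv ℝ (fun e' => h e' x) e0 :=
        hcont.comp (Continuous.prodMk_right e0)
      exact h2.aestronglyMeasurable
    · refine Filter.Eventually.of_forall fun x e he => ?_
      rw [Metric.mem_closedBall, dist_eq_norm] at he
      exact hC e he x
    · exact (integrable_exp_norm κ C).const_mul C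
    · exact Filter.Eventually.of_forall fun x e _ => hd x e
  refine ⟨?_, hder⟩
  rw [contDiff_one_iff_fderiv]
  refine ⟨fun e => (hder e).differentiableAt, ?_⟩
  have h3 : fderiv ℝ (fun e => ∫ x, h e x ∂(gam κ)) =
      fun e => ∫ x, fderiv ℝ (fun e' => h e' x) e ∂(gam κ) := by
    funext e
    exact (hder e).fderiv
  rw [h3]
  exact par_cont hcont h1

/-- continuity of a Gaussian integral in the parameter: `continuousAt_of_dominated`
with the bound of `LG h` at `e0` on the ball of radius 1. -/
theorem par0 {E : Type} [NormedAddCommGroup E] {κ : Type} [Fintype κ]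
    {G : Type} [NormedAddCommGroup G] [NormedSpace ℝ G]
    {h : E → (κ → ℝ) → G} (hc : Continuous (fun p : E × (κ → ℝ) => h p.1 p.2))
    (h0 : LG h) : Continuous (fun e => ∫ x, h e x ∂(gam κ)) := by
  exact par_cont hc h0

end SKC.B
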