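import Pool.Agent.H.MP_08eaf3_pr.Defs2
import Pool.Agent.H.MP_08eaf3_pr.B.Par

/-!
# Part B: the classes `SKC.LG` (continuous, linear growth) and `SKC.EG` (continuous, exponential growth)
are preserved by the recursion
-/

set_option autoImplicit false

open MeasureTheory ProbabilityTheory Filter Topology Matrix

namespace SKC.B

variable {K : Type} [Fintype K]

theorem norm_le_n1 (z : K → ℝ) : ‖z‖ ≤ n1 z := by
  unfold n1
  refine (pi_norm_le_iff_of_nonneg (Finset.sum_nonneg fun _ _ => abs_nonneg _)).2 fun i => ?_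
  rw [Real.norm_eq_abs]
  exact Finset.single_le_sum (f := fun i => |z i|) (fun _ _ => abs_nonneg _) (Finset.mem_univ i)

theorem n1_le_norm (z : K → ℝ) : n1 z ≤ (Fintype.card K : ℝ) * ‖z‖ := by
  unfold n1
  have h1 : ∑ c, |z c| ≤ ∑ _c : K, ‖z‖ := Finset.sum_le_sum fun c _ => by
    rw [← Real.norm_eq_abs]
    exact norm_le_pi_norm z c
  refine h1.trans (le_of_eq ?_)
  rw [Finset.sum_const, Finset.card_univ, nsmul_eq_mul]

theorem Cls_n1_nonneg (z : K → ℝ) : 0 ≤ n1 z :=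
  Finset.sum_nonneg fun _ _ => abs_nonneg _

theorem Cls_n1_zero : n1 (0 : K → ℝ) = 0 := by
  unfold n1
  simp

/-- sum of the absolute values of the entries -/
noncomputable def Cls_b (B : Matrix K K ℝ) : ℝ := ∑ c, ∑ d, |B c d|

theorem Cls_b_nonneg (B : Matrix K K ℝ) : 0 ≤ Cls_b B :=
  Finset.sum_nonneg fun _ _ => Finset.sum_nonneg fun _ _ => abs_nonneg _

theorem Cls_n1_add (z : K → ℝ) (B : Matrix K K ℝ) (x : K → ℝ) :
    n1 (z + B.mulVec x) ≤ n1 z + Cls_b B * ‖x‖ := by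
  unfold n1 Cls_b
  rw [Finset.sum_mul, ← Finset.sum_add_distrib]
  refine Finset.sum_le_sum fun c _ => ?_
  have h1 : |B.mulVec x c| ≤ (∑ d, |B c d|) * ‖x‖ := by
    rw [Finset.sum_mul]
    have h2 : B.mulVec x c = ∑ d, B c d * x d := rfl
    rw [h2]
    refine (Finset.abs_sum_le_sum_abs _ _).trans (Finset.sum_le_sum fun d _ => ?_)
    rw [abs_mul]
    refine mul_le_mul_of_nonneg_left ?_ (abs_nonneg _)
    rw [← Real.norm_eq_abs]
    exact norm_le_pi_norm x d
  have h3 : |(z + B.mulVec x) c| ≤ |z c| + |B.mulVec x c| := abs_add_le _ _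
  linarith

theorem Cls_LG_nonneg {f : (K → ℝ) → ℝ} {C : ℝ} (h : ∀ z, |f z| ≤ C * (1 + n1 z)) : 0 ≤ C := by
  have h1 := h 0
  rw [Cls_n1_zero, add_zero, mul_one] at h1
  exact (abs_nonneg _).trans h1

theorem Cls_EG_nonneg {f : (K → ℝ) → ℝ} {C : ℝ} (h : ∀ z, |f z| ≤ C * Real.exp (C * n1 z)) :
    0 ≤ C := by
  have h1 := h 0
  rw [Cls_n1_zero, mul_zero, Real.exp_zero, mul_one] at h1
  exact (abs_nonneg _).trans h1

theorem Cls_LG_bd {f : (K → ℝ) → ℝ} {C : ℝ} (h : ∀ z, |f z| ≤ C * (1 + n1 z))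
    (B : Matrix K K ℝ) (z x : K → ℝ) :
    |f (z + B.mulVec x)| ≤ C * (1 + n1 z) + C * Cls_b B * ‖x‖ := by
  have hC := Cls_LG_nonneg h
  have h1 := h (z + B.mulVec x)
  have h2 := mul_le_mul_of_nonneg_left (Cls_n1_add z B x) hC
  nlinarith

theorem Cls_EG_bd {f : (K → ℝ) → ℝ} {C : ℝ} (h : ∀ z, |f z| ≤ C * Real.exp (C * n1 z))
    (B : Matrix K K ℝ) (z x : K → ℝ) :
    |f (z + B.mulVec x)| ≤ C * Real.exp (C * n1 z + C * Cls_b B * ‖x‖) := by
  have hC := Cls_EG_nonneg h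
  refine (h _).trans (mul_le_mul_of_nonneg_left (Real.exp_le_exp.2 ?_) hC)
  have h2 := mul_le_mul_of_nonneg_left (Cls_n1_add z B x) hC
  nlinarith

theorem Cls_exp_max {a c n : ℝ} (ha : 0 ≤ a) (hn : 0 ≤ n) : a * Real.exp (c * n) ≤
    max a c * Real.exp (max a c * n) := by
  have h1 : Real.exp (c * n) ≤ Real.exp (max a c * n) :=
    Real.exp_le_exp.2 (mul_le_mul_of_nonneg_right (le_max_right _ _) hn)
  calc a * Real.exp (c * n) ≤ a * Real.exp (max a c * n) := mul_le_mul_of_nonneg_left h1 ha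
    _ ≤ max a c * Real.exp (max a c * n) :=
      mul_le_mul_of_nonneg_right (le_max_left _ _) (Real.exp_pos _).le

theorem Cls_EG_of_LG {f : (K → ℝ) → ℝ} (hf : SKC.LG f) : SKC.EG f := by
  obtain ⟨hc, C, hC⟩ := hf
  refine ⟨hc, max C 1, fun z => ?_⟩
  have h0 := Cls_LG_nonneg hC
  have h1 : C * (1 + n1 z) ≤ C * Real.exp (1 * n1 z) := by
    refine mul_le_mul_of_nonneg_left ?_ h0
    have := Real.add_one_le_exp (n1 z)
    rw [one_mul]
    linarith
  exact (hC z).trans (h1.trans (Cls_exp_max h0 (Cls_n1_nonneg z)))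

theorem Cls_EG_one : SKC.EG (fun _ : K → ℝ => (1 : ℝ)) := by
  refine ⟨continuous_const, 1, fun z => ?_⟩
  rw [abs_one, one_mul, one_mul]
  exact Real.one_le_exp (Cls_n1_nonneg z)

theorem Cls_cont (B : Matrix K K ℝ) :
    Continuous (fun p : (K → ℝ) × (K → ℝ) => p.1 + B.mulVec p.2) :=
  continuous_fst.add (continuous_const.matrix_mulVec continuous_snd)

/-- bound of the integrand -/
theorem Cls_bd {f h : (K → ℝ) → ℝ} (hf : SKC.LG f) (hh : SKC.EG h) (m : ℝ) (B : Matrix K K ℝ) :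
    ∃ D A A' : ℝ, 0 ≤ D ∧ 0 ≤ A ∧ 0 ≤ A' ∧ ∀ z x,
      |h (z + B.mulVec x) * Real.exp (m * f (z + B.mulVec x))| ≤
        D * Real.exp (A * n1 z) * Real.exp (A' * ‖x‖) := by
  obtain ⟨-, C, hC⟩ := hf
  obtain ⟨-, C', hC'⟩ := hh
  have h0 := Cls_LG_nonneg hC
  have h0' := Cls_EG_nonneg hC'
  have hb := Cls_b_nonneg B
  refine ⟨C' * Real.exp (|m| * C), C' + |m| * C, (C' + |m| * C) * Cls_b B, by positivity,
    by positivity, by positivity, fun z x => ?_⟩
  rw [abs_mul, Real.abs_exp]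
  have h1 := Cls_EG_bd hC' B z x
  have h2 : m * f (z + B.mulVec x) ≤ |m| * (C * (1 + n1 z) + C * Cls_b B * ‖x‖) := by
    refine (le_abs_self _).trans ?_
    rw [abs_mul]
    exact mul_le_mul_of_nonneg_left (Cls_LG_bd hC B z x) (abs_nonneg _)
  have h3 := mul_le_mul h1 (Real.exp_le_exp.2 h2) (Real.exp_pos _).le
    (mul_nonneg h0' (Real.exp_pos _).le)
  refine h3.trans (le_of_eq ?_)
  have e : Real.exp (C' * n1 z + C' * Cls_b B * ‖x‖) *
      Real.exp (|m| * (C * (1 + n1 z) + C * Cls_b B * ‖x‖)) =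
      Real.exp (|m| * C) * Real.exp ((C' + |m| * C) * n1 z) *
        Real.exp ((C' + |m| * C) * Cls_b B * ‖x‖) := by
    rw [← Real.exp_add, ← Real.exp_add, ← Real.exp_add]
    congr 1
    ring
  linear_combination C' * e

/-- continuity and integrability: for `f` of linear growth and `h` of exponential growth the function
`z ↦ ∫ h(z + Bx) exp(m f(z + Bx))` is continuous (`par0`), the integrand is integrable -/
theorem EG_int {f h : (K → ℝ) → ℝ} (hf : SKC.LG f) (hh : SKC.EG h) (m : ℝ) (B : Matrix K K ℝ) :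
    Continuous (fun z => ∫ x, h (z + B.mulVec x) * Real.exp (m * f (z + B.mulVec x)) ∂(gam K)) ∧
      ∀ z, Integrable (fun x => h (z + B.mulVec x) * Real.exp (m * f (z + B.mulVec x))) (gam K) := by
  obtain ⟨D, A, A', hD, hA, hA', hb⟩ := Cls_bd hf hh m B
  have hc : Continuous (fun p : (K → ℝ) × (K → ℝ) =>
      h (p.1 + B.mulVec p.2) * Real.exp (m * f (p.1 + B.mulVec p.2))) :=
    (hh.1.comp (Cls_cont B)).mul
      (Real.continuous_exp.comp (continuous_const.mul (hf.1.comp (Cls_cont B))))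
  have hLG : LG (fun (z : K → ℝ) (x : K → ℝ) =>
      h (z + B.mulVec x) * Real.exp (m * f (z + B.mulVec x))) := by
    intro e0
    refine ⟨max (D * Real.exp (A * ((Fintype.card K : ℝ) * (‖e0‖ + 1)))) A', fun e he x => ?_⟩
    have h1 : n1 e ≤ (Fintype.card K : ℝ) * (‖e0‖ + 1) := by
      refine (n1_le_norm e).trans (mul_le_mul_of_nonneg_left ?_ (Nat.cast_nonneg _))
      have h2 : ‖e‖ ≤ ‖e - e0‖ + ‖e0‖ := by
        have := norm_add_le (e - e0) e0
        rwa [sub_add_cancel] at this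
      linarith
    have h2 : D * Real.exp (A * n1 e) ≤
        D * Real.exp (A * ((Fintype.card K : ℝ) * (‖e0‖ + 1))) :=
      mul_le_mul_of_nonneg_left (Real.exp_le_exp.2 (mul_le_mul_of_nonneg_left h1 hA)) hD
    rw [Real.norm_eq_abs]
    refine (hb e x).trans ((mul_le_mul_of_nonneg_right h2 (Real.exp_pos _).le).trans ?_)
    exact Cls_exp_max (by positivity) (norm_nonneg x)
  refine ⟨par0 hc hLG, fun z => ?_⟩
  refine integrable_of_exp (hc.comp (Continuous.prodMk_right z)) ?_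
  obtain ⟨C, hC⟩ := hLG z
  exact ⟨C, fun x => hC z (by rw [sub_self, norm_zero]; exact zero_le_one) x⟩

/-- the denominator is positive and integrable -/
theorem LG_Z {f : (K → ℝ) → ℝ} (hf : SKC.LG f) (m : ℝ) (B : Matrix K K ℝ) (z : K → ℝ) :
    0 < ∫ x, Real.exp (m * f (z + B.mulVec x)) ∂(gam K) ∧
      Integrable (fun x => Real.exp (m * f (z + B.mulVec x))) (gam K) := by
  have h1 := (EG_int hf Cls_EG_one m B).2 z
  simp only [one_mul] at h1
  exact ⟨integral_exp_pos h1, h1⟩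

theorem Cls_Z_cont {f : (K → ℝ) → ℝ} (hf : SKC.LG f) (m : ℝ) (B : Matrix K K ℝ) :
    Continuous (fun z => ∫ x, Real.exp (m * f (z + B.mulVec x)) ∂(gam K)) := by
  have h1 := (EG_int hf Cls_EG_one m B).1
  simp only [one_mul] at h1
  exact h1

theorem Cls_exp_int (C : ℝ) : 0 < ∫ x : K → ℝ, Real.exp (C * ‖x‖) ∂(gam K) :=
  integral_exp_pos (integrable_exp_norm K C)

/-- two sided bound of the denominator -/
theorem Cls_Z_bd {f : (K → ℝ) → ℝ} {C : ℝ} (hf : SKC.LG f) (hC : ∀ z, |f z| ≤ C * (1 + n1 z))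
    (m : ℝ) (B : Matrix K K ℝ) (z : K → ℝ) :
    Real.exp (-(|m| * C * (1 + n1 z))) * (∫ x, Real.exp (-(|m| * C * Cls_b B) * ‖x‖) ∂(gam K)) ≤
      ∫ x, Real.exp (m * f (z + B.mulVec x)) ∂(gam K) ∧
    ∫ x, Real.exp (m * f (z + B.mulVec x)) ∂(gam K) ≤
      Real.exp (|m| * C * (1 + n1 z)) * (∫ x, Real.exp (|m| * C * Cls_b B * ‖x‖) ∂(gam K)) := by
  obtain ⟨-, hi⟩ := LG_Z hf m B z
  have h2 : ∀ x, |m * f (z + B.mulVec x)| ≤
      |m| * C * (1 + n1 z) + |m| * C * Cls_b B * ‖x‖ := by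
    intro x
    rw [abs_mul]
    have := mul_le_mul_of_nonneg_left (Cls_LG_bd hC B z x) (abs_nonneg m)
    linarith
  constructor
  · rw [← integral_const_mul]
    refine integral_mono ((integrable_exp_norm K _).const_mul _) hi fun x => ?_
    change Real.exp (-(|m| * C * (1 + n1 z))) * Real.exp (-(|m| * C * Cls_b B) * ‖x‖) ≤ _
    rw [← Real.exp_add]
    refine Real.exp_le_exp.2 ?_
    have := neg_abs_le (m * f (z + B.mulVec x))
    have := h2 x
    linarith
  · rw [← integral_const_mul]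
    refine integral_mono hi ((integrable_exp_norm K _).const_mul _) fun x => ?_
    change _ ≤ Real.exp (|m| * C * (1 + n1 z)) * Real.exp (|m| * C * Cls_b B * ‖x‖)
    rw [← Real.exp_add]
    refine Real.exp_le_exp.2 ?_
    have := le_abs_self (m * f (z + B.mulVec x))
    have := h2 x
    linarith

/-- `Tm` preserves linear growth. With `|f(z + Bx)| ≤ C(1 + n1 z) + C'‖x‖`:
`exp(-|m|C(1+n1 z)) a ≤ ∫ exp(m f(z+Bx)) ≤ exp(|m|C(1+n1 z)) b`, `a = ∫exp(-|m|C'‖x‖) > 0`,
`b = ∫exp(|m|C'‖x‖)`; take the logarithm. `m = 0`: `|∫ f(z+Bx)| ≤ C(1+n1 z) + ∫ C'‖x‖`. -/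
theorem LG_Tm {f : (K → ℝ) → ℝ} (hf : SKC.LG f) (m : ℝ) (B : Matrix K K ℝ) : SKC.LG (Tm m B f) := by
  obtain ⟨C, hC⟩ := hf.2
  have h0 := Cls_LG_nonneg hC
  have hb := Cls_b_nonneg B
  by_cases hm : m = 0
  · subst hm
    have e1 : Tm 0 B f = fun z => ∫ x, f (z + B.mulVec x) ∂(gam K) := by
      funext z
      simp [Tm]
    rw [e1]
    obtain ⟨h1, h2⟩ := EG_int hf (Cls_EG_of_LG hf) 0 B
    simp only [zero_mul, Real.exp_zero, mul_one] at h1 h2
    have hin : Integrable (fun x : K → ℝ => ‖x‖) (gam K) := by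
      refine integrable_of_exp continuous_norm ⟨1, fun x => ?_⟩
      rw [norm_norm, one_mul, one_mul]
      have := Real.add_one_le_exp ‖x‖
      linarith
    refine ⟨h1, C + C * Cls_b B * ∫ x : K → ℝ, ‖x‖ ∂(gam K), fun z => ?_⟩
    have hI : 0 ≤ ∫ x : K → ℝ, ‖x‖ ∂(gam K) := integral_nonneg fun x => norm_nonneg x
    have h3 : |∫ x, f (z + B.mulVec x) ∂(gam K)| ≤
        ∫ x : K → ℝ, (C * (1 + n1 z) + C * Cls_b B * ‖x‖) ∂(gam K) := by
      rw [← Real.norm_eq_abs]
      refine norm_integral_le_of_norm_le ((integrable_const _).add (hin.const_mul _))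
        (Filter.Eventually.of_forall fun x => ?_)
      rw [Real.norm_eq_abs]
      exact Cls_LG_bd hC B z x
    rw [integral_add (integrable_const _) (hin.const_mul _), integral_const, integral_const_mul,
      probReal_univ, one_smul] at h3
    have h4 := Cls_n1_nonneg z
    have h5 : 0 ≤ C * Cls_b B * (∫ x : K → ℝ, ‖x‖ ∂(gam K)) * n1 z := by positivity
    refine h3.trans ?_
    nlinarith
  · have e1 : Tm m B f = fun z => (1 / m) *
        Real.log (∫ x, Real.exp (m * f (z + B.mulVec x)) ∂(gam K)) := by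
      funext z
      simp [Tm, hm]
    rw [e1]
    refine ⟨continuous_const.mul ((Cls_Z_cont hf m B).log fun z => (LG_Z hf m B z).1.ne'), ?_⟩
    obtain ⟨aa, haa⟩ : ∃ aa, aa = ∫ x : K → ℝ, Real.exp (-(|m| * C * Cls_b B) * ‖x‖) ∂(gam K) :=
      ⟨_, rfl⟩
    obtain ⟨bb, hbb⟩ : ∃ bb, bb = ∫ x : K → ℝ, Real.exp (|m| * C * Cls_b B * ‖x‖) ∂(gam K) :=
      ⟨_, rfl⟩
    have ha0 : 0 < aa := by
      rw [haa]
      exact Cls_exp_int _
    have hb0 : 0 < bb := by
      rw [hbb]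
      exact Cls_exp_int _
    refine ⟨|1 / m| * (|m| * C + |Real.log aa| + |Real.log bb|), fun z => ?_⟩
    obtain ⟨h1, h2⟩ := Cls_Z_bd hf hC m B z
    have hZ := (LG_Z hf m B z).1
    rw [← haa] at h1
    rw [← hbb] at h2
    have l1 := Real.log_le_log (by positivity) h1
    have l2 := Real.log_le_log hZ h2
    rw [Real.log_mul (Real.exp_pos _).ne' ha0.ne', Real.log_exp] at l1
    rw [Real.log_mul (Real.exp_pos _).ne' hb0.ne', Real.log_exp] at l2
    have hn := Cls_n1_nonneg z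
    have hla := neg_abs_le (Real.log aa)
    have hlb := le_abs_self (Real.log bb)
    have h3 : |Real.log (∫ x, Real.exp (m * f (z + B.mulVec x)) ∂(gam K))| ≤
        (|m| * C + |Real.log aa| + |Real.log bb|) * (1 + n1 z) := by
      have p1 : 0 ≤ |Real.log aa| * n1 z := by positivity
      have p2 : 0 ≤ |Real.log bb| * n1 z := by positivity
      have p3 : 0 ≤ |Real.log aa| := abs_nonneg _
      have p4 : 0 ≤ |Real.log bb| := abs_nonneg _
      rw [abs_le]
      constructor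
      · nlinarith
      · nlinarith
    rw [abs_mul, mul_assoc]
    exact mul_le_mul_of_nonneg_left h3 (abs_nonneg _)

theorem LG_PsiL {F : (K → ℝ) → ℝ} (hF : SKC.LG F) (β : K → ℝ) (l : List (Step K)) :
    SKC.LG (PsiL β l F) := by
  induction l with
  | nil => exact hF
  | cons s l ih => exact LG_Tm ih _ _

/-- `Es` preserves exponential growth: numerator `≤ exp(C(1 + n1 z)) b`, denominator `≥ exp(-C(1+n1 z)) a` -/
theorem EG_Es {f h : (K → ℝ) → ℝ} (hf : SKC.LG f) (hh : SKC.EG h) (m : ℝ) (B : Matrix K K ℝ) :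
    SKC.EG (Es m B f h) := by
  obtain ⟨C, hC⟩ := hf.2
  have h0 := Cls_LG_nonneg hC
  obtain ⟨D, A, A', hD, hA, hA', hb⟩ := Cls_bd hf hh m B
  obtain ⟨hc, hi⟩ := EG_int hf hh m B
  obtain ⟨aa, haa⟩ : ∃ aa, aa = ∫ x : K → ℝ, Real.exp (-(|m| * C * Cls_b B) * ‖x‖) ∂(gam K) :=
    ⟨_, rfl⟩
  obtain ⟨bb, hbb⟩ : ∃ bb, bb = ∫ x : K → ℝ, Real.exp (A' * ‖x‖) ∂(gam K) := ⟨_, rfl⟩
  have ha0 : 0 < aa := by
    rw [haa]
    exact Cls_exp_int _
  have hb0 : 0 < bb := by
    rw [hbb]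
    exact Cls_exp_int _
  refine ⟨hc.div (Cls_Z_cont hf m B) fun z => (LG_Z hf m B z).1.ne',
    max (D * bb * Real.exp (|m| * C) / aa) (A + |m| * C), fun z => ?_⟩
  have h1 := (Cls_Z_bd hf hC m B z).1
  have hZ := (LG_Z hf m B z).1
  rw [← haa] at h1
  have h2 : |∫ x, h (z + B.mulVec x) * Real.exp (m * f (z + B.mulVec x)) ∂(gam K)| ≤
      D * Real.exp (A * n1 z) * bb := by
    rw [← Real.norm_eq_abs, hbb, ← integral_const_mul]
    refine norm_integral_le_of_norm_le ((integrable_exp_norm K _).const_mul _)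
      (Filter.Eventually.of_forall fun x => ?_)
    rw [Real.norm_eq_abs]
    exact hb z x
  have h3 : |Es m B f h z| ≤ D * Real.exp (A * n1 z) * bb /
      (Real.exp (-(|m| * C * (1 + n1 z))) * aa) := by
    unfold Es
    rw [abs_div, abs_of_pos hZ]
    exact div_le_div₀ (by positivity) h2 (by positivity) h1
  have h4 : D * Real.exp (A * n1 z) * bb / (Real.exp (-(|m| * C * (1 + n1 z))) * aa) =
      D * bb * Real.exp (|m| * C) / aa * Real.exp ((A + |m| * C) * n1 z) := by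
    have e1 : Real.exp ((A + |m| * C) * n1 z) = Real.exp (A * n1 z) * Real.exp (|m| * C * n1 z) := by
      rw [← Real.exp_add]
      congr 1
      ring
    have e2 : Real.exp (-(|m| * C * (1 + n1 z))) =
        (Real.exp (|m| * C) * Real.exp (|m| * C * n1 z))⁻¹ := by
      rw [← Real.exp_add, ← Real.exp_neg]
      congr 1
      ring
    rw [e1, e2]
    have p1 := (Real.exp_pos (|m| * C)).ne'
    have p2 := (Real.exp_pos (|m| * C * n1 z)).ne'
    field_simp
  rw [h4] at h3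
  exact h3.trans (Cls_exp_max (by positivity) (Cls_n1_nonneg z))

theorem EG_ChE {F h : (K → ℝ) → ℝ} (hF : SKC.LG F) (hh : SKC.EG h) (β : K → ℝ) (l : List (Step K)) :
    SKC.EG (ChE β l F h) := by
  induction l with
  | nil => exact hh
  | cons s l ih => exact EG_Es (LG_PsiL hF β l) ih _ _

/-- monotonicity of `Tm` for `m ≥ 0` -/
theorem Tm_mono {f g : (K → ℝ) → ℝ} (hf : SKC.LG f) (hg : SKC.LG g) {m : ℝ} (hm : 0 ≤ m)
    (B : Matrix K K ℝ) (h : ∀ z, f z ≤ g z) (z : K → ℝ) : Tm m B f z ≤ Tm m B g z := by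
  unfold Tm
  split_ifs with h0
  · have h1 := (EG_int hf (Cls_EG_of_LG hf) 0 B).2 z
    have h2 := (EG_int hg (Cls_EG_of_LG hg) 0 B).2 z
    simp only [zero_mul, Real.exp_zero, mul_one] at h1 h2
    exact integral_mono h1 h2 fun x => h _
  · obtain ⟨p1, i1⟩ := LG_Z hf m B z
    obtain ⟨-, i2⟩ := LG_Z hg m B z
    refine mul_le_mul_of_nonneg_left ?_ (by positivity)
    refine Real.log_le_log p1 (integral_mono i1 i2 fun x => ?_)
    exact Real.exp_le_exp.2 (mul_le_mul_of_nonneg_left (h _) hm)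

theorem PsiL_mono {F G : (K → ℝ) → ℝ} (hF : SKC.LG F) (hG : SKC.LG G) (β : K → ℝ)
    (l : List (Step K)) (hl : ∀ a ∈ l, 0 ≤ a.1) (h : ∀ z, F z ≤ G z) (z : K → ℝ) :
    PsiL β l F z ≤ PsiL β l G z := by
  induction l generalizing z with
  | nil => exact h z
  | cons s l ih =>
    exact Tm_mono (LG_PsiL hF β l) (LG_PsiL hG β l) (hl s (by simp)) _
      (fun z => ih (fun a ha => hl a (by simp [ha])) z) z

/-- the terminal function: `|log ∑_s exp(..)| ≤ log card + n1 z + |t| max|φ|` (lower bound: one term) -/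
theorem LG_psiEnd [DecidableEq K] (φ : (K → Bool) → ℝ) (t : ℝ) : SKC.LG (psiEnd φ t) := by
  have hpos : ∀ z : K → ℝ,
      0 < ∑ s : K → Bool, Real.exp ((∑ c, sg (s c) * z c) + t * φ s) := fun z =>
    Finset.sum_pos (fun s _ => Real.exp_pos _) Finset.univ_nonempty
  have hcont : Continuous fun z : K → ℝ =>
      ∑ s : K → Bool, Real.exp ((∑ c, sg (s c) * z c) + t * φ s) := by fun_prop
  refine ⟨hcont.log fun z => (hpos z).ne', ?_⟩
  obtain ⟨M, hM⟩ : ∃ M, M = ∑ s : K → Bool, |φ s| := ⟨_, rfl⟩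
  have hM0 : 0 ≤ M := by
    rw [hM]
    exact Finset.sum_nonneg fun _ _ => abs_nonneg _
  have hexp : ∀ (z : K → ℝ) (s : K → Bool),
      |(∑ c, sg (s c) * z c) + t * φ s| ≤ n1 z + |t| * M := by
    intro z s
    refine (abs_add_le _ _).trans (add_le_add ?_ ?_)
    · unfold n1
      refine (Finset.abs_sum_le_sum_abs _ _).trans (Finset.sum_le_sum fun c _ => ?_)
      rw [abs_mul]
      have : |sg (s c)| = 1 := by
        unfold sg
        split_ifs <;> simp
      rw [this, one_mul]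
    · rw [abs_mul]
      refine mul_le_mul_of_nonneg_left ?_ (abs_nonneg _)
      rw [hM]
      exact Finset.single_le_sum (f := fun s => |φ s|) (fun _ _ => abs_nonneg _)
        (Finset.mem_univ s)
  obtain ⟨N, hN⟩ : ∃ N : ℝ, N = (Fintype.card (K → Bool) : ℝ) := ⟨_, rfl⟩
  have hN1 : 1 ≤ N := by
    rw [hN]
    exact_mod_cast Fintype.card_pos
  refine ⟨1 + Real.log N + |t| * M, fun z => ?_⟩
  unfold psiEnd
  have hn := Cls_n1_nonneg z
  have hlN : 0 ≤ Real.log N := Real.log_nonneg hN1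
  have up : Real.log (∑ s : K → Bool, Real.exp ((∑ c, sg (s c) * z c) + t * φ s)) ≤
      Real.log N + (n1 z + |t| * M) := by
    have h1 : ∑ s : K → Bool, Real.exp ((∑ c, sg (s c) * z c) + t * φ s) ≤
        N * Real.exp (n1 z + |t| * M) := by
      have h2 : ∑ s : K → Bool, Real.exp ((∑ c, sg (s c) * z c) + t * φ s) ≤
          ∑ _s : K → Bool, Real.exp (n1 z + |t| * M) := Finset.sum_le_sum fun s _ =>
        Real.exp_le_exp.2 ((le_abs_self _).trans (hexp z s))
      rw [Finset.sum_const, Finset.card_univ, nsmul_eq_mul, ← hN] at h2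
      exact h2
    have h2 := Real.log_le_log (hpos z) h1
    rwa [Real.log_mul (by linarith) (Real.exp_pos _).ne', Real.log_exp] at h2
  have lo : -(n1 z + |t| * M) ≤
      Real.log (∑ s : K → Bool, Real.exp ((∑ c, sg (s c) * z c) + t * φ s)) := by
    rw [Real.le_log_iff_exp_le (hpos z)]
    have h1 : Real.exp (-(n1 z + |t| * M)) ≤
        Real.exp ((∑ c, sg ((fun _ => true : K → Bool) c) * z c) + t * φ (fun _ => true)) := by
      refine Real.exp_le_exp.2 ?_
      have h2 := hexp z (fun _ => true)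
      have h3 := neg_abs_le ((∑ c, sg ((fun _ => true : K → Bool) c) * z c) +
        t * φ (fun _ => true))
      linarith
    refine h1.trans ?_
    exact Finset.single_le_sum
      (f := fun s : K → Bool => Real.exp ((∑ c, sg (s c) * z c) + t * φ s))
      (fun _ _ => (Real.exp_pos _).le) (Finset.mem_univ _)
  have p1 : 0 ≤ |t| * M := by positivity
  have p2 : 0 ≤ Real.log N * n1 z := by positivity
  have p3 : 0 ≤ |t| * M * n1 z := by positivity
  rw [abs_le]
  constructor <;> nlinarith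

theorem LG_F0 [DecidableEq K] : SKC.LG (F0 (K := K)) :=
  LG_psiEnd _ _

end SKC.B
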