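import Pool.Agent.H.MP_08eaf3_pr.B.Base

/-!
# Part B: composition of an admissible function with `e ↦ e + s(e) L0 x`
-/

set_option autoImplicit false

open MeasureTheory ProbabilityTheory Filter Topology Matrix

namespace SKC.B

variable {E : Type} [NormedAddCommGroup E] [NormedSpace ℝ E] {κ : Type} [Fintype κ]

theorem comp_g_hasFDerivAt {s : E → ℝ} (hs : ContDiff ℝ 2 s) (a e : E) :
    HasFDerivAt (fun e' => e' + s e' • a)
      (ContinuousLinearMap.id ℝ E + (fderiv ℝ s e).smulRight a) e := by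
  have h1 : HasFDerivAt s (fderiv ℝ s e) e :=
    ((hs.differentiable (by norm_num)) e).hasFDerivAt
  exact (hasFDerivAt_id e).add (h1.smul_const a)

theorem comp_fderiv {f : E → ℝ} (hf : ContDiff ℝ 2 f) {s : E → ℝ} (hs : ContDiff ℝ 2 s)
    (a e : E) : fderiv ℝ (fun e' => f (e' + s e' • a)) e =
      (fderiv ℝ f (e + s e • a)).comp
        (ContinuousLinearMap.id ℝ E + (fderiv ℝ s e).smulRight a) := by
  have h1 : HasFDerivAt f (fderiv ℝ f (e + s e • a)) (e + s e • a) :=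
    ((hf.differentiable (by norm_num)) _).hasFDerivAt
  exact (h1.comp e (comp_g_hasFDerivAt hs a e)).fderiv

theorem comp_A_norm {s : E → ℝ} {C1 : ℝ} (h1 : ∀ e, ‖fderiv ℝ s e‖ ≤ C1) (a e : E) :
    ‖ContinuousLinearMap.id ℝ E + (fderiv ℝ s e).smulRight a‖ ≤ 1 + C1 * ‖a‖ := by
  refine (norm_add_le _ _).trans (add_le_add ContinuousLinearMap.norm_id_le ?_)
  rw [ContinuousLinearMap.norm_smulRight_apply]
  exact mul_le_mul_of_nonneg_right (h1 e) (norm_nonneg _)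

theorem comp_fderiv2_norm {f : E → ℝ} (hf : ContDiff ℝ 2 f) {s : E → ℝ} (hs : ContDiff ℝ 2 s)
    {B1 B2 C1 C2 : ℝ} (hB1 : ∀ e, ‖fderiv ℝ f e‖ ≤ B1) (hB2 : ∀ e, ‖fderiv ℝ (fderiv ℝ f) e‖ ≤ B2)
    (h1 : ∀ e, ‖fderiv ℝ s e‖ ≤ C1) (h2 : ∀ e, ‖fderiv ℝ (fderiv ℝ s) e‖ ≤ C2) (a e : E) :
    ‖fderiv ℝ (fderiv ℝ (fun e' => f (e' + s e' • a))) e‖ ≤
      B1 * (C2 * ‖a‖) + B2 * (1 + C1 * ‖a‖) * (1 + C1 * ‖a‖) := by
  have hC1 : 0 ≤ C1 := (norm_nonneg _).trans (h1 0)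
  have hC2 : 0 ≤ C2 := (norm_nonneg (fderiv ℝ (fderiv ℝ s) 0)).trans (h2 0)
  have hB1' : 0 ≤ B1 := (norm_nonneg _).trans (hB1 0)
  have hB2' : 0 ≤ B2 := (norm_nonneg (fderiv ℝ (fderiv ℝ f) 0)).trans (hB2 0)
  have hfun : fderiv ℝ (fun e' => f (e' + s e' • a)) = fun e =>
      (fderiv ℝ f (e + s e • a)).comp
        (ContinuousLinearMap.id ℝ E + (fderiv ℝ s e).smulRight a) := by
    funext e
    exact comp_fderiv hf hs a e
  have hf1 : Differentiable ℝ (fderiv ℝ f) :=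
    (hf.fderiv_right (m := 1) (by norm_num)).differentiable (by norm_num)
  have hs1 : Differentiable ℝ (fderiv ℝ s) :=
    (hs.fderiv_right (m := 1) (by norm_num)).differentiable (by norm_num)
  -- derivative of the outer factor
  have hc : HasFDerivAt (fun e => fderiv ℝ f (e + s e • a))
      ((fderiv ℝ (fderiv ℝ f) (e + s e • a)).comp
        (ContinuousLinearMap.id ℝ E + (fderiv ℝ s e).smulRight a)) e :=
    ((hf1 (e + s e • a)).hasFDerivAt).comp e (comp_g_hasFDerivAt hs a e)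
  -- derivative of the inner factor
  have hd : HasFDerivAt (fun e => ContinuousLinearMap.id ℝ E + (fderiv ℝ s e).smulRight a)
      (((ContinuousLinearMap.smulRightL ℝ E E).flip a).comp (fderiv ℝ (fderiv ℝ s) e)) e := by
    have h3 : HasFDerivAt (fun e => (ContinuousLinearMap.smulRightL ℝ E E).flip a
        (fderiv ℝ s e)) (((ContinuousLinearMap.smulRightL ℝ E E).flip a).comp
          (fderiv ℝ (fderiv ℝ s) e)) e :=
      ((ContinuousLinearMap.smulRightL ℝ E E).flip a).hasFDerivAt.comp e (hs1 e).hasFDerivAt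
    exact h3.const_add (ContinuousLinearMap.id ℝ E)
  have hcd := hc.clm_comp hd
  rw [hfun, hcd.fderiv]
  have hA := comp_A_norm h1 a e
  have hA0 : 0 ≤ 1 + C1 * ‖a‖ := by positivity
  refine ContinuousLinearMap.opNorm_le_bound _ (by positivity) ?_
  intro v
  have e1 : ((((ContinuousLinearMap.compL ℝ E E ℝ) (fderiv ℝ f (e + s e • a))).comp
      (((ContinuousLinearMap.smulRightL ℝ E E).flip a).comp (fderiv ℝ (fderiv ℝ s) e)) +
      ((ContinuousLinearMap.compL ℝ E E ℝ).flip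
        (ContinuousLinearMap.id ℝ E + (fderiv ℝ s e).smulRight a)).comp
      ((fderiv ℝ (fderiv ℝ f) (e + s e • a)).comp
        (ContinuousLinearMap.id ℝ E + (fderiv ℝ s e).smulRight a))) v) =
      (fderiv ℝ f (e + s e • a)).comp (((fderiv ℝ (fderiv ℝ s) e) v).smulRight a) +
      ((fderiv ℝ (fderiv ℝ f) (e + s e • a))
        ((ContinuousLinearMap.id ℝ E + (fderiv ℝ s e).smulRight a) v)).comp
        (ContinuousLinearMap.id ℝ E + (fderiv ℝ s e).smulRight a) := rfl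
  rw [e1]
  refine (norm_add_le _ _).trans ?_
  have n1 : ‖(fderiv ℝ f (e + s e • a)).comp (((fderiv ℝ (fderiv ℝ s) e) v).smulRight a)‖ ≤
      B1 * (C2 * ‖v‖ * ‖a‖) := by
    refine (ContinuousLinearMap.opNorm_comp_le _ _).trans ?_
    rw [ContinuousLinearMap.norm_smulRight_apply]
    refine mul_le_mul (hB1 _) (mul_le_mul_of_nonneg_right ?_ (norm_nonneg _)) (by positivity) hB1'
    exact ((fderiv ℝ (fderiv ℝ s) e).le_opNorm v).trans
      (mul_le_mul_of_nonneg_right (h2 e) (norm_nonneg _))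
  have n2 : ‖((fderiv ℝ (fderiv ℝ f) (e + s e • a))
        ((ContinuousLinearMap.id ℝ E + (fderiv ℝ s e).smulRight a) v)).comp
        (ContinuousLinearMap.id ℝ E + (fderiv ℝ s e).smulRight a)‖ ≤
      B2 * ((1 + C1 * ‖a‖) * ‖v‖) * (1 + C1 * ‖a‖) := by
    refine (ContinuousLinearMap.opNorm_comp_le _ _).trans ?_
    refine mul_le_mul ?_ hA (norm_nonneg _) (by positivity)
    refine ((fderiv ℝ (fderiv ℝ f) (e + s e • a)).le_opNorm _).trans ?_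
    refine mul_le_mul (hB2 _) ?_ (norm_nonneg _) hB2'
    exact (ContinuousLinearMap.le_opNorm _ v).trans
      (mul_le_mul_of_nonneg_right hA (norm_nonneg _))
  refine (add_le_add n1 n2).trans (le_of_eq ?_)
  ring

/-- If `f` is `Adm`, `s : E → ℝ` is `C^2` with bounded `s, Ds, D²s` and `L0` is a fixed continuous linear map, then
`F e x = f (e + s e • L0 x)` is a `StepFn`.
Proof. With `g e = e + s e • L0 x` (for fixed `x`): `Dg(e) v = v + (Ds(e) v) • L0 x`, so `‖Dg‖ ≤ 1 + C‖x‖`;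
`D²g(e) v w = (D²s(e) v w) • L0 x`, `‖D²g‖ ≤ C‖x‖`. Then `|f(g e) - f(e)| ≤ C ‖s e • L0 x‖ ≤ C C‖x‖`
(`f` is Lipschitz; at `x = 0` `F e 0 = f e`), `‖D(f∘g)‖ ≤ C (1 + C‖x‖)`,
`D²(f∘g) v w = D²f(g e)(Dg v)(Dg w) + Df(g e)(D²g v w)`, so
`‖D²(f∘g)‖ ≤ C (1+C‖x‖)^2 + C C ‖x‖`; finally `1 + r ≤ exp r`. Joint smoothness: composition of `ContDiff` maps. -/
theorem stepFn_comp {f : E → ℝ} (hf : Adm f) {s : E → ℝ} (hs : ContDiff ℝ 2 s)
    (h0 : ∃ C : ℝ, ∀ e, |s e| ≤ C) (h1 : ∃ C : ℝ, ∀ e, ‖fderiv ℝ s e‖ ≤ C)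
    (h2 : ∃ C : ℝ, ∀ e, ‖fderiv ℝ (fderiv ℝ s) e‖ ≤ C) (L0 : (κ → ℝ) →L[ℝ] E) :
    StepFn (fun e x => f (e + s e • L0 x)) := by
  obtain ⟨B1, hB1⟩ := hf.b1
  obtain ⟨B2, hB2⟩ := hf.b2
  obtain ⟨C0, hC0⟩ := h0
  obtain ⟨C1, hC1⟩ := h1
  obtain ⟨C2, hC2⟩ := h2
  have pB1 : 0 ≤ B1 := (norm_nonneg _).trans (hB1 0)
  have pB2 : 0 ≤ B2 := (norm_nonneg (fderiv ℝ (fderiv ℝ f) 0)).trans (hB2 0)
  have pC0 : 0 ≤ C0 := (abs_nonneg _).trans (hC0 0)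
  have pC1 : 0 ≤ C1 := (norm_nonneg _).trans (hC1 0)
  have pC2 : 0 ≤ C2 := (norm_nonneg (fderiv ℝ (fderiv ℝ s) 0)).trans (hC2 0)
  have pL : 0 ≤ ‖L0‖ := norm_nonneg _
  have hL : ∀ x, ‖L0 x‖ ≤ ‖L0‖ * ‖x‖ := fun x => L0.le_opNorm x
  refine ⟨?_, ⟨B1 * (C0 * ‖L0‖), ?_⟩, ⟨B1 + C1 * ‖L0‖, ?_⟩,
    ⟨B1 * C2 + B2 + 2 * (C1 * ‖L0‖) + ‖L0‖, ?_⟩⟩
  · exact hf.cd.comp (contDiff_fst.add ((hs.comp contDiff_fst).smul
      (L0.contDiff.comp contDiff_snd)))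
  · intro e x
    have h3 := Convex.norm_image_sub_le_of_norm_fderiv_le (𝕜 := ℝ) (f := f) (C := B1)
      (s := Set.univ) (x := e + s e • L0 0) (y := e + s e • L0 x)
      (fun y _ => (hf.cd.differentiable (by norm_num)) y) (fun y _ => hB1 y) convex_univ
      (Set.mem_univ _) (Set.mem_univ _)
    rw [Real.norm_eq_abs] at h3
    refine h3.trans ?_
    have h4 : e + s e • L0 x - (e + s e • L0 0) = s e • L0 x := by
      rw [map_zero, smul_zero, add_zero, add_sub_cancel_left]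
    rw [h4, norm_smul, Real.norm_eq_abs]
    calc B1 * (|s e| * ‖L0 x‖) ≤ B1 * (C0 * (‖L0‖ * ‖x‖)) := by
          gcongr
          · exact hC0 e
          · exact hL x
      _ = B1 * (C0 * ‖L0‖) * ‖x‖ := by ring
  · intro e x
    have ht : 0 ≤ ‖x‖ := norm_nonneg _
    rw [comp_fderiv hf.cd hs]
    have h3 : ‖L0 x‖ ≤ ‖L0‖ * ‖x‖ := hL x
    calc ‖(fderiv ℝ f (e + s e • L0 x)).comp
          (ContinuousLinearMap.id ℝ E + (fderiv ℝ s e).smulRight (L0 x))‖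
        ≤ ‖fderiv ℝ f (e + s e • L0 x)‖ *
          ‖ContinuousLinearMap.id ℝ E + (fderiv ℝ s e).smulRight (L0 x)‖ :=
          ContinuousLinearMap.opNorm_comp_le _ _
      _ ≤ B1 * (1 + C1 * ‖L0 x‖) := mul_le_mul (hB1 _) (comp_A_norm hC1 _ _) (norm_nonneg _) pB1
      _ ≤ B1 * (1 + C1 * (‖L0‖ * ‖x‖)) := by gcongr
      _ ≤ B1 * Real.exp ((B1 + C1 * ‖L0‖) * ‖x‖) := by
          refine mul_le_mul_of_nonneg_left ?_ pB1
          have h4 := Real.add_one_le_exp ((B1 + C1 * ‖L0‖) * ‖x‖)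
          have h5 : C1 * (‖L0‖ * ‖x‖) ≤ (B1 + C1 * ‖L0‖) * ‖x‖ := by
            nlinarith [mul_nonneg pB1 ht]
          linarith
      _ ≤ (B1 + C1 * ‖L0‖) * Real.exp ((B1 + C1 * ‖L0‖) * ‖x‖) := by
          refine mul_le_mul_of_nonneg_right ?_ (Real.exp_pos _).le
          nlinarith [mul_nonneg pC1 pL]
  · intro e x
    have ht : 0 ≤ ‖x‖ := norm_nonneg _
    refine (comp_fderiv2_norm hf.cd hs hB1 hB2 hC1 hC2 (L0 x) e).trans ?_
    have h3 : ‖L0 x‖ ≤ ‖L0‖ * ‖x‖ := hL x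
    obtain ⟨K, hK⟩ : ∃ K, K = B1 * C2 + B2 + 2 * (C1 * ‖L0‖) + ‖L0‖ := ⟨_, rfl⟩
    rw [← hK]
    have p1 : 0 ≤ B1 * C2 := mul_nonneg pB1 pC2
    have p2 : 0 ≤ C1 * ‖L0‖ := mul_nonneg pC1 pL
    have k1 : ‖L0‖ ≤ K := by rw [hK]; linarith
    have k2 : 2 * (C1 * ‖L0‖) ≤ K := by rw [hK]; linarith
    have k3 : B1 * C2 + B2 ≤ K := by rw [hK]; linarith
    have e1 : ‖L0‖ * ‖x‖ ≤ Real.exp (K * ‖x‖) := by
      have h4 := Real.add_one_le_exp (K * ‖x‖)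
      have h5 : ‖L0‖ * ‖x‖ ≤ K * ‖x‖ := mul_le_mul_of_nonneg_right k1 ht
      linarith
    have e2 : (1 + C1 * (‖L0‖ * ‖x‖)) * (1 + C1 * (‖L0‖ * ‖x‖)) ≤ Real.exp (K * ‖x‖) := by
      have h4 := Real.add_one_le_exp (C1 * ‖L0‖ * ‖x‖)
      have h5 : 1 + C1 * (‖L0‖ * ‖x‖) ≤ Real.exp (C1 * ‖L0‖ * ‖x‖) := by
        have h6 : C1 * (‖L0‖ * ‖x‖) = C1 * ‖L0‖ * ‖x‖ := by ring
        rw [h6]
        linarith
      have h7 : 0 ≤ 1 + C1 * (‖L0‖ * ‖x‖) := by positivity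
      calc (1 + C1 * (‖L0‖ * ‖x‖)) * (1 + C1 * (‖L0‖ * ‖x‖))
          ≤ Real.exp (C1 * ‖L0‖ * ‖x‖) * Real.exp (C1 * ‖L0‖ * ‖x‖) :=
            mul_le_mul h5 h5 h7 (Real.exp_pos _).le
        _ = Real.exp (2 * (C1 * ‖L0‖) * ‖x‖) := by rw [← Real.exp_add]; ring_nf
        _ ≤ Real.exp (K * ‖x‖) := by
            apply Real.exp_le_exp.2
            exact mul_le_mul_of_nonneg_right k2 ht
    calc B1 * (C2 * ‖L0 x‖) + B2 * (1 + C1 * ‖L0 x‖) * (1 + C1 * ‖L0 x‖)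
        = B1 * C2 * ‖L0 x‖ + B2 * ((1 + C1 * ‖L0 x‖) * (1 + C1 * ‖L0 x‖)) := by ring
      _ ≤ B1 * C2 * (‖L0‖ * ‖x‖) +
          B2 * ((1 + C1 * (‖L0‖ * ‖x‖)) * (1 + C1 * (‖L0‖ * ‖x‖))) := by
          gcongr
      _ ≤ B1 * C2 * Real.exp (K * ‖x‖) + B2 * Real.exp (K * ‖x‖) :=
          add_le_add (mul_le_mul_of_nonneg_left e1 p1) (mul_le_mul_of_nonneg_left e2 pB2)
      _ = (B1 * C2 + B2) * Real.exp (K * ‖x‖) := by ring
      _ ≤ K * Real.exp (K * ‖x‖) := mul_le_mul_of_nonneg_right k3 (Real.exp_pos _).le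

/-- translation: all derivatives are those of `f` at the shifted point -/
theorem comp_const_fderiv {f : E → ℝ} (hf : ContDiff ℝ 2 f) (a e v : E) :
    fderiv ℝ (fun e' => f (e' + a)) e v = fderiv ℝ f (e + a) v := by
  rw [fderiv_comp_add_right]

theorem comp_const_fderiv2 {f : E → ℝ} (hf : ContDiff ℝ 2 f) (a e v w : E) :
    fderiv ℝ (fderiv ℝ (fun e' => f (e' + a))) e v w = fderiv ℝ (fderiv ℝ f) (e + a) v w := by
  have h1 : fderiv ℝ (fun e' => f (e' + a)) = fun e' => fderiv ℝ f (e' + a) := by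
    funext e'
    exact fderiv_comp_add_right a
  rw [h1, fderiv_comp_add_right]

end SKC.B
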