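import Pool.Agent.H.MP_08eaf3_pr.B.Cls
import Pool.Agent.H.MP_08eaf3_pr.IfA

/-!
# Part B: steps which are common to the fibres of a map `π : J → J'`
-/

set_option autoImplicit false

open MeasureTheory ProbabilityTheory Filter Topology Matrix

namespace SKC.B

variable {K J J' : Type} [Fintype K] [Fintype J] [Fintype J'] [DecidableEq J']

/-- step common to the fibres of `π` (all fibres have `k` elements) -/
noncomputable def gstep (π : J → J') (k : ℕ) (s : Step K) : Step (J × K) :=
  (s.1 / (k : ℝ), fun p p' => if π p.1 = π p'.1 then s.2 p.2 p'.2 / Real.sqrt (k : ℝ) else 0)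

/-- field constant on the fibres -/
def rep (π : J → J') (y : J' × K → ℝ) : J × K → ℝ := fun p => y (π p.1, p.2)

/-- block of a field -/
def bl {J : Type} (y : J × K → ℝ) (j : J) : K → ℝ := fun c => y (j, c)

/-- normalised sums over the fibres -/
noncomputable def av (π : J → J') (k : ℕ) (x : J × K → ℝ) : J' × K → ℝ :=
  fun p => (∑ j ∈ Finset.univ.filter (fun j => π j = p.1), x (j, p.2)) / Real.sqrt (k : ℝ)

/-- the matrix of `av` -/
noncomputable def gstep_avM [DecidableEq K] (π : J → J') (k : ℕ) : Matrix (J' × K) (J × K) ℝ :=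
  fun p q => if π q.1 = p.1 ∧ q.2 = p.2 then (Real.sqrt (k : ℝ))⁻¹ else 0

theorem gstep_avM_mulVec [DecidableEq K] (π : J → J') (k : ℕ) (x : J × K → ℝ) :
    (gstep_avM π k).mulVec x = av (K := K) π k x := by
  funext p
  unfold Matrix.mulVec dotProduct gstep_avM av
  rw [Fintype.sum_prod_type, Finset.sum_filter, Finset.sum_div]
  refine Finset.sum_congr rfl fun j _ => ?_
  rw [Finset.sum_eq_single p.2]
  · by_cases h : π j = p.1
    · simp only [h, true_and, if_true]
      rw [inv_mul_eq_div]
    · simp only [h, false_and, if_false, zero_mul, zero_div]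
  · intro c _ hc
    simp only [hc, and_false, if_false, zero_mul]
  · intro h
    exact absurd (Finset.mem_univ _) h

theorem gstep_avM_mul [DecidableEq K] {π : J → J'} {k : ℕ} (hk : 0 < k)
    (hπ : ∀ j', (Finset.univ.filter (fun j => π j = j')).card = k) :
    (gstep_avM (K := K) π k) * (gstep_avM (K := K) π k)ᵀ =
      (1 : Matrix (J' × K) (J' × K) ℝ) * (1 : Matrix (J' × K) (J' × K) ℝ)ᵀ := by
  have hk' : (0 : ℝ) < (k : ℝ) := Nat.cast_pos.mpr hk
  rw [Matrix.transpose_one, Matrix.one_mul]
  ext p p'
  rw [Matrix.mul_apply, Matrix.one_apply]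
  simp only [Matrix.transpose_apply, gstep_avM]
  by_cases hpp : p = p'
  · subst hpp
    rw [if_pos rfl, Fintype.sum_prod_type]
    have h1 : ∀ j : J, (∑ c : K, (if π j = p.1 ∧ c = p.2 then (Real.sqrt (k : ℝ))⁻¹ else 0) *
        (if π j = p.1 ∧ c = p.2 then (Real.sqrt (k : ℝ))⁻¹ else 0)) =
        if π j = p.1 then (k : ℝ)⁻¹ else 0 := by
      intro j
      rw [Finset.sum_eq_single p.2]
      · by_cases h : π j = p.1
        · simp only [h, true_and, if_true]
          rw [← mul_inv, Real.mul_self_sqrt hk'.le]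
        · simp only [h, false_and, if_false, zero_mul]
      · intro c _ hc
        simp only [hc, and_false, if_false, zero_mul]
      · intro h
        exact absurd (Finset.mem_univ _) h
    simp only [h1]
    rw [← Finset.sum_filter, Finset.sum_const, hπ, nsmul_eq_mul, mul_inv_cancel₀ hk'.ne']
  · rw [if_neg hpp]
    refine Finset.sum_eq_zero fun q _ => ?_
    by_cases h : π q.1 = p.1 ∧ q.2 = p.2
    · by_cases h' : π q.1 = p'.1 ∧ q.2 = p'.2
      · exact absurd (Prod.ext (h.1.symm.trans h'.1) (h.2.symm.trans h'.2)) hpp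
      · rw [if_neg h', mul_zero]
    · rw [if_neg h, zero_mul]

/-- the normalised sums over the fibres are standard Gaussian: `gam_map_linear_eq` with the matrix `M` of `av`
(`M p q = if π q.1 = p.1 ∧ q.2 = p.2 then 1/√k else 0`), `M Mᵀ = 1 = 1 * 1ᵀ`. -/
theorem gam_av [DecidableEq K] {π : J → J'} {k : ℕ} (hk : 0 < k)
    (hπ : ∀ j', (Finset.univ.filter (fun j => π j = j')).card = k) :
    (gam (J × K)).map (av (K := K) π k) = gam (J' × K) := by
  have h := SKC.gam_map_linear_eq (gstep_avM (K := K) π k) (1 : Matrix (J' × K) (J' × K) ℝ)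
    (gstep_avM_mul hk hπ)
  have h1 : (fun x : J × K → ℝ => (gstep_avM (K := K) π k).mulVec x) = av (K := K) π k := by
    funext x
    exact gstep_avM_mulVec π k x
  have h2 : (fun x : J' × K → ℝ => (1 : Matrix (J' × K) (J' × K) ℝ).mulVec x) = id := by
    funext x
    rw [Matrix.one_mulVec]
    rfl
  rw [h1, h2, Measure.map_id] at h
  exact h

/-- currying preserves the Gaussian measures -/
theorem gstep_curry :
    MeasurePreserving (MeasurableEquiv.curry J K ℝ) (gam (J × K))
      (Measure.pi (fun _ : J => gam K)) := by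
  refine ⟨(MeasurableEquiv.curry J K ℝ).measurable, ?_⟩
  have key : Measure.map (MeasurableEquiv.curry J K ℝ).symm (Measure.pi (fun _ : J => gam K)) =
      gam (J × K) := by
    unfold gam
    symm
    refine Measure.pi_eq fun s hs => ?_
    rw [(MeasurableEquiv.curry J K ℝ).symm.map_apply]
    have hset : (MeasurableEquiv.curry J K ℝ).symm ⁻¹' (Set.univ.pi s) =
        Set.univ.pi (fun j : J => Set.univ.pi (fun c : K => s (j, c))) := by
      ext y
      simp only [Set.mem_preimage, Set.mem_pi, Set.mem_univ, forall_true_left,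
        MeasurableEquiv.coe_curry_symm, Function.uncurry, Prod.forall]
    rw [hset, Measure.pi_pi]
    simp only [Measure.pi_pi]
    rw [Fintype.prod_prod_type]
  rw [← key, Measure.map_map (MeasurableEquiv.curry J K ℝ).measurable
    (MeasurableEquiv.curry J K ℝ).symm.measurable, MeasurableEquiv.self_comp_symm, Measure.map_id]

/-- blocks are independent: `gam (J × K)` is the product of the `gam K` (`Measure.pi` of `Measure.pi`;
`MeasurePreserving` of currying, e.g. by `Measure.pi_eq` or `MeasureTheory.measurePreserving_pi..`; then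
`MeasureTheory.integral_fintype_prod_eq_prod`). -/
theorem gam_blocks (g : J → (K → ℝ) → ℝ) :
    ∫ y, ∏ j, g j (bl y j) ∂(gam (J × K)) = ∏ j, ∫ x, g j x ∂(gam K) := by
  have h := (gstep_curry (J := J) (K := K)).integral_comp' (fun z : J → K → ℝ => ∏ j, g j (z j))
  rw [integral_fintype_prod_eq_prod] at h
  rw [← h]
  rfl

/-- one block: law of `bl y j` is `gam K` -/
theorem gam_block (g : (K → ℝ) → ℝ) (hg : Continuous g) (j : J) :
    ∫ y, g (bl y j) ∂(gam (J × K)) = ∫ x, g x ∂(gam K) := by
  classical
  have h := gam_blocks (fun j' : J => if j' = j then g else fun _ : K → ℝ => (1 : ℝ))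
  have h1 : ∀ y : J × K → ℝ, (∏ j' : J, (if j' = j then g else fun _ : K → ℝ => (1 : ℝ)) (bl y j')) =
      g (bl y j) := by
    intro y
    rw [Finset.prod_eq_single j]
    · rw [if_pos rfl]
    · intro b _ hb
      rw [if_neg hb]
    · intro h
      exact absurd (Finset.mem_univ _) h
  have h2 : (∏ j' : J, ∫ x, (if j' = j then g else fun _ : K → ℝ => (1 : ℝ)) x ∂(gam K)) =
      ∫ x, g x ∂(gam K) := by
    rw [Finset.prod_eq_single j]
    · rw [if_pos rfl]
    · intro b _ hb
      rw [if_neg hb, integral_const, probReal_univ, smul_eq_mul, mul_one]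
    · intro h
      exact absurd (Finset.mem_univ _) h
  rw [h2] at h
  rw [← h]
  refine integral_congr_ae (Filter.Eventually.of_forall fun y => ?_)
  exact (h1 y).symm

/-- the increment of a `gstep` is the constant-on-fibres field of the increments of `av x` -/
theorem gstep_mulVec (β : K → ℝ) {π : J → J'} {k : ℕ} (s : Step K) (x : J × K → ℝ) :
    (Bm (fun p : J × K => β p.2) (gstep π k s).2).mulVec x =
      rep π (fun p => (Bm β s.2).mulVec (bl (av π k x) p.1) p.2) := by
  funext p
  unfold rep Matrix.mulVec dotProduct Bm gstep bl av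
  dsimp only
  rw [Fintype.sum_prod_type, Finset.sum_comm]
  refine Finset.sum_congr rfl fun c _ => ?_
  rw [Finset.sum_filter, Finset.sum_div, Finset.mul_sum]
  refine Finset.sum_congr rfl fun j _ => ?_
  by_cases h : π j = π p.1
  · rw [if_pos h.symm, if_pos h]
    ring
  · rw [if_neg (fun h' => h h'.symm), if_neg h]
    ring

end SKC.B
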