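import Pool.Agent.H.MP_08eaf3_pr.B.GStep

/-!
# Part B: recursion and chain for steps common to the fibres of a map
-/

set_option autoImplicit false

open MeasureTheory ProbabilityTheory Filter Topology Matrix

namespace SKC.B

variable {K J J' : Type} [Fintype K] [Fintype J] [Fintype J'] [DecidableEq J']

theorem gstep2_LG_EG {f : (K → ℝ) → ℝ} (hf : SKC.LG f) : SKC.EG f := by
  obtain ⟨hc, C, hC⟩ := hf
  refine ⟨hc, max C 1, fun z => ?_⟩
  have hn : 0 ≤ n1 z := by
    unfold n1
    exact Finset.sum_nonneg fun c _ => abs_nonneg _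
  have h1 : C * (1 + n1 z) ≤ max C 1 * (1 + n1 z) :=
    mul_le_mul_of_nonneg_right (le_max_left _ _) (by linarith)
  have h2 : 1 + n1 z ≤ Real.exp (n1 z) := by
    have := Real.add_one_le_exp (n1 z)
    linarith
  have h3 : Real.exp (n1 z) ≤ Real.exp (max C 1 * n1 z) := by
    apply Real.exp_le_exp.2
    have : 1 * n1 z ≤ max C 1 * n1 z := mul_le_mul_of_nonneg_right (le_max_right _ _) hn
    linarith
  have h4 : 0 ≤ max C 1 := le_trans zero_le_one (le_max_right _ _)
  exact (hC z).trans (h1.trans (mul_le_mul_of_nonneg_left (h2.trans h3) h4))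

theorem gstep2_bl_cont (j : J) : Continuous (fun y : J × K → ℝ => bl y j) := by
  unfold bl
  fun_prop

theorem gstep2_bl_map (j : J) : (gam (J × K)).map (fun y => bl y j) = gam K := by
  have hm : Measurable (fun y : J × K → ℝ => bl y j) := (gstep2_bl_cont j).measurable
  haveI : IsProbabilityMeasure ((gam (J × K)).map (fun y => bl y j)) :=
    Measure.isProbabilityMeasure_map hm.aemeasurable
  refine ext_of_forall_integral_eq_of_IsFiniteMeasure fun g => ?_
  rw [integral_map hm.aemeasurable g.continuous.aestronglyMeasurable]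
  exact gam_block g g.continuous j

theorem gstep2_int [DecidableEq K] {π : J → J'} {k : ℕ} (hk : 0 < k)
    (hπ : ∀ j', (Finset.univ.filter (fun j => π j = j')).card = k)
    {Φ : (J' × K → ℝ) → ℝ} (hΦ : Continuous Φ) :
    ∫ x, Φ (av π k x) ∂(gam (J × K)) = ∫ v, Φ v ∂(gam (J' × K)) := by
  have hav : Continuous (av (K := K) π k) := by
    unfold av
    fun_prop
  rw [← gam_av (K := K) hk hπ,
    integral_map hav.measurable.aemeasurable hΦ.aestronglyMeasurable]

theorem gstep2_arg (β : K → ℝ) {π : J → J'} {k : ℕ} (s : Step K) (y : J' × K → ℝ)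
    (x : J × K → ℝ) :
    rep π y + (Bm (fun p : J × K => β p.2) (gstep π k s).2).mulVec x =
      rep π (fun p => y p + (Bm β s.2).mulVec (bl (av π k x) p.1) p.2) := by
  rw [gstep_mulVec]
  rfl

theorem gstep2_blk (β : K → ℝ) (s : Step K) (y v : J' × K → ℝ) (j : J') :
    bl (fun p => y p + (Bm β s.2).mulVec (bl v p.1) p.2) j =
      bl y j + (Bm β s.2).mulVec (bl v j) := rfl

theorem gstep2_cont (β : K → ℝ) (s : Step K) {f : (K → ℝ) → ℝ} (hf : Continuous f)
    (y : J' × K → ℝ) (j : J') :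
    Continuous (fun v : J' × K → ℝ => f (bl y j + (Bm β s.2).mulVec (bl v j))) := by
  refine hf.comp (continuous_const.add ?_)
  exact continuous_const.matrix_mulVec (gstep2_bl_cont j)

/-- one step: if `f'(rep y) = k ∑_j f_j(y_j)` then `T f' (rep y) = k ∑_j (T_m f_j)(y_j)`.
Proof. `f'(rep y + increment) = k ∑_j f_j(y_j + B (av x)_j)`; by `gam_av` the integral over `x` is the integral over
`x' = av x` standard Gaussian on `J' × K`. `s.1 ≠ 0`: `exp((s.1/k) k ∑_j ..) = ∏_j exp(s.1 f_j(y_j + B x'_j))`,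
`gam_blocks`, `Real.log_prod` (factors positive, `LG_Z`). `s.1 = 0`: linearity (`gam_block`, integrability). -/
theorem gT [DecidableEq K] (β : K → ℝ) {π : J → J'} {k : ℕ} (hk : 0 < k)
    (hπ : ∀ j', (Finset.univ.filter (fun j => π j = j')).card = k)
    {f' : (J × K → ℝ) → ℝ} {f : J' → (K → ℝ) → ℝ} (hf' : SKC.LG f') (hf : ∀ j, SKC.LG (f j))
    (h : ∀ y, f' (rep π y) = k * ∑ j, f j (bl y j)) (s : Step K) (y : J' × K → ℝ) :
    Tm (gstep π k s).1 (Bm (fun p : J × K => β p.2) (gstep π k s).2) f' (rep π y) =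
      k * ∑ j, Tm s.1 (Bm β s.2) (f j) (bl y j) := by
  have hkr : (k : ℝ) ≠ 0 := by exact_mod_cast hk.ne'
  have hval : ∀ x : J × K → ℝ,
      f' (rep π y + (Bm (fun p : J × K => β p.2) (gstep π k s).2).mulVec x) =
      k * ∑ j, f j (bl y j + (Bm β s.2).mulVec (bl (av π k x) j)) := by
    intro x
    rw [gstep2_arg, h]
    rfl
  have hs1 : (gstep π k s).1 = s.1 / (k : ℝ) := rfl
  unfold Tm
  rw [hs1]
  by_cases h0 : s.1 = 0
  · rw [h0, zero_div, if_pos rfl]
    simp only [if_true, hval]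
    rw [gstep2_int hk hπ (Φ := fun v => (k : ℝ) * ∑ j, f j (bl y j + (Bm β s.2).mulVec (bl v j)))
      (continuous_const.mul (continuous_finset_sum _ fun j _ =>
        gstep2_cont β s (hf j).1 y j))]
    rw [integral_const_mul, integral_finset_sum]
    · congr 1
      refine Finset.sum_congr rfl fun j _ => ?_
      rw [← gstep2_bl_map (J := J') (K := K) j]
      rw [integral_map (gstep2_bl_cont j).measurable.aemeasurable]
      refine Continuous.aestronglyMeasurable ?_
      exact (hf j).1.comp (continuous_const.add (continuous_const.matrix_mulVec continuous_id))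
    · intro j _
      have h1 := (EG_int (hf j) (gstep2_LG_EG (hf j)) 0 (Bm β s.2)).2 (bl y j)
      simp only [zero_mul, Real.exp_zero, mul_one] at h1
      rw [← gstep2_bl_map (J := J') (K := K) j] at h1
      exact h1.comp_measurable (gstep2_bl_cont j).measurable
  · have h1 : s.1 / (k : ℝ) ≠ 0 := div_ne_zero h0 hkr
    rw [if_neg h1]
    simp only [if_neg h0, hval]
    have h2 : ∀ v : J' × K → ℝ,
        Real.exp (s.1 / (k : ℝ) * ((k : ℝ) * ∑ j, f j (bl y j + (Bm β s.2).mulVec (bl v j)))) =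
        ∏ j, Real.exp (s.1 * f j (bl y j + (Bm β s.2).mulVec (bl v j))) := by
      intro v
      rw [← Real.exp_sum, ← Finset.mul_sum]
      congr 1
      field_simp
    rw [gstep2_int hk hπ (Φ := fun v => Real.exp (s.1 / (k : ℝ) *
      ((k : ℝ) * ∑ j, f j (bl y j + (Bm β s.2).mulVec (bl v j)))))
      (Real.continuous_exp.comp (continuous_const.mul (continuous_const.mul
        (continuous_finset_sum _ fun j _ => gstep2_cont β s (hf j).1 y j))))]
    simp only [h2]
    rw [gam_blocks (fun j x => Real.exp (s.1 * f j (bl y j + (Bm β s.2).mulVec x)))]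
    rw [Real.log_prod (fun j _ => (LG_Z (hf j) s.1 (Bm β s.2) (bl y j)).1.ne')]
    rw [Finset.mul_sum, Finset.mul_sum]
    refine Finset.sum_congr rfl fun j _ => ?_
    field_simp

/-- one step of the chain, products: numerator and denominator are products (`gam_blocks`) -/
theorem gE [DecidableEq K] (β : K → ℝ) {π : J → J'} {k : ℕ} (hk : 0 < k)
    (hπ : ∀ j', (Finset.univ.filter (fun j => π j = j')).card = k)
    {f' : (J × K → ℝ) → ℝ} {f : J' → (K → ℝ) → ℝ} (hf' : SKC.LG f') (hf : ∀ j, SKC.LG (f j))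
    (h : ∀ y, f' (rep π y) = k * ∑ j, f j (bl y j))
    {h' : (J × K → ℝ) → ℝ} {g : J' → (K → ℝ) → ℝ} (hh' : SKC.EG h') (hg : ∀ j, SKC.EG (g j))
    (hp : ∀ y, h' (rep π y) = ∏ j, g j (bl y j)) (s : Step K) (y : J' × K → ℝ) :
    Es (gstep π k s).1 (Bm (fun p : J × K => β p.2) (gstep π k s).2) f' h' (rep π y) =
      ∏ j, Es s.1 (Bm β s.2) (f j) (g j) (bl y j) := by
  have hkr : (k : ℝ) ≠ 0 := by exact_mod_cast hk.ne'
  have hval : ∀ x : J × K → ℝ,
      f' (rep π y + (Bm (fun p : J × K => β p.2) (gstep π k s).2).mulVec x) =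
      k * ∑ j, f j (bl y j + (Bm β s.2).mulVec (bl (av π k x) j)) := by
    intro x
    rw [gstep2_arg, h]
    rfl
  have hval2 : ∀ x : J × K → ℝ,
      h' (rep π y + (Bm (fun p : J × K => β p.2) (gstep π k s).2).mulVec x) =
      ∏ j, g j (bl y j + (Bm β s.2).mulVec (bl (av π k x) j)) := by
    intro x
    rw [gstep2_arg, hp]
    rfl
  have hs1 : (gstep π k s).1 = s.1 / (k : ℝ) := rfl
  have h2 : ∀ v : J' × K → ℝ,
      Real.exp (s.1 / (k : ℝ) * ((k : ℝ) * ∑ j, f j (bl y j + (Bm β s.2).mulVec (bl v j)))) =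
      ∏ j, Real.exp (s.1 * f j (bl y j + (Bm β s.2).mulVec (bl v j))) := by
    intro v
    rw [← Real.exp_sum, ← Finset.mul_sum]
    congr 1
    field_simp
  have hce : Continuous fun v : J' × K → ℝ => Real.exp (s.1 / (k : ℝ) *
      ((k : ℝ) * ∑ j, f j (bl y j + (Bm β s.2).mulVec (bl v j)))) :=
    Real.continuous_exp.comp (continuous_const.mul (continuous_const.mul
      (continuous_finset_sum _ fun j _ => gstep2_cont β s (hf j).1 y j)))
  unfold Es
  rw [hs1]
  simp only [hval, hval2]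
  rw [gstep2_int hk hπ (Φ := fun v => (∏ j, g j (bl y j + (Bm β s.2).mulVec (bl v j))) *
    Real.exp (s.1 / (k : ℝ) * ((k : ℝ) * ∑ j, f j (bl y j + (Bm β s.2).mulVec (bl v j)))))
    ((continuous_finset_prod _ fun j _ => gstep2_cont β s (hg j).1 y j).mul hce)]
  rw [gstep2_int hk hπ (Φ := fun v => Real.exp (s.1 / (k : ℝ) *
    ((k : ℝ) * ∑ j, f j (bl y j + (Bm β s.2).mulVec (bl v j))))) hce]
  simp only [h2, ← Finset.prod_mul_distrib]
  rw [gam_blocks (fun j x => g j (bl y j + (Bm β s.2).mulVec x) *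
    Real.exp (s.1 * f j (bl y j + (Bm β s.2).mulVec x)))]
  rw [gam_blocks (fun j x => Real.exp (s.1 * f j (bl y j + (Bm β s.2).mulVec x)))]
  rw [Finset.prod_div_distrib]

/-- list version of `gT` (induction on `l`, `LG_PsiL`) -/
theorem gPsi [DecidableEq K] (β : K → ℝ) {π : J → J'} {k : ℕ} (hk : 0 < k)
    (hπ : ∀ j', (Finset.univ.filter (fun j => π j = j')).card = k)
    {f' : (J × K → ℝ) → ℝ} {f : J' → (K → ℝ) → ℝ} (hf' : SKC.LG f') (hf : ∀ j, SKC.LG (f j))
    (h : ∀ y, f' (rep π y) = k * ∑ j, f j (bl y j)) (l : List (Step K)) (y : J' × K → ℝ) :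
    PsiL (fun p : J × K => β p.2) (l.map (gstep π k)) f' (rep π y) =
      k * ∑ j, PsiL β l (f j) (bl y j) := by
  induction l generalizing y with
  | nil => exact h y
  | cons s l ih =>
    exact gT β hk hπ (f' := PsiL (fun p : J × K => β p.2) (l.map (gstep π k)) f')
      (f := fun j => PsiL β l (f j)) (LG_PsiL hf' _ _) (fun j => LG_PsiL (hf j) _ _)
      (fun y => ih y) s y

/-- list version of `gE` (induction on `l`, `LG_PsiL`, `EG_ChE`) -/
theorem gCh [DecidableEq K] (β : K → ℝ) {π : J → J'} {k : ℕ} (hk : 0 < k)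
    (hπ : ∀ j', (Finset.univ.filter (fun j => π j = j')).card = k)
    {f' : (J × K → ℝ) → ℝ} {f : J' → (K → ℝ) → ℝ} (hf' : SKC.LG f') (hf : ∀ j, SKC.LG (f j))
    (h : ∀ y, f' (rep π y) = k * ∑ j, f j (bl y j))
    {h' : (J × K → ℝ) → ℝ} {g : J' → (K → ℝ) → ℝ} (hh' : SKC.EG h') (hg : ∀ j, SKC.EG (g j))
    (hp : ∀ y, h' (rep π y) = ∏ j, g j (bl y j)) (l : List (Step K)) (y : J' × K → ℝ) :
    ChE (fun p : J × K => β p.2) (l.map (gstep π k)) f' h' (rep π y) =
      ∏ j, ChE β l (f j) (g j) (bl y j) := by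
  induction l generalizing y with
  | nil => exact hp y
  | cons s l ih =>
    exact gE β hk hπ (f' := PsiL (fun p : J × K => β p.2) (l.map (gstep π k)) f')
      (f := fun j => PsiL β l (f j)) (LG_PsiL hf' _ _) (fun j => LG_PsiL (hf j) _ _)
      (fun y => gPsi β hk hπ hf' hf h l y)
      (h' := ChE (fun p : J × K => β p.2) (l.map (gstep π k)) f' h')
      (g := fun j => ChE β l (f j) (g j)) (EG_ChE hf' hh' _ _)
      (fun j => EG_ChE (hf j) (hg j) _ _) (fun y => ih y) s y

end SKC.B
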