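import Pool.Agent.H.MP_08eaf3_pr.B.Base

/-!
# Part B: exponential moments of the Gaussian vector
-/

set_option autoImplicit false

open MeasureTheory ProbabilityTheory Filter Topology Matrix

namespace SKC.B

/-- `exp(C‖x‖)` (sup norm) is integrable for the standard Gaussian vector.
Proof: `C‖x‖ ≤ ∑ |C| |x i|`, so the function is at most `∏ exp(|C| |x i|)`, which is integrable by
`Integrable.fintype_prod` because `exp(|C||s|) ≤ exp(|C| s) + exp(-|C| s)` and
`integrable_exp_mul_gaussianReal`. Measurable since continuous. (`gam` is unfolded by `unfold gam`.) -/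
theorem integrable_exp_norm (κ : Type) [Fintype κ] (C : ℝ) :
    Integrable (fun x : κ → ℝ => Real.exp (C * ‖x‖)) (gam κ) := by
  have h1 : Integrable (fun s : ℝ => Real.exp (|C| * |s|)) (gaussianReal 0 1) := by
    have h2 : Integrable (fun s : ℝ => Real.exp (|C| * s) + Real.exp (-|C| * s))
        (gaussianReal 0 1) :=
      (integrable_exp_mul_gaussianReal _).add (integrable_exp_mul_gaussianReal _)
    refine h2.mono' ?_ (Filter.Eventually.of_forall fun s => ?_)
    · exact Continuous.aestronglyMeasurable (by fun_prop)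
    · rw [Real.norm_eq_abs, Real.abs_exp]
      rcases abs_cases s with ⟨h, _⟩ | ⟨h, _⟩
      · rw [h]
        exact le_add_of_nonneg_right (Real.exp_pos _).le
      · rw [h]
        have e1 : |C| * -s = -|C| * s := by ring
        rw [e1]
        exact le_add_of_nonneg_left (Real.exp_pos _).le
  have h3 : Integrable (fun x : κ → ℝ => ∏ i, Real.exp (|C| * |x i|)) (gam κ) := by
    unfold gam
    exact Integrable.fintype_prod (f := fun _ s => Real.exp (|C| * |s|)) fun _ => h1
  refine h3.mono' ?_ (Filter.Eventually.of_forall fun x => ?_)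
  · exact Continuous.aestronglyMeasurable (by fun_prop)
  · rw [Real.norm_eq_abs, Real.abs_exp, ← Real.exp_sum]
    apply Real.exp_le_exp.2
    rw [← Finset.mul_sum]
    have h4 : ‖x‖ ≤ ∑ i, |x i| := by
      refine (pi_norm_le_iff_of_nonneg (Finset.sum_nonneg fun _ _ => abs_nonneg _)).2 fun i => ?_
      rw [Real.norm_eq_abs]
      exact Finset.single_le_sum (f := fun i => |x i|) (fun _ _ => abs_nonneg _)
        (Finset.mem_univ i)
    exact mul_le_mul (le_abs_self C) h4 (norm_nonneg _) (abs_nonneg _)

/-- continuous functions with `‖h x‖ ≤ C exp(C‖x‖)` are integrable -/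
theorem integrable_of_exp {κ : Type} [Fintype κ] {G : Type} [NormedAddCommGroup G]
    {h : (κ → ℝ) → G} (hc : Continuous h)
    (hb : ∃ C : ℝ, ∀ x, ‖h x‖ ≤ C * Real.exp (C * ‖x‖)) : Integrable h (gam κ) := by
  obtain ⟨C, hC⟩ := hb
  exact ((integrable_exp_norm κ C).const_mul C).mono' hc.aestronglyMeasurable
    (Filter.Eventually.of_forall hC)

/-- integral of the exponential is positive:
`0 < ∫ exp(G)` for continuous `G` with `|G x| ≤ a + C‖x‖`.
Proof: `exp(G)` is integrable and positive (`integral_exp_pos` or `integral_pos_iff_support_of_nonneg`). -/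
theorem integral_exp_pos' {κ : Type} [Fintype κ] {G : (κ → ℝ) → ℝ} (hc : Continuous G) {a C : ℝ}
    (hb : ∀ x, |G x| ≤ a + C * ‖x‖) : 0 < ∫ x, Real.exp (G x) ∂(gam κ) := by
  refine integral_exp_pos ?_
  refine ((integrable_exp_norm κ C).const_mul (Real.exp a)).mono'
    (Real.continuous_exp.comp hc).aestronglyMeasurable (Filter.Eventually.of_forall fun x => ?_)
  rw [Real.norm_eq_abs, Real.abs_exp, ← Real.exp_add]
  exact Real.exp_le_exp.2 ((le_abs_self _).trans (hb x))

end SKC.B
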