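import Pool.Agent.H.MP_08eaf3_pr.Defs

/-!
# Part B: covariance kernels of the SK Hamiltonian and of the cavity fields
-/

set_option autoImplicit false

open MeasureTheory ProbabilityTheory Filter Topology Matrix

namespace SKC.B

variable {K : Type} [Fintype K]

/-- features of the Hamiltonian as a matrix -/
noncomputable def VH (β : K → ℝ) (N : ℕ) : Matrix (Cfg K N) (Fin N × Fin N) ℝ :=
  fun ρ p => vH β N ρ p

/-- features of the site fields of a step with factor `E` -/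
noncomputable def vS (β : K → ℝ) (N : ℕ) (E : Matrix K K ℝ) : Matrix (Cfg K N) (Fin N × K) ℝ :=
  fun ρ p => ∑ c, sg (ρ p.1 c) * Bm β E c p.2

/-- the kernel `N (C(R) - <A(Q), R>)` -/
noncomputable def kern (β : K → ℝ) (N : ℕ) (Q : Matrix K K ℝ) : Matrix (Cfg K N) (Cfg K N) ℝ :=
  fun ρ ρ' => N * (Cf β (ov ρ ρ') - ∑ c, ∑ c', 2 * β c * β c' * Q c c' * ov ρ ρ' c c')

/-- the sum of the products of the spins -/
noncomputable def kern_S {N : ℕ} (ρ ρ' : Cfg K N) (c c' : K) : ℝ :=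
  ∑ i, sg (ρ i c) * sg (ρ' i c')

omit [Fintype K] in
theorem kern_ov {N : ℕ} (hN : 0 < N) (ρ ρ' : Cfg K N) (c c' : K) :
    kern_S ρ ρ' c c' = N * ov ρ ρ' c c' := by
  have hN' : (N : ℝ) ≠ 0 := Nat.cast_ne_zero.2 hN.ne'
  unfold kern_S ov
  field_simp

theorem kern_sq (β : K → ℝ) (R Q : Matrix K K ℝ) :
    Cf β R - ∑ c, ∑ c', 2 * β c * β c' * Q c c' * R c c' + Cf β Q =
      ∑ c, ∑ c', β c * β c' * (R c c' - Q c c') ^ 2 := by
  unfold Cf
  rw [← Finset.sum_sub_distrib, ← Finset.sum_add_distrib]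
  refine Finset.sum_congr rfl fun c _ => ?_
  rw [← Finset.sum_sub_distrib, ← Finset.sum_add_distrib]
  refine Finset.sum_congr rfl fun c' _ => ?_
  ring

theorem kern_mul {N : ℕ} (f g : K → Fin N × Fin N → ℝ) :
    ∑ p, (∑ c, f c p) * (∑ c', g c' p) = ∑ c, ∑ c', ∑ p, f c p * g c' p := by
  have h1 : ∀ p : Fin N × Fin N, (∑ c, f c p) * (∑ c', g c' p) = ∑ c, ∑ c', f c p * g c' p :=
    fun p => Finset.sum_mul_sum _ _ _ _
  simp_rw [h1]
  rw [Finset.sum_comm]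
  exact Finset.sum_congr rfl fun c _ => Finset.sum_comm

/-- `∑_{ij} (∑_c β_c s_ci s_cj)(∑_c' β_c' s'_c'i s'_c'j) / N = ∑_cc' β_c β_c' (∑_i s_ci s'_c'i)^2 / N
= N C(R)`; `Real.sqrt N * Real.sqrt N = N`, `N > 0`. -/
theorem kern_zero (β : K → ℝ) {N : ℕ} (hN : 0 < N) : kern β N 0 = VH β N * (VH β N)ᵀ := by
  have hN' : (N : ℝ) ≠ 0 := Nat.cast_ne_zero.2 hN.ne'
  have hs : Real.sqrt N * Real.sqrt N = N := Real.mul_self_sqrt (Nat.cast_nonneg N)
  have hs0 : Real.sqrt N ≠ 0 := fun h => hN' (by rw [← hs, h, mul_zero])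
  ext ρ ρ'
  have h1 : (VH β N * (VH β N)ᵀ) ρ ρ' =
      (∑ p : Fin N × Fin N, (∑ c, β c * (sg (ρ p.1 c) * sg (ρ p.2 c))) *
        (∑ c', β c' * (sg (ρ' p.1 c') * sg (ρ' p.2 c')))) / N := by
    rw [Matrix.mul_apply, Finset.sum_div]
    refine Finset.sum_congr rfl fun p _ => ?_
    show (∑ c, β c * (sg (ρ p.1 c) * sg (ρ p.2 c))) / Real.sqrt N *
      ((∑ c', β c' * (sg (ρ' p.1 c') * sg (ρ' p.2 c'))) / Real.sqrt N) = _
    rw [div_mul_div_comm, hs]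
  have h2 : ∑ p : Fin N × Fin N, (∑ c, β c * (sg (ρ p.1 c) * sg (ρ p.2 c))) *
        (∑ c', β c' * (sg (ρ' p.1 c') * sg (ρ' p.2 c'))) =
      ∑ c, ∑ c', β c * β c' * kern_S ρ ρ' c c' ^ 2 := by
    rw [kern_mul (fun c p => β c * (sg (ρ p.1 c) * sg (ρ p.2 c)))
      (fun c' p => β c' * (sg (ρ' p.1 c') * sg (ρ' p.2 c')))]
    refine Finset.sum_congr rfl fun c _ => Finset.sum_congr rfl fun c' _ => ?_
    have h3 : kern_S ρ ρ' c c' ^ 2 = ∑ p : Fin N × Fin N,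
        (sg (ρ p.1 c) * sg (ρ' p.1 c')) * (sg (ρ p.2 c) * sg (ρ' p.2 c')) := by
      rw [pow_two]
      unfold kern_S
      rw [Finset.sum_mul_sum, Fintype.sum_prod_type]
    rw [h3, Finset.mul_sum]
    refine Finset.sum_congr rfl fun p _ => ?_
    ring
  rw [h1, h2]
  unfold kern Cf
  have h3 : ∑ c, ∑ c', 2 * β c * β c' * (0 : Matrix K K ℝ) c c' * ov ρ ρ' c c' = 0 := by
    refine Finset.sum_eq_zero fun c _ => Finset.sum_eq_zero fun c' _ => ?_
    rw [Matrix.zero_apply]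
    ring
  rw [h3, sub_zero, Finset.mul_sum, Finset.sum_div]
  refine Finset.sum_congr rfl fun c _ => ?_
  rw [Finset.mul_sum, Finset.sum_div]
  refine Finset.sum_congr rfl fun c' _ => ?_
  rw [kern_ov hN]
  field_simp

/-- `(vS E (vS E)ᵀ) ρ ρ' = ∑_i ∑_cc' s_ci s'_c'i 2 β_c β_c' (E Eᵀ)_cc' = N ∑_cc' 2 β_c β_c' (E Eᵀ)_cc' R_cc'` -/
theorem kern_step (β : K → ℝ) {N : ℕ} (hN : 0 < N) (Q E : Matrix K K ℝ) :
    kern β N Q - vS β N E * (vS β N E)ᵀ = kern β N (Q + E * Eᵀ) := by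
  have h2s : Real.sqrt 2 * Real.sqrt 2 = 2 := Real.mul_self_sqrt (by norm_num)
  ext ρ ρ'
  have h1 : (vS β N E * (vS β N E)ᵀ) ρ ρ' =
      N * ∑ c, ∑ c', 2 * β c * β c' * (E * Eᵀ) c c' * ov ρ ρ' c c' := by
    rw [Matrix.mul_apply]
    have h2 : ∀ p : Fin N × K, vS β N E ρ p * (vS β N E)ᵀ p ρ' =
        ∑ c, ∑ c', (sg (ρ p.1 c) * sg (ρ' p.1 c')) * (2 * β c * β c' * (E c p.2 * E c' p.2)) := by
      intro p
      show (∑ c, sg (ρ p.1 c) * Bm β E c p.2) * (∑ c', sg (ρ' p.1 c') * Bm β E c' p.2) = _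
      rw [Finset.sum_mul_sum]
      refine Finset.sum_congr rfl fun c _ => Finset.sum_congr rfl fun c' _ => ?_
      unfold Bm
      linear_combination (sg (ρ p.1 c) * sg (ρ' p.1 c') * β c * β c' * (E c p.2 * E c' p.2)) * h2s
    rw [Finset.sum_congr rfl fun p _ => h2 p, Finset.sum_comm, Finset.mul_sum]
    refine Finset.sum_congr rfl fun c _ => ?_
    rw [Finset.sum_comm, Finset.mul_sum]
    refine Finset.sum_congr rfl fun c' _ => ?_
    have h3 : (N : ℝ) * (2 * β c * β c' * (E * Eᵀ) c c' * ov ρ ρ' c c') =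
        kern_S ρ ρ' c c' * (2 * β c * β c' * (E * Eᵀ) c c') := by
      rw [kern_ov hN]
      ring
    rw [h3, Matrix.mul_apply, Finset.mul_sum]
    unfold kern_S
    rw [Finset.sum_mul_sum, Fintype.sum_prod_type]
    rfl
  rw [Matrix.sub_apply, h1]
  unfold kern
  rw [← mul_sub, sub_sub, ← Finset.sum_add_distrib]
  congr 2
  refine Finset.sum_congr rfl fun c _ => ?_
  rw [← Finset.sum_add_distrib]
  refine Finset.sum_congr rfl fun c' _ => ?_
  rw [Matrix.add_apply]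
  ring

/-- `C(R) - <A(Q),R> + C(Q) = ∑ β_c β_c' (R - Q)_cc'^2 ≥ 0` -/
theorem kern_lower (β : K → ℝ) (hβ : ∀ c, 0 ≤ β c) (N : ℕ) (Q : Matrix K K ℝ) (ρ ρ' : Cfg K N) :
    -((N : ℝ) * Cf β Q) ≤ kern β N Q ρ ρ' := by
  have h1 := kern_sq β (ov ρ ρ') Q
  have h2 : 0 ≤ ∑ c, ∑ c', β c * β c' * (ov ρ ρ' c c' - Q c c') ^ 2 :=
    Finset.sum_nonneg fun c _ => Finset.sum_nonneg fun c' _ =>
      mul_nonneg (mul_nonneg (hβ c) (hβ c')) (sq_nonneg _)
  have h3 : kern β N Q ρ ρ' + N * Cf β Q =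
      N * ∑ c, ∑ c', β c * β c' * (ov ρ ρ' c c' - Q c c') ^ 2 := by
    rw [← h1]
    unfold kern
    ring
  have h4 := mul_nonneg (Nat.cast_nonneg N (α := ℝ)) h2
  linarith

/-- `C(R) - <A(Q),R> + C(Q) = ∑ β_c β_c' (R - Q)_cc'^2 ≤ (∑ β_c)^2 ε^2` -/
theorem kern_diag (β : K → ℝ) (hβ : ∀ c, 0 ≤ β c) (N : ℕ) (Q : Matrix K K ℝ) (ρ : Cfg K N) {ε : ℝ}
    (hε : 0 ≤ ε) (h : ∀ c c', |ov ρ ρ c c' - Q c c'| ≤ ε) :
    kern β N Q ρ ρ ≤ N * ((∑ c, β c) ^ 2 * ε ^ 2 - Cf β Q) := by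
  have h1 := kern_sq β (ov ρ ρ) Q
  have h2 : ∑ c, ∑ c', β c * β c' * (ov ρ ρ c c' - Q c c') ^ 2 ≤ (∑ c, β c) ^ 2 * ε ^ 2 := by
    rw [pow_two (∑ c, β c), Finset.sum_mul_sum, Finset.sum_mul]
    refine Finset.sum_le_sum fun c _ => ?_
    rw [Finset.sum_mul]
    refine Finset.sum_le_sum fun c' _ => ?_
    refine mul_le_mul_of_nonneg_left ?_ (mul_nonneg (hβ c) (hβ c'))
    exact sq_le_sq' (by linarith [(abs_le.1 (h c c')).1]) (abs_le.1 (h c c')).2
  have h3 : kern β N Q ρ ρ + N * Cf β Q =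
      N * ∑ c, ∑ c', β c * β c' * (ov ρ ρ c c' - Q c c') ^ 2 := by
    rw [← h1]
    unfold kern
    ring
  have h4 := mul_le_mul_of_nonneg_left h2 (Nat.cast_nonneg N (α := ℝ))
  rw [mul_sub]
  linarith

/-- the weights are nondecreasing from `m`, the last one (or `m`) is `1` -/
def Wt : ℝ → List (Step K) → Prop
  | m, [] => m = 1
  | m, (s :: l) => m ≤ s.1 ∧ Wt s.1 l

/-- valid lists: induction on the list with the statement: if `l ≠ []`, pairwise nondecreasing, last weight `1`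
and `m ≤` all weights, then `Wt m l` -/
theorem Wt_of_valid {l : List (Step K)} (hl : Valid l) : Wt 0 l := by
  have key : ∀ (l : List (Step K)) (m : ℝ), l.Pairwise (fun a b => a.1 ≤ b.1) →
      (∀ a ∈ l, m ≤ a.1) → (∃ l' E, l = l' ++ [((1 : ℝ), E)]) → Wt m l := by
    intro l
    induction l with
    | nil =>
      rintro m - - ⟨l', E, h⟩
      exact absurd h (by simp)
    | cons s t ih =>
      rintro m hp hm ⟨l', E, h⟩
      rw [List.pairwise_cons] at hp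
      refine ⟨hm s (List.mem_cons_self), ?_⟩
      cases l' with
      | nil =>
        rw [List.nil_append] at h
        injection h with h1 h2
        rw [h2, h1]
        rfl
      | cons a l' =>
        rw [List.cons_append] at h
        injection h with h1 h2
        exact ih s.1 hp.2 hp.1 ⟨l', E, h2⟩
  exact key l 0 hl.1 (fun a ha => (hl.2.1 a ha).1) hl.2.2

end SKC.B
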