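import Pool.Agent.H.MP_08eaf3_pr.B.Nest
import Pool.Agent.H.MP_08eaf3_pr.B.Lse
import Pool.Agent.H.MP_08eaf3_pr.B.Kern

/-!
# Part B: the bound of `Rf` for the SK kernels
-/

set_option autoImplicit false

open MeasureTheory ProbabilityTheory Filter Topology Matrix

namespace SKC.B

/-- the terminal function `y ↦ log ∑_{ρ ∈ S} exp(y_ρ + a_ρ)` -/
noncomputable def endF {Ω : Type} (S : Finset Ω) (a : Ω → ℝ) (y : Ω → ℝ) : ℝ :=
  lse S (fun ρ => y ρ + a ρ)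

variable {Ω : Type} [Fintype Ω] [DecidableEq Ω]

/-- the coordinate functionals -/
noncomputable def Rbd_A (Ω : Type) [Fintype Ω] (ρ : Ω) : (ℝ × (Ω → ℝ)) →L[ℝ] ℝ :=
  (ContinuousLinearMap.proj (R := ℝ) (φ := fun _ : Ω => ℝ) ρ).comp
    (ContinuousLinearMap.snd ℝ ℝ (Ω → ℝ))

omit [DecidableEq Ω] in
theorem Rbd_A_apply (ρ : Ω) (e : ℝ × (Ω → ℝ)) : Rbd_A Ω ρ e = e.2 ρ := rfl

omit [DecidableEq Ω] in
theorem Rbd_eq (S : Finset Ω) (a : Ω → ℝ) :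
    (fun e : ℝ × (Ω → ℝ) => endF S a e.2) =
      fun e : ℝ × (Ω → ℝ) => lse S (fun ω => Rbd_A Ω ω e + a ω) := rfl

omit [DecidableEq Ω] in
/-- `adm_lse` with the continuous linear maps `e ↦ e.2 ρ` -/
theorem adm_endF {S : Finset Ω} (hS : S.Nonempty) (a : Ω → ℝ) :
    Adm (fun e : ℝ × (Ω → ℝ) => endF S a e.2) := by
  rw [Rbd_eq]
  exact adm_lse hS (Rbd_A Ω) a

theorem Rbd_fderiv {S : Finset Ω} (hS : S.Nonempty) (a : Ω → ℝ) (e : ℝ × (Ω → ℝ)) (o : Ω) :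
    fderiv ℝ (fun e : ℝ × (Ω → ℝ) => endF S a e.2) e (0, Pi.single o 1) =
      ∑ ω ∈ S, gw S (fun ω => Rbd_A Ω ω e + a ω) ω * (Pi.single o (1 : ℝ) : Ω → ℝ) ω := by
  rw [Rbd_eq, lse_fderiv hS (Rbd_A Ω) a]
  rfl

theorem Rbd_fderiv2 {S : Finset Ω} (hS : S.Nonempty) (a : Ω → ℝ) (e : ℝ × (Ω → ℝ)) (o o' : Ω) :
    fderiv ℝ (fderiv ℝ (fun e : ℝ × (Ω → ℝ) => endF S a e.2)) e (0, Pi.single o 1)
        (0, Pi.single o' 1) =
      ∑ ω ∈ S, gw S (fun ω => Rbd_A Ω ω e + a ω) ω *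
        ((Pi.single o (1 : ℝ) : Ω → ℝ) ω * (Pi.single o' (1 : ℝ) : Ω → ℝ) ω) -
      fderiv ℝ (fun e : ℝ × (Ω → ℝ) => endF S a e.2) e (0, Pi.single o 1) *
      fderiv ℝ (fun e : ℝ × (Ω → ℝ) => endF S a e.2) e (0, Pi.single o' 1) := by
  rw [Rbd_fderiv hS, Rbd_fderiv hS, Rbd_eq, lse_fderiv2 hS (Rbd_A Ω) a]
  rfl

/-- the gradient of the terminal function is the vector of Gibbs weights (`lse_fderiv`; weights `0` outside `S`) -/
theorem endF_prob {S : Finset Ω} (hS : S.Nonempty) (a : Ω → ℝ) (e : ℝ × (Ω → ℝ)) :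
    (∀ o, 0 ≤ fderiv ℝ (fun e : ℝ × (Ω → ℝ) => endF S a e.2) e (0, Pi.single o 1)) ∧
      ∑ o, fderiv ℝ (fun e : ℝ × (Ω → ℝ) => endF S a e.2) e (0, Pi.single o 1) = 1 := by
  constructor
  · intro o
    rw [Rbd_fderiv hS]
    refine Finset.sum_nonneg fun ω _ => mul_nonneg (gw_nonneg _ _ _) ?_
    by_cases h : ω = o
    · subst h
      rw [Pi.single_eq_same]
      exact zero_le_one
    · rw [Pi.single_eq_of_ne h]
  · have h1 : ∀ o, fderiv ℝ (fun e : ℝ × (Ω → ℝ) => endF S a e.2) e (0, Pi.single o 1) =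
        ∑ ω ∈ S, gw S (fun ω => Rbd_A Ω ω e + a ω) ω * (Pi.single o (1 : ℝ) : Ω → ℝ) ω :=
      fun o => Rbd_fderiv hS a e o
    rw [Finset.sum_congr rfl fun o _ => h1 o, Finset.sum_comm]
    refine Eq.trans (Finset.sum_congr rfl fun ω _ => ?_) (gw_sum hS (fun ω => Rbd_A Ω ω e + a ω))
    rw [← Finset.mul_sum, Finset.sum_eq_single ω]
    · rw [Pi.single_eq_same, mul_one]
    · intro b _ hb
      exact Pi.single_eq_of_ne (Ne.symm hb) _
    · intro h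
      exact absurd (Finset.mem_univ _) h

/-- terminal value of `Rf` for `m = 1`:
`Wf 1 B F = ∑_{o ∈ S} gw o * B o o` (`lse_fderiv`, `lse_fderiv2`), so it is `≤ δ` if `B o o ≤ δ` on `S`. -/
theorem Rf_nil_le {κ : Type} [Fintype κ] {S : Finset Ω} (hS : S.Nonempty) (a : Ω → ℝ)
    (B : Matrix Ω Ω ℝ) {δ : ℝ} (hB : ∀ o ∈ S, B o o ≤ δ) (e : ℝ × (Ω → ℝ)) :
    Rf (κ := κ) (endF S a) [] 1 B e ≤ δ := by
  have h0 : Rf (κ := κ) (endF S a) [] 1 B e =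
      Wf 1 B (fun e : ℝ × (Ω → ℝ) => endF S a e.2) e := by
    show Wf 1 B (fun e : ℝ × (Ω → ℝ) => endF S a e.2) e - 0 = _
    rw [sub_zero]
  rw [h0]
  have h1 : Wf 1 B (fun e : ℝ × (Ω → ℝ) => endF S a e.2) e =
      ∑ ω ∈ S, gw S (fun ω => Rbd_A Ω ω e + a ω) ω * B ω ω := by
    unfold Wf
    have h2 : ∀ o o', B o o' *
        (fderiv ℝ (fderiv ℝ (fun e : ℝ × (Ω → ℝ) => endF S a e.2)) e (0, Pi.single o 1)
          (0, Pi.single o' 1) +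
        1 * (fderiv ℝ (fun e : ℝ × (Ω → ℝ) => endF S a e.2) e (0, Pi.single o 1) *
          fderiv ℝ (fun e : ℝ × (Ω → ℝ) => endF S a e.2) e (0, Pi.single o' 1))) =
        ∑ ω ∈ S, gw S (fun ω => Rbd_A Ω ω e + a ω) ω *
          (B o o' * ((Pi.single o (1 : ℝ) : Ω → ℝ) ω * (Pi.single o' (1 : ℝ) : Ω → ℝ) ω)) := by
      intro o o'
      rw [Rbd_fderiv2 hS, one_mul, sub_add_cancel, Finset.mul_sum]
      refine Finset.sum_congr rfl fun ω _ => ?_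
      ring
    rw [Finset.sum_congr rfl fun o _ => Finset.sum_congr rfl fun o' _ => h2 o o']
    rw [Finset.sum_congr rfl fun o _ => Finset.sum_comm, Finset.sum_comm]
    refine Finset.sum_congr rfl fun ω _ => ?_
    rw [Finset.sum_eq_single ω]
    · rw [Finset.sum_eq_single ω]
      · rw [Pi.single_eq_same]
        ring
      · intro b _ hb
        rw [Pi.single_eq_of_ne (Ne.symm hb)]
        ring
      · intro h
        exact absurd (Finset.mem_univ _) h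
    · intro b _ hb
      refine Finset.sum_eq_zero fun o' _ => ?_
      rw [Pi.single_eq_of_ne (Ne.symm hb)]
      ring
    · intro h
      exact absurd (Finset.mem_univ _) h
  rw [h1]
  calc ∑ ω ∈ S, gw S (fun ω => Rbd_A Ω ω e + a ω) ω * B ω ω
      ≤ ∑ ω ∈ S, gw S (fun ω => Rbd_A Ω ω e + a ω) ω * δ :=
        Finset.sum_le_sum fun ω hω => mul_le_mul_of_nonneg_left (hB ω hω) (gw_nonneg _ _ _)
    _ = δ := by
        rw [← Finset.sum_mul, gw_sum hS, one_mul]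

/-- Bound of `Rf` by induction on `l` (`Rf_nil_le` with `kern_diag`; `Rf_cons_le` with
`γ = N * Cf β Q` (`kern_lower`), `kern_step`, definition of `corr`). -/
theorem Rf_le {K : Type} [Fintype K] [DecidableEq K] (β : K → ℝ) (hβ : ∀ c, 0 ≤ β c) {N : ℕ}
    (hN : 0 < N) {S : Finset (Cfg K N)} (hS : S.Nonempty) (a : Cfg K N → ℝ) {ε : ℝ} (hε : 0 ≤ ε)
    (D : Matrix K K ℝ) (hSD : ∀ ρ ∈ S, ∀ c c', |ov ρ ρ c c' - D c c'| ≤ ε) :
    ∀ (l : List (Step K)) (m0 : ℝ) (Q : Matrix K K ℝ), Wt m0 l → Q + Qtot l = D →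
      ∀ e, Rf (endF S a) (l.map (fun s => (s.1, vS β N s.2))) m0 (kern β N Q) e ≤
        N * ((∑ c, β c) ^ 2 * ε ^ 2 - m0 * Cf β Q - corr β Q l) := by
  intro l
  induction l with
  | nil =>
    intro m0 Q hm hQ e
    have hm' : m0 = 1 := hm
    have hQ' : Q = D := by
      have h1 : Q + 0 = D := hQ
      rwa [add_zero] at h1
    subst hm'
    refine Rf_nil_le hS a (kern β N Q) (fun o ho => ?_) e
    refine (kern_diag β hβ N Q o hε (fun c c' => ?_)).trans (le_of_eq ?_)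
    · rw [hQ']
      exact hSD o ho c c'
    · show _ = (N : ℝ) * ((∑ c, β c) ^ 2 * ε ^ 2 - 1 * Cf β Q - 0)
      ring
  | cons s l ih =>
    intro m0 Q hm hQ e
    have hm' : m0 ≤ s.1 ∧ Wt s.1 l := hm
    have hQ' : Q + s.2 * s.2ᵀ + Qtot l = D := by
      have h1 : Q + (s.2 * s.2ᵀ + Qtot l) = D := hQ
      rwa [← add_assoc] at h1
    have h2 := Rf_cons_le (adm_endF hS a) (endF_prob hS a) (s.1, vS β N s.2)
      (l.map (fun s => (s.1, vS β N s.2))) m0 hm'.1 (kern β N Q)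
      (γ := (N : ℝ) * Cf β Q)
      (M := N * ((∑ c, β c) ^ 2 * ε ^ 2 - s.1 * Cf β (Q + s.2 * s.2ᵀ) -
        corr β (Q + s.2 * s.2ᵀ) l))
      (fun o o' => kern_lower β hβ N Q o o') (fun e => by
        rw [kern_step β hN Q s.2]
        exact ih s.1 (Q + s.2 * s.2ᵀ) hm'.2 hQ' e) e
    refine h2.trans (le_of_eq ?_)
    show (N : ℝ) * ((∑ c, β c) ^ 2 * ε ^ 2 - s.1 * Cf β (Q + s.2 * s.2ᵀ) -
        corr β (Q + s.2 * s.2ᵀ) l) + (s.1 - m0) * ((N : ℝ) * Cf β Q) =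
      N * ((∑ c, β c) ^ 2 * ε ^ 2 - m0 * Cf β Q -
        (s.1 * (Cf β (Q + s.2 * s.2ᵀ) - Cf β Q) + corr β (Q + s.2 * s.2ᵀ) l))
    ring

end SKC.B
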