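import Pool.Agent.H.MP_08eaf3_pr.B.GStep2
import Pool.Agent.H.MP_08eaf3_pr.B.Rbd

/-!
# Part B: the end of the interpolation: the sites decouple
-/

set_option autoImplicit false

open MeasureTheory ProbabilityTheory Filter Topology Matrix

namespace SKC.B

/-- at `θ = π/2` the recursion for the features `Λ * Bm β s.2` is the recursion `PsiL` for `F ∘ Λ`:
induction on `l`, `Λ z + 1 • (Λ * B) x = Λ (z + B x)` (`Matrix.mulVec_mulVec`, `Matrix.mulVec_add`,
`Real.sin_pi_div_two`). -/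
theorem nest_half {Ω K : Type} [Fintype Ω] [DecidableEq Ω] [Fintype K] (F : (Ω → ℝ) → ℝ)
    (Λ : Matrix Ω K ℝ) (β : K → ℝ) (l : List (Step K)) (z : K → ℝ) :
    nest F (l.map (fun s => (s.1, Λ * Bm β s.2))) (Real.pi / 2, Λ.mulVec z) =
      PsiL β l (fun z => F (Λ.mulVec z)) z := by
  induction l generalizing z with
  | nil => rfl
  | cons s l ih =>
    have h1 : nest F ((s :: l).map (fun s => (s.1, Λ * Bm β s.2))) (Real.pi / 2, Λ.mulVec z) =
        Tx s.1 (fun x => nest F (l.map (fun s => (s.1, Λ * Bm β s.2)))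
          (sub Real.sin (Λ * Bm β s.2) (Real.pi / 2, Λ.mulVec z) x)) := rfl
    have h2 : PsiL β (s :: l) (fun z => F (Λ.mulVec z)) z =
        Tm s.1 (Bm β s.2) (PsiL β l (fun z => F (Λ.mulVec z))) z := rfl
    rw [h1, h2, Tm_eq]
    congr 1
    funext x
    have h3 : sub Real.sin (Λ * Bm β s.2) (Real.pi / 2, Λ.mulVec z) x =
        (Real.pi / 2, Λ.mulVec (z + (Bm β s.2).mulVec x)) := by
      unfold sub
      rw [Real.sin_pi_div_two, one_smul, Matrix.mulVec_add, Matrix.mulVec_mulVec]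
    rw [h3, ih]

/-- the spin matrix `Λ ρ (i,c) = s_{c,i}` -/
def La (K : Type) (N : ℕ) : Matrix (Cfg K N) (Fin N × K) ℝ := fun ρ p => sg (ρ p.1 p.2)

/-- the site features factor through the spin matrix: both sides at `(ρ, (i,d))` are
`∑_c s_ci √2 β_c E_cd` -/
theorem vS_eq {K : Type} [Fintype K] (β : K → ℝ) (N : ℕ) (s : Step K) :
    La K N * Bm (fun p : Fin N × K => β p.2) (gstep (id : Fin N → Fin N) 1 s).2 = vS β N s.2 := by
  funext ρ p
  rw [Matrix.mul_apply]
  unfold La Bm gstep vS Bm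
  dsimp only [id]
  rw [Fintype.sum_prod_type, Finset.sum_eq_single p.1]
  · refine Finset.sum_congr rfl fun c _ => ?_
    rw [if_pos rfl, Nat.cast_one, Real.sqrt_one, div_one]
  · intro i _ hi
    refine Finset.sum_eq_zero fun c _ => ?_
    rw [if_neg hi, mul_zero, mul_zero]
  · intro h
    exact absurd (Finset.mem_univ _) h

/-- the exponent at a configuration splits over the sites -/
theorem Site_exp {K : Type} [Fintype K] {N : ℕ} (φ : (K → Bool) → ℝ) (t : ℝ)
    (z : Fin N × K → ℝ) (ρ : Cfg K N) :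
    (La K N).mulVec z ρ + t * ∑ i, φ (ρ i) =
      ∑ i, ((∑ c, sg (ρ i c) * bl z i c) + t * φ (ρ i)) := by
  rw [Finset.sum_add_distrib, Finset.mul_sum]
  congr 1
  unfold Matrix.mulVec dotProduct La bl
  rw [Fintype.sum_prod_type]

theorem Site_sum {K : Type} [Fintype K] [DecidableEq K] {N : ℕ} (φ : (K → Bool) → ℝ) (t : ℝ)
    (z : Fin N × K → ℝ) :
    ∑ ρ : Cfg K N, Real.exp ((La K N).mulVec z ρ + t * ∑ i, φ (ρ i)) =
      ∏ i, ∑ s : K → Bool, Real.exp ((∑ c, sg (s c) * bl z i c) + t * φ s) := by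
  rw [Finset.prod_univ_sum, Fintype.piFinset_univ]
  refine Finset.sum_congr rfl fun ρ _ => ?_
  rw [Site_exp, Real.exp_sum]

theorem Site_sg (b : Bool) : |sg b| = 1 := by
  unfold sg
  split_ifs <;> simp

theorem Site_n1 {K : Type} [Fintype K] {N : ℕ} (z : Fin N × K → ℝ) :
    ∑ i, n1 (bl z i) = n1 z := by
  unfold n1 bl
  rw [Fintype.sum_prod_type]

theorem Site_La {K : Type} [Fintype K] {N : ℕ} (z : Fin N × K → ℝ) (ρ : Cfg K N) :
    |(La K N).mulVec z ρ| ≤ n1 z := by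
  unfold Matrix.mulVec dotProduct La n1
  refine (Finset.abs_sum_le_sum_abs _ _).trans (Finset.sum_le_sum fun p _ => ?_)
  rw [abs_mul, Site_sg, one_mul]

/-- the sum over all configurations factorises over the sites, and the sum over `S` is smaller:
`log ∑_{ρ ∈ S} exp(∑_{i,c} s_ci z_ic + t ∑ φ(ρ_i)) ≤ ∑_i psiEnd φ t (z_i)`
(`Finset.prod_univ_sum` / `Fintype.piFinset_univ`, `Real.exp_sum`, `Real.log_prod`, `Real.log_le_log`). -/
theorem endF_le {K : Type} [Fintype K] [DecidableEq K] {N : ℕ} {S : Finset (Cfg K N)}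
    (hS : S.Nonempty) (φ : (K → Bool) → ℝ) (t : ℝ) (z : Fin N × K → ℝ) :
    endF S (fun ρ => t * ∑ i, φ (ρ i)) ((La K N).mulVec z) ≤ ∑ i, psiEnd φ t (bl z i) := by
  unfold endF lse psiEnd
  have hpos : ∀ i : Fin N, 0 < ∑ s : K → Bool, Real.exp ((∑ c, sg (s c) * bl z i c) + t * φ s) :=
    fun i => Finset.sum_pos (fun s _ => Real.exp_pos _) Finset.univ_nonempty
  rw [← Real.log_prod (fun i _ => (hpos i).ne'), ← Site_sum]
  refine Real.log_le_log (Finset.sum_pos (fun s _ => Real.exp_pos _) hS) ?_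
  exact Finset.sum_le_sum_of_subset_of_nonneg (Finset.subset_univ S)
    (fun _ _ _ => (Real.exp_pos _).le)

theorem Site_LG {K : Type} [Fintype K] [DecidableEq K] {N : ℕ} (φ : (K → Bool) → ℝ) (t : ℝ) :
    SKC.LG (fun z : Fin N × K → ℝ => ∑ i, psiEnd φ t (bl z i)) := by
  obtain ⟨hc, C, hC⟩ := LG_psiEnd (K := K) φ t
  have h0 := Cls_LG_nonneg hC
  refine ⟨continuous_finset_sum _ fun i _ => hc.comp (gstep2_bl_cont i), C * (N + 1), fun z => ?_⟩
  have h1 : |∑ i, psiEnd φ t (bl z i)| ≤ ∑ i : Fin N, C * (1 + n1 (bl z i)) :=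
    (Finset.abs_sum_le_sum_abs _ _).trans (Finset.sum_le_sum fun i _ => hC _)
  refine h1.trans ?_
  rw [← Finset.mul_sum, Finset.sum_add_distrib, Site_n1, Finset.sum_const, Finset.card_univ,
    Fintype.card_fin, nsmul_eq_mul, mul_one, mul_assoc]
  refine mul_le_mul_of_nonneg_left ?_ h0
  have h2 := Cls_n1_nonneg z
  have h3 : (0 : ℝ) ≤ N := Nat.cast_nonneg _
  nlinarith

/-- `F ∘ Λ` has linear growth: it lies between one term and the previous bound -/
theorem LG_endF {K : Type} [Fintype K] [DecidableEq K] {N : ℕ} {S : Finset (Cfg K N)}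
    (hS : S.Nonempty) (φ : (K → Bool) → ℝ) (t : ℝ) :
    SKC.LG (fun z : Fin N × K → ℝ => endF S (fun ρ => t * ∑ i, φ (ρ i)) ((La K N).mulVec z)) := by
  have hpos : ∀ z : Fin N × K → ℝ,
      0 < ∑ ρ ∈ S, Real.exp ((La K N).mulVec z ρ + t * ∑ i, φ (ρ i)) := fun z =>
    Finset.sum_pos (fun s _ => Real.exp_pos _) hS
  have hcont : Continuous fun z : Fin N × K → ℝ =>
      ∑ ρ ∈ S, Real.exp ((La K N).mulVec z ρ + t * ∑ i, φ (ρ i)) := by
    refine continuous_finset_sum _ fun ρ _ => Real.continuous_exp.comp ?_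
    refine Continuous.add ?_ continuous_const
    exact (continuous_apply ρ).comp (continuous_const.matrix_mulVec continuous_id)
  refine ⟨hcont.log fun z => (hpos z).ne', ?_⟩
  obtain ⟨-, C, hC⟩ := Site_LG (K := K) (N := N) φ t
  have h0 := Cls_LG_nonneg hC
  obtain ⟨ρ0, hρ0⟩ := hS
  refine ⟨C + 1 + |t * ∑ i, φ (ρ0 i)|, fun z => ?_⟩
  have hn := Cls_n1_nonneg z
  have up := (endF_le ⟨ρ0, hρ0⟩ φ t z).trans ((le_abs_self _).trans (hC z))
  have lo : (La K N).mulVec z ρ0 + t * ∑ i, φ (ρ0 i) ≤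
      endF S (fun ρ => t * ∑ i, φ (ρ i)) ((La K N).mulVec z) := by
    unfold endF lse
    rw [Real.le_log_iff_exp_le (hpos z)]
    exact Finset.single_le_sum
      (f := fun ρ : Cfg K N => Real.exp ((La K N).mulVec z ρ + t * ∑ i, φ (ρ i)))
      (fun _ _ => (Real.exp_pos _).le) hρ0
  have h1 := neg_abs_le ((La K N).mulVec z ρ0)
  have h2 := Site_La z ρ0
  have h3 := neg_abs_le (t * ∑ i, φ (ρ0 i))
  have h4 := abs_nonneg (t * ∑ i, φ (ρ0 i))
  have p1 : 0 ≤ |t * ∑ i, φ (ρ0 i)| * n1 z := mul_nonneg h4 hn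
  have p2 : 0 ≤ C * n1 z := mul_nonneg h0 hn
  rw [abs_le]
  constructor
  · nlinarith
  · nlinarith

/-- the sum over the sites has linear growth -/
theorem LG_siteSum {K : Type} [Fintype K] [DecidableEq K] {N : ℕ} (φ : (K → Bool) → ℝ) (t : ℝ) :
    SKC.LG (fun z : Fin N × K → ℝ => ∑ i, psiEnd φ t (bl z i)) :=
  Site_LG φ t

/-- end of the interpolation: `nest_half` (after rewriting the list by `vS_eq`), `PsiL_mono` with `endF_le`, `gPsi` for
`π = id`, `k = 1` at `y = 0`. -/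
theorem nest_half_le {K : Type} [Fintype K] [DecidableEq K] {N : ℕ} {S : Finset (Cfg K N)}
    (hS : S.Nonempty) (φ : (K → Bool) → ℝ) (t : ℝ) (β : K → ℝ) (l : List (Step K))
    (hl : ∀ a ∈ l, 0 ≤ a.1) :
    nest (endF S (fun ρ => t * ∑ i, φ (ρ i))) (l.map (fun s => (s.1, vS β N s.2)))
        (Real.pi / 2, 0) ≤ N * PsiL β l (psiEnd φ t) 0 := by
  have hlist : l.map (fun s => (s.1, vS β N s.2)) =
      (l.map (gstep (id : Fin N → Fin N) 1)).map
        (fun s => (s.1, La K N * Bm (fun p : Fin N × K => β p.2) s.2)) := by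
    rw [List.map_map]
    refine List.map_congr_left fun s _ => ?_
    change (s.1, vS β N s.2) = ((gstep (id : Fin N → Fin N) 1 s).1,
      La K N * Bm (fun p : Fin N × K => β p.2) (gstep (id : Fin N → Fin N) 1 s).2)
    rw [vS_eq]
    have h1 : (gstep (K := K) (id : Fin N → Fin N) 1 s).1 = s.1 := by
      change s.1 / ((1 : ℕ) : ℝ) = s.1
      rw [Nat.cast_one, div_one]
    rw [h1]
  have h0 : (0 : Cfg K N → ℝ) = (La K N).mulVec 0 := (Matrix.mulVec_zero _).symm
  rw [hlist, h0, nest_half]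
  have hl' : ∀ a ∈ l.map (gstep (id : Fin N → Fin N) 1), 0 ≤ a.1 := by
    intro a ha
    obtain ⟨s, hs, rfl⟩ := List.mem_map.1 ha
    change 0 ≤ s.1 / ((1 : ℕ) : ℝ)
    rw [Nat.cast_one, div_one]
    exact hl s hs
  refine (PsiL_mono (LG_endF hS φ t) (LG_siteSum φ t) (fun p : Fin N × K => β p.2) _ hl'
    (fun z => endF_le hS φ t z) 0).trans (le_of_eq ?_)
  have hfib : ∀ j' : Fin N, (Finset.univ.filter (fun j => (id : Fin N → Fin N) j = j')).card = 1 := by
    intro j'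
    have h1 : (Finset.univ.filter (fun j => (id : Fin N → Fin N) j = j')) = {j'} := by
      ext j
      simp
    rw [h1, Finset.card_singleton]
  have h2 := gPsi β Nat.one_pos hfib (LG_siteSum (K := K) (N := N) φ t)
    (fun _ => LG_psiEnd (K := K) φ t) (fun y => by
      rw [Nat.cast_one, one_mul]
      rfl) l (0 : Fin N × K → ℝ)
  have h3 : rep (id : Fin N → Fin N) (0 : Fin N × K → ℝ) = 0 := rfl
  rw [h3] at h2
  rw [h2, Nat.cast_one, one_mul]
  have h4 : ∀ j : Fin N, bl (0 : Fin N × K → ℝ) j = 0 := fun _ => rfl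
  simp only [h4]
  rw [Finset.sum_const, Finset.card_univ, Fintype.card_fin, nsmul_eq_mul]

end SKC.B
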