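import Pool.Agent.H.MP_08eaf3_pr.B.Interp
import Pool.Agent.H.MP_08eaf3_pr.B.Site

/-!
# Part B: Guerra bound for step paths
-/

set_option autoImplicit false

open MeasureTheory ProbabilityTheory Filter Topology Matrix

namespace SKC.B

variable {K : Type} [Fintype K] [DecidableEq K]

/-- Theorem B: `EL B (vH β N) a = ∫ endF B a ((VH β N).mulVec x)`; `interp` with
`M = N ((∑β)^2 ε^2 - corr β 0 l)` (`Rf_le` with `m0 = 0`, `Q = 0`, `kern_zero`, `Wt_of_valid`), then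
`nest_half_le`. -/
theorem guerra (β : K → ℝ) (hβ : ∀ c, 0 ≤ β c) (φ : (K → Bool) → ℝ) (t : ℝ) (l : List (Step K))
    (hl : Valid l) (ε : ℝ) (hε : 0 ≤ ε) (N : ℕ) (hN : 0 < N) (B : Finset (Cfg K N))
    (hB : B.Nonempty) (hBn : ∀ ρ ∈ B, ∀ c c', |ov ρ ρ c c' - Qtot l c c'| ≤ ε) :
    EL B (vH β N) (fun ρ => t * ∑ i, φ (ρ i)) ≤
      N * Pf β φ t l + (N : ℝ) / 2 * (∑ c, β c) ^ 2 * ε ^ 2 := by
  have hF := adm_endF hB (fun ρ : Cfg K N => t * ∑ i, φ (ρ i))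
  have h1 := interp hF (l.map (fun s => (s.1, vS β N s.2))) (VH β N)
    (M := N * ((∑ c, β c) ^ 2 * ε ^ 2 - 0 * Cf β 0 - corr β 0 l)) (by
      intro e
      rw [← kern_zero β hN]
      exact Rf_le β hβ hN hB _ hε (Qtot l) hBn l 0 0 (Wt_of_valid hl) (zero_add _) e)
  have h2 := nest_half_le hB φ t β l (fun a ha => (hl.2.1 a ha).1)
  have h3 : EL B (vH β N) (fun ρ => t * ∑ i, φ (ρ i)) =
      ∫ x, endF B (fun ρ => t * ∑ i, φ (ρ i)) ((VH β N).mulVec x) ∂(gam (Fin N × Fin N)) := by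
    unfold EL endF
    refine integral_congr_ae (Filter.Eventually.of_forall fun x => ?_)
    have h4 : ∀ ρ : Cfg K N, dot x (vH β N ρ) = (VH β N).mulVec x ρ := by
      intro ρ
      unfold dot Matrix.mulVec dotProduct
      exact Finset.sum_congr rfl fun i _ => mul_comm _ _
    simp only [h4]
  rw [h3]
  unfold Pf
  have h5 : (N : ℝ) * ((∑ c, β c) ^ 2 * ε ^ 2 - 0 * Cf β 0 - corr β 0 l) / 2 =
      (N : ℝ) / 2 * (∑ c, β c) ^ 2 * ε ^ 2 - N * (1 / 2 * corr β 0 l) := by ring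
  linarith [h1, h2, h5]

end SKC.B
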