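import Pool.Agent.H.MP_08eaf3_pr.B.GamExp

/-!
# Part B: Gaussian integration by parts
-/

set_option autoImplicit false

open MeasureTheory ProbabilityTheory Filter Topology Matrix

namespace SKC.B

theorem ibp_int {u : ℝ → ℝ} (hu : Continuous u) {A C : ℝ}
    (h : ∀ s, |u s| ≤ A * Real.exp (C * |s|)) :
    Integrable (fun s => u s * gaussianPDFReal 0 1 s) := by
  have hA : 0 ≤ A := by
    have h1 := (abs_nonneg _).trans (h 0)
    rw [abs_zero, mul_zero, Real.exp_zero, mul_one] at h1
    exact h1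
  have hg : Continuous (gaussianPDFReal 0 1) := by
    unfold gaussianPDFReal
    fun_prop
  have h2 : Integrable (fun s : ℝ => A * Real.exp (C ^ 2) *
      Real.exp (-(1 / 4) * s ^ 2)) :=
    (integrable_exp_neg_mul_sq (show (0 : ℝ) < 1 / 4 by norm_num)).const_mul _
  refine h2.mono' (hu.mul hg).aestronglyMeasurable (Filter.Eventually.of_forall fun s => ?_)
  rw [Real.norm_eq_abs, abs_mul, abs_of_nonneg (gaussianPDFReal_nonneg _ _ _)]
  have h3 : gaussianPDFReal 0 1 s ≤ Real.exp (-s ^ 2 / 2) := by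
    rw [gaussianPDFReal_def]
    show (√(2 * Real.pi * ((1 : NNReal) : ℝ)))⁻¹ *
      Real.exp (-(s - 0) ^ 2 / (2 * ((1 : NNReal) : ℝ))) ≤ _
    rw [NNReal.coe_one, mul_one, mul_one, sub_zero]
    have h4 : (√(2 * Real.pi))⁻¹ ≤ 1 := by
      apply inv_le_one_of_one_le₀
      rw [Real.one_le_sqrt]
      nlinarith [Real.pi_gt_three]
    exact mul_le_of_le_one_left (Real.exp_pos _).le h4
  calc |u s| * gaussianPDFReal 0 1 s ≤ (A * Real.exp (C * |s|)) * Real.exp (-s ^ 2 / 2) :=
        mul_le_mul (h s) h3 (gaussianPDFReal_nonneg _ _ _) (by positivity)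
    _ = A * Real.exp (C * |s| + -s ^ 2 / 2) := by rw [Real.exp_add, mul_assoc]
    _ ≤ A * Real.exp (C ^ 2 + -(1 / 4) * s ^ 2) := by
        apply mul_le_mul_of_nonneg_left _ hA
        apply Real.exp_le_exp.2
        nlinarith [sq_nonneg (C - |s| / 2), sq_abs s]
    _ = A * Real.exp (C ^ 2) * Real.exp (-(1 / 4) * s ^ 2) := by rw [Real.exp_add, mul_assoc]

theorem ibp_deriv (s : ℝ) :
    HasDerivAt (gaussianPDFReal 0 1) (-(s * gaussianPDFReal 0 1 s)) s := by
  have h1 : gaussianPDFReal 0 1 = fun x => (√(2 * Real.pi))⁻¹ * Real.exp (-x ^ 2 / 2) := by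
    funext x
    rw [gaussianPDFReal_def]
    show (√(2 * Real.pi * ((1 : NNReal) : ℝ)))⁻¹ *
      Real.exp (-(x - 0) ^ 2 / (2 * ((1 : NNReal) : ℝ))) = _
    rw [NNReal.coe_one, mul_one, mul_one, sub_zero]
  rw [h1]
  have h2 : HasDerivAt (fun x : ℝ => -x ^ 2 / 2) (-s) s := by
    have h3 : HasDerivAt (fun x : ℝ => -x ^ 2 / 2) (-(((2 : ℕ) : ℝ) * s ^ (2 - 1)) / 2) s :=
      ((hasDerivAt_pow 2 s).neg).div_const 2
    refine h3.congr_deriv ?_
    push_cast
    ring
  refine (h2.exp.const_mul _).congr_deriv ?_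
  ring

theorem ibp_one {g g' : ℝ → ℝ} (hg : ∀ s, HasDerivAt g (g' s) s) (hc : Continuous g')
    {A C : ℝ} (h0 : ∀ s, |g s| ≤ A * Real.exp (C * |s|))
    (h1 : ∀ s, |g' s| ≤ A * Real.exp (C * |s|)) :
    ∫ s, s * g s ∂(gaussianReal 0 1) = ∫ s, g' s ∂(gaussianReal 0 1) := by
  have hA : 0 ≤ A := by
    have h1 := (abs_nonneg _).trans (h0 0)
    rw [abs_zero, mul_zero, Real.exp_zero, mul_one] at h1
    exact h1
  have hgc : Continuous g := continuous_iff_continuousAt.2 fun s => (hg s).continuousAt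
  rw [integral_gaussianReal_eq_integral_smul one_ne_zero,
    integral_gaussianReal_eq_integral_smul one_ne_zero]
  have i0 := ibp_int hgc h0
  have i1 := ibp_int hc h1
  have i2 : Integrable (fun s => (s * g s) * gaussianPDFReal 0 1 s) := by
    refine ibp_int (u := fun s => s * g s) (A := A) (C := C + 1) (continuous_id.mul hgc) fun s => ?_
    rw [abs_mul]
    have h2 : |s| ≤ Real.exp |s| := by linarith [Real.add_one_le_exp |s|]
    calc |s| * |g s| ≤ Real.exp |s| * (A * Real.exp (C * |s|)) :=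
          mul_le_mul h2 (h0 s) (abs_nonneg _) (Real.exp_pos _).le
      _ = A * Real.exp ((C + 1) * |s|) := by
          rw [add_mul, one_mul, Real.exp_add]
          ring
  have h3 := integral_mul_deriv_eq_deriv_mul_of_integrable (u := g)
    (v := gaussianPDFReal 0 1) (u' := g') (v' := fun s => -(s * gaussianPDFReal 0 1 s))
    (fun s _ => hg s) (fun s _ => ibp_deriv s) ?_ i1 i0
  · have e1 : ∫ s, gaussianPDFReal 0 1 s • (s * g s) =
        -∫ s, g s * -(s * gaussianPDFReal 0 1 s) := by
      rw [← integral_neg]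
      refine integral_congr_ae (Filter.Eventually.of_forall fun s => ?_)
      show gaussianPDFReal 0 1 s * (s * g s) = -(g s * -(s * gaussianPDFReal 0 1 s))
      ring
    rw [e1, h3, neg_neg]
    refine integral_congr_ae (Filter.Eventually.of_forall fun s => ?_)
    show g' s * gaussianPDFReal 0 1 s = gaussianPDFReal 0 1 s * g' s
    ring
  · refine i2.neg.congr (Filter.Eventually.of_forall fun s => ?_)
    show -((s * g s) * gaussianPDFReal 0 1 s) = g s * -(s * gaussianPDFReal 0 1 s)
    ring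

theorem ibp_update {κ : Type} [Fintype κ] [DecidableEq κ] (k : κ) :
    MeasurePreserving (fun p : (κ → ℝ) × ℝ => Function.update p.1 k p.2)
      ((gam κ).prod (gaussianReal 0 1)) (gam κ) := by
  have hm : Measurable (fun p : (κ → ℝ) × ℝ => Function.update p.1 k p.2) := measurable_update'
  refine ⟨hm, ?_⟩
  symm
  refine Measure.pi_eq fun s hs => ?_
  rw [Measure.map_apply hm (MeasurableSet.univ_pi hs)]
  have h1 : (fun p : (κ → ℝ) × ℝ => Function.update p.1 k p.2) ⁻¹' (Set.univ.pi s) =
      (Set.univ.pi (Function.update s k Set.univ)) ×ˢ (s k) := by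
    ext ⟨x, t⟩
    simp only [Set.mem_preimage, Set.mem_pi, Set.mem_univ, forall_true_left, Set.mem_prod]
    constructor
    · intro h
      refine ⟨fun i => ?_, ?_⟩
      · by_cases hi : i = k
        · subst hi
          rw [Function.update_self]
          exact Set.mem_univ _
        · have := h i
          rw [Function.update_of_ne hi] at this ⊢
          exact this
      · have := h k
        rwa [Function.update_self] at this
    · rintro ⟨h, ht⟩ i
      by_cases hi : i = k
      · subst hi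
        rw [Function.update_self]
        exact ht
      · have := h i
        rw [Function.update_of_ne hi] at this ⊢
        exact this
  rw [h1, Measure.prod_prod]
  unfold gam
  rw [Measure.pi_pi, ← Finset.mul_prod_erase Finset.univ _ (Finset.mem_univ k),
    ← Finset.mul_prod_erase Finset.univ _ (Finset.mem_univ k), Function.update_self, measure_univ,
    one_mul, mul_comm]
  congr 1
  refine Finset.prod_congr rfl fun i hi => ?_
  rw [Function.update_of_ne (Finset.ne_of_mem_erase hi)]

theorem ibp_norm {κ : Type} [Fintype κ] [DecidableEq κ] (k : κ) (x : κ → ℝ) (s : ℝ) :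
    ‖Function.update x k s‖ ≤ ‖x‖ + |s| := by
  rw [pi_norm_le_iff_of_nonneg (by positivity)]
  intro i
  by_cases hi : i = k
  · subst hi
    rw [Function.update_self, Real.norm_eq_abs]
    linarith [norm_nonneg x]
  · rw [Function.update_of_ne hi]
    linarith [norm_le_pi_norm x i, abs_nonneg s]

theorem ibp_grow {κ : Type} [Fintype κ] [DecidableEq κ] (k : κ) {G : (κ → ℝ) → ℝ} {C : ℝ}
    (h0 : ∀ x, |G x| ≤ C * Real.exp (C * ‖x‖)) (x : κ → ℝ) (s : ℝ) :
    |G (Function.update x k s)| ≤ (C * Real.exp (C * ‖x‖)) * Real.exp (C * |s|) := by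
  have hC : 0 ≤ C := by
    have h1 := (abs_nonneg _).trans (h0 0)
    rw [norm_zero, mul_zero, Real.exp_zero, mul_one] at h1
    exact h1
  calc |G (Function.update x k s)| ≤ C * Real.exp (C * ‖Function.update x k s‖) := h0 _
    _ ≤ C * Real.exp (C * (‖x‖ + |s|)) := by
        apply mul_le_mul_of_nonneg_left _ hC
        exact Real.exp_le_exp.2 (mul_le_mul_of_nonneg_left (ibp_norm k x s) hC)
    _ = _ := by rw [mul_add, Real.exp_add, mul_assoc]

/-- Gaussian integration by parts: `E[x_k G(x)] = E[∂_k G(x)]`.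
Proof. Fubini: the law of `x` is the product of the law of `x_k` and the law of the other coordinates
(`MeasureTheory.measurePreserving_piEquivPiSubtypeProd` or, after `Fintype` induction, `Fin (n+1)`), and in one
dimension `∫ s g(s) φ(s) ds = ∫ g'(s) φ(s) ds` for the Gaussian density `φ` (`φ' = -s φ`,
`MeasureTheory.integral_mul_deriv_eq_deriv_mul_of_integrable`; integrability by the exponential growth). -/
theorem ibp {κ : Type} [Fintype κ] [DecidableEq κ] (k : κ) {G : (κ → ℝ) → ℝ} (hG : ContDiff ℝ 1 G)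
    (h0 : ∃ C : ℝ, ∀ x, |G x| ≤ C * Real.exp (C * ‖x‖))
    (h1 : ∃ C : ℝ, ∀ x, ‖fderiv ℝ G x‖ ≤ C * Real.exp (C * ‖x‖)) :
    ∫ x, x k * G x ∂(gam κ) = ∫ x, fderiv ℝ G x (Pi.single k 1) ∂(gam κ) := by
  obtain ⟨C₀, hC₀⟩ := h0
  obtain ⟨C₁, hC₁⟩ := h1
  have hpos : ∀ {C : ℝ} {u : (κ → ℝ) → ℝ}, (∀ x, |u x| ≤ C * Real.exp (C * ‖x‖)) → 0 ≤ C := by
    intro C u h
    have h1 := (abs_nonneg _).trans (h 0)
    rw [norm_zero, mul_zero, Real.exp_zero, mul_one] at h1
    exact h1
  have hD : ∀ x, |fderiv ℝ G x (Pi.single k 1)| ≤ C₁ * Real.exp (C₁ * ‖x‖) := by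
    intro x
    have h2 := (fderiv ℝ G x).le_opNorm (Pi.single k (1 : ℝ))
    rw [Real.norm_eq_abs] at h2
    have h3 : ‖(Pi.single k (1 : ℝ) : κ → ℝ)‖ = 1 := by
      rw [Pi.norm_single, norm_one]
    rw [h3, mul_one] at h2
    exact h2.trans (hC₁ x)
  obtain ⟨C, hC, hG0, hG1⟩ : ∃ C : ℝ, 0 ≤ C ∧ (∀ x, |G x| ≤ C * Real.exp (C * ‖x‖)) ∧
      ∀ x, |fderiv ℝ G x (Pi.single k 1)| ≤ C * Real.exp (C * ‖x‖) := by
    have key : ∀ {a b : ℝ}, 0 ≤ a → a ≤ b → ∀ x : κ → ℝ,
        a * Real.exp (a * ‖x‖) ≤ b * Real.exp (b * ‖x‖) := by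
      intro a b ha hab x
      exact mul_le_mul hab (Real.exp_le_exp.2 (mul_le_mul_of_nonneg_right hab (norm_nonneg _)))
        (Real.exp_pos _).le (ha.trans hab)
    exact ⟨max C₀ C₁, (hpos hC₀).trans (le_max_left _ _),
      fun x => (hC₀ x).trans (key (hpos hC₀) (le_max_left _ _) x),
      fun x => (hD x).trans (key (hpos hD) (le_max_right _ _) x)⟩
  have hGc : Continuous G := hG.continuous
  have hDc : Continuous fun x => fderiv ℝ G x (Pi.single k 1) :=
    (hG.continuous_fderiv one_ne_zero).clm_apply continuous_const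
  have hF1 : Integrable (fun x : κ → ℝ => x k * G x) (gam κ) := by
    refine integrable_of_exp ((continuous_apply k).mul hGc) ⟨C + 1, fun x => ?_⟩
    rw [Real.norm_eq_abs, abs_mul]
    have h2 : |x k| ≤ Real.exp ‖x‖ := by
      have h3 := norm_le_pi_norm x k
      rw [Real.norm_eq_abs] at h3
      linarith [Real.add_one_le_exp ‖x‖]
    calc |x k| * |G x| ≤ Real.exp ‖x‖ * (C * Real.exp (C * ‖x‖)) :=
          mul_le_mul h2 (hG0 x) (abs_nonneg _) (Real.exp_pos _).le
      _ = C * Real.exp ((C + 1) * ‖x‖) := by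
          rw [add_mul, one_mul, Real.exp_add]
          ring
      _ ≤ (C + 1) * Real.exp ((C + 1) * ‖x‖) :=
          mul_le_mul_of_nonneg_right (by linarith) (Real.exp_pos _).le
  have hF2 : Integrable (fun x : κ → ℝ => fderiv ℝ G x (Pi.single k 1)) (gam κ) :=
    integrable_of_exp hDc ⟨C, fun x => by rw [Real.norm_eq_abs]; exact hG1 x⟩
  have hmp := ibp_update (κ := κ) k
  have step : ∀ F : (κ → ℝ) → ℝ, Integrable F (gam κ) →
      ∫ x, F x ∂(gam κ) = ∫ x, ∫ s, F (Function.update x k s) ∂(gaussianReal 0 1) ∂(gam κ) := by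
    intro F hF
    have e1 : ∫ x, F x ∂(gam κ) = ∫ p : (κ → ℝ) × ℝ, F (Function.update p.1 k p.2)
        ∂((gam κ).prod (gaussianReal 0 1)) := by
      conv_lhs => rw [← hmp.map_eq]
      refine integral_map hmp.measurable.aemeasurable ?_
      rw [hmp.map_eq]
      exact hF.aestronglyMeasurable
    have e2 : Integrable (fun p : (κ → ℝ) × ℝ => F (Function.update p.1 k p.2))
        ((gam κ).prod (gaussianReal 0 1)) := hmp.integrable_comp_of_integrable hF
    rw [e1, integral_prod _ e2]
  rw [step _ hF1, step _ hF2]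
  refine integral_congr_ae (Filter.Eventually.of_forall fun x => ?_)
  have h4 := ibp_one (g := fun s => G (Function.update x k s))
    (g' := fun s => fderiv ℝ G (Function.update x k s) (Pi.single k 1))
    (A := C * Real.exp (C * ‖x‖)) (C := C) ?_ ?_ (fun s => ibp_grow k hG0 x s)
    (fun s => ibp_grow k (G := fun x => fderiv ℝ G x (Pi.single k 1)) hG1 x s)
  · show ∫ s, Function.update x k s k * G (Function.update x k s) ∂(gaussianReal 0 1) = _
    simp only [Function.update_self]
    exact h4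
  · intro s
    have h5 : HasFDerivAt G (fderiv ℝ G (Function.update x k s)) (Function.update x k s) :=
      ((hG.differentiable one_ne_zero) _).hasFDerivAt
    exact h5.comp_hasDerivAt s (hasDerivAt_update x k s)
  · exact hDc.comp (continuous_const.update k continuous_id)

end SKC.B
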