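import Pool.Agent.H.MP_08eaf3_pr.B.Nest

/-!
# Part B: the interpolation inequality
-/

set_option autoImplicit false

open MeasureTheory ProbabilityTheory Filter Topology Matrix

namespace SKC.B

variable {Ω κ ι : Type} [Fintype Ω] [DecidableEq Ω] [Fintype κ] [Fintype ι]

theorem Interp_bd {H : (ι → ℝ) → ℝ} (h : ∃ C : ℝ, ∀ x, |H x| ≤ C) :
    ∃ C : ℝ, ∀ x, |H x| ≤ C * Real.exp (C * ‖x‖) := by
  obtain ⟨C, hC⟩ := h
  obtain ⟨D, hD⟩ := TxB_bd_const (κ := ι) C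
  exact ⟨D, fun x => ((hC x).trans (le_abs_self C)).trans (hD x)⟩

theorem Interp_sub_cont (VH : Matrix Ω ι ℝ) (e : ℝ × (Ω → ℝ)) :
    Continuous (fun x => sub Real.cos VH e x) := by
  unfold sub
  have h1 : Continuous (fun x : ι → ℝ => VH.mulVec x) :=
    Continuous.matrix_mulVec continuous_const continuous_id
  exact continuous_const.prodMk (continuous_const.add (h1.const_smul (Real.cos e.1)))

/-- the derivative of the interpolation -/
theorem Interp_deriv {F : (Ω → ℝ) → ℝ} (hF : Adm (fun e : ℝ × (Ω → ℝ) => F e.2))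
    (l : List (ℝ × Matrix Ω κ ℝ)) (VH : Matrix Ω ι ℝ) (θ : ℝ) :
    HasDerivAt (fun θ : ℝ => Tx 0 (fun x => nest F l (sub Real.cos VH (θ, 0) x)))
      (-(Real.sin θ * Real.cos θ) * Wx 0 (fun x => nest F l (sub Real.cos VH (θ, 0) x))
        (fun x => Rf F l 0 (VH * VHᵀ) (sub Real.cos VH (θ, 0) x))) θ := by
  have hf := adm_nest hF l
  have hS := stepFn_sub scale_cos hf VH
  have hcd := Tx_contDiff hS 0
  have h1 : HasFDerivAt (fun e => Tx 0 (fun x => nest F l (sub Real.cos VH e x)))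
      (fderiv ℝ (fun e => Tx 0 (fun x => nest F l (sub Real.cos VH e x))) (θ, 0)) (θ, 0) :=
    ((hcd.differentiable (by norm_num)) (θ, 0)).hasFDerivAt
  have h2 : HasDerivAt (fun θ : ℝ => ((θ, 0) : ℝ × (Ω → ℝ))) (1, 0) θ :=
    (hasDerivAt_id θ).prodMk (hasDerivAt_const θ (0 : Ω → ℝ))
  have h3 := h1.comp_hasDerivAt θ h2
  have h4 := step_t scale_cos hf 0 VH (θ, 0)
  rw [h4] at h3
  have hUc := Uf_cont hF l
  have hWc := Wf_cont 0 (VH * VHᵀ) hf
  have hsc := Interp_sub_cont VH ((θ, 0) : ℝ × (Ω → ℝ))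
  -- the first term
  have h5 : (fun x => fderiv ℝ (nest F l) (sub Real.cos VH (θ, 0) x) (1, 0)) =
      fun x => (Real.cos θ * Real.sin θ) * Uf F l (sub Real.cos VH (θ, 0) x) := by
    funext x
    rw [nest_t hF l]
    rfl
  rw [h5, Wx_const_mul] at h3
  have h6 : Wx 0 (fun x => nest F l (sub Real.cos VH (θ, 0) x))
      (fun x => Rf F l 0 (VH * VHᵀ) (sub Real.cos VH (θ, 0) x)) =
      Wx 0 (fun x => nest F l (sub Real.cos VH (θ, 0) x))
        (fun x => Wf 0 (VH * VHᵀ) (nest F l) (sub Real.cos VH (θ, 0) x)) -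
      Wx 0 (fun x => nest F l (sub Real.cos VH (θ, 0) x))
        (fun x => Uf F l (sub Real.cos VH (θ, 0) x)) := by
    refine hS.Wx_sub 0 (θ, 0) (hWc.1.comp hsc) ?_ (hUc.1.comp hsc) ?_
    · obtain ⟨C, hC⟩ := hWc.2
      exact Interp_bd ⟨C, fun x => hC _⟩
    · obtain ⟨C, hC⟩ := hUc.2
      exact Interp_bd ⟨C, fun x => hC _⟩
  rw [h6]
  refine h3.congr_deriv ?_
  ring

/-- Interpolation. Let `g θ = Tx 0 (fun x => nest F l (sub cos VH (θ, 0) x))`, i.e. the expectation of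
`nest F l (θ, cos θ • VH x)`. Then `g 0 = ∫ F (VH x)` (`nest_zero`), `g (π/2) = nest F l (π/2, 0)`, and by
`step_t scale_cos` (with `m = 0`) and `nest_t`
`g' θ = Wx 0 (cos θ sin θ Uf) - sin θ cos θ Wx 0 (Wf 0 (VH VHᵀ) (nest F l)) = - sin θ cos θ Wx 0 (Rf F l 0 (VH VHᵀ))`,
which is at least `- sin θ cos θ M` on `[0, π/2]`. Hence `g θ + (M/2) sin^2 θ` is monotone on `[0, π/2]`
(`monotoneOn_of_deriv_nonneg`), so `g 0 ≤ g (π/2) + M/2`. -/
theorem interp {F : (Ω → ℝ) → ℝ} (hF : Adm (fun e : ℝ × (Ω → ℝ) => F e.2))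
    (l : List (ℝ × Matrix Ω κ ℝ)) (VH : Matrix Ω ι ℝ) {M : ℝ}
    (hM : ∀ e, Rf F l 0 (VH * VHᵀ) e ≤ M) :
    ∫ x, F (VH.mulVec x) ∂(gam ι) ≤ nest F l (Real.pi / 2, 0) + M / 2 := by
  have hf := adm_nest hF l
  have hS := stepFn_sub scale_cos hf VH
  have hUc := Uf_cont hF l
  have hWc := Wf_cont 0 (VH * VHᵀ) hf
  obtain ⟨g, hg⟩ : ∃ g : ℝ → ℝ, g = fun θ : ℝ =>
      Tx 0 (fun x => nest F l (sub Real.cos VH (θ, 0) x)) := ⟨_, rfl⟩
  have hW : ∀ θ : ℝ, Wx 0 (fun x => nest F l (sub Real.cos VH (θ, 0) x))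
      (fun x => Rf F l 0 (VH * VHᵀ) (sub Real.cos VH (θ, 0) x)) ≤ M := by
    intro θ
    have hsc := Interp_sub_cont VH ((θ, 0) : ℝ × (Ω → ℝ))
    have h1 := hS.Wx_mono 0 (θ, 0)
      (H1 := fun x => Rf F l 0 (VH * VHᵀ) (sub Real.cos VH (θ, 0) x)) (H2 := fun _ => M)
      ((hWc.1.comp hsc).sub (hUc.1.comp hsc)) ?_ continuous_const (Interp_bd ⟨|M|, fun _ => le_rfl⟩)
      (fun x => hM _)
    · rwa [hS.Wx_const 0 (θ, 0) M] at h1
    · obtain ⟨C, hC⟩ := hWc.2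
      obtain ⟨D, hD⟩ := hUc.2
      refine Interp_bd ⟨C + D, fun x => ?_⟩
      unfold Rf
      exact (abs_sub _ _).trans (add_le_add (hC _) (hD _))
  have hd : ∀ θ : ℝ, HasDerivAt (fun θ => g θ + M / 2 * Real.sin θ ^ 2)
      (-(Real.sin θ * Real.cos θ) * Wx 0 (fun x => nest F l (sub Real.cos VH (θ, 0) x))
        (fun x => Rf F l 0 (VH * VHᵀ) (sub Real.cos VH (θ, 0) x)) +
        M / 2 * (2 * Real.sin θ * Real.cos θ)) θ := by
    intro θ
    have h1 := Interp_deriv hF l VH θ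
    rw [← hg] at h1
    have h2 : HasDerivAt (fun θ => Real.sin θ ^ 2) (2 * Real.sin θ * Real.cos θ) θ := by
      refine ((Real.hasDerivAt_sin θ).pow 2).congr_deriv ?_
      ring
    exact h1.add (h2.const_mul (M / 2))
  have hmono : MonotoneOn (fun θ => g θ + M / 2 * Real.sin θ ^ 2) (Set.Icc 0 (Real.pi / 2)) := by
    refine monotoneOn_of_deriv_nonneg (convex_Icc _ _)
      (fun θ _ => (hd θ).continuousAt.continuousWithinAt)
      (fun θ _ => (hd θ).differentiableAt.differentiableWithinAt) fun θ hθ => ?_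
    rw [interior_Icc] at hθ
    rw [(hd θ).deriv]
    have hs : 0 ≤ Real.sin θ :=
      Real.sin_nonneg_of_nonneg_of_le_pi hθ.1.le (by linarith [hθ.2, Real.pi_pos])
    have hc : 0 ≤ Real.cos θ :=
      Real.cos_nonneg_of_neg_pi_div_two_le_of_le (by linarith [hθ.1, Real.pi_pos]) hθ.2.le
    have h1 := mul_le_mul_of_nonneg_left (hW θ) (mul_nonneg hs hc)
    linarith
  have h0 : (0 : ℝ) ∈ Set.Icc 0 (Real.pi / 2) := ⟨le_rfl, by positivity⟩
  have h1 : Real.pi / 2 ∈ Set.Icc 0 (Real.pi / 2) := ⟨by positivity, le_rfl⟩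
  have h2 := hmono h0 h1 (by positivity)
  simp only [Real.sin_zero, Real.sin_pi_div_two] at h2
  have hg0 : g 0 = ∫ x, F (VH.mulVec x) ∂(gam ι) := by
    rw [hg]
    show Tx 0 (fun x => nest F l (sub Real.cos VH (0, 0) x)) = _
    unfold Tx
    rw [if_pos rfl]
    refine integral_congr_ae (Filter.Eventually.of_forall fun x => ?_)
    show nest F l (sub Real.cos VH (0, 0) x) = F (VH.mulVec x)
    unfold sub
    rw [nest_zero]
    simp
  have hg1 : g (Real.pi / 2) = nest F l (Real.pi / 2, 0) := by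
    rw [hg]
    show Tx 0 (fun x => nest F l (sub Real.cos VH (Real.pi / 2, 0) x)) = _
    unfold Tx
    rw [if_pos rfl]
    have h3 : ∀ x : ι → ℝ, nest F l (sub Real.cos VH (Real.pi / 2, 0) x) =
        nest F l (Real.pi / 2, 0) := by
      intro x
      unfold sub
      congr 1
      simp
    simp only [h3]
    rw [integral_const]
    simp
  rw [hg0, hg1] at h2
  linarith

end SKC.B
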