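import Pool.Agent.H.MP_08eaf3_pr.B.Split

/-!
# Part B3: splitting of the last step of a pair path
-/

set_option autoImplicit false

open MeasureTheory ProbabilityTheory Filter Topology Matrix

namespace SKC.B

/-- PsiL of an append -/
theorem PsiL_app {K : Type} [Fintype K] (β : K → ℝ) (l l' : List (Step K)) (F : (K → ℝ) → ℝ) :
    PsiL β (l ++ l') F = PsiL β l (PsiL β l' F) := by
  induction l with
  | nil => rfl
  | cons s l ih =>
    rw [List.cons_append]
    simp only [PsiL]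
    rw [ih]

theorem ChE_app {K : Type} [Fintype K] (β : K → ℝ) (l l' : List (Step K)) (F h : (K → ℝ) → ℝ) :
    ChE β (l ++ l') F h = ChE β l (PsiL β l' F) (ChE β l' F h) := by
  induction l with
  | nil => rfl
  | cons s l ih =>
    rw [List.cons_append]
    simp only [ChE]
    rw [ih, PsiL_app]

theorem Qtot_app {K : Type} [Fintype K] (l l' : List (Step K)) :
    Qtot (l ++ l') = Qtot l + Qtot l' := by
  induction l with
  | nil => rw [List.nil_append, Qtot, zero_add]
  | cons s l ih =>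
    rw [List.cons_append]
    simp only [Qtot]
    rw [ih, add_assoc]

theorem corr_app {K : Type} [Fintype K] (β : K → ℝ) (Q : Matrix K K ℝ) (l l' : List (Step K)) :
    corr β Q (l ++ l') = corr β Q l + corr β (Q + Qtot l) l' := by
  induction l generalizing Q with
  | nil => rw [List.nil_append, corr, Qtot, zero_add, add_zero]
  | cons s l ih =>
    rw [List.cons_append]
    simp only [corr, Qtot]
    rw [ih, add_assoc Q, add_assoc]

/-- B3: the last step (weight 1) of a pair path may be split at `Q'`: from `hp`, `E * Eᵀ = mat 1 1 u - Q`, so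
`E * Eᵀ = E1 * E1ᵀ + E2 * E2ᵀ`; `PsiL_merge` (with `LG_F0`: `PsiL (l1 ++ l2 ++ [(1,E)]) F0` = ...), `corr` of the two
lists agree because the two weights are equal (telescoping). `Valid`, `Qtot` by list algebra. -/
theorem PairPath_split_top (b1 b2 u : ℝ) (Q Q' : Matrix (Fin 2) (Fin 2) ℝ) (δ : ℝ)
    (l1 l2 : List (Step (Fin 2))) (E E1 E2 : Matrix (Fin 2) (Fin 2) ℝ)
    (hp : PairPath b1 b2 u Q Q δ l1 l2 [((1 : ℝ), E)]) (h1 : E1 * E1ᵀ = Q' - Q)
    (h2 : E2 * E2ᵀ = mat 1 1 u - Q') :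
    PairPath b1 b2 u Q Q' δ (l1 ++ l2) [((1 : ℝ), E1)] [((1 : ℝ), E2)] := by
  obtain ⟨⟨hv1, hv2, hv3⟩, hne, hQ1, hQ2, hQ3, hP⟩ := hp
  rw [← List.append_assoc] at hv1 hv2 hv3 hQ3 hP
  have hE : E * Eᵀ = E1 * E1ᵀ + E2 * E2ᵀ := by
    rw [Qtot_app, hQ2] at hQ3
    simp only [Qtot, add_zero] at hQ3
    rw [h1, h2, ← hQ3]
    abel
  have hQ4 : Qtot ((l1 ++ l2) ++ [((1 : ℝ), E1)]) = Q' := by
    rw [Qtot_app, hQ2]
    simp only [Qtot, add_zero]
    rw [h1]
    abel
  have hQ5 : Qtot ((l1 ++ l2) ++ ([((1 : ℝ), E1)] ++ [((1 : ℝ), E2)])) = mat 1 1 u := by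
    rw [← List.append_assoc, Qtot_app, hQ4]
    simp only [Qtot, add_zero]
    rw [h2]
    abel
  refine ⟨⟨?_, ?_, ?_⟩, by simp, hQ2, hQ4, hQ5, ?_⟩
  · rw [List.pairwise_append] at hv1 ⊢
    refine ⟨hv1.1, ?_, ?_⟩
    · simp
    · intro a ha b hb
      have h3 := (hv2 a (List.mem_append_left _ ha)).2
      have h4 : b.1 = 1 := by
        simp only [List.cons_append, List.nil_append, List.mem_cons, List.not_mem_nil,
          or_false] at hb
        rcases hb with rfl | rfl <;> rfl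
      rw [h4]
      exact h3
  · intro a ha
    rcases List.mem_append.1 ha with h3 | h3
    · exact hv2 a (List.mem_append_left _ h3)
    · have h4 : a.1 = 1 := by
        simp only [List.cons_append, List.nil_append, List.mem_cons, List.not_mem_nil,
          or_false] at h3
        rcases h3 with rfl | rfl <;> rfl
      rw [h4]
      exact ⟨zero_le_one, le_rfl⟩
  · exact ⟨(l1 ++ l2) ++ [((1 : ℝ), E1)], E2, (List.append_assoc _ _ _).symm⟩
  · have hPf : Pf (be b1 b2) (fun _ => 0) 0 ((l1 ++ l2) ++ ([((1 : ℝ), E1)] ++ [((1 : ℝ), E2)])) =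
        Pf (be b1 b2) (fun _ => 0) 0 ((l1 ++ l2) ++ [((1 : ℝ), E)]) := by
      unfold Pf
      have h3 : PsiL (be b1 b2) ([((1 : ℝ), E1)] ++ [((1 : ℝ), E2)])
          (psiEnd (fun _ : Fin 2 → Bool => (0 : ℝ)) 0) =
          PsiL (be b1 b2) [((1 : ℝ), E)] (psiEnd (fun _ : Fin 2 → Bool => (0 : ℝ)) 0) :=
        PsiL_merge (be b1 b2) 1 E1 E2 E hE [] _ LG_F0
      rw [PsiL_app _ (l1 ++ l2), h3, ← PsiL_app, corr_app _ _ (l1 ++ l2), corr_app _ _ (l1 ++ l2)]
      have h4 : corr (be b1 b2) (0 + Qtot (l1 ++ l2)) ([((1 : ℝ), E1)] ++ [((1 : ℝ), E2)]) =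
          corr (be b1 b2) (0 + Qtot (l1 ++ l2)) [((1 : ℝ), E)] := by
        simp only [List.cons_append, List.nil_append, corr]
        rw [hE, add_assoc (0 + Qtot (l1 ++ l2)) (E1 * E1ᵀ)]
        ring
      rw [h4]
    rw [hPf]
    exact hP

end SKC.B
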