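import Pool.Agent.H.MP_08eaf3_pr.B.GStep2
import Pool.Agent.H.MP_08eaf3_pr.B.TopSplit

/-!
# Part B4: lifts of paths to trees: validity, end value, reduction to `gstep`
-/

set_option autoImplicit false

open MeasureTheory ProbabilityTheory Filter Topology Matrix

namespace SKC.B

variable {K : Type} [Fintype K] [DecidableEq K]

/-- the three kinds of lifted steps are `gstep`s for the maps to a point, to the group, and the identity -/
theorem up1_eq {n k : ℕ} (s : Step K) :
    up1 n k s = gstep (fun _ : Fin n × Fin k => ()) (n * k) s := by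
  unfold up1 gstep
  simp

theorem up2_eq {n k : ℕ} (s : Step K) :
    up2 n k s = gstep (fun j : Fin n × Fin k => j.1) k s := by
  unfold up2 gstep
  rfl

theorem up3_eq {n k : ℕ} (s : Step K) :
    up3 n k s = gstep (id : Fin n × Fin k → Fin n × Fin k) 1 s := by
  unfold up3 gstep
  simp

theorem fib1 (n k : ℕ) (j' : Unit) :
    (Finset.univ.filter (fun _ : Fin n × Fin k => () = j')).card = n * k := by
  simp

theorem fib2 (n k : ℕ) (j' : Fin n) :
    (Finset.univ.filter (fun j : Fin n × Fin k => j.1 = j')).card = k := by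
  have : (Finset.univ.filter (fun j : Fin n × Fin k => j.1 = j')) =
      ({j'} : Finset (Fin n)) ×ˢ (Finset.univ : Finset (Fin k)) := by
    ext ⟨a, b⟩
    simp only [Finset.mem_filter, Finset.mem_univ, true_and, Finset.mem_product,
      Finset.mem_singleton, and_true]
  rw [this, Finset.card_product]
  simp

theorem fib3 (n k : ℕ) (j' : Fin n × Fin k) :
    (Finset.univ.filter (fun j : Fin n × Fin k => id j = j')).card = 1 := by
  have : (Finset.univ.filter (fun j : Fin n × Fin k => id j = j')) = {j'} := by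
    ext a
    simp
  rw [this, Finset.card_singleton]

/-- increment of a `gstep`: `E Eᵀ` inside a fibre, `0` between different fibres -/
theorem gstep_incr {J J' : Type} [Fintype J] [Fintype J'] [DecidableEq J'] {π : J → J'} {k : ℕ}
    (hk : 0 < k) (hπ : ∀ j', (Finset.univ.filter (fun j => π j = j')).card = k) (s : Step K) :
    (gstep π k s).2 * (gstep π k s).2ᵀ =
      fun p p' => if π p.1 = π p'.1 then (s.2 * s.2ᵀ) p.2 p'.2 else 0 := by
  ext p p'
  have hk' : (0 : ℝ) < k := by exact_mod_cast hk
  rw [Matrix.mul_apply, Fintype.sum_prod_type]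
  simp only [Matrix.transpose_apply, gstep]
  by_cases h : π p.1 = π p'.1
  · rw [if_pos h, Matrix.mul_apply]
    have e : ∀ j : J, (∑ c : K, (if π p.1 = π j then s.2 p.2 c / Real.sqrt (k : ℝ) else 0) *
        (if π p'.1 = π j then s.2 p'.2 c / Real.sqrt (k : ℝ) else 0)) =
        if π j = π p.1 then (∑ c : K, s.2 p.2 c * s.2ᵀ c p'.2) / k else 0 := by
      intro j
      by_cases hj : π j = π p.1
      · rw [if_pos hj, Finset.sum_div]
        refine Finset.sum_congr rfl ?_
        intro c _
        rw [if_pos hj.symm, if_pos (h.symm.trans hj.symm), Matrix.transpose_apply, div_mul_div_comm,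
          Real.mul_self_sqrt hk'.le]
      · rw [if_neg hj]
        refine Finset.sum_eq_zero ?_
        intro c _
        rw [if_neg (fun h' => hj h'.symm), zero_mul]
    rw [Finset.sum_congr rfl (fun j _ => e j), ← Finset.sum_filter, Finset.sum_const, hπ (π p.1),
      nsmul_eq_mul]
    field_simp
  · rw [if_neg h]
    refine Finset.sum_eq_zero ?_
    intro j _
    refine Finset.sum_eq_zero ?_
    intro c _
    by_cases hj : π p.1 = π j
    · rw [if_pos hj, if_neg (fun h' => h (hj.trans (Eq.symm h'))), mul_zero]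
    · rw [if_neg hj, zero_mul]

theorem gstep_Qtot {J J' : Type} [Fintype J] [Fintype J'] [DecidableEq J'] {π : J → J'} {k : ℕ}
    (hk : 0 < k) (hπ : ∀ j', (Finset.univ.filter (fun j => π j = j')).card = k) (l : List (Step K)) :
    Qtot (l.map (gstep π k)) = fun p p' => if π p.1 = π p'.1 then Qtot l p.2 p'.2 else 0 := by
  induction l with
  | nil =>
    ext p p'
    simp [Qtot]
  | cons s l ih =>
    rw [List.map_cons]
    ext p p'
    change ((gstep π k s).2 * (gstep π k s).2ᵀ + Qtot (l.map (gstep π k))) p p' =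
      if π p.1 = π p'.1 then (s.2 * s.2ᵀ + Qtot l) p.2 p'.2 else 0
    rw [gstep_incr hk hπ, ih, Matrix.add_apply, Matrix.add_apply]
    by_cases h : π p.1 = π p'.1
    · simp only [if_pos h]
    · simp only [if_neg h, add_zero]

/-- B4: lifts are valid: the weights `m/(nk) ≤ m'/k ≤ m''` -/
theorem lift_valid (n k : ℕ) (hn : 0 < n) (hk : 0 < k) (l1 l2 l3 : List (Step K))
    (hl : Valid (l1 ++ (l2 ++ l3))) (hl3 : l3 ≠ []) : Valid (lift n k l1 l2 l3) := by
  have hn1 : (1 : ℝ) ≤ n := by exact_mod_cast hn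
  have hk1 : (1 : ℝ) ≤ k := by exact_mod_cast hk
  have hn0 : (0 : ℝ) < n := by linarith
  have hk0 : (0 : ℝ) < k := by linarith
  have hnk : (0 : ℝ) < (n : ℝ) * k := mul_pos hn0 hk0
  have hnk1 : (1 : ℝ) ≤ (n : ℝ) * k := by nlinarith
  have hknk : (k : ℝ) ≤ (n : ℝ) * k := by nlinarith
  obtain ⟨hP, hB, l', E, hE⟩ := hl
  rw [List.pairwise_append, List.pairwise_append] at hP
  obtain ⟨hP1, ⟨hP2, hP3, hP23⟩, hP123⟩ := hP
  refine ⟨?_, ?_, ?_⟩
  · unfold lift
    rw [List.pairwise_append, List.pairwise_append]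
    refine ⟨?_, ⟨?_, ?_, ?_⟩, ?_⟩
    · rw [List.pairwise_map]
      refine hP1.imp ?_
      intro a b hab
      exact div_le_div_of_nonneg_right hab hnk.le
    · rw [List.pairwise_map]
      refine hP2.imp ?_
      intro a b hab
      exact div_le_div_of_nonneg_right hab hk0.le
    · rw [List.pairwise_map]
      refine hP3.imp ?_
      intro a b hab
      exact hab
    · intro a ha b hb
      obtain ⟨a', ha', rfl⟩ := List.mem_map.1 ha
      obtain ⟨b', hb', rfl⟩ := List.mem_map.1 hb
      have h1 := hP23 a' ha' b' hb'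
      have h2 := (hB a' (by simp [ha'])).1
      change a'.1 / (k : ℝ) ≤ b'.1
      exact (div_le_self h2 hk1).trans h1
    · intro a ha b hb
      obtain ⟨a', ha', rfl⟩ := List.mem_map.1 ha
      have h2 := (hB a' (by simp [ha'])).1
      rcases List.mem_append.1 hb with hb | hb
      · obtain ⟨b', hb', rfl⟩ := List.mem_map.1 hb
        have h1 := hP123 a' ha' b' (by simp [hb'])
        change a'.1 / ((n : ℝ) * k) ≤ b'.1 / (k : ℝ)
        calc a'.1 / ((n : ℝ) * k) ≤ a'.1 / (k : ℝ) := div_le_div_of_nonneg_left h2 hk0 hknk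
          _ ≤ b'.1 / (k : ℝ) := div_le_div_of_nonneg_right h1 hk0.le
      · obtain ⟨b', hb', rfl⟩ := List.mem_map.1 hb
        have h1 := hP123 a' ha' b' (by simp [hb'])
        change a'.1 / ((n : ℝ) * k) ≤ b'.1
        exact (div_le_self h2 hnk1).trans h1
  · intro a ha
    unfold lift at ha
    rcases List.mem_append.1 ha with ha | ha
    · obtain ⟨a', ha', rfl⟩ := List.mem_map.1 ha
      have h2 := hB a' (by simp [ha'])
      exact ⟨div_nonneg h2.1 hnk.le, (div_le_self h2.1 hnk1).trans h2.2⟩
    · rcases List.mem_append.1 ha with ha | ha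
      · obtain ⟨a', ha', rfl⟩ := List.mem_map.1 ha
        have h2 := hB a' (by simp [ha'])
        exact ⟨div_nonneg h2.1 hk0.le, (div_le_self h2.1 hk1).trans h2.2⟩
      · obtain ⟨a', ha', rfl⟩ := List.mem_map.1 ha
        exact hB a' (by simp [ha'])
  · -- the last step
    obtain ⟨m, e, hme⟩ : ∃ m e, l3 = m ++ [e] := by
      refine ⟨l3.dropLast, l3.getLast hl3, ?_⟩
      exact (List.dropLast_append_getLast hl3).symm
    have he : e = ((1 : ℝ), E) := by
      have h1 : (l1 ++ (l2 ++ l3)).getLast? = some e := by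
        rw [hme]
        simp
      have h2 : (l1 ++ (l2 ++ l3)).getLast? = some ((1 : ℝ), E) := by
        rw [hE]
        simp
      rw [h1] at h2
      exact Option.some.inj h2
    refine ⟨l1.map (up1 n k) ++ (l2.map (up2 n k) ++ m.map (up3 n k)),
      fun p p' => if p.1 = p'.1 then E p.2 p'.2 else 0, ?_⟩
    unfold lift
    rw [hme, he, List.map_append, List.map_cons, List.map_nil, List.append_assoc, List.append_assoc]
    rfl

/-- B4: end value of a lift: `Qtot_app`, `gstep_Qtot` for the three maps -/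
theorem Qtot_lift (n k : ℕ) (hn : 0 < n) (hk : 0 < k) (l1 l2 l3 : List (Step K)) :
    Qtot (lift n k l1 l2 l3) =
      treeG n k (Qtot (l1 ++ (l2 ++ l3))) (Qtot l1) (Qtot (l1 ++ l2)) := by
  have e1 : l1.map (up1 n k) = l1.map (gstep (fun _ : Fin n × Fin k => ()) (n * k)) :=
    List.map_congr_left (fun s _ => up1_eq s)
  have e2 : l2.map (up2 n k) = l2.map (gstep (fun j : Fin n × Fin k => j.1) k) :=
    List.map_congr_left (fun s _ => up2_eq s)
  have e3 : l3.map (up3 n k) = l3.map (gstep (id : Fin n × Fin k → Fin n × Fin k) 1) :=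
    List.map_congr_left (fun s _ => up3_eq s)
  unfold lift
  rw [Qtot_app, Qtot_app, e1, e2, e3, gstep_Qtot (Nat.mul_pos hn hk) (fib1 n k),
    gstep_Qtot hk (fib2 n k), gstep_Qtot one_pos (fib3 n k), Qtot_app, Qtot_app, Qtot_app]
  ext p p'
  rw [Matrix.add_apply, Matrix.add_apply]
  unfold treeG
  simp only [id_eq, if_true]
  by_cases h : p.1 = p'.1
  · have h' : p.1.1 = p'.1.1 := by rw [h]
    rw [if_pos h, if_pos h, if_pos h', Matrix.add_apply, Matrix.add_apply]
  · rw [if_neg h, if_neg h]
    by_cases h' : p.1.1 = p'.1.1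
    · rw [if_pos h', if_pos h', Matrix.add_apply, add_zero]
    · rw [if_neg h', if_neg h', add_zero, add_zero]

/-- correction term of a list of `gstep`s: if `Q'` equals `Q` inside the fibres then the correction term is
`card J` times the one of the base: each term is `(m/k) ∑_{π j = π j'} (C(Q + ΔQ) - C(Q))` and there are
`card J * k` pairs `(j,j')` in the same fibre; between different fibres nothing changes. Induction on `l` for all
`Q`, `Q'`. -/
theorem gstep_corr {J J' : Type} [Fintype J] [Fintype J'] [DecidableEq J'] {π : J → J'} {k : ℕ}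
    (hk : 0 < k) (hπ : ∀ j', (Finset.univ.filter (fun j => π j = j')).card = k) (β : K → ℝ) :
    ∀ (l : List (Step K)) (Q : Matrix K K ℝ) (Q' : Matrix (J × K) (J × K) ℝ),
      (∀ p p' : J × K, π p.1 = π p'.1 → Q' p p' = Q p.2 p'.2) →
      corr (fun p : J × K => β p.2) Q' (l.map (gstep π k)) = (Fintype.card J : ℝ) * corr β Q l := by
  have hk' : (0 : ℝ) < k := by exact_mod_cast hk
  intro l
  induction l with
  | nil =>
    intro Q Q' _
    simp [corr]
  | cons s l ih =>
    intro Q Q' h
    have hinc := gstep_incr (K := K) hk hπ s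
    have h2 : ∀ p p' : J × K, π p.1 = π p'.1 →
        (Q' + (gstep π k s).2 * (gstep π k s).2ᵀ) p p' = (Q + s.2 * s.2ᵀ) p.2 p'.2 := by
      intro p p' hp
      rw [hinc, Matrix.add_apply, Matrix.add_apply, h p p' hp]
      simp only [if_pos hp]
    have hC : Cf (fun p : J × K => β p.2) (Q' + (gstep π k s).2 * (gstep π k s).2ᵀ) -
        Cf (fun p : J × K => β p.2) Q' =
        (Fintype.card J : ℝ) * k * (Cf β (Q + s.2 * s.2ᵀ) - Cf β Q) := by
      unfold Cf
      rw [← Finset.sum_sub_distrib]
      have e : ∀ p : J × K, (∑ p' : J × K, β p.2 * β p'.2 *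
          (Q' + (gstep π k s).2 * (gstep π k s).2ᵀ) p p' ^ 2) -
          (∑ p' : J × K, β p.2 * β p'.2 * Q' p p' ^ 2) =
          (k : ℝ) * ∑ c' : K, (β p.2 * β c' * (Q + s.2 * s.2ᵀ) p.2 c' ^ 2 -
            β p.2 * β c' * Q p.2 c' ^ 2) := by
        intro p
        rw [← Finset.sum_sub_distrib, Fintype.sum_prod_type]
        have e' : ∀ j : J, (∑ c' : K, (β p.2 * β (j, c').2 *
            (Q' + (gstep π k s).2 * (gstep π k s).2ᵀ) p (j, c') ^ 2 -
            β p.2 * β (j, c').2 * Q' p (j, c') ^ 2)) =
            if π j = π p.1 then ∑ c' : K, (β p.2 * β c' * (Q + s.2 * s.2ᵀ) p.2 c' ^ 2 -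
              β p.2 * β c' * Q p.2 c' ^ 2) else 0 := by
          intro j
          by_cases hj : π j = π p.1
          · rw [if_pos hj]
            refine Finset.sum_congr rfl ?_
            intro c' _
            rw [h2 p (j, c') hj.symm, h p (j, c') hj.symm]
          · rw [if_neg hj]
            refine Finset.sum_eq_zero ?_
            intro c' _
            rw [hinc, Matrix.add_apply]
            simp only [if_neg (fun h' : π p.1 = π j => hj h'.symm), add_zero, sub_self]
        rw [Finset.sum_congr rfl (fun j _ => e' j), ← Finset.sum_filter, Finset.sum_const,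
          hπ (π p.1), nsmul_eq_mul]
      rw [Finset.sum_congr rfl (fun p _ => e p), Fintype.sum_prod_type, ← Finset.sum_sub_distrib]
      simp only [← Finset.sum_sub_distrib]
      rw [Finset.sum_const, nsmul_eq_mul, ← Finset.mul_sum, Finset.card_univ]
      ring
    rw [List.map_cons]
    change (gstep π k s).1 * (Cf (fun p : J × K => β p.2) (Q' + (gstep π k s).2 * (gstep π k s).2ᵀ) -
        Cf (fun p : J × K => β p.2) Q') +
        corr (fun p : J × K => β p.2) (Q' + (gstep π k s).2 * (gstep π k s).2ᵀ) (l.map (gstep π k)) =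
      (Fintype.card J : ℝ) * (s.1 * (Cf β (Q + s.2 * s.2ᵀ) - Cf β Q) + corr β (Q + s.2 * s.2ᵀ) l)
    rw [ih _ _ h2, hC]
    change s.1 / (k : ℝ) * ((Fintype.card J : ℝ) * k * (Cf β (Q + s.2 * s.2ᵀ) - Cf β Q)) + _ = _
    field_simp

end SKC.B
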