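import Pool.Agent.H.MP_08eaf3_pr.B.Lift1

/-!
# Part B4: functional and chain of a lift
-/

set_option autoImplicit false

open MeasureTheory ProbabilityTheory Filter Topology Matrix

namespace SKC.B

variable {K : Type} [Fintype K] [DecidableEq K]

theorem lift2_sum_curry {J : Type} [Fintype J] [DecidableEq J] (g : J → (K → Bool) → ℝ) :
    ∑ s : J × K → Bool, ∏ j, g j (fun c => s (j, c)) = ∏ j, ∑ s : K → Bool, g j s := by
  have h1 := Finset.prod_univ_sum (fun _ : J => (Finset.univ : Finset (K → Bool))) g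
  rw [Fintype.piFinset_univ] at h1
  rw [h1]
  exact Fintype.sum_equiv (Equiv.curry J K Bool) _ _ (fun s => rfl)

theorem lift2_exp {J : Type} [Fintype J] [DecidableEq J] (s : J × K → Bool) (z : J × K → ℝ) :
    Real.exp (∑ p, sg (s p) * z p) = ∏ j, Real.exp (∑ c, sg (s (j, c)) * bl z j c) := by
  rw [← Real.exp_sum, Fintype.sum_prod_type]
  rfl

theorem lift2_pos (z : K → ℝ) : 0 < ∑ s : K → Bool, Real.exp (∑ c, sg (s c) * z c) :=
  Finset.sum_pos (fun _ _ => Real.exp_pos _) Finset.univ_nonempty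

theorem lift2_F0 (z : K → ℝ) : F0 z = Real.log (∑ s : K → Bool, Real.exp (∑ c, sg (s c) * z c)) := by
  unfold F0 psiEnd
  simp only [mul_zero, add_zero]

/-- terminal function of the tree: `F0 z = ∑_j F0 (z_j)` (the sum over `s : J × K → Bool` factorises over `J`:
`Equiv.curry`, `Fintype.prod_sum`/`Finset.prod_univ_sum`, `Real.log_prod`) -/
theorem F0_blocks {J : Type} [Fintype J] [DecidableEq J] (z : J × K → ℝ) :
    F0 z = ∑ j, F0 (bl z j) := by
  have h1 : ∑ s : J × K → Bool, Real.exp (∑ p, sg (s p) * z p) =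
      ∏ j, ∑ s : K → Bool, Real.exp (∑ c, sg (s c) * bl z j c) := by
    rw [← lift2_sum_curry (fun j s => Real.exp (∑ c, sg (s c) * bl z j c))]
    exact Finset.sum_congr rfl (fun s _ => lift2_exp s z)
  rw [lift2_F0, h1, Real.log_prod (fun j _ => (lift2_pos (bl z j)).ne')]
  exact Finset.sum_congr rfl (fun j _ => (lift2_F0 _).symm)

/-- spin average of a product of functions of the blocks -/
theorem spAvg_blocks {J : Type} [Fintype J] [DecidableEq J] (ψ : J → (K → Bool) → ℝ)
    (z : J × K → ℝ) :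
    spAvg (fun s => ∏ j, ψ j (fun c => s (j, c))) z = ∏ j, spAvg (ψ j) (bl z j) := by
  unfold spAvg
  rw [Finset.prod_div_distrib]
  congr 1
  · rw [← lift2_sum_curry (fun j s => ψ j s * Real.exp (∑ c, sg (s c) * bl z j c))]
    refine Finset.sum_congr rfl (fun s _ => ?_)
    rw [lift2_exp, ← Finset.prod_mul_distrib]
  · rw [← lift2_sum_curry (fun j s => Real.exp (∑ c, sg (s c) * bl z j c))]
    exact Finset.sum_congr rfl (fun s _ => lift2_exp s z)

/-- spin averages are bounded continuous functions -/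
theorem EG_spAvg (ψ : (K → Bool) → ℝ) : SKC.EG (spAvg ψ) := by
  have hn1 : ∀ z : K → ℝ, 0 ≤ n1 z := fun z => Finset.sum_nonneg (fun c _ => abs_nonneg _)
  constructor
  · unfold spAvg
    apply Continuous.div
    · apply continuous_finsetSum
      intro s _
      apply Continuous.mul continuous_const
      apply Real.continuous_exp.comp
      fun_prop
    · apply continuous_finsetSum
      intro s _
      apply Real.continuous_exp.comp
      fun_prop
    · intro z
      exact (lift2_pos z).ne'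
  · have hA : ∀ s : K → Bool, |ψ s| ≤ ∑ s, |ψ s| := fun s =>
      Finset.single_le_sum (f := fun s => |ψ s|) (fun _ _ => abs_nonneg _) (Finset.mem_univ s)
    have hA0 : 0 ≤ ∑ s : K → Bool, |ψ s| := Finset.sum_nonneg (fun _ _ => abs_nonneg _)
    refine ⟨∑ s, |ψ s|, fun z => ?_⟩
    have h1 : |spAvg ψ z| ≤ ∑ s, |ψ s| := by
      unfold spAvg
      rw [abs_div, abs_of_pos (lift2_pos z), div_le_iff₀ (lift2_pos z), Finset.mul_sum]
      refine (Finset.abs_sum_le_sum_abs _ _).trans (Finset.sum_le_sum (fun s _ => ?_))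
      rw [abs_mul, abs_of_pos (Real.exp_pos _)]
      exact mul_le_mul_of_nonneg_right (hA s) (Real.exp_pos _).le
    have h2 : (1 : ℝ) ≤ Real.exp ((∑ s, |ψ s|) * n1 z) := Real.one_le_exp (mul_nonneg hA0 (hn1 z))
    calc |spAvg ψ z| ≤ (∑ s, |ψ s|) * 1 := by rw [mul_one]; exact h1
      _ ≤ _ := mul_le_mul_of_nonneg_left h2 hA0

omit [DecidableEq K] in
theorem lift2_EG_mul {f g : (K → ℝ) → ℝ} (hf : SKC.EG f) (hg : SKC.EG g) :
    SKC.EG (fun z => f z * g z) := by
  obtain ⟨hf1, C1, hC1⟩ := hf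
  obtain ⟨hg1, C2, hC2⟩ := hg
  have hn1 : ∀ z : K → ℝ, 0 ≤ n1 z := fun z => Finset.sum_nonneg (fun c _ => abs_nonneg _)
  refine ⟨hf1.mul hg1, |C1| * |C2| + |C1| + |C2|, fun z => ?_⟩
  have key : ∀ C : ℝ, C * Real.exp (C * n1 z) ≤ |C| * Real.exp (|C| * n1 z) := by
    intro C
    have h1 : Real.exp (C * n1 z) ≤ Real.exp (|C| * n1 z) :=
      Real.exp_le_exp.2 (mul_le_mul_of_nonneg_right (le_abs_self C) (hn1 z))
    calc C * Real.exp (C * n1 z) ≤ |C| * Real.exp (C * n1 z) :=
          mul_le_mul_of_nonneg_right (le_abs_self C) (Real.exp_pos _).le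
      _ ≤ _ := mul_le_mul_of_nonneg_left h1 (abs_nonneg C)
  have h1 := (hC1 z).trans (key C1)
  have h2 := (hC2 z).trans (key C2)
  rw [abs_mul]
  have h3 : |f z| * |g z| ≤ (|C1| * Real.exp (|C1| * n1 z)) * (|C2| * Real.exp (|C2| * n1 z)) :=
    mul_le_mul h1 h2 (abs_nonneg _) (mul_nonneg (abs_nonneg _) (Real.exp_pos _).le)
  have h4 : (|C1| * Real.exp (|C1| * n1 z)) * (|C2| * Real.exp (|C2| * n1 z)) =
      (|C1| * |C2|) * Real.exp ((|C1| + |C2|) * n1 z) := by
    rw [add_mul, Real.exp_add]; ring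
  rw [h4] at h3
  refine h3.trans ?_
  have h5 : 0 ≤ |C1| * |C2| := mul_nonneg (abs_nonneg _) (abs_nonneg _)
  have h6 := abs_nonneg C1
  have h7 := abs_nonneg C2
  apply mul_le_mul (by linarith) _ (Real.exp_pos _).le (by linarith)
  apply Real.exp_le_exp.2
  apply mul_le_mul_of_nonneg_right _ (hn1 z)
  linarith

omit [DecidableEq K] in
theorem lift2_EG_one : SKC.EG (fun _ : K → ℝ => (1 : ℝ)) := by
  have hn1 : ∀ z : K → ℝ, 0 ≤ n1 z := fun z => Finset.sum_nonneg (fun c _ => abs_nonneg _)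
  refine ⟨continuous_const, 1, fun z => ?_⟩
  rw [abs_one, one_mul, one_mul]
  exact Real.one_le_exp (hn1 z)

omit [DecidableEq K] in
theorem lift2_EG_prod {A : Type} (s : Finset A) {g : A → (K → ℝ) → ℝ} (hg : ∀ a, SKC.EG (g a)) :
    SKC.EG (fun z => ∏ a ∈ s, g a z) := by
  classical
  induction s using Finset.induction_on with
  | empty =>
    simp only [Finset.prod_empty]
    exact lift2_EG_one
  | insert a s ha ih =>
    simp only [Finset.prod_insert ha]
    exact lift2_EG_mul (hg a) ih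


theorem lift2_map3 {n k : ℕ} (l3 : List (Step K)) :
    l3.map (up3 n k) = l3.map (gstep (id : Fin n × Fin k → Fin n × Fin k) 1) := by
  apply List.map_congr_left
  intro s _
  exact up3_eq s


theorem lift2_map2 {n k : ℕ} (l2 : List (Step K)) :
    l2.map (up2 n k) = l2.map (gstep (fun j : Fin n × Fin k => j.1) k) := by
  apply List.map_congr_left
  intro s _
  exact up2_eq s


theorem lift2_map1 {n k : ℕ} (l1 : List (Step K)) :
    l1.map (up1 n k) = l1.map (gstep (fun _ : Fin n × Fin k => ()) (n * k)) := by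
  apply List.map_congr_left
  intro s _
  exact up1_eq s

/-- `PsiL` above the second level, for arbitrary fields: `gPsi` with `π = id`, `k = 1` -/
theorem lift_Psi3 {n k : ℕ} (β : K → ℝ) (l3 : List (Step K)) (z : (Fin n × Fin k) × K → ℝ) :
    PsiL (fun p : (Fin n × Fin k) × K => β p.2) (l3.map (up3 n k)) F0 z =
      ∑ j, PsiL β l3 F0 (bl z j) := by
  rw [lift2_map3]
  have h := gPsi β (π := (id : Fin n × Fin k → Fin n × Fin k)) (k := 1) one_pos (fib3 n k)
    (f' := F0) (f := fun _ => F0) LG_F0 (fun _ => LG_F0)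
    (fun y => by
      rw [Nat.cast_one, one_mul]
      exact F0_blocks (rep id y)) l3 z
  rw [Nat.cast_one, one_mul] at h
  exact h

/-- `PsiL` above the first level, for fields constant on the groups: `gPsi` with `π = Prod.fst` and `lift_Psi3` -/
theorem lift_Psi2 {n k : ℕ} (hk : 0 < k) (β : K → ℝ) (l2 l3 : List (Step K)) (y : Fin n × K → ℝ) :
    PsiL (fun p : (Fin n × Fin k) × K => β p.2) (l2.map (up2 n k) ++ l3.map (up3 n k)) F0
        (rep (fun j : Fin n × Fin k => j.1) y) = k * ∑ i, PsiL β (l2 ++ l3) F0 (bl y i) := by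
  rw [PsiL_app, lift2_map2]
  have h := gPsi β (π := (fun j : Fin n × Fin k => j.1)) (k := k) hk (fib2 n k)
    (f' := PsiL (fun p : (Fin n × Fin k) × K => β p.2) (l3.map (up3 n k)) F0)
    (f := fun _ => PsiL β l3 F0) (LG_PsiL LG_F0 _ _) (fun _ => LG_PsiL LG_F0 _ _)
    (fun y => by
      rw [lift_Psi3, Fintype.sum_prod_type, Finset.mul_sum]
      refine Finset.sum_congr rfl (fun i _ => ?_)
      have e : ∀ a : Fin k, bl (rep (fun j : Fin n × Fin k => j.1) y) (i, a) = bl y i := fun a => rfl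
      simp only [e]
      rw [Finset.sum_const, Finset.card_univ, Fintype.card_fin, nsmul_eq_mul]) l2 y
  rw [h]
  congr 1
  refine Finset.sum_congr rfl (fun i _ => ?_)
  rw [PsiL_app]

/-- `PsiL` of the lift for constant fields: `gPsi` with `π = const` and `lift_Psi2` -/
theorem lift_Psi1 {n k : ℕ} (hn : 0 < n) (hk : 0 < k) (β : K → ℝ) (l1 l2 l3 : List (Step K))
    (y : K → ℝ) :
    PsiL (fun p : (Fin n × Fin k) × K => β p.2) (lift n k l1 l2 l3) F0 (fun p => y p.2) =
      (n : ℝ) * k * PsiL β (l1 ++ (l2 ++ l3)) F0 y := by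
  unfold lift
  rw [PsiL_app, lift2_map1]
  have h := gPsi β (π := (fun _ : Fin n × Fin k => ())) (k := n * k) (Nat.mul_pos hn hk) (fib1 n k)
    (f' := PsiL (fun p : (Fin n × Fin k) × K => β p.2) (l2.map (up2 n k) ++ l3.map (up3 n k)) F0)
    (f := fun _ => PsiL β (l2 ++ l3) F0) (LG_PsiL LG_F0 _ _) (fun _ => LG_PsiL LG_F0 _ _)
    (fun y => by
      have e : rep (fun _ : Fin n × Fin k => ()) y =
          rep (fun j : Fin n × Fin k => j.1) (fun p : Fin n × K => y ((), p.2)) := rfl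
      rw [e, lift_Psi2 hk]
      have e2 : ∀ i : Fin n, bl (fun p : Fin n × K => y ((), p.2)) i = bl y () := fun i => rfl
      simp only [e2]
      rw [Finset.sum_const, Finset.card_univ, Fintype.card_fin, nsmul_eq_mul]
      simp only [Finset.univ_unique, Finset.sum_singleton, Nat.cast_mul]
      have e3 : (default : Unit) = () := rfl
      rw [e3]
      ring) l1 (fun q : Unit × K => y q.2)
  have e4 : (fun p : (Fin n × Fin k) × K => y p.2) =
      rep (fun _ : Fin n × Fin k => ()) (fun q : Unit × K => y q.2) := rfl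
  rw [e4, h]
  simp only [Finset.univ_unique, Finset.sum_singleton, Nat.cast_mul]
  have e5 : bl (fun q : Unit × K => y q.2) default = y := rfl
  rw [e5, PsiL_app β l1]

/-- B4: the functional of a lift: `lift_Psi1` at `y = 0`; `corr_app` and `gstep_corr` three times (at each
level the matrix of the tree inside the finer fibres equals the base matrix: `gstep_Qtot`) -/
theorem Pf_lift (β : K → ℝ) (n k : ℕ) (hn : 0 < n) (hk : 0 < k) (l1 l2 l3 : List (Step K)) :
    Pf (fun p : (Fin n × Fin k) × K => β p.2) (fun _ => 0) 0 (lift n k l1 l2 l3) =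
      (n : ℝ) * k * Pf β (fun _ => 0) 0 (l1 ++ (l2 ++ l3)) := by
  have h1 := lift_Psi1 hn hk β l1 l2 l3 0
  have e0 : (fun p : (Fin n × Fin k) × K => (0 : K → ℝ) p.2) = 0 := rfl
  rw [e0] at h1
  have h2 : PsiL (fun p : (Fin n × Fin k) × K => β p.2) (lift n k l1 l2 l3) (psiEnd (fun _ => 0) 0) 0 =
      (n : ℝ) * k * PsiL β (l1 ++ (l2 ++ l3)) (psiEnd (fun _ => 0) 0) 0 := h1
  have hcard : (Fintype.card (Fin n × Fin k) : ℝ) = n * k := by
    rw [Fintype.card_prod, Fintype.card_fin, Fintype.card_fin, Nat.cast_mul]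
  have h3 : corr (fun p : (Fin n × Fin k) × K => β p.2) 0 (lift n k l1 l2 l3) =
      (n : ℝ) * k * corr β 0 (l1 ++ (l2 ++ l3)) := by
    unfold lift
    rw [corr_app, corr_app, corr_app, corr_app, lift2_map1, lift2_map2, lift2_map3]
    rw [gstep_corr (Nat.mul_pos hn hk) (fib1 n k) β l1 0 0 (fun _ _ _ => rfl)]
    rw [gstep_corr hk (fib2 n k) β l2 (0 + Qtot l1) _ (fun p p' _ => by
      rw [gstep_Qtot (Nat.mul_pos hn hk) (fib1 n k)]
      simp)]
    rw [gstep_corr one_pos (fib3 n k) β l3 (0 + Qtot l1 + Qtot l2) _ (fun p p' hp => by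
      have hp' : p.1 = p'.1 := hp
      rw [gstep_Qtot (Nat.mul_pos hn hk) (fib1 n k), gstep_Qtot hk (fib2 n k)]
      simp [Matrix.add_apply, hp'])]
    rw [hcard]
    ring
  unfold Pf
  rw [h2, h3]
  ring

/-- B4: the chain of a lift: `spAvg_blocks`, `ChE_app`, then `gCh` with `π = id` (all fields), `π = Prod.fst`
(fields constant on groups, the product over `(i,a)` is the product over `i` of the products over `a`,
`Fintype.prod_prod_type`), `π = const` (constant fields), evaluated at the field `0`. The level functions are those of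
`lift_Psi3`, `lift_Psi2`; classes by `LG_PsiL`, `EG_ChE`, `EG_spAvg` and finite products (`EG` is closed under finite
products). -/
theorem ChE_lift (β : K → ℝ) (n k : ℕ) (hn : 0 < n) (hk : 0 < k) (l1 l2 l3 : List (Step K))
    (ψ : Fin n → Fin k → (K → Bool) → ℝ) :
    ChE (fun p : (Fin n × Fin k) × K => β p.2) (lift n k l1 l2 l3) F0
        (spAvg (fun s => ∏ i, ∏ a, ψ i a (fun c => s ((i, a), c)))) 0 =
      ChE β l1 (PsiL β (l2 ++ l3) F0)
        (fun z => ∏ i, ChE β l2 (PsiL β l3 F0)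
          (fun z' => ∏ a, ChE β l3 F0 (spAvg (ψ i a)) z') z) 0 := by
  set β' : (Fin n × Fin k) × K → ℝ := fun p => β p.2 with hβ'
  have hprod : (fun s : (Fin n × Fin k) × K → Bool => ∏ i, ∏ a, ψ i a (fun c => s ((i, a), c))) =
      fun s => ∏ j : Fin n × Fin k, ψ j.1 j.2 (fun c => s (j, c)) := by
    funext s
    rw [Fintype.prod_prod_type]
  rw [hprod]
  set h3 : ((Fin n × Fin k) × K → ℝ) → ℝ :=
    spAvg (fun s => ∏ j : Fin n × Fin k, ψ j.1 j.2 (fun c => s (j, c))) with hh3
  have hEG3 : SKC.EG h3 := EG_spAvg _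
  -- level 3
  set h2 : ((Fin n × Fin k) × K → ℝ) → ℝ := ChE β' (l3.map (up3 n k)) F0 h3 with hh2
  have hEG2 : SKC.EG h2 := EG_ChE LG_F0 hEG3 _ _
  have H3 : ∀ y, h2 y = ∏ j : Fin n × Fin k, ChE β l3 F0 (spAvg (ψ j.1 j.2)) (bl y j) := by
    intro y
    rw [hh2, lift2_map3]
    exact gCh β (π := (id : Fin n × Fin k → Fin n × Fin k)) (k := 1) one_pos (fib3 n k)
      (f' := F0) (f := fun _ => F0) LG_F0 (fun _ => LG_F0)
      (fun y => by
        rw [Nat.cast_one, one_mul]
        exact F0_blocks (rep id y)) (h' := h3) (g := fun j => spAvg (ψ j.1 j.2)) hEG3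
      (fun j => EG_spAvg _) (fun y => spAvg_blocks _ _) l3 y
  -- level 2
  set h1 : ((Fin n × Fin k) × K → ℝ) → ℝ :=
    ChE β' (l2.map (up2 n k)) (PsiL β' (l3.map (up3 n k)) F0) h2 with hh1
  have hEG1 : SKC.EG h1 := EG_ChE (LG_PsiL LG_F0 _ _) hEG2 _ _
  have hEGg2 : ∀ i : Fin n, SKC.EG (fun z' : K → ℝ => ∏ a : Fin k, ChE β l3 F0 (spAvg (ψ i a)) z') :=
    fun i => lift2_EG_prod _ (fun a => EG_ChE LG_F0 (EG_spAvg _) _ _)
  have H2 : ∀ y : Fin n × K → ℝ, h1 (rep (fun j : Fin n × Fin k => j.1) y) =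
      ∏ i : Fin n, ChE β l2 (PsiL β l3 F0) (fun z' => ∏ a, ChE β l3 F0 (spAvg (ψ i a)) z') (bl y i) := by
    intro y
    rw [hh1, lift2_map2]
    exact gCh β (π := (fun j : Fin n × Fin k => j.1)) (k := k) hk (fib2 n k)
      (f' := PsiL β' (l3.map (up3 n k)) F0)
      (f := fun _ => PsiL β l3 F0) (LG_PsiL LG_F0 _ _) (fun _ => LG_PsiL LG_F0 _ _)
      (fun y => by
        rw [lift_Psi3, Fintype.sum_prod_type, Finset.mul_sum]
        refine Finset.sum_congr rfl (fun i _ => ?_)
        have e : ∀ a : Fin k, bl (rep (fun j : Fin n × Fin k => j.1) y) (i, a) = bl y i := fun a => rfl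
        simp only [e]
        rw [Finset.sum_const, Finset.card_univ, Fintype.card_fin, nsmul_eq_mul])
      (h' := h2) (g := fun i z' => ∏ a, ChE β l3 F0 (spAvg (ψ i a)) z') hEG2 hEGg2
      (fun y => by
        rw [H3, Fintype.prod_prod_type]
        rfl) l2 y
  -- level 1
  have hEGg1 : SKC.EG (fun z : K → ℝ => ∏ i : Fin n, ChE β l2 (PsiL β l3 F0)
      (fun z' => ∏ a, ChE β l3 F0 (spAvg (ψ i a)) z') z) :=
    lift2_EG_prod _ (fun i => EG_ChE (LG_PsiL LG_F0 _ _) (hEGg2 i) _ _)
  have H1 := gCh β (π := (fun _ : Fin n × Fin k => ())) (k := n * k) (Nat.mul_pos hn hk) (fib1 n k)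
    (f' := PsiL β' (l2.map (up2 n k) ++ l3.map (up3 n k)) F0)
    (f := fun _ => PsiL β (l2 ++ l3) F0) (LG_PsiL LG_F0 _ _) (fun _ => LG_PsiL LG_F0 _ _)
    (fun y => by
      have e : rep (fun _ : Fin n × Fin k => ()) y =
          rep (fun j : Fin n × Fin k => j.1) (fun p : Fin n × K => y ((), p.2)) := rfl
      rw [e, lift_Psi2 hk]
      have e2 : ∀ i : Fin n, bl (fun p : Fin n × K => y ((), p.2)) i = bl y () := fun i => rfl
      simp only [e2]
      rw [Finset.sum_const, Finset.card_univ, Fintype.card_fin, nsmul_eq_mul]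
      simp only [Finset.univ_unique, Finset.sum_singleton, Nat.cast_mul]
      have e3 : (default : Unit) = () := rfl
      rw [e3]
      ring)
    (h' := h1) (g := fun _ z => ∏ i : Fin n, ChE β l2 (PsiL β l3 F0)
      (fun z' => ∏ a, ChE β l3 F0 (spAvg (ψ i a)) z') z) hEG1 (fun _ => hEGg1)
    (fun y => by
      have e : rep (fun _ : Fin n × Fin k => ()) y =
          rep (fun j : Fin n × Fin k => j.1) (fun p : Fin n × K => y ((), p.2)) := rfl
      rw [e, H2]
      simp only [Finset.univ_unique, Finset.prod_singleton]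
      rfl) l1 (0 : Unit × K → ℝ)
  have e0 : rep (fun _ : Fin n × Fin k => ()) (0 : Unit × K → ℝ) = 0 := rfl
  rw [e0] at H1
  simp only [Finset.univ_unique, Finset.prod_singleton] at H1
  have e1 : bl (0 : Unit × K → ℝ) default = 0 := rfl
  rw [e1] at H1
  unfold lift
  rw [ChE_app, ChE_app, ← hh2, ← hh1, lift2_map1]
  exact H1

end SKC.B
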