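import Pool.Agent.H.MP_08eaf3_pr.B.StepT

/-!
# Part B: the interpolating recursion
-/

set_option autoImplicit false

open MeasureTheory ProbabilityTheory Filter Topology Matrix

namespace SKC.B

variable {Ω κ : Type} [Fintype Ω] [DecidableEq Ω] [Fintype κ]

/-- interpolating recursion: steps `(m, V)` with increments `sin θ • V x` -/
noncomputable def nest (F : (Ω → ℝ) → ℝ) : List (ℝ × Matrix Ω κ ℝ) → ℝ × (Ω → ℝ) → ℝ
  | [] => fun e => F e.2
  | (s :: l) => fun e => Tx s.1 (fun x => nest F l (sub Real.sin s.2 e x))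

/-- the derivative of the recursion in `θ` divided by `sin θ cos θ` -/
noncomputable def Uf (F : (Ω → ℝ) → ℝ) : List (ℝ × Matrix Ω κ ℝ) → ℝ × (Ω → ℝ) → ℝ
  | [] => fun _ => 0
  | (s :: l) => fun e => Wx s.1 (fun x => nest F l (sub Real.sin s.2 e x))
      (fun x => Uf F l (sub Real.sin s.2 e x) +
        Wf s.1 (s.2 * s.2ᵀ) (nest F l) (sub Real.sin s.2 e x))

/-- the difference which controls the derivative of the interpolation -/
noncomputable def Rf (F : (Ω → ℝ) → ℝ) (l : List (ℝ × Matrix Ω κ ℝ)) (m : ℝ) (B : Matrix Ω Ω ℝ)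
    (e : ℝ × (Ω → ℝ)) : ℝ := Wf m B (nest F l) e - Uf F l e

theorem Nest_bd {H : (κ → ℝ) → ℝ} (h : ∃ C : ℝ, ∀ x, |H x| ≤ C) :
    ∃ C : ℝ, ∀ x, |H x| ≤ C * Real.exp (C * ‖x‖) := by
  obtain ⟨C, hC⟩ := h
  refine ⟨|C|, fun x => ?_⟩
  have h1 : (1 : ℝ) ≤ Real.exp (|C| * ‖x‖) :=
    Real.one_le_exp (mul_nonneg (abs_nonneg _) (norm_nonneg _))
  calc |H x| ≤ C := hC x
    _ ≤ |C| := le_abs_self C
    _ = |C| * 1 := (mul_one _).symm
    _ ≤ |C| * Real.exp (|C| * ‖x‖) := mul_le_mul_of_nonneg_left h1 (abs_nonneg _)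

theorem Nest_sub_cont (V : Matrix Ω κ ℝ) :
    Continuous (fun p : (ℝ × (Ω → ℝ)) × (κ → ℝ) => sub Real.sin V p.1 p.2) := by
  have h1 : Continuous (fun p : (ℝ × (Ω → ℝ)) × (κ → ℝ) => V.mulVec p.2) :=
    Continuous.matrix_mulVec continuous_const continuous_snd
  have h2 : Continuous (fun p : (ℝ × (Ω → ℝ)) × (κ → ℝ) => Real.sin p.1.1) :=
    Real.continuous_sin.comp (continuous_fst.comp continuous_fst)
  exact (continuous_fst.comp continuous_fst).prodMk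
    ((continuous_snd.comp continuous_fst).add (h2.smul h1))

theorem Nest_sub_cont' (V : Matrix Ω κ ℝ) (e : ℝ × (Ω → ℝ)) :
    Continuous (fun x : κ → ℝ => sub Real.sin V e x) :=
  (Nest_sub_cont V).comp (continuous_const.prodMk continuous_id)

theorem Nest_cd {f : ℝ × (Ω → ℝ) → ℝ} (hf : Adm f) (v : ℝ × (Ω → ℝ)) :
    Continuous (fun e => fderiv ℝ f e v) ∧ ∃ C : ℝ, ∀ e, |fderiv ℝ f e v| ≤ C := by
  refine ⟨(hf.cd.continuous_fderiv (by norm_num)).clm_apply continuous_const, ?_⟩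
  obtain ⟨C, hC⟩ := hf.b1
  refine ⟨C * ‖v‖, fun e => ?_⟩
  have h1 := (fderiv ℝ f e).le_opNorm v
  rw [Real.norm_eq_abs] at h1
  exact h1.trans (mul_le_mul_of_nonneg_right (hC e) (norm_nonneg v))

theorem Nest_cons (F : (Ω → ℝ) → ℝ) (s : ℝ × Matrix Ω κ ℝ) (l : List (ℝ × Matrix Ω κ ℝ)) :
    nest F (s :: l) = fun e => Tx s.1 (fun x => nest F l (sub Real.sin s.2 e x)) := rfl

theorem Nest_Uf_cons (F : (Ω → ℝ) → ℝ) (s : ℝ × Matrix Ω κ ℝ) (l : List (ℝ × Matrix Ω κ ℝ)) :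
    Uf F (s :: l) = fun e => Wx s.1 (fun x => nest F l (sub Real.sin s.2 e x))
      (fun x => Uf F l (sub Real.sin s.2 e x) +
        Wf s.1 (s.2 * s.2ᵀ) (nest F l) (sub Real.sin s.2 e x)) := rfl

/-- induction with `adm_Tx` and `stepFn_sub scale_sin` -/
theorem adm_nest {F : (Ω → ℝ) → ℝ} (hF : Adm (fun e : ℝ × (Ω → ℝ) => F e.2))
    (l : List (ℝ × Matrix Ω κ ℝ)) : Adm (nest F l) := by
  induction l with
  | nil => exact hF
  | cons s l ih => exact adm_Tx (stepFn_sub scale_sin ih s.2) s.1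

/-- induction with `StepFn.Wx_cont`, `Wf_cont` -/
theorem Uf_cont {F : (Ω → ℝ) → ℝ} (hF : Adm (fun e : ℝ × (Ω → ℝ) => F e.2))
    (l : List (ℝ × Matrix Ω κ ℝ)) : Continuous (Uf F l) ∧ ∃ C : ℝ, ∀ e, |Uf F l e| ≤ C := by
  induction l with
  | nil => exact ⟨continuous_const, 0, fun e => by simp [Uf]⟩
  | cons s l ih =>
    have hA := adm_nest hF l
    obtain ⟨h1, C1, hC1⟩ := ih
    obtain ⟨h2, C2, hC2⟩ := Wf_cont s.1 (s.2 * s.2ᵀ) hA
    have h3 := (stepFn_sub scale_sin hA s.2).Wx_cont s.1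
      (H := fun e x => Uf F l (sub Real.sin s.2 e x) +
        Wf s.1 (s.2 * s.2ᵀ) (nest F l) (sub Real.sin s.2 e x))
      ((h1.comp (Nest_sub_cont s.2)).add (h2.comp (Nest_sub_cont s.2))) (by
        refine ⟨|C1 + C2|, fun e x => ?_⟩
        have h4 : (1 : ℝ) ≤ Real.exp (|C1 + C2| * ‖x‖) :=
          Real.one_le_exp (mul_nonneg (abs_nonneg _) (norm_nonneg _))
        calc _ ≤ |Uf F l (sub Real.sin s.2 e x)| +
              |Wf s.1 (s.2 * s.2ᵀ) (nest F l) (sub Real.sin s.2 e x)| := abs_add_le _ _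
          _ ≤ C1 + C2 := add_le_add (hC1 _) (hC2 _)
          _ ≤ |C1 + C2| := le_abs_self _
          _ = |C1 + C2| * 1 := (mul_one _).symm
          _ ≤ _ := mul_le_mul_of_nonneg_left h4 (abs_nonneg _))
    exact h3

/-- derivative in `θ`: induction with `step_t scale_sin` and `StepFn.Wx_add` -/
theorem nest_t {F : (Ω → ℝ) → ℝ} (hF : Adm (fun e : ℝ × (Ω → ℝ) => F e.2))
    (l : List (ℝ × Matrix Ω κ ℝ)) (e : ℝ × (Ω → ℝ)) :
    fderiv ℝ (nest F l) e (1, 0) = Real.cos e.1 * Real.sin e.1 * Uf F l e := by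
  induction l generalizing e with
  | nil =>
    have h1 : HasFDerivAt (fun e : ℝ × (Ω → ℝ) => F e.2)
        (fderiv ℝ (fun e : ℝ × (Ω → ℝ) => F e.2) e) e :=
      (hF.cd.differentiable (by norm_num) e).hasFDerivAt
    have h2 := h1.hasLineDerivAt ((1 : ℝ), (0 : Ω → ℝ))
    have h3 : HasDerivAt (fun t : ℝ => F (e + t • ((1 : ℝ), (0 : Ω → ℝ))).2)
        (fderiv ℝ (fun e : ℝ × (Ω → ℝ) => F e.2) e (1, 0)) 0 := h2
    have h4 : (fun t : ℝ => F (e + t • ((1 : ℝ), (0 : Ω → ℝ))).2) = fun _ => F e.2 := by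
      funext t
      simp
    rw [h4] at h3
    have h5 := h3.unique (hasDerivAt_const (0 : ℝ) (F e.2))
    have h6 : nest F ([] : List (ℝ × Matrix Ω κ ℝ)) = fun e : ℝ × (Ω → ℝ) => F e.2 := rfl
    have h7 : Uf F ([] : List (ℝ × Matrix Ω κ ℝ)) e = 0 := rfl
    rw [h6, h5, h7, mul_zero]
  | cons s l ih =>
    have hA := adm_nest hF l
    have hS := stepFn_sub scale_sin hA s.2
    obtain ⟨h1, C1, hC1⟩ := Uf_cont hF l
    obtain ⟨h2, C2, hC2⟩ := Wf_cont s.1 (s.2 * s.2ᵀ) hA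
    have h3 := step_t scale_sin hA s.1 s.2 e
    have h4 : (fun x => fderiv ℝ (nest F l) (sub Real.sin s.2 e x) (1, 0)) =
        fun x => (Real.cos e.1 * Real.sin e.1) * Uf F l (sub Real.sin s.2 e x) := by
      funext x
      exact ih (sub Real.sin s.2 e x)
    rw [h4, Wx_const_mul, ← mul_add] at h3
    have h5 := hS.Wx_add s.1 e (H1 := fun x => Uf F l (sub Real.sin s.2 e x))
      (H2 := fun x => Wf s.1 (s.2 * s.2ᵀ) (nest F l) (sub Real.sin s.2 e x))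
      (h1.comp (Nest_sub_cont' s.2 e)) (Nest_bd ⟨C1, fun x => hC1 _⟩)
      (h2.comp (Nest_sub_cont' s.2 e)) (Nest_bd ⟨C2, fun x => hC2 _⟩)
    rw [Nest_cons, Nest_Uf_cons]
    refine h3.trans ?_
    congr 1
    exact h5.symm

/-- the gradient of the recursion is a probability vector: induction with `step_z scale_sin`,
`StepFn.Wx_mono`, `StepFn.Wx_sum`, `StepFn.Wx_const` -/
theorem nest_prob {F : (Ω → ℝ) → ℝ} (hF : Adm (fun e : ℝ × (Ω → ℝ) => F e.2))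
    (hp : ∀ e : ℝ × (Ω → ℝ), (∀ o, 0 ≤ fderiv ℝ (fun e : ℝ × (Ω → ℝ) => F e.2) e (0, Pi.single o 1)) ∧
      ∑ o, fderiv ℝ (fun e : ℝ × (Ω → ℝ) => F e.2) e (0, Pi.single o 1) = 1)
    (l : List (ℝ × Matrix Ω κ ℝ)) (e : ℝ × (Ω → ℝ)) :
    (∀ o, 0 ≤ fderiv ℝ (nest F l) e (0, Pi.single o 1)) ∧
      ∑ o, fderiv ℝ (nest F l) e (0, Pi.single o 1) = 1 := by
  induction l generalizing e with
  | nil => exact hp e
  | cons s l ih =>
    have hA := adm_nest hF l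
    have hS := stepFn_sub scale_sin hA s.2
    have h0 : ∀ o, fderiv ℝ (nest F (s :: l)) e (0, Pi.single o 1) =
        Wx s.1 (fun x => nest F l (sub Real.sin s.2 e x))
          (fun x => fderiv ℝ (nest F l) (sub Real.sin s.2 e x) (0, Pi.single o 1)) := fun o =>
      step_z scale_sin hA s.1 s.2 e (Pi.single o 1)
    have hc : ∀ o, Continuous (fun x : κ → ℝ =>
        fderiv ℝ (nest F l) (sub Real.sin s.2 e x) (0, Pi.single o 1)) := fun o =>
      (Nest_cd hA (0, Pi.single o 1)).1.comp (Nest_sub_cont' s.2 e)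
    have hb : ∀ o, ∃ C : ℝ, ∀ x : κ → ℝ,
        |fderiv ℝ (nest F l) (sub Real.sin s.2 e x) (0, Pi.single o 1)| ≤
          C * Real.exp (C * ‖x‖) := fun o => by
      obtain ⟨C, hC⟩ := (Nest_cd hA (0, Pi.single o 1)).2
      exact Nest_bd ⟨C, fun x => hC _⟩
    constructor
    · intro o
      rw [h0]
      have h1 := hS.Wx_mono s.1 e (H1 := fun _ => (0 : ℝ)) continuous_const (TxB_bd_const 0) (hc o)
        (hb o) fun x => (ih (sub Real.sin s.2 e x)).1 o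
      rwa [hS.Wx_const] at h1
    · simp only [h0]
      rw [← hS.Wx_sum s.1 e Finset.univ (fun o _ => hc o) (fun o _ => hb o)]
      have h2 : (fun x : κ → ℝ => ∑ o, fderiv ℝ (nest F l) (sub Real.sin s.2 e x)
          (0, Pi.single o 1)) = fun _ => 1 := by
        funext x
        exact (ih (sub Real.sin s.2 e x)).2
      rw [h2]
      exact hS.Wx_const s.1 e 1

/-- recursion for `Rf`: `step_W scale_sin`, definition of `Uf`, linearity of `Wx` (`StepFn.Wx_add`,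
`StepFn.Wx_sub`) and `Wf_sub` -/
theorem Rf_cons {F : (Ω → ℝ) → ℝ} (hF : Adm (fun e : ℝ × (Ω → ℝ) => F e.2))
    (s : ℝ × Matrix Ω κ ℝ) (l : List (ℝ × Matrix Ω κ ℝ)) (m0 : ℝ) (B : Matrix Ω Ω ℝ)
    (e : ℝ × (Ω → ℝ)) :
    Rf F (s :: l) m0 B e =
      Wx s.1 (fun x => nest F l (sub Real.sin s.2 e x))
        (fun x => Rf F l s.1 (B - s.2 * s.2ᵀ) (sub Real.sin s.2 e x)) -
      (s.1 - m0) * ∑ o, ∑ o', B o o' * (fderiv ℝ (nest F (s :: l)) e (0, Pi.single o 1) *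
        fderiv ℝ (nest F (s :: l)) e (0, Pi.single o' 1)) := by
  have hA := adm_nest hF l
  have hS := stepFn_sub scale_sin hA s.2
  obtain ⟨h1, C1, hC1⟩ := Uf_cont hF l
  obtain ⟨h2, C2, hC2⟩ := Wf_cont s.1 (s.2 * s.2ᵀ) hA
  obtain ⟨h3, C3, hC3⟩ := Wf_cont s.1 B hA
  have h4 := step_W scale_sin hA s.1 m0 B s.2 e
  have h5 := hS.Wx_sub s.1 e (H1 := fun x => Wf s.1 B (nest F l) (sub Real.sin s.2 e x))
    (H2 := fun x => Uf F l (sub Real.sin s.2 e x) +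
      Wf s.1 (s.2 * s.2ᵀ) (nest F l) (sub Real.sin s.2 e x))
    (h3.comp (Nest_sub_cont' s.2 e)) (Nest_bd ⟨C3, fun x => hC3 _⟩)
    ((h1.comp (Nest_sub_cont' s.2 e)).add (h2.comp (Nest_sub_cont' s.2 e)))
    (Nest_bd ⟨C1 + C2, fun x => (abs_add_le _ _).trans (add_le_add (hC1 _) (hC2 _))⟩)
  have h6 : (fun x => Rf F l s.1 (B - s.2 * s.2ᵀ) (sub Real.sin s.2 e x)) =
      fun x => Wf s.1 B (nest F l) (sub Real.sin s.2 e x) -
        (Uf F l (sub Real.sin s.2 e x) +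
          Wf s.1 (s.2 * s.2ᵀ) (nest F l) (sub Real.sin s.2 e x)) := by
    funext x
    rw [Rf, Wf_sub]
    ring
  rw [h6, h5]
  have h7 : Rf F (s :: l) m0 B e = Wf m0 B (nest F (s :: l)) e - Uf F (s :: l) e := rfl
  rw [h7, Nest_cons, Nest_Uf_cons, h4]
  ring

/-- one step of the bound: if `B o o' ≥ -γ`, `m0 ≤ s.1` and `Rf F l s.1 (B - V Vᵀ) ≤ M` everywhere then
`Rf F (s :: l) m0 B e ≤ M + (s.1 - m0) γ`. (`Rf_cons`, `StepFn.Wx_mono` + `Wx_const`, `nest_prob`.) -/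
theorem Rf_cons_le {F : (Ω → ℝ) → ℝ} (hF : Adm (fun e : ℝ × (Ω → ℝ) => F e.2))
    (hp : ∀ e : ℝ × (Ω → ℝ), (∀ o, 0 ≤ fderiv ℝ (fun e : ℝ × (Ω → ℝ) => F e.2) e (0, Pi.single o 1)) ∧
      ∑ o, fderiv ℝ (fun e : ℝ × (Ω → ℝ) => F e.2) e (0, Pi.single o 1) = 1)
    (s : ℝ × Matrix Ω κ ℝ) (l : List (ℝ × Matrix Ω κ ℝ)) (m0 : ℝ) (hm : m0 ≤ s.1) (B : Matrix Ω Ω ℝ)
    {γ M : ℝ} (hγ : ∀ o o', -γ ≤ B o o') (hM : ∀ e, Rf F l s.1 (B - s.2 * s.2ᵀ) e ≤ M)
    (e : ℝ × (Ω → ℝ)) : Rf F (s :: l) m0 B e ≤ M + (s.1 - m0) * γ := by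
  have hA := adm_nest hF l
  have hS := stepFn_sub scale_sin hA s.2
  obtain ⟨h1, C1, hC1⟩ := Uf_cont hF l
  obtain ⟨h2, C2, hC2⟩ := Wf_cont s.1 (B - s.2 * s.2ᵀ) hA
  rw [Rf_cons hF]
  have h3 : Wx s.1 (fun x => nest F l (sub Real.sin s.2 e x))
      (fun x => Rf F l s.1 (B - s.2 * s.2ᵀ) (sub Real.sin s.2 e x)) ≤ M := by
    have h4 := hS.Wx_mono s.1 e
      (H1 := fun x => Rf F l s.1 (B - s.2 * s.2ᵀ) (sub Real.sin s.2 e x)) (H2 := fun _ => M)
      ((h2.comp (Nest_sub_cont' s.2 e)).sub (h1.comp (Nest_sub_cont' s.2 e)))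
      (Nest_bd ⟨C2 + C1, fun x => (abs_sub _ _).trans (add_le_add (hC2 _) (hC1 _))⟩)
      continuous_const (TxB_bd_const M) fun x => hM _
    rwa [hS.Wx_const] at h4
  obtain ⟨hp0, hp1⟩ := nest_prob hF hp (s :: l) e
  obtain ⟨q, hq⟩ : ∃ q : Ω → ℝ, ∀ o, fderiv ℝ (nest F (s :: l)) e (0, Pi.single o 1) = q o :=
    ⟨_, fun _ => rfl⟩
  simp only [hq] at hp0 hp1 ⊢
  have h5 : -γ ≤ ∑ o, ∑ o', B o o' * (q o * q o') := by
    calc -γ = -γ * ((∑ o, q o) * ∑ o', q o') := by rw [hp1]; ring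
      _ = ∑ o, ∑ o', -γ * (q o * q o') := by
        rw [Finset.sum_mul_sum, Finset.mul_sum]
        refine Finset.sum_congr rfl fun o _ => ?_
        rw [Finset.mul_sum]
      _ ≤ _ := Finset.sum_le_sum fun o _ => Finset.sum_le_sum fun o' _ =>
        mul_le_mul_of_nonneg_right (hγ o o') (mul_nonneg (hp0 o) (hp0 o'))
  have h6 := mul_le_mul_of_nonneg_left h5 (sub_nonneg.2 hm)
  linarith

/-- at `θ = 0` the recursion is trivial (`Tx m` of a constant is the constant) -/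
theorem nest_zero (F : (Ω → ℝ) → ℝ) (l : List (ℝ × Matrix Ω κ ℝ)) (y : Ω → ℝ) :
    nest F l (0, y) = F y := by
  induction l with
  | nil => rfl
  | cons s l ih =>
    have h1 : (fun x : κ → ℝ => nest F l (sub Real.sin s.2 ((0 : ℝ), y) x)) = fun _ => F y := by
      funext x
      have h2 : sub Real.sin s.2 ((0 : ℝ), y) x = (0, y) := by
        unfold sub
        simp
      rw [h2, ih]
    have h3 : nest F (s :: l) ((0 : ℝ), y) =
        Tx s.1 (fun x : κ → ℝ => nest F l (sub Real.sin s.2 ((0 : ℝ), y) x)) := rfl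
    rw [h3, h1, Tx]
    by_cases hm : s.1 = 0
    · rw [if_pos hm]
      simp
    · rw [if_neg hm]
      simp only [integral_const, probReal_univ, one_smul, Real.log_exp]
      field_simp

end SKC.B
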