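import Pool.Agent.H.MP_08eaf3_pr.B.GamExp

/-!
# Part B: growth of the integrands of a step
-/

set_option autoImplicit false

open MeasureTheory ProbabilityTheory Filter Topology Matrix

namespace SKC.B

variable {E : Type} [NormedAddCommGroup E] [NormedSpace ℝ E] {κ : Type} [Fintype κ]
  {G : Type} [NormedAddCommGroup G] [NormedSpace ℝ G]

theorem steplg_mono {C C' r : ℝ} (h : C ≤ C') (h0 : 0 ≤ C') (hr : 0 ≤ r) :
    C * Real.exp (C * r) ≤ C' * Real.exp (C' * r) := by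
  rcases le_total C 0 with hC | hC
  · have h1 : C * Real.exp (C * r) ≤ 0 := mul_nonpos_of_nonpos_of_nonneg hC (Real.exp_pos _).le
    have h2 : 0 ≤ C' * Real.exp (C' * r) := mul_nonneg h0 (Real.exp_pos _).le
    exact h1.trans h2
  · exact mul_le_mul h (Real.exp_le_exp.2 (mul_le_mul_of_nonneg_right h hr)) (Real.exp_pos _).le h0

theorem steplg_lin {a b r : ℝ} (ha : 0 ≤ a) (hb : 0 ≤ b) (hr : 0 ≤ r) :
    a + b * r ≤ (a + b + 1) * Real.exp ((a + b + 1) * r) := by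
  have h1 := Real.add_one_le_exp ((a + b + 1) * r)
  have h2 : (a + b + 1) * ((a + b + 1) * r + 1) ≤ (a + b + 1) * Real.exp ((a + b + 1) * r) :=
    mul_le_mul_of_nonneg_left h1 (by linarith)
  have h3 : 0 ≤ a * r := mul_nonneg ha hr
  have h4 : 0 ≤ b * r := mul_nonneg hb hr
  have h5 : 0 ≤ a * (a * r) := mul_nonneg ha h3
  have h6 : 0 ≤ b * (b * r) := mul_nonneg hb h4
  have h7 : 0 ≤ a * (b * r) := mul_nonneg ha h4
  nlinarith

/-- sum of functions of exponential growth: take `C = C1 + C2` with `C1, C2 ≥ 0` (constants may be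
replaced by `max C 0`, monotonicity of `C ↦ C exp(C r)` on `C ≥ 0`). -/
theorem LG.add {h k : E → (κ → ℝ) → G} (hh : LG h) (hk : LG k) : LG (fun e x => h e x + k e x) := by
  intro e0
  obtain ⟨C1, h1⟩ := hh e0
  obtain ⟨C2, h2⟩ := hk e0
  refine ⟨max C1 0 + max C2 0, fun e he x => ?_⟩
  have hx := norm_nonneg x
  have m1 : (0 : ℝ) ≤ max C1 0 := le_max_right _ _
  have m2 : (0 : ℝ) ≤ max C2 0 := le_max_right _ _
  have e1 := (h1 e he x).trans (steplg_mono (le_max_left C1 0) m1 hx)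
  have e2 := (h2 e he x).trans (steplg_mono (le_max_left C2 0) m2 hx)
  have g1 : Real.exp (max C1 0 * ‖x‖) ≤ Real.exp ((max C1 0 + max C2 0) * ‖x‖) :=
    Real.exp_le_exp.2 (mul_le_mul_of_nonneg_right (by linarith) hx)
  have g2 : Real.exp (max C2 0 * ‖x‖) ≤ Real.exp ((max C1 0 + max C2 0) * ‖x‖) :=
    Real.exp_le_exp.2 (mul_le_mul_of_nonneg_right (by linarith) hx)
  calc ‖h e x + k e x‖ ≤ ‖h e x‖ + ‖k e x‖ := norm_add_le _ _
    _ ≤ max C1 0 * Real.exp (max C1 0 * ‖x‖) + max C2 0 * Real.exp (max C2 0 * ‖x‖) :=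
      add_le_add e1 e2
    _ ≤ max C1 0 * Real.exp ((max C1 0 + max C2 0) * ‖x‖) +
        max C2 0 * Real.exp ((max C1 0 + max C2 0) * ‖x‖) :=
      add_le_add (mul_le_mul_of_nonneg_left g1 m1) (mul_le_mul_of_nonneg_left g2 m2)
    _ = _ := by ring

/-- product with a scalar function: `‖h e x • k e x‖ ≤ C1 C2 exp((C1+C2)‖x‖)`; take
`C = max (C1*C2) (C1+C2)`, constants `≥ 0`. -/
theorem LG.smul {h : E → (κ → ℝ) → ℝ} {k : E → (κ → ℝ) → G} (hh : LG h) (hk : LG k) :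
    LG (fun e x => h e x • k e x) := by
  intro e0
  obtain ⟨C1, h1⟩ := hh e0
  obtain ⟨C2, h2⟩ := hk e0
  refine ⟨max (max C1 0 * max C2 0) (max C1 0 + max C2 0), fun e he x => ?_⟩
  have hx := norm_nonneg x
  have m1 : (0 : ℝ) ≤ max C1 0 := le_max_right _ _
  have m2 : (0 : ℝ) ≤ max C2 0 := le_max_right _ _
  have e1 := (h1 e he x).trans (steplg_mono (le_max_left C1 0) m1 hx)
  have e2 := (h2 e he x).trans (steplg_mono (le_max_left C2 0) m2 hx)
  have m3 : 0 ≤ max C1 0 * max C2 0 := mul_nonneg m1 m2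
  rw [norm_smul]
  calc ‖h e x‖ * ‖k e x‖ ≤ (max C1 0 * Real.exp (max C1 0 * ‖x‖)) *
        (max C2 0 * Real.exp (max C2 0 * ‖x‖)) :=
      mul_le_mul e1 e2 (norm_nonneg _) (mul_nonneg m1 (Real.exp_pos _).le)
    _ = (max C1 0 * max C2 0) * Real.exp ((max C1 0 + max C2 0) * ‖x‖) := by
      rw [add_mul, Real.exp_add]
      ring
    _ ≤ _ := by
      refine mul_le_mul (le_max_left _ _) ?_ (Real.exp_pos _).le (m3.trans (le_max_left _ _))
      exact Real.exp_le_exp.2 (mul_le_mul_of_nonneg_right (le_max_right _ _) hx)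

/-- a function bounded by a multiple of the norm of a function of exponential growth -/
theorem LG.of_le {G' : Type} [NormedAddCommGroup G'] {h : E → (κ → ℝ) → G} (hh : LG h)
    {k : E → (κ → ℝ) → G'} {c : ℝ} (hk : ∀ e x, ‖k e x‖ ≤ c * ‖h e x‖) : LG k := by
  intro e0
  obtain ⟨C1, h1⟩ := hh e0
  refine ⟨max (|c| * max C1 0) (max C1 0), fun e he x => ?_⟩
  have hx := norm_nonneg x
  have m1 : (0 : ℝ) ≤ max C1 0 := le_max_right _ _
  have e1 := (h1 e he x).trans (steplg_mono (le_max_left C1 0) m1 hx)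
  have m3 : 0 ≤ |c| * max C1 0 := mul_nonneg (abs_nonneg _) m1
  calc ‖k e x‖ ≤ c * ‖h e x‖ := hk e x
    _ ≤ |c| * ‖h e x‖ := mul_le_mul_of_nonneg_right (le_abs_self c) (norm_nonneg _)
    _ ≤ |c| * (max C1 0 * Real.exp (max C1 0 * ‖x‖)) :=
      mul_le_mul_of_nonneg_left e1 (abs_nonneg _)
    _ = (|c| * max C1 0) * Real.exp (max C1 0 * ‖x‖) := by ring
    _ ≤ _ := by
      refine mul_le_mul (le_max_left _ _) ?_ (Real.exp_pos _).le (m3.trans (le_max_left _ _))
      exact Real.exp_le_exp.2 (mul_le_mul_of_nonneg_right (le_max_right _ _) hx)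

/-- global exponential growth implies growth near each point -/
theorem LG.of_bound {h : E → (κ → ℝ) → G} {C : ℝ} (hh : ∀ e x, ‖h e x‖ ≤ C * Real.exp (C * ‖x‖)) :
    LG h := fun _ => ⟨C, fun e _ x => hh e x⟩

theorem steplg_diff {F : E → (κ → ℝ) → ℝ} (hF : StepFn F) (x : κ → ℝ) :
    Differentiable ℝ (fun e => F e x) := by
  have h1 : ContDiff ℝ 2 (fun e : E => (e, x)) := contDiff_id.prodMk contDiff_const
  exact (hF.cd.comp h1).differentiable (by norm_num)

theorem steplg_loc {F : E → (κ → ℝ) → ℝ} (hF : StepFn F) (e0 : E) :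
    ∃ a b : ℝ, 0 ≤ a ∧ 0 ≤ b ∧ ∀ e, ‖e - e0‖ ≤ 1 → ∀ x, |F e x| ≤ a + b * ‖x‖ := by
  obtain ⟨C0, h0⟩ := hF.b0
  obtain ⟨C1, h1⟩ := hF.b1
  have hd : ∀ e, |F e 0 - F e0 0| ≤ |C1| * ‖e - e0‖ := by
    intro e
    have h2 : ∀ y ∈ (Set.univ : Set E), ‖fderiv ℝ (fun e' => F e' 0) y‖ ≤ |C1| := by
      intro y _
      have h3 := h1 y 0
      rw [norm_zero, mul_zero, Real.exp_zero, mul_one] at h3
      exact h3.trans (le_abs_self _)
    exact Convex.norm_image_sub_le_of_norm_fderiv_le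
      (fun y _ => (steplg_diff hF 0) y) h2 convex_univ (Set.mem_univ e0) (Set.mem_univ e)
  refine ⟨|F e0 0| + |C1|, |C0|, by positivity, by positivity, fun e he x => ?_⟩
  have g1 := h0 e x
  have g2 := hd e
  have g3 : C0 * ‖x‖ ≤ |C0| * ‖x‖ := mul_le_mul_of_nonneg_right (le_abs_self _) (norm_nonneg _)
  have g4 : |C1| * ‖e - e0‖ ≤ |C1| * 1 := mul_le_mul_of_nonneg_left he (abs_nonneg _)
  have g5 : F e x = (F e x - F e 0) + (F e 0 - F e0 0) + F e0 0 := by ring
  rw [g5]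
  have g6 := abs_add_le ((F e x - F e 0) + (F e 0 - F e0 0)) (F e0 0)
  have g7 := abs_add_le (F e x - F e 0) (F e 0 - F e0 0)
  linarith

/-- the integrand of a step is globally Lipschitz in the parameter at `x = 0`:
by `b1` at `x = 0` the derivative of `e ↦ F e 0` is bounded by `C`;
`Convex.norm_image_sub_le_of_norm_fderiv_le` on `univ`. -/
theorem StepFn.lip0 {F : E → (κ → ℝ) → ℝ} (hF : StepFn F) :
    ∃ C : ℝ, ∀ e e', |F e 0 - F e' 0| ≤ C * ‖e - e'‖ := by
  obtain ⟨C1, h1⟩ := hF.b1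
  refine ⟨C1, fun e e' => ?_⟩
  have h2 : ∀ y ∈ (Set.univ : Set E), ‖fderiv ℝ (fun e' => F e' 0) y‖ ≤ C1 := by
    intro y _
    have h3 := h1 y 0
    rw [norm_zero, mul_zero, Real.exp_zero, mul_one] at h3
    exact h3
  exact Convex.norm_image_sub_le_of_norm_fderiv_le
    (fun y _ => (steplg_diff hF 0) y) h2 convex_univ (Set.mem_univ e') (Set.mem_univ e)

/-- `|F e x| ≤ |F e 0| + C‖x‖`, and `F e 0` is locally bounded by `lip0`;
`a + b‖x‖ ≤ (a+b) exp((a+b)‖x‖)` for `a, b ≥ 0`, `a + b ≥ 1`. -/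
theorem StepFn.lg {F : E → (κ → ℝ) → ℝ} (hF : StepFn F) : LG F := by
  intro e0
  obtain ⟨a, b, ha, hb, h⟩ := steplg_loc hF e0
  refine ⟨a + b + 1, fun e he x => ?_⟩
  rw [Real.norm_eq_abs]
  exact (h e he x).trans (steplg_lin ha hb (norm_nonneg x))

/-- the same for the derivative in the parameter (directly from `b1`) -/
theorem StepFn.lg1 {F : E → (κ → ℝ) → ℝ} (hF : StepFn F) :
    LG (fun e x => fderiv ℝ (fun e' => F e' x) e) := by
  obtain ⟨C1, h1⟩ := hF.b1
  exact LG.of_bound h1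

/-- `exp(m F)`: `m F e x ≤ |m| (|F e0 0| + C) + |m| C ‖x‖` for `‖e - e0‖ ≤ 1`. -/
theorem StepFn.lg_exp {F : E → (κ → ℝ) → ℝ} (hF : StepFn F) (m : ℝ) :
    LG (fun e x => Real.exp (m * F e x)) := by
  intro e0
  obtain ⟨a, b, ha, hb, h⟩ := steplg_loc hF e0
  refine ⟨max (Real.exp (|m| * a)) (|m| * b), fun e he x => ?_⟩
  have hx := norm_nonneg x
  have h1 : m * F e x ≤ |m| * a + |m| * b * ‖x‖ := by
    have h2 : m * F e x ≤ |m| * |F e x| := by
      rw [← abs_mul]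
      exact le_abs_self _
    have h3 := mul_le_mul_of_nonneg_left (h e he x) (abs_nonneg m)
    linarith
  rw [Real.norm_eq_abs, Real.abs_exp]
  calc Real.exp (m * F e x) ≤ Real.exp (|m| * a + |m| * b * ‖x‖) := Real.exp_le_exp.2 h1
    _ = Real.exp (|m| * a) * Real.exp (|m| * b * ‖x‖) := Real.exp_add _ _
    _ ≤ _ := by
      refine mul_le_mul (le_max_left _ _) ?_ (Real.exp_pos _).le
        ((Real.exp_pos _).le.trans (le_max_left _ _))
      exact Real.exp_le_exp.2 (mul_le_mul_of_nonneg_right (le_max_right _ _) hx)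

/-- `Z(e) = ∫ exp(m F e x)` is positive (`integral_exp_pos'`). -/
theorem StepFn.Z_pos {F : E → (κ → ℝ) → ℝ} (hF : StepFn F) (m : ℝ) (e : E) :
    0 < ∫ x, Real.exp (m * F e x) ∂(gam κ) := by
  obtain ⟨a, b, ha, hb, h⟩ := steplg_loc hF e
  have hc : Continuous (fun x => m * F e x) := by
    have h1 : Continuous (fun x : κ → ℝ => ((e, x) : E × (κ → ℝ))) := by fun_prop
    exact continuous_const.mul (hF.cd.continuous.comp h1)
  refine integral_exp_pos' (G := fun x => m * F e x) hc (a := |m| * a) (C := |m| * b) fun x => ?_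
  rw [abs_mul]
  have h3 := mul_le_mul_of_nonneg_left (h e (by rw [sub_self, norm_zero]; exact zero_le_one) x)
    (abs_nonneg m)
  linarith

/-- the derivative of `e ↦ exp(m F e x)` -/
theorem StepFn.fderiv_exp {F : E → (κ → ℝ) → ℝ} (hF : StepFn F) (m : ℝ) (e : E) (x : κ → ℝ) :
    HasFDerivAt (fun e' => Real.exp (m * F e' x))
      ((m * Real.exp (m * F e x)) • fderiv ℝ (fun e' => F e' x) e) e := by
  have h1 := ((steplg_diff hF x) e).hasFDerivAt
  have h2 := (h1.const_mul m).exp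
  rw [smul_smul, mul_comm] at h2
  exact h2

end SKC.B
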