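import Pool.Agent.H.MP_08eaf3_pr.B.Par
import Pool.Agent.H.MP_08eaf3_pr.B.StepLG

/-!
# Part B: derivatives of weighted expectations
-/

set_option autoImplicit false

open MeasureTheory ProbabilityTheory Filter Topology Matrix

namespace SKC.B

variable {E : Type} [NormedAddCommGroup E] [NormedSpace ℝ E] {κ : Type} [Fintype κ]

theorem num_diff {H : E → (κ → ℝ) → ℝ}
    (hH : ContDiff ℝ 1 (fun p : E × (κ → ℝ) => H p.1 p.2)) (e : E) (x : κ → ℝ) :
    HasFDerivAt (fun e' => H e' x) (fderiv ℝ (fun e' => H e' x) e) e := by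
  have h1 : ContDiff ℝ 1 (fun e' : E => H e' x) := hH.comp (contDiff_id.prodMk contDiff_const)
  exact ((h1.differentiable one_ne_zero) e).hasFDerivAt

theorem num_cont {H : E → (κ → ℝ) → ℝ}
    (hH : ContDiff ℝ 1 (fun p : E × (κ → ℝ) => H p.1 p.2)) (e : E) :
    Continuous (fun x : κ → ℝ => fderiv ℝ (fun e' => H e' x) e) := by
  have h1 : ContDiff ℝ 1 (Function.uncurry (fun (x : κ → ℝ) (e' : E) => H e' x)) :=
    hH.comp (contDiff_snd.prodMk contDiff_fst)
  have h2 : ContDiff ℝ 0 (fun x : κ → ℝ => fderiv ℝ (fun e' => H e' x) e) :=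
    ContDiff.fderiv h1 contDiff_const (by norm_num)
  exact h2.continuous

theorem num_cd {F : E → (κ → ℝ) → ℝ} (hF : StepFn F) {H : E → (κ → ℝ) → ℝ}
    (hH : ContDiff ℝ 1 (fun p : E × (κ → ℝ) => H p.1 p.2)) (m : ℝ) :
    ContDiff ℝ 1 (fun p : E × (κ → ℝ) => H p.1 p.2 * Real.exp (m * F p.1 p.2)) := by
  have h1 : ContDiff ℝ 1 (fun p : E × (κ → ℝ) => F p.1 p.2) := hF.cd.of_le (by norm_num)
  exact hH.mul (Real.contDiff_exp.comp (contDiff_const.mul h1))

theorem num_has {F : E → (κ → ℝ) → ℝ} (hF : StepFn F) {H : E → (κ → ℝ) → ℝ}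
    (hH : ContDiff ℝ 1 (fun p : E × (κ → ℝ) => H p.1 p.2)) (m : ℝ) (e : E) (x : κ → ℝ) :
    HasFDerivAt (fun e' => H e' x * Real.exp (m * F e' x))
      (H e x • ((m * Real.exp (m * F e x)) • fderiv ℝ (fun e' => F e' x) e) +
        Real.exp (m * F e x) • fderiv ℝ (fun e' => H e' x) e) e :=
  (num_diff hH e x).mul (hF.fderiv_exp m e x)

/-- derivative of the numerator `e ↦ ∫ H e x exp(m F e x)`.
Proof: `par1` for `h e x = H e x * exp(m F e x)`: jointly `C^1`; the derivative in `e` is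
`exp(mF) • DH + (m H exp(mF)) • DF` (product rule, `StepFn.fderiv_exp`), so `LG` follows from
`LG.add`, `LG.smul`, `StepFn.lg_exp`, `StepFn.lg1`. The value at `v` by `ContinuousLinearMap.integral_apply`
(integrability of the derivative from `LG` and continuity). -/
theorem num_fderiv {F : E → (κ → ℝ) → ℝ} (hF : StepFn F) {H : E → (κ → ℝ) → ℝ}
    (hH : ContDiff ℝ 1 (fun p : E × (κ → ℝ) => H p.1 p.2)) (h0 : LG H)
    (h1 : LG (fun e x => fderiv ℝ (fun e' => H e' x) e)) (m : ℝ) :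
    ContDiff ℝ 1 (fun e => ∫ x, H e x * Real.exp (m * F e x) ∂(gam κ)) ∧
      ∀ e v, fderiv ℝ (fun e => ∫ x, H e x * Real.exp (m * F e x) ∂(gam κ)) e v =
        ∫ x, (fderiv ℝ (fun e' => H e' x) e v + m * (H e x * fderiv ℝ (fun e' => F e' x) e v)) *
          Real.exp (m * F e x) ∂(gam κ) := by
  have hd : (fun e x => fderiv ℝ (fun e' => H e' x * Real.exp (m * F e' x)) e) =
      fun e x => H e x • ((m * Real.exp (m * F e x)) • fderiv ℝ (fun e' => F e' x) e) +
        Real.exp (m * F e x) • fderiv ℝ (fun e' => H e' x) e := by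
    funext e x
    exact (num_has hF hH m e x).fderiv
  have hg0 : LG (fun e x => H e x * Real.exp (m * F e x)) := LG.smul h0 (hF.lg_exp m)
  have hmexp : LG (fun e x => m * Real.exp (m * F e x)) :=
    LG.of_le (hF.lg_exp m) (c := |m|) (fun e x => by rw [norm_mul, Real.norm_eq_abs m])
  have hg1 : LG (fun e x => fderiv ℝ (fun e' => H e' x * Real.exp (m * F e' x)) e) := by
    rw [hd]
    exact LG.add (LG.smul h0 (LG.smul hmexp hF.lg1)) (LG.smul (hF.lg_exp m) h1)
  obtain ⟨hp1, hp2⟩ := par1 (num_cd hF hH m) hg0 hg1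
  refine ⟨hp1, fun e v => ?_⟩
  rw [(hp2 e).fderiv]
  have hcont : Continuous (fun x : κ → ℝ => fderiv ℝ (fun e' => H e' x * Real.exp (m * F e' x)) e) :=
    num_cont (H := fun e x => H e x * Real.exp (m * F e x)) (num_cd hF hH m) e
  have hint : Integrable (fun x : κ → ℝ => fderiv ℝ (fun e' => H e' x * Real.exp (m * F e' x)) e) (gam κ) := by
    refine integrable_of_exp hcont ?_
    obtain ⟨C, hC⟩ := hg1 e
    exact ⟨C, fun x => hC e (by rw [sub_self, norm_zero]; exact zero_le_one) x⟩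
  rw [ContinuousLinearMap.integral_apply hint]
  refine integral_congr_ae (Filter.Eventually.of_forall fun x => ?_)
  show fderiv ℝ (fun e' => H e' x * Real.exp (m * F e' x)) e v = _
  rw [(num_has hF hH m e x).fderiv]
  simp only [_root_.add_apply, _root_.smul_apply, smul_eq_mul]
  ring

theorem num_Z {F : E → (κ → ℝ) → ℝ} (hF : StepFn F) (m : ℝ) :
    ContDiff ℝ 1 (fun e => ∫ x, Real.exp (m * F e x) ∂(gam κ)) ∧
      ∀ e v, fderiv ℝ (fun e => ∫ x, Real.exp (m * F e x) ∂(gam κ)) e v =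
        m * ∫ x, fderiv ℝ (fun e' => F e' x) e v * Real.exp (m * F e x) ∂(gam κ) := by
  have hH : ContDiff ℝ 1 (fun p : E × (κ → ℝ) => (fun (_ : E) (_ : κ → ℝ) => (1 : ℝ)) p.1 p.2) := contDiff_const
  have h0 : LG (fun (_ : E) (_ : κ → ℝ) => (1 : ℝ)) := by
    refine LG.of_bound (C := 1) fun e x => ?_
    rw [norm_one, one_mul, one_mul]
    exact Real.one_le_exp (norm_nonneg x)
  have h1 : LG (fun (e : E) (x : κ → ℝ) => fderiv ℝ (fun e' => (fun (_ : E) (_ : κ → ℝ) => (1 : ℝ)) e' x) e) := by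
    refine LG.of_bound (C := 1) fun e x => ?_
    have : fderiv ℝ (fun e' : E => (fun (_ : E) (_ : κ → ℝ) => (1 : ℝ)) e' x) e = 0 := by
      exact fderiv_const_apply (1 : ℝ)
    rw [this, norm_zero]
    positivity
  obtain ⟨h2, h3⟩ := num_fderiv hF hH h0 h1 m
  have e0 : (fun e => ∫ x, (fun (_ : E) (_ : κ → ℝ) => (1 : ℝ)) e x * Real.exp (m * F e x) ∂(gam κ)) =
      fun e => ∫ x, Real.exp (m * F e x) ∂(gam κ) := by
    funext e
    refine integral_congr_ae (Filter.Eventually.of_forall fun x => ?_)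
    show 1 * Real.exp (m * F e x) = _
    rw [one_mul]
  rw [e0] at h2 h3
  refine ⟨h2, fun e v => ?_⟩
  rw [h3 e v, ← integral_const_mul]
  refine integral_congr_ae (Filter.Eventually.of_forall fun x => ?_)
  show (fderiv ℝ (fun e' : E => (1 : ℝ)) e v + m * (1 * fderiv ℝ (fun e' => F e' x) e v)) *
    Real.exp (m * F e x) = m * (fderiv ℝ (fun e' => F e' x) e v * Real.exp (m * F e x))
  have h4 : fderiv ℝ (fun e' : E => (1 : ℝ)) e v = 0 := by
    rw [fderiv_const_apply (1 : ℝ)]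
    rfl
  rw [h4]
  ring

/-- derivative of the weighted expectation (quotient rule; denominator = numerator with `H = 1`,
positive by `StepFn.Z_pos`). -/
theorem Wx_fderiv {F : E → (κ → ℝ) → ℝ} (hF : StepFn F) {H : E → (κ → ℝ) → ℝ}
    (hH : ContDiff ℝ 1 (fun p : E × (κ → ℝ) => H p.1 p.2)) (h0 : LG H)
    (h1 : LG (fun e x => fderiv ℝ (fun e' => H e' x) e)) (m : ℝ) :
    ContDiff ℝ 1 (fun e => Wx m (F e) (H e)) ∧
      ∀ e v, fderiv ℝ (fun e => Wx m (F e) (H e)) e v =
        Wx m (F e) (fun x => fderiv ℝ (fun e' => H e' x) e v +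
          m * (H e x * fderiv ℝ (fun e' => F e' x) e v)) -
        m * (Wx m (F e) (H e) * Wx m (F e) (fun x => fderiv ℝ (fun e' => F e' x) e v)) := by
  obtain ⟨hN1, hN2⟩ := num_fderiv hF hH h0 h1 m
  obtain ⟨hZ1, hZ2⟩ := num_Z hF m
  have hZ0 : ∀ e, (∫ x, Real.exp (m * F e x) ∂(gam κ)) ≠ 0 := fun e => (hF.Z_pos m e).ne'
  have hW : (fun e => Wx m (F e) (H e)) = fun e => (∫ x, H e x * Real.exp (m * F e x) ∂(gam κ)) /
      (∫ x, Real.exp (m * F e x) ∂(gam κ)) := rfl
  refine ⟨?_, fun e v => ?_⟩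
  · rw [hW]
    exact hN1.div hZ1 hZ0
  · have hNd := ((hN1.differentiable one_ne_zero) e).hasFDerivAt
    have hZd := ((hZ1.differentiable one_ne_zero) e).hasFDerivAt
    have hI := (hasDerivAt_inv (hZ0 e)).comp_hasFDerivAt e hZd
    have hQ := hNd.mul hI
    have hW2 : (fun e => Wx m (F e) (H e)) = (fun e => ∫ x, H e x * Real.exp (m * F e x) ∂(gam κ)) *
        (Inv.inv ∘ fun e => ∫ x, Real.exp (m * F e x) ∂(gam κ)) := by
      funext e
      exact div_eq_mul_inv _ _
    rw [hW2, hQ.fderiv]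
    simp only [_root_.add_apply, _root_.smul_apply, smul_eq_mul, Function.comp_apply]
    rw [hN2 e v, hZ2 e v]
    unfold Wx
    have hz := hZ0 e
    field_simp
    ring

/-- derivative of `Tx`: `m = 0`: `par1` for `F`; `m ≠ 0`: `(1/m) DZ / Z` with `num_fderiv` for `H = 1`. -/
theorem Tx_fderiv {F : E → (κ → ℝ) → ℝ} (hF : StepFn F) (m : ℝ) :
    ContDiff ℝ 1 (fun e => Tx m (F e)) ∧
      ∀ e v, fderiv ℝ (fun e => Tx m (F e)) e v =
        Wx m (F e) (fun x => fderiv ℝ (fun e' => F e' x) e v) := by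
  by_cases hm : m = 0
  · subst hm
    have hT : (fun e => Tx 0 (F e)) = fun e => ∫ x, F e x ∂(gam κ) := by
      funext e
      exact if_pos rfl
    have hc : ContDiff ℝ 1 (fun p : E × (κ → ℝ) => F p.1 p.2) := hF.cd.of_le (by norm_num)
    obtain ⟨hp1, hp2⟩ := par1 hc hF.lg hF.lg1
    rw [hT]
    refine ⟨hp1, fun e v => ?_⟩
    have hcont : Continuous (fun x : κ → ℝ => fderiv ℝ (fun e' => F e' x) e) := num_cont hc e
    have hint : Integrable (fun x : κ → ℝ => fderiv ℝ (fun e' => F e' x) e) (gam κ) := by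
      refine integrable_of_exp hcont ?_
      obtain ⟨C, hC⟩ := hF.lg1 e
      exact ⟨C, fun x => hC e (by rw [sub_self, norm_zero]; exact zero_le_one) x⟩
    rw [(hp2 e).fderiv, ContinuousLinearMap.integral_apply hint]
    unfold Wx
    simp only [zero_mul, Real.exp_zero, mul_one]
    rw [integral_const, probReal_univ, smul_eq_mul, mul_one, div_one]
  · obtain ⟨hZ1, hZ2⟩ := num_Z hF m
    have hZ0 : ∀ e, (∫ x, Real.exp (m * F e x) ∂(gam κ)) ≠ 0 := fun e => (hF.Z_pos m e).ne'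
    have hT : (fun e => Tx m (F e)) = fun e => (1 / m) * Real.log (∫ x, Real.exp (m * F e x) ∂(gam κ)) := by
      funext e
      exact if_neg hm
    rw [hT]
    refine ⟨contDiff_const.mul (hZ1.log hZ0), fun e v => ?_⟩
    have hZd := ((hZ1.differentiable one_ne_zero) e).hasFDerivAt
    have hL := (hZd.log (hZ0 e)).const_mul (1 / m)
    rw [hL.fderiv]
    simp only [_root_.smul_apply, smul_eq_mul]
    rw [hZ2 e v]
    unfold Wx
    have hz := hZ0 e
    field_simp

end SKC.B
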