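import Pool.Agent.H.MP_08eaf3_pr.B.Cls
import Pool.Agent.H.MP_08eaf3_pr.IfA

/-!
# Part B3: splitting and merging of steps
-/

set_option autoImplicit false

open MeasureTheory ProbabilityTheory Filter Topology Matrix

set_option linter.unusedSectionVars false

namespace SKC.B

variable {K : Type} [Fintype K] [DecidableEq K]

/-- nonnegativity of the `l1` norm -/
theorem Split_n1_nonneg {J : Type} [Fintype J] (z : J → ℝ) : 0 ≤ n1 z :=
  Finset.sum_nonneg fun _ _ => abs_nonneg _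

/-- criterion for exponential growth -/
theorem Split_EG {J : Type} [Fintype J] {h : (J → ℝ) → ℝ} (hc : Continuous h) {a b : ℝ}
    (hb : ∀ z, |h z| ≤ a * Real.exp (b * n1 z)) : SKC.EG h := by
  refine ⟨hc, |a| + |b|, fun z => (hb z).trans ?_⟩
  have hn := Split_n1_nonneg z
  have h1 : Real.exp (b * n1 z) ≤ Real.exp ((|a| + |b|) * n1 z) := by
    refine Real.exp_le_exp.mpr (mul_le_mul_of_nonneg_right ?_ hn)
    linarith [le_abs_self b, abs_nonneg a]
  calc a * Real.exp (b * n1 z) ≤ (|a| + |b|) * Real.exp (b * n1 z) := by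
        refine mul_le_mul_of_nonneg_right ?_ (Real.exp_pos _).le
        linarith [le_abs_self a, abs_nonneg b]
    _ ≤ (|a| + |b|) * Real.exp ((|a| + |b|) * n1 z) := by
        refine mul_le_mul_of_nonneg_left h1 ?_
        positivity

/-- the exponential of a function of linear growth -/
theorem Split_EG_exp {J : Type} [Fintype J] {f : (J → ℝ) → ℝ} (hf : SKC.LG f) (m : ℝ) :
    SKC.EG (fun z => Real.exp (m * f z)) := by
  obtain ⟨hc, C, hC⟩ := hf
  refine Split_EG (a := Real.exp (|m| * |C|)) (b := |m| * |C|)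
    (Real.continuous_exp.comp (continuous_const.mul hc)) fun z => ?_
  rw [abs_of_pos (Real.exp_pos _), ← Real.exp_add]
  refine Real.exp_le_exp.mpr ?_
  have hn := Split_n1_nonneg z
  calc m * f z ≤ |m * f z| := le_abs_self _
    _ = |m| * |f z| := abs_mul _ _
    _ ≤ |m| * (|C| * (1 + n1 z)) := by
        refine mul_le_mul_of_nonneg_left ((hC z).trans ?_) (abs_nonneg m)
        exact mul_le_mul_of_nonneg_right (le_abs_self C) (by linarith)
    _ = |m| * |C| + |m| * |C| * n1 z := by ring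

/-- linear growth is exponential growth -/
theorem Split_EG_of_LG {J : Type} [Fintype J] {f : (J → ℝ) → ℝ} (hf : SKC.LG f) : SKC.EG f := by
  obtain ⟨hc, C, hC⟩ := hf
  refine Split_EG (a := |C|) (b := 1) hc fun z => (hC z).trans ?_
  have hn := Split_n1_nonneg z
  have h1 := Real.add_one_le_exp (1 * n1 z)
  calc C * (1 + n1 z) ≤ |C| * (1 + n1 z) := mul_le_mul_of_nonneg_right (le_abs_self C) (by linarith)
    _ ≤ |C| * Real.exp (1 * n1 z) := mul_le_mul_of_nonneg_left (by linarith) (abs_nonneg C)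

/-- products of functions of exponential growth -/
theorem Split_EG_mul {J : Type} [Fintype J] {f g : (J → ℝ) → ℝ} (hf : SKC.EG f) (hg : SKC.EG g) :
    SKC.EG (fun z => f z * g z) := by
  obtain ⟨hc, C, hC⟩ := hf
  obtain ⟨hd, D, hD⟩ := hg
  refine Split_EG (a := C * D) (b := C + D) (hc.mul hd) fun z => ?_
  rw [abs_mul]
  calc |f z| * |g z| ≤ (C * Real.exp (C * n1 z)) * (D * Real.exp (D * n1 z)) :=
        mul_le_mul (hC z) (hD z) (abs_nonneg _) ((abs_nonneg _).trans (hC z))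
    _ = C * D * Real.exp ((C + D) * n1 z) := by
        rw [add_mul, Real.exp_add]
        ring

/-- continuity of the linear map -/
theorem Split_cont {J L : Type} [Fintype J] [Fintype L] (M : Matrix J L ℝ) :
    Continuous (fun x : L → ℝ => M.mulVec x) :=
  Continuous.matrix_mulVec continuous_const continuous_id

/-- `l1` norm of the image -/
theorem Split_n1_mulVec {J L : Type} [Fintype J] [Fintype L] (M : Matrix J L ℝ) (x : L → ℝ) :
    n1 (M.mulVec x) ≤ (∑ c, ∑ j, |M c j|) * ‖x‖ := by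
  unfold n1
  rw [Finset.sum_mul]
  refine Finset.sum_le_sum fun c _ => ?_
  calc |M.mulVec x c| = |∑ j, M c j * x j| := rfl
    _ ≤ ∑ j, |M c j * x j| := Finset.abs_sum_le_sum_abs _ _
    _ ≤ ∑ j, |M c j| * ‖x‖ := by
        refine Finset.sum_le_sum fun j _ => ?_
        rw [abs_mul]
        exact mul_le_mul_of_nonneg_left (norm_le_pi_norm x j) (abs_nonneg _)
    _ = (∑ j, |M c j|) * ‖x‖ := (Finset.sum_mul _ _ _).symm

/-- integrability of functions of exponential growth of linear images -/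
theorem Split_integrable {J L : Type} [Fintype J] [Fintype L] {G : (J → ℝ) → ℝ} (hG : SKC.EG G)
    (M : Matrix J L ℝ) (z : J → ℝ) : Integrable (fun x => G (z + M.mulVec x)) (gam L) := by
  obtain ⟨hc, C, hC⟩ := hG
  set A : ℝ := ∑ c, ∑ j, |M c j| with hA
  have hcont : Continuous (fun x : L → ℝ => G (z + M.mulVec x)) :=
    hc.comp (continuous_const.add (Split_cont M))
  refine ((integrable_exp_norm L (|C| * A)).const_mul (|C| * Real.exp (|C| * n1 z))).mono'
    hcont.aestronglyMeasurable (Filter.Eventually.of_forall fun x => ?_)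
  rw [Real.norm_eq_abs]
  refine (hC _).trans ?_
  have h1 : n1 (z + M.mulVec x) ≤ n1 z + A * ‖x‖ := by
    have h2 : n1 (z + M.mulVec x) ≤ n1 z + n1 (M.mulVec x) := by
      unfold n1
      rw [← Finset.sum_add_distrib]
      exact Finset.sum_le_sum fun c _ => abs_add_le _ _
    exact h2.trans (by linarith [Split_n1_mulVec M x])
  calc C * Real.exp (C * n1 (z + M.mulVec x)) ≤ |C| * Real.exp (C * n1 (z + M.mulVec x)) :=
        mul_le_mul_of_nonneg_right (le_abs_self C) (Real.exp_pos _).le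
    _ ≤ |C| * Real.exp (|C| * (n1 z + A * ‖x‖)) := by
        refine mul_le_mul_of_nonneg_left (Real.exp_le_exp.mpr ?_) (abs_nonneg C)
        calc C * n1 (z + M.mulVec x) ≤ |C| * n1 (z + M.mulVec x) :=
              mul_le_mul_of_nonneg_right (le_abs_self C) (Split_n1_nonneg _)
          _ ≤ |C| * (n1 z + A * ‖x‖) := mul_le_mul_of_nonneg_left h1 (abs_nonneg C)
    _ = |C| * Real.exp (|C| * n1 z) * Real.exp (|C| * A * ‖x‖) := by
        rw [mul_assoc |C| (Real.exp _) (Real.exp _), ← Real.exp_add]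
        congr 2
        ring

/-- integrals of functions of linear images of Gaussian vectors depend only on the covariance -/
theorem Split_lin {J L L' : Type} [Fintype J] [Fintype L] [Fintype L'] {M : Matrix J L ℝ} {M' : Matrix J L' ℝ}
    (h : M * Mᵀ = M' * M'ᵀ) {G : (J → ℝ) → ℝ} (hG : Continuous G) (z : J → ℝ) :
    ∫ x, G (z + M.mulVec x) ∂(gam L) = ∫ x, G (z + M'.mulVec x) ∂(gam L') := by
  have hGz : Continuous (fun y : J → ℝ => G (z + y)) := hG.comp (continuous_const.add continuous_id)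
  have e1 := integral_map (μ := gam L) (φ := fun x => M.mulVec x) (f := fun y => G (z + y))
    (Split_cont M).measurable.aemeasurable hGz.aestronglyMeasurable
  have e2 := integral_map (μ := gam L') (φ := fun x => M'.mulVec x) (f := fun y => G (z + y))
    (Split_cont M').measurable.aemeasurable hGz.aestronglyMeasurable
  rw [gam_map_linear_eq M M' h] at e1
  exact e1.symm.trans e2

/-- `Bm β E (Bm β E)ᵀ = 2 β_c β_c' (E Eᵀ)_cc'` -/
theorem Bm_mul (β : K → ℝ) (E : Matrix K K ℝ) :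
    Bm β E * (Bm β E)ᵀ = fun c c' => 2 * β c * β c' * (E * Eᵀ) c c' := by
  ext c c'
  rw [Matrix.mul_apply, Matrix.mul_apply, Finset.mul_sum]
  refine Finset.sum_congr rfl fun d _ => ?_
  rw [Matrix.transpose_apply, Matrix.transpose_apply]
  unfold Bm
  have h := Real.mul_self_sqrt (show (0 : ℝ) ≤ 2 by norm_num)
  calc Real.sqrt 2 * β c * E c d * (Real.sqrt 2 * β c' * E c' d)
      = (Real.sqrt 2 * Real.sqrt 2) * (β c * E c d * (β c' * E c' d)) := by ring
    _ = 2 * β c * β c' * (E c d * E c' d) := by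
        rw [h]
        ring

/-- the law of `B x` depends only on `B Bᵀ` (`gam_map_linear_eq`, `integral_map`) -/
theorem one_int {B B' : Matrix K K ℝ} (h : B * Bᵀ = B' * B'ᵀ) {G : (K → ℝ) → ℝ} (hG : Continuous G)
    (z : K → ℝ) :
    ∫ x, G (z + B.mulVec x) ∂(gam K) = ∫ x, G (z + B'.mulVec x) ∂(gam K) := by
  exact Split_lin h hG z

/-- sum of two independent Gaussian vectors: `gam_map_linear_eq` for `M = Matrix.fromCols B1 B2`
(index `K ⊕ K`) and `B`; `gam (K ⊕ K)` is the product of `gam K` and `gam K`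
(`MeasureTheory.measurePreserving_sumPiEquivProdPi_symm`); Fubini (`integral_prod`), integrable by the
exponential growth. -/
theorem two_int {B1 B2 B : Matrix K K ℝ} (h : B * Bᵀ = B1 * B1ᵀ + B2 * B2ᵀ) {G : (K → ℝ) → ℝ}
    (hG : SKC.EG G) (z : K → ℝ) :
    ∫ x, ∫ y, G (z + B1.mulVec x + B2.mulVec y) ∂(gam K) ∂(gam K) =
      ∫ x, G (z + B.mulVec x) ∂(gam K) := by
  set M : Matrix K (K ⊕ K) ℝ := Matrix.fromCols B1 B2 with hM
  have hMM : M * Mᵀ = B * Bᵀ := by
    rw [hM, Matrix.transpose_fromCols, Matrix.fromCols_mul_fromRows, h]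
  have hGc := hG.1
  have hmp : MeasurePreserving (MeasurableEquiv.sumPiEquivProdPi (fun _ : K ⊕ K => ℝ)).symm
      ((gam K).prod (gam K)) (gam (K ⊕ K)) :=
    measurePreserving_sumPiEquivProdPi_symm (fun _ : K ⊕ K => gaussianReal 0 1)
  have hval : ∀ p : (K → ℝ) × (K → ℝ),
      M.mulVec ((MeasurableEquiv.sumPiEquivProdPi (fun _ : K ⊕ K => ℝ)).symm p) =
        B1.mulVec p.1 + B2.mulVec p.2 := by
    intro p
    rw [hM, Matrix.fromCols_mulVec]
    rfl
  have hint0 : Integrable (fun q : (K ⊕ K) → ℝ => G (z + M.mulVec q)) (gam (K ⊕ K)) := Split_integrable hG M z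
  have hint : Integrable (fun p : (K → ℝ) × (K → ℝ) => G (z + B1.mulVec p.1 + B2.mulVec p.2))
      ((gam K).prod (gam K)) := by
    have h1 := hmp.integrable_comp_of_integrable hint0
    refine h1.congr (Filter.Eventually.of_forall fun p => ?_)
    show G (z + M.mulVec ((MeasurableEquiv.sumPiEquivProdPi (fun _ : K ⊕ K => ℝ)).symm p)) =
      G (z + B1.mulVec p.1 + B2.mulVec p.2)
    rw [hval p, add_assoc]
  calc ∫ x, ∫ y, G (z + B1.mulVec x + B2.mulVec y) ∂(gam K) ∂(gam K)
      = ∫ p : (K → ℝ) × (K → ℝ), G (z + B1.mulVec p.1 + B2.mulVec p.2) ∂((gam K).prod (gam K)) :=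
        (integral_prod _ hint).symm
    _ = ∫ p : (K → ℝ) × (K → ℝ), G (z + M.mulVec ((MeasurableEquiv.sumPiEquivProdPi (fun _ : K ⊕ K => ℝ)).symm p))
          ∂((gam K).prod (gam K)) := by
        refine integral_congr_ae (Filter.Eventually.of_forall fun p => ?_)
        show G (z + B1.mulVec p.1 + B2.mulVec p.2) =
          G (z + M.mulVec ((MeasurableEquiv.sumPiEquivProdPi (fun _ : K ⊕ K => ℝ)).symm p))
        rw [hval p, add_assoc]
    _ = ∫ q : (K ⊕ K) → ℝ, G (z + M.mulVec q) ∂(gam (K ⊕ K)) :=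
        hmp.integral_comp' (fun q => G (z + M.mulVec q))
    _ = ∫ x, G (z + B.mulVec x) ∂(gam K) := Split_lin hMM hGc z

/-- `exp(m T_m f) = E exp(m f)`, also for `m = 0` -/
theorem Split_exp_Tm (m : ℝ) (B : Matrix K K ℝ) {f : (K → ℝ) → ℝ} (hf : SKC.LG f) (w : K → ℝ) :
    Real.exp (m * Tm m B f w) = ∫ y, Real.exp (m * f (w + B.mulVec y)) ∂(gam K) := by
  by_cases hm : m = 0
  · subst hm
    simp only [zero_mul, Real.exp_zero]
    rw [integral_const, probReal_univ, smul_eq_mul, mul_one]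
  · have hT : Tm m B f w = (1 / m) * Real.log (∫ y, Real.exp (m * f (w + B.mulVec y)) ∂(gam K)) := if_neg hm
    rw [hT, ← mul_assoc, mul_one_div_cancel hm, one_mul, Real.exp_log (LG_Z hf m B w).1]

/-- `T_m^{B1} T_m^{B2} f = T_m^B f` : for `m ≠ 0` `exp(m (1/m) log Z) = Z`, then `two_int` with
`G = exp(m f)`; `m = 0`: `two_int` with `G = f`. -/
theorem Tm_merge {B1 B2 B : Matrix K K ℝ} (h : B * Bᵀ = B1 * B1ᵀ + B2 * B2ᵀ) (m : ℝ)
    {f : (K → ℝ) → ℝ} (hf : SKC.LG f) : Tm m B1 (Tm m B2 f) = Tm m B f := by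
  funext z
  by_cases hm : m = 0
  · subst hm
    have e1 : Tm 0 B1 (Tm 0 B2 f) z = ∫ x, ∫ y, f (z + B1.mulVec x + B2.mulVec y) ∂(gam K) ∂(gam K) := by
      have h1 : Tm 0 B1 (Tm 0 B2 f) z = ∫ x, Tm 0 B2 f (z + B1.mulVec x) ∂(gam K) := if_pos rfl
      rw [h1]
      refine integral_congr_ae (Filter.Eventually.of_forall fun x => ?_)
      exact if_pos rfl
    have e2 : Tm 0 B f z = ∫ x, f (z + B.mulVec x) ∂(gam K) := if_pos rfl
    rw [e1, e2]
    exact two_int h (Split_EG_of_LG hf) z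
  · have e1 : Tm m B1 (Tm m B2 f) z =
        (1 / m) * Real.log (∫ x, Real.exp (m * Tm m B2 f (z + B1.mulVec x)) ∂(gam K)) := if_neg hm
    have e2 : Tm m B f z = (1 / m) * Real.log (∫ x, Real.exp (m * f (z + B.mulVec x)) ∂(gam K)) := if_neg hm
    rw [e1, e2]
    congr 2
    rw [← two_int h (Split_EG_exp hf m) z]
    refine integral_congr_ae (Filter.Eventually.of_forall fun x => ?_)
    exact Split_exp_Tm m B2 hf (z + B1.mulVec x)

/-- chains: `Es m B1 (Tm m B2 f) (Es m B2 f h) = Es m B f h`: the density `exp(m T_m^{B2} f(z + B1 x))` cancels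
the denominator of the inner `Es` (`m ≠ 0`: `exp(m Tm) = ∫exp(m f)`; `m = 0`: all weights are `1`);
`two_int` with `G = h exp(m f)` and with `G = exp(m f)`. -/
theorem Es_merge {B1 B2 B : Matrix K K ℝ} (h : B * Bᵀ = B1 * B1ᵀ + B2 * B2ᵀ) (m : ℝ)
    {f g : (K → ℝ) → ℝ} (hf : SKC.LG f) (hg : SKC.EG g) :
    Es m B1 (Tm m B2 f) (Es m B2 f g) = Es m B f g := by
  funext z
  unfold Es
  have hnum : ∫ x, (∫ y, g (z + B1.mulVec x + B2.mulVec y) * Real.exp (m * f (z + B1.mulVec x + B2.mulVec y)) ∂(gam K)) /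
        (∫ y, Real.exp (m * f (z + B1.mulVec x + B2.mulVec y)) ∂(gam K)) *
          Real.exp (m * Tm m B2 f (z + B1.mulVec x)) ∂(gam K) =
      ∫ x, g (z + B.mulVec x) * Real.exp (m * f (z + B.mulVec x)) ∂(gam K) := by
    rw [← two_int h (Split_EG_mul hg (Split_EG_exp hf m)) z]
    refine integral_congr_ae (Filter.Eventually.of_forall fun x => ?_)
    show (∫ y, g (z + B1.mulVec x + B2.mulVec y) * Real.exp (m * f (z + B1.mulVec x + B2.mulVec y)) ∂(gam K)) /
        (∫ y, Real.exp (m * f (z + B1.mulVec x + B2.mulVec y)) ∂(gam K)) *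
          Real.exp (m * Tm m B2 f (z + B1.mulVec x)) =
      ∫ y, g (z + B1.mulVec x + B2.mulVec y) * Real.exp (m * f (z + B1.mulVec x + B2.mulVec y)) ∂(gam K)
    rw [Split_exp_Tm m B2 hf (z + B1.mulVec x)]
    exact div_mul_cancel₀ _ (LG_Z hf m B2 (z + B1.mulVec x)).1.ne'
  have hden : ∫ x, Real.exp (m * Tm m B2 f (z + B1.mulVec x)) ∂(gam K) =
      ∫ x, Real.exp (m * f (z + B.mulVec x)) ∂(gam K) := by
    rw [← two_int h (Split_EG_exp hf m) z]
    refine integral_congr_ae (Filter.Eventually.of_forall fun x => ?_)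
    exact Split_exp_Tm m B2 hf (z + B1.mulVec x)
  rw [hnum, hden]

/-- `Bm` of the merged step -/
theorem Split_Bm_merge (β : K → ℝ) (E1 E2 E : Matrix K K ℝ) (hE : E * Eᵀ = E1 * E1ᵀ + E2 * E2ᵀ) :
    Bm β E * (Bm β E)ᵀ = Bm β E1 * (Bm β E1)ᵀ + Bm β E2 * (Bm β E2)ᵀ := by
  rw [Bm_mul, Bm_mul, Bm_mul, hE]
  ext c c'
  show 2 * β c * β c' * ((E1 * E1ᵀ) c c' + (E2 * E2ᵀ) c c') =
    2 * β c * β c' * (E1 * E1ᵀ) c c' + 2 * β c * β c' * (E2 * E2ᵀ) c c'
  ring

/-- `Bm` depends on the factor only through the covariance -/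
theorem Split_Bm_congr (β : K → ℝ) (E E' : Matrix K K ℝ) (hE : E * Eᵀ = E' * E'ᵀ) :
    Bm β E * (Bm β E)ᵀ = Bm β E' * (Bm β E')ᵀ := by
  rw [Bm_mul, Bm_mul, hE]

/-- linear map of the zero step -/
theorem Split_Bm_zero (β : K → ℝ) (z x : K → ℝ) : z + (Bm β (0 : Matrix K K ℝ)).mulVec x = z := by
  have h : Bm β (0 : Matrix K K ℝ) = 0 := by
    ext c d
    show Real.sqrt 2 * β c * 0 = 0
    ring
  rw [h, Matrix.zero_mulVec, add_zero]

/-- `Tm` depends only on the covariance -/
theorem Split_Tm_congr {B B' : Matrix K K ℝ} (h : B * Bᵀ = B' * B'ᵀ) (m : ℝ) {f : (K → ℝ) → ℝ}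
    (hf : Continuous f) : Tm m B f = Tm m B' f := by
  funext z
  unfold Tm
  rw [one_int h hf z, one_int h (G := fun w => Real.exp (m * f w))
    (Real.continuous_exp.comp (continuous_const.mul hf)) z]

/-- `Es` depends only on the covariance -/
theorem Split_Es_congr {B B' : Matrix K K ℝ} (h : B * Bᵀ = B' * B'ᵀ) (m : ℝ) {f g : (K → ℝ) → ℝ}
    (hf : Continuous f) (hg : Continuous g) : Es m B f g = Es m B' f g := by
  funext z
  unfold Es
  rw [one_int h (G := fun w => g w * Real.exp (m * f w))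
    (hg.mul (Real.continuous_exp.comp (continuous_const.mul hf))) z, one_int h (G := fun w => Real.exp (m * f w))
    (Real.continuous_exp.comp (continuous_const.mul hf)) z]

/-- B3: two adjacent steps of the same weight may be merged (levels) -/
theorem PsiL_merge (β : K → ℝ) (m : ℝ) (E1 E2 E : Matrix K K ℝ)
    (hE : E * Eᵀ = E1 * E1ᵀ + E2 * E2ᵀ) (l : List (Step K)) (F : (K → ℝ) → ℝ) (hF : SKC.LG F) :
    PsiL β ((m, E1) :: (m, E2) :: l) F = PsiL β ((m, E) :: l) F := by
  exact Tm_merge (Split_Bm_merge β E1 E2 E hE) m (LG_PsiL hF β l)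

/-- B3: a step of zero increment may be dropped: `Bm β 0 = 0`, `Tm m 0 f = f` because `gam` is a
probability measure -/
theorem PsiL_zero (β : K → ℝ) (m : ℝ) (l : List (Step K)) (F : (K → ℝ) → ℝ) :
    PsiL β ((m, 0) :: l) F = PsiL β l F := by
  funext z
  show Tm m (Bm β 0) (PsiL β l F) z = PsiL β l F z
  unfold Tm
  simp only [Split_Bm_zero]
  rw [integral_const, integral_const, probReal_univ, smul_eq_mul, one_mul, smul_eq_mul, one_mul, Real.log_exp]
  by_cases hm : m = 0
  · rw [if_pos hm]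
  · rw [if_neg hm, ← mul_assoc, one_div_mul_cancel hm, one_mul]

/-- B3: two adjacent steps of the same weight may be merged (chains) -/
theorem ChE_merge (β : K → ℝ) (m : ℝ) (E1 E2 E : Matrix K K ℝ)
    (hE : E * Eᵀ = E1 * E1ᵀ + E2 * E2ᵀ) (l : List (Step K)) (F h : (K → ℝ) → ℝ) (hF : SKC.LG F)
    (hh : SKC.EG h) :
    ChE β ((m, E1) :: (m, E2) :: l) F h = ChE β ((m, E) :: l) F h := by
  exact Es_merge (Split_Bm_merge β E1 E2 E hE) m (LG_PsiL hF β l) (EG_ChE hF hh β l)

/-- B3: a step of zero increment may be dropped (chains) -/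
theorem ChE_zero (β : K → ℝ) (m : ℝ) (l : List (Step K)) (F h : (K → ℝ) → ℝ) :
    ChE β ((m, 0) :: l) F h = ChE β l F h := by
  funext z
  show Es m (Bm β 0) (PsiL β l F) (ChE β l F h) z = ChE β l F h z
  unfold Es
  simp only [Split_Bm_zero]
  rw [integral_const, integral_const, probReal_univ, smul_eq_mul, one_mul, smul_eq_mul, one_mul]
  exact mul_div_cancel_right₀ _ (Real.exp_pos _).ne'

/-- everything depends on a step factor only through `E Eᵀ` -/
theorem PsiL_congr_factor (β : K → ℝ) (m : ℝ) (E E' : Matrix K K ℝ) (hE : E * Eᵀ = E' * E'ᵀ)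
    (l : List (Step K)) (F : (K → ℝ) → ℝ) (hF : SKC.LG F) :
    PsiL β ((m, E) :: l) F = PsiL β ((m, E') :: l) F := by
  exact Split_Tm_congr (Split_Bm_congr β E E' hE) m (LG_PsiL hF β l).1

theorem ChE_congr_factor (β : K → ℝ) (m : ℝ) (E E' : Matrix K K ℝ) (hE : E * Eᵀ = E' * E'ᵀ)
    (l : List (Step K)) (F h : (K → ℝ) → ℝ) (hF : SKC.LG F) (hh : SKC.EG h) :
    ChE β ((m, E) :: l) F h = ChE β ((m, E') :: l) F h := by
  exact Split_Es_congr (Split_Bm_congr β E E' hE) m (LG_PsiL hF β l).1 (EG_ChE hF hh β l).1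

end SKC.B
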