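import Pool.Agent.H.MP_08eaf3_pr.B.TxB
import Pool.Agent.H.MP_08eaf3_pr.B.Sub
import Pool.Agent.H.MP_08eaf3_pr.B.Ibp

/-!
# Part B: derivatives of one step of the interpolating recursion
-/

set_option autoImplicit false

open MeasureTheory ProbabilityTheory Filter Topology Matrix

namespace SKC.B

variable {Ω κ : Type} [Fintype Ω] [DecidableEq Ω] [Fintype κ]

/-- `tr B (∇² f + m ∇f ∇fᵀ)`, gradient in the second variable -/
noncomputable def Wf (m : ℝ) (B : Matrix Ω Ω ℝ) (f : ℝ × (Ω → ℝ) → ℝ) (e : ℝ × (Ω → ℝ)) : ℝ :=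
  ∑ o, ∑ o', B o o' * (fderiv ℝ (fderiv ℝ f) e (0, Pi.single o 1) (0, Pi.single o' 1) +
    m * (fderiv ℝ f e (0, Pi.single o 1) * fderiv ℝ f e (0, Pi.single o' 1)))

omit [DecidableEq Ω] in
theorem StepT_vec [DecidableEq Ω] (w : Ω → ℝ) :
    ((0 : ℝ), w) = ∑ o, w o • ((0 : ℝ), (Pi.single o 1 : Ω → ℝ)) := by
  ext1
  · rw [Prod.fst_sum]
    simp
  · rw [Prod.snd_sum]
    funext j
    rw [Finset.sum_apply]
    simp [Pi.single_apply]

theorem StepT_lin (L : (ℝ × (Ω → ℝ)) →L[ℝ] ℝ) (w : Ω → ℝ) :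
    L (0, w) = ∑ o, w o * L (0, Pi.single o 1) := by
  conv_lhs => rw [StepT_vec w]
  rw [map_sum]
  refine Finset.sum_congr rfl fun o _ => ?_
  rw [map_smul, smul_eq_mul]

theorem StepT_bil (B : (ℝ × (Ω → ℝ)) →L[ℝ] (ℝ × (Ω → ℝ)) →L[ℝ] ℝ) (w w' : Ω → ℝ) :
    B (0, w) (0, w') = ∑ o, ∑ o', w o * w' o' * B (0, Pi.single o 1) (0, Pi.single o' 1) := by
  have h1 : B (0, w) (0, w') = B.flip (0, w') (0, w) := rfl
  rw [h1, StepT_lin]
  refine Finset.sum_congr rfl fun o _ => ?_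
  have h2 : B.flip (0, w') (0, Pi.single o 1) = B (0, Pi.single o 1) (0, w') := rfl
  rw [h2, StepT_lin, Finset.mul_sum]
  refine Finset.sum_congr rfl fun o' _ => ?_
  ring

/-- `Wf` of `V Vᵀ` as a sum over the columns of `V` (bilinearity; `V.col k = ∑ o, V o k • single o 1`) -/
theorem Wf_mul_transpose (m : ℝ) (V : Matrix Ω κ ℝ) (f : ℝ × (Ω → ℝ) → ℝ) (e : ℝ × (Ω → ℝ)) :
    Wf m (V * Vᵀ) f e = ∑ k, (fderiv ℝ (fderiv ℝ f) e (0, fun o => V o k) (0, fun o => V o k) +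
      m * (fderiv ℝ f e (0, fun o => V o k) * fderiv ℝ f e (0, fun o => V o k))) := by
  have h1 : ∀ k, (fderiv ℝ (fderiv ℝ f) e (0, fun o => V o k) (0, fun o => V o k) +
      m * (fderiv ℝ f e (0, fun o => V o k) * fderiv ℝ f e (0, fun o => V o k))) =
      ∑ o, ∑ o', V o k * V o' k *
        (fderiv ℝ (fderiv ℝ f) e (0, Pi.single o 1) (0, Pi.single o' 1) +
        m * (fderiv ℝ f e (0, Pi.single o 1) * fderiv ℝ f e (0, Pi.single o' 1))) := by
    intro k
    rw [StepT_bil, StepT_lin, Finset.sum_mul, Finset.mul_sum, ← Finset.sum_add_distrib]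
    refine Finset.sum_congr rfl fun o _ => ?_
    rw [Finset.mul_sum, Finset.mul_sum, ← Finset.sum_add_distrib]
    refine Finset.sum_congr rfl fun o' _ => ?_
    ring
  rw [Finset.sum_congr rfl fun k _ => h1 k]
  unfold Wf
  symm
  rw [Finset.sum_comm]
  refine Finset.sum_congr rfl fun o _ => ?_
  rw [Finset.sum_comm]
  refine Finset.sum_congr rfl fun o' _ => ?_
  symm
  rw [Matrix.mul_apply, Finset.sum_mul]
  refine Finset.sum_congr rfl fun k _ => ?_
  rw [Matrix.transpose_apply]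

theorem StepT_norm (o : Ω) : ‖((0 : ℝ), (Pi.single o 1 : Ω → ℝ))‖ = 1 := by
  rw [Prod.norm_mk, norm_zero, Pi.norm_single, norm_one]
  simp

/-- the entries of `Wf` are continuous and bounded -/
theorem StepT_entry (m : ℝ) {f : ℝ × (Ω → ℝ) → ℝ} (hf : Adm f) :
    ∃ C : ℝ, ∀ o o' : Ω, Continuous (fun e =>
      fderiv ℝ (fderiv ℝ f) e (0, Pi.single o 1) (0, Pi.single o' 1) +
        m * (fderiv ℝ f e (0, Pi.single o 1) * fderiv ℝ f e (0, Pi.single o' 1))) ∧
      ∀ e, |fderiv ℝ (fderiv ℝ f) e (0, Pi.single o 1) (0, Pi.single o' 1) +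
        m * (fderiv ℝ f e (0, Pi.single o 1) * fderiv ℝ f e (0, Pi.single o' 1))| ≤ C := by
  obtain ⟨C1, hC1⟩ := hf.b1
  obtain ⟨C2, hC2⟩ := hf.b2
  have hc1 : Continuous (fderiv ℝ f) := hf.cd.continuous_fderiv (by norm_num)
  have hc2 : Continuous (fderiv ℝ (fderiv ℝ f)) :=
    (hf.cd.fderiv_right (m := 1) (by norm_num)).continuous_fderiv (by norm_num)
  have hb1 : ∀ (o : Ω) e, |fderiv ℝ f e (0, Pi.single o 1)| ≤ C1 := by
    intro o e
    have h1 := (fderiv ℝ f e).le_opNorm ((0 : ℝ), (Pi.single o 1 : Ω → ℝ))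
    rw [StepT_norm, mul_one, Real.norm_eq_abs] at h1
    exact h1.trans (hC1 e)
  refine ⟨C2 + |m| * (C1 * C1), fun o o' => ⟨?_, fun e => ?_⟩⟩
  · exact ((hc2.clm_apply continuous_const).clm_apply continuous_const).add
      (continuous_const.mul ((hc1.clm_apply continuous_const).mul
        (hc1.clm_apply continuous_const)))
  · refine (abs_add_le _ _).trans (add_le_add ?_ ?_)
    · have h1 := (fderiv ℝ (fderiv ℝ f) e).le_opNorm₂ ((0 : ℝ), (Pi.single o 1 : Ω → ℝ))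
        ((0 : ℝ), (Pi.single o' 1 : Ω → ℝ))
      rw [StepT_norm, StepT_norm, mul_one, mul_one, Real.norm_eq_abs] at h1
      exact h1.trans (hC2 e)
    · rw [abs_mul, abs_mul]
      refine mul_le_mul_of_nonneg_left ?_ (abs_nonneg m)
      exact mul_le_mul (hb1 o e) (hb1 o' e) (abs_nonneg _) ((abs_nonneg _).trans (hb1 o e))

/-- `Wf` is continuous and bounded for admissible `f` -/
theorem Wf_cont (m : ℝ) (B : Matrix Ω Ω ℝ) {f : ℝ × (Ω → ℝ) → ℝ} (hf : Adm f) :
    Continuous (Wf m B f) ∧ ∃ C : ℝ, ∀ e, |Wf m B f e| ≤ C := by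
  obtain ⟨C, hC⟩ := StepT_entry (Ω := Ω) m hf
  refine ⟨?_, ∑ o, ∑ o', |B o o'| * C, fun e => ?_⟩
  · exact continuous_finsetSum _ fun o _ => continuous_finsetSum _ fun o' _ =>
      continuous_const.mul (hC o o').1
  · unfold Wf
    refine (Finset.abs_sum_le_sum_abs _ _).trans (Finset.sum_le_sum fun o _ => ?_)
    refine (Finset.abs_sum_le_sum_abs _ _).trans (Finset.sum_le_sum fun o' _ => ?_)
    rw [abs_mul]
    exact mul_le_mul_of_nonneg_left ((hC o o').2 e) (abs_nonneg _)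

theorem Wf_sub (m : ℝ) (B B' : Matrix Ω Ω ℝ) (f : ℝ × (Ω → ℝ) → ℝ) (e : ℝ × (Ω → ℝ)) :
    Wf m (B - B') f e = Wf m B f e - Wf m B' f e := by
  unfold Wf
  rw [← Finset.sum_sub_distrib]
  refine Finset.sum_congr rfl fun o _ => ?_
  rw [← Finset.sum_sub_distrib]
  refine Finset.sum_congr rfl fun o' _ => ?_
  rw [Matrix.sub_apply, sub_mul]

/-- (T1) derivative of a step in a direction `(0,a)` : `Tx_fderiv`, `sub_fderiv_z` -/
theorem step_z {s s' : ℝ → ℝ} (hs : Scale s s') {f : ℝ × (Ω → ℝ) → ℝ} (hf : Adm f) (m : ℝ)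
    (V : Matrix Ω κ ℝ) (e : ℝ × (Ω → ℝ)) (a : Ω → ℝ) :
    fderiv ℝ (fun e => Tx m (fun x => f (sub s V e x))) e (0, a) =
      Wx m (fun x => f (sub s V e x)) (fun x => fderiv ℝ f (sub s V e x) (0, a)) := by
  rw [(Tx_fderiv (stepFn_sub hs hf V) m).2 e (0, a)]
  congr 1
  funext x
  exact sub_fderiv_z hs hf V e x a

omit [Fintype Ω] [DecidableEq Ω] in
theorem StepT_bd {H : (κ → ℝ) → ℝ} {C : ℝ} (h : ∀ x, |H x| ≤ C) :
    ∃ C : ℝ, ∀ x, |H x| ≤ C * Real.exp (C * ‖x‖) := by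
  refine ⟨C, fun x => (h x).trans ?_⟩
  have hC : 0 ≤ C := (abs_nonneg _).trans (h x)
  have h1 : 1 ≤ Real.exp (C * ‖x‖) := Real.one_le_exp (mul_nonneg hC (norm_nonneg x))
  exact le_mul_of_one_le_right hC h1

omit [DecidableEq Ω] in
theorem StepT_subc (s : ℝ → ℝ) (V : Matrix Ω κ ℝ) (e : ℝ × (Ω → ℝ)) :
    Continuous (fun x => sub s V e x) := by
  unfold sub
  have h1 : Continuous (fun x : κ → ℝ => V.mulVec x) :=
    (LinearMap.toContinuousLinearMap (Matrix.mulVecLin V)).continuous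
  exact continuous_const.prodMk (continuous_const.add (h1.const_smul (s e.1)))

/-- (T2) `W`-functional of a step, other weight `m0`: by `Tx_fderiv2`, `sub_fderiv2_z`, `sub_fderiv_z`
every entry satisfies
`D²f⁻(a,b) + m0 Df⁻(a) Df⁻(b) = Wx[D²f(a,b) + m Df(a) Df(b)] - (m - m0) Df⁻(a) Df⁻(b)`; sum over `o,o'`
(`StepFn.Wx_sum`, `Wx_const_mul`). -/
theorem step_W {s s' : ℝ → ℝ} (hs : Scale s s') {f : ℝ × (Ω → ℝ) → ℝ} (hf : Adm f) (m m0 : ℝ)
    (B : Matrix Ω Ω ℝ) (V : Matrix Ω κ ℝ) (e : ℝ × (Ω → ℝ)) :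
    Wf m0 B (fun e => Tx m (fun x => f (sub s V e x))) e =
      Wx m (fun x => f (sub s V e x)) (fun x => Wf m B f (sub s V e x)) -
      (m - m0) * ∑ o, ∑ o', B o o' *
        (fderiv ℝ (fun e => Tx m (fun x => f (sub s V e x))) e (0, Pi.single o 1) *
          fderiv ℝ (fun e => Tx m (fun x => f (sub s V e x))) e (0, Pi.single o' 1)) := by
  have hF := stepFn_sub hs hf V
  obtain ⟨C, hC⟩ := StepT_entry (Ω := Ω) m hf
  have hentry : ∀ o o' : Ω,
      fderiv ℝ (fderiv ℝ (fun e => Tx m (fun x => f (sub s V e x)))) e (0, Pi.single o 1)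
        (0, Pi.single o' 1) +
      m * (fderiv ℝ (fun e => Tx m (fun x => f (sub s V e x))) e (0, Pi.single o 1) *
        fderiv ℝ (fun e => Tx m (fun x => f (sub s V e x))) e (0, Pi.single o' 1)) =
      Wx m (fun x => f (sub s V e x)) (fun x =>
        fderiv ℝ (fderiv ℝ f) (sub s V e x) (0, Pi.single o 1) (0, Pi.single o' 1) +
        m * (fderiv ℝ f (sub s V e x) (0, Pi.single o 1) *
          fderiv ℝ f (sub s V e x) (0, Pi.single o' 1))) := by
    intro o o'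
    rw [Tx_fderiv2 hF m e (0, Pi.single o 1) (0, Pi.single o' 1)]
    congr 1
    funext x
    rw [sub_fderiv2_z hs hf V e x, sub_fderiv_z hs hf V e x, sub_fderiv_z hs hf V e x]
  have hcont : ∀ o o' : Ω, Continuous (fun x =>
        fderiv ℝ (fderiv ℝ f) (sub s V e x) (0, Pi.single o 1) (0, Pi.single o' 1) +
        m * (fderiv ℝ f (sub s V e x) (0, Pi.single o 1) *
          fderiv ℝ f (sub s V e x) (0, Pi.single o' 1))) := fun o o' =>
    (hC o o').1.comp (StepT_subc s V e)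
  have hWx : Wx m (fun x => f (sub s V e x)) (fun x => Wf m B f (sub s V e x)) =
      ∑ o, ∑ o', B o o' * Wx m (fun x => f (sub s V e x)) (fun x =>
        fderiv ℝ (fderiv ℝ f) (sub s V e x) (0, Pi.single o 1) (0, Pi.single o' 1) +
        m * (fderiv ℝ f (sub s V e x) (0, Pi.single o 1) *
          fderiv ℝ f (sub s V e x) (0, Pi.single o' 1))) := by
    unfold Wf
    rw [hF.Wx_sum m e Finset.univ (H := fun o x => ∑ o', B o o' *
      (fderiv ℝ (fderiv ℝ f) (sub s V e x) (0, Pi.single o 1) (0, Pi.single o' 1) +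
        m * (fderiv ℝ f (sub s V e x) (0, Pi.single o 1) *
          fderiv ℝ f (sub s V e x) (0, Pi.single o' 1))))
      (fun o _ => continuous_finsetSum _ fun o' _ => continuous_const.mul (hcont o o')) ?_]
    · refine Finset.sum_congr rfl fun o _ => ?_
      rw [hF.Wx_sum m e Finset.univ (H := fun o' x => B o o' *
        (fderiv ℝ (fderiv ℝ f) (sub s V e x) (0, Pi.single o 1) (0, Pi.single o' 1) +
        m * (fderiv ℝ f (sub s V e x) (0, Pi.single o 1) *
          fderiv ℝ f (sub s V e x) (0, Pi.single o' 1))))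
        (fun o' _ => continuous_const.mul (hcont o o')) ?_]
      · refine Finset.sum_congr rfl fun o' _ => ?_
        rw [Wx_const_mul]
      · intro o' _
        refine StepT_bd (C := |B o o'| * C) fun x => ?_
        rw [abs_mul]
        exact mul_le_mul_of_nonneg_left ((hC o o').2 _) (abs_nonneg _)
    · intro o _
      refine StepT_bd (C := ∑ o', |B o o'| * C) fun x => ?_
      refine (Finset.abs_sum_le_sum_abs _ _).trans (Finset.sum_le_sum fun o' _ => ?_)
      rw [abs_mul]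
      exact mul_le_mul_of_nonneg_left ((hC o o').2 _) (abs_nonneg _)
  rw [hWx, Finset.mul_sum, ← Finset.sum_sub_distrib]
  show (∑ o, ∑ o', B o o' * (fderiv ℝ (fderiv ℝ (fun e => Tx m (fun x => f (sub s V e x)))) e
      (0, Pi.single o 1) (0, Pi.single o' 1) +
    m0 * (fderiv ℝ (fun e => Tx m (fun x => f (sub s V e x))) e (0, Pi.single o 1) *
      fderiv ℝ (fun e => Tx m (fun x => f (sub s V e x))) e (0, Pi.single o' 1)))) = _
  refine Finset.sum_congr rfl fun o _ => ?_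
  rw [Finset.mul_sum, ← Finset.sum_sub_distrib]
  refine Finset.sum_congr rfl fun o' _ => ?_
  rw [← hentry o o']
  ring

/-- the linear part of the substitution in `x` -/
noncomputable def StepT_L (V : Matrix Ω κ ℝ) : (κ → ℝ) →L[ℝ] ℝ × (Ω → ℝ) :=
  (ContinuousLinearMap.inr ℝ ℝ (Ω → ℝ)).comp (LinearMap.toContinuousLinearMap (Matrix.mulVecLin V))

omit [DecidableEq Ω] in
theorem StepT_L_apply (V : Matrix Ω κ ℝ) (x : κ → ℝ) : StepT_L V x = (0, V.mulVec x) := rfl

omit [DecidableEq Ω] in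
theorem StepT_sub_eq (s : ℝ → ℝ) (V : Matrix Ω κ ℝ) (e : ℝ × (Ω → ℝ)) (x : κ → ℝ) :
    sub s V e x = e + (s e.1 • StepT_L V) x := by
  rw [ContinuousLinearMap.smul_apply, StepT_L_apply]
  unfold sub
  ext1
  · simp
  · simp

omit [DecidableEq Ω] in
theorem StepT_sub_hasF (s : ℝ → ℝ) (V : Matrix Ω κ ℝ) (e : ℝ × (Ω → ℝ)) (x : κ → ℝ) :
    HasFDerivAt (fun x => sub s V e x) (s e.1 • StepT_L V) x := by
  have h1 : (fun x => sub s V e x) = fun x => e + (s e.1 • StepT_L V) x :=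
    funext fun x => StepT_sub_eq s V e x
  rw [h1]
  exact (s e.1 • StepT_L V).hasFDerivAt.const_add e

omit [DecidableEq Ω] in
/-- the integrand for the integration by parts -/
theorem StepT_G {s s' : ℝ → ℝ} (hs : Scale s s') {f : ℝ × (Ω → ℝ) → ℝ} (hf : Adm f) (m : ℝ)
    (V : Matrix Ω κ ℝ) (e : ℝ × (Ω → ℝ)) (v : ℝ × (Ω → ℝ)) :
    ContDiff ℝ 1 (fun x => fderiv ℝ f (sub s V e x) v * Real.exp (m * f (sub s V e x))) ∧
    (∃ C : ℝ, ∀ x, |fderiv ℝ f (sub s V e x) v * Real.exp (m * f (sub s V e x))| ≤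
      C * Real.exp (C * ‖x‖)) ∧
    (∃ C : ℝ, ∀ x, ‖fderiv ℝ (fun x => fderiv ℝ f (sub s V e x) v *
      Real.exp (m * f (sub s V e x))) x‖ ≤ C * Real.exp (C * ‖x‖)) ∧
    ∀ x y, fderiv ℝ (fun x => fderiv ℝ f (sub s V e x) v *
      Real.exp (m * f (sub s V e x))) x y =
      s e.1 * ((fderiv ℝ (fderiv ℝ f) (sub s V e x) (0, V.mulVec y) v +
        m * (fderiv ℝ f (sub s V e x) v * fderiv ℝ f (sub s V e x) (0, V.mulVec y))) *
        Real.exp (m * f (sub s V e x))) := by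
  have hF := stepFn_sub hs hf V
  obtain ⟨C1, hC1⟩ := hf.b1
  obtain ⟨C2, hC2⟩ := hf.b2
  have hd1 : Differentiable ℝ f := hf.cd.differentiable (by norm_num)
  have hcd1 : ContDiff ℝ 1 (fderiv ℝ f) := hf.cd.fderiv_right (m := 1) (by norm_num)
  have hd2 : Differentiable ℝ (fderiv ℝ f) := hcd1.differentiable (by norm_num)
  have hsub : ContDiff ℝ 1 (fun x => sub s V e x) := by
    have h1 : (fun x => sub s V e x) = fun x => e + (s e.1 • StepT_L V) x :=
      funext fun x => StepT_sub_eq s V e x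
    rw [h1]
    exact contDiff_const.add (s e.1 • StepT_L V).contDiff
  have hexp : ∃ C : ℝ, ∀ x, |Real.exp (m * f (sub s V e x))| ≤ C * Real.exp (C * ‖x‖) := by
    obtain ⟨C, hC⟩ := hF.lg_exp m e
    exact ⟨C, fun x => hC e (by simp) x⟩
  have hφb : ∀ x, |fderiv ℝ f (sub s V e x) v| ≤ C1 * ‖v‖ := by
    intro x
    have h1 := (fderiv ℝ f (sub s V e x)).le_opNorm v
    rw [Real.norm_eq_abs] at h1
    exact h1.trans (mul_le_mul_of_nonneg_right (hC1 _) (norm_nonneg v))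
  have hder : ∀ x, HasFDerivAt (fun x => fderiv ℝ f (sub s V e x) v *
      Real.exp (m * f (sub s V e x)))
      (fderiv ℝ f (sub s V e x) v • (Real.exp (m * f (sub s V e x)) •
        (m • (fderiv ℝ f (sub s V e x)).comp (s e.1 • StepT_L V))) +
        Real.exp (m * f (sub s V e x)) • (((ContinuousLinearMap.apply ℝ ℝ v).comp
          (fderiv ℝ (fderiv ℝ f) (sub s V e x))).comp (s e.1 • StepT_L V))) x := by
    intro x
    have h1 : HasFDerivAt (fun x => fderiv ℝ f (sub s V e x) v)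
        (((ContinuousLinearMap.apply ℝ ℝ v).comp
          (fderiv ℝ (fderiv ℝ f) (sub s V e x))).comp (s e.1 • StepT_L V)) x :=
      HasFDerivAt.comp (g := fun y => fderiv ℝ f y v) x
        (TxD_apply (hd2 (sub s V e x)) v) (StepT_sub_hasF s V e x)
    have h2 : HasFDerivAt (fun x => f (sub s V e x))
        ((fderiv ℝ f (sub s V e x)).comp (s e.1 • StepT_L V)) x :=
      HasFDerivAt.comp x (hd1 (sub s V e x)).hasFDerivAt (StepT_sub_hasF s V e x)
    exact h1.mul ((h2.const_mul m).exp)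
  refine ⟨?_, ?_, ?_, ?_⟩
  · have h1 : ContDiff ℝ 1 (fun x => fderiv ℝ f (sub s V e x) v) :=
      (hcd1.comp hsub).clm_apply contDiff_const
    have h2 : ContDiff ℝ 1 (fun x => f (sub s V e x)) :=
      (hf.cd.of_le (by norm_num)).comp hsub
    exact h1.mul (contDiff_const.mul h2).exp
  · exact TxB_bd_mul (StepT_bd hφb) hexp
  · set L := s e.1 • StepT_L V with hL
    obtain ⟨C, hC⟩ := TxB_bd_mul (H := fun _ => C1 * ‖v‖ * (|m| * (C1 * ‖L‖)) +
      C2 * ‖v‖ * ‖L‖) (TxB_bd_const _) hexp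
    refine ⟨C, fun x => ?_⟩
    rw [(hder x).fderiv]
    refine le_trans ?_ ((le_abs_self _).trans (hC x))
    have hE := Real.exp_pos (m * f (sub s V e x))
    have hC1' : 0 ≤ C1 := (norm_nonneg _).trans (hC1 (sub s V e x))
    have hC2' : 0 ≤ C2 := (norm_nonneg (fderiv ℝ (fderiv ℝ f) (sub s V e x))).trans
      (hC2 (sub s V e x))
    refine (norm_add_le _ _).trans ?_
    rw [norm_smul, norm_smul, norm_smul, norm_smul, Real.norm_eq_abs, Real.norm_eq_abs,
      Real.norm_eq_abs, abs_of_pos hE, add_mul]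
    refine add_le_add ?_ ?_
    · have h1 : ‖(fderiv ℝ f (sub s V e x)).comp L‖ ≤ C1 * ‖L‖ :=
        (ContinuousLinearMap.opNorm_comp_le _ _).trans
          (mul_le_mul_of_nonneg_right (hC1 _) (norm_nonneg _))
      calc |fderiv ℝ f (sub s V e x) v| * (Real.exp (m * f (sub s V e x)) *
            (|m| * ‖(fderiv ℝ f (sub s V e x)).comp L‖))
          ≤ (C1 * ‖v‖) * (Real.exp (m * f (sub s V e x)) * (|m| * (C1 * ‖L‖))) := by
            refine mul_le_mul (hφb x) ?_ (by positivity) (by positivity)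
            exact mul_le_mul_of_nonneg_left (mul_le_mul_of_nonneg_left h1 (abs_nonneg m)) hE.le
        _ = C1 * ‖v‖ * (|m| * (C1 * ‖L‖)) * Real.exp (m * f (sub s V e x)) := by ring
    · have h1 : ‖((ContinuousLinearMap.apply ℝ ℝ v).comp
          (fderiv ℝ (fderiv ℝ f) (sub s V e x))).comp L‖ ≤ C2 * ‖v‖ * ‖L‖ := by
        refine (ContinuousLinearMap.opNorm_comp_le _ _).trans
          (mul_le_mul_of_nonneg_right ?_ (norm_nonneg _))
        refine ContinuousLinearMap.opNorm_le_bound _ (by positivity) fun w => ?_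
        have h4 : ‖fderiv ℝ (fderiv ℝ f) (sub s V e x) w v‖ ≤
            ‖fderiv ℝ (fderiv ℝ f) (sub s V e x)‖ * ‖w‖ * ‖v‖ :=
          ContinuousLinearMap.le_opNorm₂ _ _ _
        calc ‖((ContinuousLinearMap.apply ℝ ℝ v).comp (fderiv ℝ (fderiv ℝ f) (sub s V e x))) w‖
            = ‖fderiv ℝ (fderiv ℝ f) (sub s V e x) w v‖ := rfl
          _ ≤ ‖fderiv ℝ (fderiv ℝ f) (sub s V e x)‖ * ‖w‖ * ‖v‖ := h4
          _ ≤ C2 * ‖w‖ * ‖v‖ := by
              refine mul_le_mul_of_nonneg_right (mul_le_mul_of_nonneg_right (hC2 _)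
                (norm_nonneg _)) (norm_nonneg _)
          _ = C2 * ‖v‖ * ‖w‖ := by ring
      calc Real.exp (m * f (sub s V e x)) * ‖((ContinuousLinearMap.apply ℝ ℝ v).comp
            (fderiv ℝ (fderiv ℝ f) (sub s V e x))).comp L‖
          ≤ Real.exp (m * f (sub s V e x)) * (C2 * ‖v‖ * ‖L‖) :=
            mul_le_mul_of_nonneg_left h1 hE.le
        _ = C2 * ‖v‖ * ‖L‖ * Real.exp (m * f (sub s V e x)) := by ring
  · intro x y
    rw [(hder x).fderiv]
    have h1 : (s e.1 • StepT_L V) y = s e.1 • ((0 : ℝ), V.mulVec y) := rfl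
    rw [ContinuousLinearMap.add_apply, ContinuousLinearMap.smul_apply,
      ContinuousLinearMap.smul_apply, ContinuousLinearMap.smul_apply,
      ContinuousLinearMap.smul_apply, ContinuousLinearMap.comp_apply,
      ContinuousLinearMap.comp_apply, ContinuousLinearMap.comp_apply, h1, map_smul, map_smul]
    have h2 : (ContinuousLinearMap.apply ℝ ℝ v) (s e.1 • fderiv ℝ (fderiv ℝ f) (sub s V e x)
        (0, V.mulVec y)) = s e.1 * fderiv ℝ (fderiv ℝ f) (sub s V e x) (0, V.mulVec y) v := rfl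
    rw [h2]
    simp only [smul_eq_mul]
    ring

/-- (IBP) integration by parts inside a step: for each `k`, `ibp` for
`G x = fderiv f (sub s V e x) (0, V e_k) * exp(m f(sub s V e x))`, whose derivative in direction `e_k` is
`s(θ) (D²f(Ve_k,Ve_k) + m (Df(Ve_k))^2) exp(m f)` (chain rule: `x ↦ sub s V e x` is affine with linear part
`x ↦ (0, s θ • V x)`). Sum over `k`, `V x = ∑ x_k V e_k`, and `Wf_mul_transpose`. -/
theorem step_ibp {s s' : ℝ → ℝ} (hs : Scale s s') {f : ℝ × (Ω → ℝ) → ℝ} (hf : Adm f) (m : ℝ)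
    (V : Matrix Ω κ ℝ) (e : ℝ × (Ω → ℝ)) :
    Wx m (fun x => f (sub s V e x)) (fun x => fderiv ℝ f (sub s V e x) (0, V.mulVec x)) =
      s e.1 * Wx m (fun x => f (sub s V e x)) (fun x => Wf m (V * Vᵀ) f (sub s V e x)) := by
  classical
  have hF := stepFn_sub hs hf V
  have hcol : ∀ k : κ, V.mulVec (Pi.single k 1) = fun o => V o k := by
    intro k
    rw [Matrix.mulVec_single_one]
    rfl
  have hlin : ∀ x : κ → ℝ, fderiv ℝ f (sub s V e x) (0, V.mulVec x) =
      ∑ k, x k * fderiv ℝ f (sub s V e x) (0, fun o => V o k) := by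
    intro x
    have h1 : ((0 : ℝ), V.mulVec x) = ∑ k, x k • ((0 : ℝ), (fun o => V o k : Ω → ℝ)) := by
      ext1
      · rw [Prod.fst_sum]
        simp
      · rw [Prod.snd_sum]
        funext o
        rw [Finset.sum_apply]
        show ∑ k, V o k * x k = ∑ k, x k * V o k
        exact Finset.sum_congr rfl fun k _ => mul_comm _ _
    rw [h1, map_sum]
    refine Finset.sum_congr rfl fun k _ => ?_
    rw [map_smul, smul_eq_mul]
  have hG := fun k : κ => StepT_G hs hf m V e ((0 : ℝ), fun o => V o k)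
  have hibp := fun k : κ => ibp k (hG k).1 (hG k).2.1 (hG k).2.2.1
  unfold Wx
  rw [← mul_div_assoc]
  congr 1
  rw [← integral_const_mul]
  have hxk : ∀ k : κ, ∃ C : ℝ, ∀ x : κ → ℝ, |x k| ≤ C * Real.exp (C * ‖x‖) := by
    intro k
    refine ⟨1, fun x => ?_⟩
    have h3 := norm_le_pi_norm x k
    rw [Real.norm_eq_abs] at h3
    linarith [Real.add_one_le_exp (1 * ‖x‖)]
  have hl : ∀ x : κ → ℝ, fderiv ℝ f (sub s V e x) (0, V.mulVec x) *
      Real.exp (m * f (sub s V e x)) = ∑ k, x k * (fderiv ℝ f (sub s V e x) (0, fun o => V o k) *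
        Real.exp (m * f (sub s V e x))) := by
    intro x
    rw [hlin, Finset.sum_mul]
    exact Finset.sum_congr rfl fun k _ => mul_assoc _ _ _
  have hr : ∀ x : κ → ℝ, s e.1 * (Wf m (V * Vᵀ) f (sub s V e x) *
      Real.exp (m * f (sub s V e x))) = ∑ k, fderiv ℝ (fun x => fderiv ℝ f (sub s V e x)
        (0, fun o => V o k) * Real.exp (m * f (sub s V e x))) x (Pi.single k 1) := by
    intro x
    rw [Wf_mul_transpose, Finset.sum_mul, Finset.mul_sum]
    refine Finset.sum_congr rfl fun k _ => ?_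
    rw [(hG k).2.2.2 x (Pi.single k 1), hcol]
  rw [integral_congr_ae (Filter.Eventually.of_forall hl),
    integral_congr_ae (Filter.Eventually.of_forall hr), integral_finsetSum, integral_finsetSum]
  · exact Finset.sum_congr rfl fun k _ => hibp k
  · intro k _
    obtain ⟨C, hC⟩ := (hG k).2.2.1
    refine integrable_of_exp (((hG k).1.continuous_fderiv (by norm_num)).clm_apply
      continuous_const) ⟨C, fun x => ?_⟩
    have h2 := (fderiv ℝ (fun x => fderiv ℝ f (sub s V e x)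
        (0, fun o => V o k) * Real.exp (m * f (sub s V e x))) x).le_opNorm (Pi.single k (1 : ℝ))
    rw [Pi.norm_single, norm_one, mul_one] at h2
    exact h2.trans (hC x)
  · intro k _
    obtain ⟨C, hC⟩ := TxB_bd_mul (hxk k) (hG k).2.1
    refine integrable_of_exp ((continuous_apply k).mul (hG k).1.continuous) ⟨C, fun x => ?_⟩
    rw [Real.norm_eq_abs]
    exact hC x

/-- (T3) derivative of a step in the direction `(1,0)`: `Tx_fderiv`, `sub_fderiv_t`, `step_ibp` -/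
theorem step_t {s s' : ℝ → ℝ} (hs : Scale s s') {f : ℝ × (Ω → ℝ) → ℝ} (hf : Adm f) (m : ℝ)
    (V : Matrix Ω κ ℝ) (e : ℝ × (Ω → ℝ)) :
    fderiv ℝ (fun e => Tx m (fun x => f (sub s V e x))) e (1, 0) =
      Wx m (fun x => f (sub s V e x)) (fun x => fderiv ℝ f (sub s V e x) (1, 0)) +
      s' e.1 * s e.1 * Wx m (fun x => f (sub s V e x)) (fun x => Wf m (V * Vᵀ) f (sub s V e x)) := by
  have hF := stepFn_sub hs hf V
  obtain ⟨C1, hC1⟩ := hf.b1
  have hc1 : Continuous (fderiv ℝ f) := hf.cd.continuous_fderiv (by norm_num)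
  have hcs := StepT_subc s V e
  have hcL : Continuous (fun x : κ → ℝ => ((0 : ℝ), V.mulVec x)) := (StepT_L V).continuous
  have k1 : Continuous (fun x => fderiv ℝ f (sub s V e x) (1, 0)) :=
    (hc1.comp hcs).clm_apply continuous_const
  have k2 : Continuous (fun x => s' e.1 * fderiv ℝ f (sub s V e x) (0, V.mulVec x)) :=
    continuous_const.mul ((hc1.comp hcs).clm_apply hcL)
  have b1 : ∃ C : ℝ, ∀ x, |fderiv ℝ f (sub s V e x) (1, 0)| ≤ C * Real.exp (C * ‖x‖) := by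
    refine StepT_bd (C := C1 * ‖((1 : ℝ), (0 : Ω → ℝ))‖) fun x => ?_
    have h1 := (fderiv ℝ f (sub s V e x)).le_opNorm ((1 : ℝ), (0 : Ω → ℝ))
    rw [Real.norm_eq_abs] at h1
    exact h1.trans (mul_le_mul_of_nonneg_right (hC1 _) (norm_nonneg _))
  have b2 : ∃ C : ℝ, ∀ x, |fderiv ℝ f (sub s V e x) (0, V.mulVec x)| ≤
      C * Real.exp (C * ‖x‖) := by
    obtain ⟨C, hC⟩ := TxB_bd_mul (H := fun _ : κ → ℝ => C1 * ‖StepT_L V‖)
      (K := fun x => ‖x‖) (TxB_bd_const _) ⟨1, fun x => by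
        rw [abs_norm]
        linarith [Real.add_one_le_exp (1 * ‖x‖)]⟩
    refine ⟨C, fun x => ?_⟩
    refine le_trans ?_ ((le_abs_self _).trans (hC x))
    have h1 := (fderiv ℝ f (sub s V e x)).le_opNorm ((0 : ℝ), V.mulVec x)
    rw [Real.norm_eq_abs] at h1
    have h2 : ‖((0 : ℝ), V.mulVec x)‖ ≤ ‖StepT_L V‖ * ‖x‖ := (StepT_L V).le_opNorm x
    have hC1' : 0 ≤ C1 := (norm_nonneg _).trans (hC1 (sub s V e x))
    calc |fderiv ℝ f (sub s V e x) (0, V.mulVec x)|
        ≤ ‖fderiv ℝ f (sub s V e x)‖ * ‖((0 : ℝ), V.mulVec x)‖ := h1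
      _ ≤ C1 * (‖StepT_L V‖ * ‖x‖) :=
          mul_le_mul (hC1 _) h2 (norm_nonneg _) hC1'
      _ = C1 * ‖StepT_L V‖ * ‖x‖ := by ring
  have b3 : ∃ C : ℝ, ∀ x, |s' e.1 * fderiv ℝ f (sub s V e x) (0, V.mulVec x)| ≤
      C * Real.exp (C * ‖x‖) := TxB_bd_mul (H := fun _ => s' e.1) (TxB_bd_const _) b2
  rw [(Tx_fderiv hF m).2 e (1, 0)]
  have h1 : (fun x => fderiv ℝ (fun e' => f (sub s V e' x)) e (1, 0)) =
      fun x => fderiv ℝ f (sub s V e x) (1, 0) +
        s' e.1 * fderiv ℝ f (sub s V e x) (0, V.mulVec x) := by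
    funext x
    exact sub_fderiv_t hs hf V e x
  rw [h1, hF.Wx_add m e k1 b1 k2 b3, Wx_const_mul, step_ibp hs hf m V e, mul_assoc]

end SKC.B
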