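import Pool.Agent.H.MP_08eaf3_pr.B.Num

/-!
# Part B: second derivative of a step
-/

set_option autoImplicit false

open MeasureTheory ProbabilityTheory Filter Topology Matrix

namespace SKC.B

variable {E : Type} [NormedAddCommGroup E] [NormedSpace ℝ E] {κ : Type} [Fintype κ]

/-- derivative of a directional derivative -/
theorem TxD_apply {g : E → ℝ} {e : E} (hg : DifferentiableAt ℝ (fderiv ℝ g) e) (v : E) :
    HasFDerivAt (fun e' => fderiv ℝ g e' v)
      ((ContinuousLinearMap.apply ℝ ℝ v).comp (fderiv ℝ (fderiv ℝ g) e)) e :=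
  (ContinuousLinearMap.apply ℝ ℝ v).hasFDerivAt.comp e hg.hasFDerivAt

theorem TxD_cd {F : E → (κ → ℝ) → ℝ} (hF : StepFn F) (x : κ → ℝ) :
    ContDiff ℝ 2 (fun e' => F e' x) :=
  hF.cd.comp (contDiff_id.prodMk contDiff_const)

theorem TxD_diff {F : E → (κ → ℝ) → ℝ} (hF : StepFn F) (x : κ → ℝ) :
    Differentiable ℝ (fderiv ℝ (fun e' => F e' x)) :=
  ((TxD_cd hF x).fderiv_right (m := 1) (by norm_num)).differentiable (by norm_num)

/-- for fixed `v` the function `H e x = fderiv (F · x) e v` satisfies the assumptions of `Wx_fderiv`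
(jointly `C^1` by `ContDiff.fderiv` and `ContDiff.clm_apply`; growth from `b1`, `b2`), and its derivative is
`fderiv (fderiv (F · x)) e w v`. -/
theorem StepFn.dir {F : E → (κ → ℝ) → ℝ} (hF : StepFn F) (v : E) :
    ContDiff ℝ 1 (fun p : E × (κ → ℝ) => fderiv ℝ (fun e' => F e' p.2) p.1 v) ∧
      LG (fun e x => fderiv ℝ (fun e' => F e' x) e v) ∧
      (∀ e x, ∀ w, fderiv ℝ (fun e' => fderiv ℝ (fun e'' => F e'' x) e' v) e w =
        fderiv ℝ (fderiv ℝ (fun e' => F e' x)) e w v) ∧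
      LG (fun e x => fderiv ℝ (fun e' => fderiv ℝ (fun e'' => F e'' x) e' v) e) := by
  have h3 : ∀ (e : E) (x : κ → ℝ), fderiv ℝ (fun e' => fderiv ℝ (fun e'' => F e'' x) e' v) e =
      (ContinuousLinearMap.apply ℝ ℝ v).comp (fderiv ℝ (fderiv ℝ (fun e' => F e' x)) e) :=
    fun e x => (TxD_apply (TxD_diff hF x e) v).fderiv
  refine ⟨?_, ?_, ?_, ?_⟩
  · have hf : ContDiff ℝ 2 (Function.uncurry fun (p : E × (κ → ℝ)) (e' : E) => F e' p.2) :=
      hF.cd.comp (contDiff_snd.prodMk (contDiff_snd.comp contDiff_fst))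
    have h1 : ContDiff ℝ 1 (fun p : E × (κ → ℝ) => fderiv ℝ (fun e' => F e' p.2) p.1) :=
      hf.fderiv contDiff_fst (by norm_num)
    exact h1.clm_apply contDiff_const
  · refine LG.of_le hF.lg1 (c := ‖v‖) fun e x => ?_
    rw [mul_comm]
    exact ContinuousLinearMap.le_opNorm _ _
  · intro e x w
    rw [h3]
    rfl
  · obtain ⟨C, hC⟩ := hF.b2
    have hLG : LG (fun (e : E) (x : κ → ℝ) => fderiv ℝ (fderiv ℝ (fun e' => F e' x)) e) :=
      fun _ => ⟨C, fun e _ x => hC e x⟩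
    refine LG.of_le hLG (c := ‖v‖) fun e x => ?_
    rw [h3]
    refine ContinuousLinearMap.opNorm_le_bound _ (by positivity) fun w => ?_
    have h4 : ‖fderiv ℝ (fderiv ℝ (fun e' => F e' x)) e w v‖ ≤
        ‖fderiv ℝ (fderiv ℝ (fun e' => F e' x)) e‖ * ‖w‖ * ‖v‖ :=
      ContinuousLinearMap.le_opNorm₂ _ _ _
    calc ‖((ContinuousLinearMap.apply ℝ ℝ v).comp
          (fderiv ℝ (fderiv ℝ (fun e' => F e' x)) e)) w‖
        = ‖fderiv ℝ (fderiv ℝ (fun e' => F e' x)) e w v‖ := rfl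
      _ ≤ _ := h4
      _ = ‖v‖ * ‖fderiv ℝ (fderiv ℝ (fun e' => F e' x)) e‖ * ‖w‖ := by ring

/-- `Tx m (F e)` is `C^2` in `e`: `contDiff_succ_iff_fderiv_apply` (finite dimension) with
`Tx_fderiv`, `Wx_fderiv` and `StepFn.dir`. -/
theorem Tx_contDiff [FiniteDimensional ℝ E] {F : E → (κ → ℝ) → ℝ} (hF : StepFn F) (m : ℝ) :
    ContDiff ℝ 2 (fun e => Tx m (F e)) := by
  obtain ⟨h1, h2⟩ := Tx_fderiv hF m
  have h3 : ContDiff ℝ (1 + 1) (fun e => Tx m (F e)) := by
    rw [contDiff_succ_iff_fderiv_apply]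
    refine ⟨h1.differentiable (by norm_num), fun h => absurd h (by simp), fun y => ?_⟩
    obtain ⟨d1, d2, -, d4⟩ := hF.dir y
    have h4 := (Wx_fderiv hF (H := fun e x => fderiv ℝ (fun e' => F e' x) e y) d1 d2 d4 m).1
    have h5 : (fun e => fderiv ℝ (fun e => Tx m (F e)) e y) =
        fun e => Wx m (F e) (fun x => fderiv ℝ (fun e' => F e' x) e y) := by
      funext e; exact h2 e y
    rw [h5]
    exact h4
  have h6 : ((1 : WithTop ℕ∞) + 1) = 2 := by norm_num
  rwa [h6] at h3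

/-- second derivative of a step. Proof: `fderiv (fderiv T) e v w = fderiv (fun e' => fderiv T e' w) e v`
(as `T` is `C^2`), the inner function is `Wx m (F e') (fderiv (F ·) e' w)` by `Tx_fderiv`; then
`Wx_fderiv` with `StepFn.dir`. -/
theorem Tx_fderiv2 [FiniteDimensional ℝ E] {F : E → (κ → ℝ) → ℝ} (hF : StepFn F) (m : ℝ) (e v w : E) :
    fderiv ℝ (fderiv ℝ (fun e => Tx m (F e))) e v w +
        m * (fderiv ℝ (fun e => Tx m (F e)) e v * fderiv ℝ (fun e => Tx m (F e)) e w) =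
      Wx m (F e) (fun x => fderiv ℝ (fderiv ℝ (fun e' => F e' x)) e v w +
        m * (fderiv ℝ (fun e' => F e' x) e v * fderiv ℝ (fun e' => F e' x) e w)) := by
  obtain ⟨-, h2⟩ := Tx_fderiv hF m
  have hcd := Tx_contDiff hF m
  have hdiff : DifferentiableAt ℝ (fderiv ℝ (fun e => Tx m (F e))) e :=
    (hcd.fderiv_right (m := 1) (by norm_num)).differentiable (by norm_num) e
  have h3 := congrArg (fun L : E →L[ℝ] ℝ => L v) (TxD_apply hdiff w).fderiv
  have h4 : fderiv ℝ (fun e' => fderiv ℝ (fun e => Tx m (F e)) e' w) e v =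
      fderiv ℝ (fderiv ℝ (fun e => Tx m (F e))) e v w := h3
  obtain ⟨d1, d2, d3, d4⟩ := hF.dir w
  have h5 := (Wx_fderiv hF (H := fun e x => fderiv ℝ (fun e' => F e' x) e w) d1 d2 d4 m).2 e v
  have h6 : (fun e' => fderiv ℝ (fun e => Tx m (F e)) e' w) =
      fun e => Wx m (F e) (fun x => fderiv ℝ (fun e' => F e' x) e w) := by
    funext e'; exact h2 e' w
  rw [← h4, h6, h5, h2 e v, h2 e w]
  have h7 : (fun x => fderiv ℝ (fun e' => fderiv ℝ (fun e'' => F e'' x) e' w) e v +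
      m * (fderiv ℝ (fun e' => F e' x) e w * fderiv ℝ (fun e' => F e' x) e v)) =
      fun x => fderiv ℝ (fderiv ℝ (fun e' => F e' x)) e v w +
        m * (fderiv ℝ (fun e' => F e' x) e v * fderiv ℝ (fun e' => F e' x) e w) := by
    funext x
    rw [d3 e x v]; ring
  rw [h7]
  ring

end SKC.B
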